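import Pool.Agent.Lib.MP_4a9e55_an.Basic

set_option autoImplicit false

open scoped ENNReal Topology
open Cardinal Filter

namespace Pool.Agent.Lib.MP_4a9e55_an

namespace AS

/-- a generalised limit along a filter -/
theorem exists_lim {D : Type} (l : Filter D) [l.NeBot] :
    ∃ Λ : B D →ₗ[ℝ] ℝ, (∀ g, |Λ g| ≤ ‖g‖) ∧
      ∀ (g : B D) (c : ℝ), Tendsto (fun t => g t) l (𝓝 c) → Λ g = c := by
  let U : Ultrafilter D := Ultrafilter.of l
  have hex : ∀ g : B D, ∃ c ∈ Set.Icc (-‖g‖) ‖g‖, Tendsto (fun t => g t) U (𝓝 c) := fun g => by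
    have h := isCompact_Icc.ultrafilter_le_nhds (U.map fun t => g t)
      (show (U.map fun t => g t : Filter ℝ) ≤ 𝓟 (Set.Icc (-‖g‖) ‖g‖) by
        rw [Ultrafilter.coe_map, le_principal_iff, mem_map]
        exact univ_mem' fun t => abs_le.mp (B.abs_le g t))
    exact h
  choose L hL1 hL2 using hex
  refine ⟨{ toFun := L
            map_add' := fun g h => tendsto_nhds_unique (hL2 (g + h)) ((hL2 g).add (hL2 h))
            map_smul' := fun c g => tendsto_nhds_unique (hL2 (c • g)) ((hL2 g).const_mul c) },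
    fun g => abs_le.mpr (hL1 g), fun g c h => ?_⟩
  exact tendsto_nhds_unique (hL2 g) (h.mono_left (Ultrafilter.of_le l))

variable {X Γ ι : Type} [NormedAddCommGroup X] [NormedSpace ℝ X]

/-- composition with a coding map -/
noncomputable def comp (sg : Γ → ι → Bool) : C(ι → Bool, ℝ) →L[ℝ] B Γ :=
  LinearMap.mkContinuous
    { toFun := fun φ => mkB (fun γ => φ (sg γ)) ‖φ‖ fun γ => φ.norm_coe_le_norm _
      map_add' := fun φ ψ => B.ext' fun γ => rfl
      map_smul' := fun c φ => B.ext' fun γ => rfl } 1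
    (fun φ => by
      rw [one_mul]
      exact B.norm_le (norm_nonneg _) fun γ => φ.norm_coe_le_norm _)

theorem comp_apply (sg : Γ → ι → Bool) (φ : C(ι → Bool, ℝ)) (γ : Γ) :
    comp sg φ γ = φ (sg γ) := rfl

open Classical in
/-- value at a point with a prescribed finite code -/
noncomputable def val (sg : Γ → ι → Bool) (F : Finset ι) (g : B Γ) (u : F → Bool) : ℝ :=
  if h : ∃ γ, ∀ j : F, sg γ j = u j then g h.choose else 0

theorem abs_val_le (sg : Γ → ι → Bool) (F : Finset ι) (g : B Γ) (u : F → Bool) :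
    |val sg F g u| ≤ ‖g‖ := by
  unfold val
  split_ifs
  · exact B.abs_le _ _
  · simp

/-- the locally constant approximation of a bounded function -/
noncomputable def app (sg : Γ → ι → Bool) (F : Finset ι) : B Γ →ₗ[ℝ] C(ι → Bool, ℝ) where
  toFun g := ⟨fun y => val sg F g fun j => y j,
    (continuous_of_discreteTopology (f := val sg F g)).comp
      (continuous_pi fun j => continuous_apply _)⟩
  map_add' g h := by
    ext y
    simp only [ContinuousMap.coe_mk, ContinuousMap.add_apply, val]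
    split_ifs <;> simp
  map_smul' c g := by
    ext y
    simp only [ContinuousMap.coe_mk, ContinuousMap.smul_apply, val, RingHom.id_apply]
    split_ifs <;> simp

theorem norm_app_le (sg : Γ → ι → Bool) (F : Finset ι) (g : B Γ) : ‖app sg F g‖ ≤ ‖g‖ :=
  (ContinuousMap.norm_le _ (norm_nonneg _)).mpr fun _ => abs_val_le _ _ _ _

theorem app_code (sg : Γ → ι → Bool) (F : Finset ι) (g : B Γ) (γ : Γ) :
    ∃ γ', (∀ j ∈ F, sg γ' j = sg γ j) ∧ app sg F g (sg γ) = g γ' := by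
  have h : ∃ γ', ∀ j : F, sg γ' j = sg γ j := ⟨γ, fun _ => rfl⟩
  refine ⟨h.choose, fun j hj => h.choose_spec ⟨j, hj⟩, ?_⟩
  exact dif_pos h

/-- a coding map whose finite parts control the values of the functions of a small family -/
theorem exists_code [Infinite ι] {s : Type} (hs : #s ≤ #ι) (g : s → B Γ) :
    ∃ sg : Γ → ι → Bool, ∀ (x : s) (ε : ℝ), 0 < ε → ∃ F : Finset ι, ∀ γ γ',
      (∀ j ∈ F, sg γ' j = sg γ j) → |g x γ' - g x γ| ≤ ε := by
  classical
  have hc : #(s × ℕ × ℤ) ≤ #ι := by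
    have h0 := Cardinal.aleph0_le_mk ι
    calc #(s × ℕ × ℤ) = #s * ℵ₀ := by simp
      _ ≤ #ι * #ι := mul_le_mul' hs h0
      _ = #ι := Cardinal.mul_eq_self h0
  obtain ⟨e⟩ := (Cardinal.le_def _ _).mp hc
  let bit : Γ → s × ℕ × ℤ → Bool := fun γ t => decide (⌊((t.2.1 : ℝ) + 1) * g t.1 γ⌋ = t.2.2)
  refine ⟨fun γ => Function.extend e (bit γ) fun _ => false, fun x ε hε => ?_⟩
  obtain ⟨n, hn⟩ := exists_nat_one_div_lt hε
  have hn0 : (0 : ℝ) < (n : ℝ) + 1 := by positivity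
  refine ⟨(Finset.Icc ⌊((n : ℝ) + 1) * -‖g x‖⌋ ⌊((n : ℝ) + 1) * ‖g x‖⌋).image
    fun z => e (x, n, z), fun γ γ' h => ?_⟩
  have hb := abs_le.mp (B.abs_le (g x) γ)
  have h1 := h (e (x, n, ⌊((n : ℝ) + 1) * g x γ⌋)) (Finset.mem_image_of_mem _ (Finset.mem_Icc.mpr
    ⟨Int.floor_mono (mul_le_mul_of_nonneg_left hb.1 hn0.le),
      Int.floor_mono (mul_le_mul_of_nonneg_left hb.2 hn0.le)⟩))
  simp only [e.injective.extend_apply, bit, decide_true, decide_eq_true_eq] at h1
  have h2 := Int.abs_sub_lt_one_of_floor_eq_floor h1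
  rw [← mul_sub, abs_mul, abs_of_pos hn0] at h2
  have h3 : |g x γ' - g x γ| < 1 / ((n : ℝ) + 1) := by
    rw [lt_div_iff₀ hn0, mul_comm]; exact h2
  exact (h3.trans hn).le

end AS

open AS in
theorem astmt : AStmt := by
  intro X _ _ _ hX ι _ s hs hc
  classical
  obtain ⟨Γ, i, P, hi, hP⟩ := hX.exists_proj
  obtain ⟨sg, hsg⟩ := exists_code hc fun x : s => i x
  obtain ⟨Λ, hΛ1, hΛ2⟩ := exists_lim (atTop : Filter (Finset ι))
  have hb : ∀ (ν : MD ι) (x : X) (F : Finset ι), |ν (app sg F (i x))| ≤ ‖ν‖ * ‖x‖ :=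
    fun ν x F => (ν.le_opNorm _).trans
      (mul_le_mul_of_nonneg_left ((norm_app_le _ _ _).trans (hi x).le) (norm_nonneg _))
  let M : MD ι → X → B (Finset ι) := fun ν x => mkB (fun F => ν (app sg F (i x))) _ (hb ν x)
  have hM : ∀ ν x F, M ν x F = ν (app sg F (i x)) := fun _ _ _ => rfl
  let Q₀ : MD ι →ₗ[ℝ] X →ₗ[ℝ] ℝ := LinearMap.mk₂ ℝ (fun ν x => Λ (M ν x))
    (fun ν ν' x => by
      rw [← map_add]; exact congrArg Λ (B.ext' fun F => by simp [hM]))
    (fun c ν x => by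
      rw [← map_smul]; exact congrArg Λ (B.ext' fun F => by simp [hM]))
    (fun ν x x' => by
      rw [← map_add]; exact congrArg Λ (B.ext' fun F => by simp [hM]))
    (fun c ν x => by
      rw [← map_smul]; exact congrArg Λ (B.ext' fun F => by simp [hM]))
  have hQ : ∀ ν x, ‖Q₀ ν x‖ ≤ 1 * ‖ν‖ * ‖x‖ := fun ν x => by
    rw [one_mul]
    exact (hΛ1 _).trans (B.norm_le (by positivity) (hb ν x))
  let A : (X →L[ℝ] ℝ) →L[ℝ] MD ι :=
    (ContinuousLinearMap.compL ℝ C(ι → Bool, ℝ) X ℝ).flip (P.comp (comp sg))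
  refine ⟨A, Q₀.mkContinuous₂ 1 hQ, fun f => ?_⟩
  refine ContinuousLinearMap.coeFn_injective
    (Continuous.ext_on hs (ContinuousLinearMap.continuous _) f.continuous fun x hx => ?_)
  refine hΛ2 _ _ ?_
  have h1 : Tendsto (fun F : Finset ι => comp sg (app sg F (i x))) atTop (𝓝 (i x)) := by
    rw [Metric.tendsto_atTop]
    intro ε hε
    obtain ⟨F₀, hF₀⟩ := hsg ⟨x, hx⟩ (ε / 2) (half_pos hε)
    refine ⟨F₀, fun F hF => ?_⟩
    rw [dist_eq_norm]
    refine lt_of_le_of_lt (B.norm_le (half_pos hε).le fun γ => ?_) (half_lt_self hε)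
    obtain ⟨γ', h1, h2⟩ := app_code sg F (i x) γ
    rw [B.sub_apply, comp_apply, h2]
    exact hF₀ γ γ' fun j hj => h1 j (hF hj)
  have h2 := ((f.comp P).continuous.tendsto _).comp h1
  rw [ContinuousLinearMap.comp_apply, hP] at h2
  exact h2

end Pool.Agent.Lib.MP_4a9e55_an
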