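import Pool.Agent.Lib.MP_4a9e55_an.BS1

set_option autoImplicit false

open scoped ENNReal
open Cardinal Set Filter Topology

namespace Pool.Agent.Lib.MP_4a9e55_an

namespace BS

/-- Weak-star limit of adjoints along an ultrafilter. -/
theorem ulim {I G H : Type} [NormedAddCommGroup G] [NormedSpace ℝ G] [NormedAddCommGroup H]
    [NormedSpace ℝ H] (U : Ultrafilter I) (R : I → G →ₗ[ℝ] H) (C : ℝ)
    (h : ∀ i g, ‖R i g‖ ≤ C * ‖g‖) : ∃ L : (H →L[ℝ] ℝ) →L[ℝ] (G →L[ℝ] ℝ),
      ∀ e g, Tendsto (fun i => e (R i g)) U (𝓝 (L e g)) := by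
  have hb : ∀ (e : H →L[ℝ] ℝ) g i, |e (R i g)| ≤ C * ‖e‖ * ‖g‖ := fun e g i => by
    have h1 := e.le_opNorm (R i g)
    rw [Real.norm_eq_abs] at h1
    nlinarith [mul_le_mul_of_nonneg_left (h i g) (norm_nonneg e)]
  have ex : ∀ (e : H →L[ℝ] ℝ) g, ∃ l, Tendsto (fun i => e (R i g)) U (𝓝 l) := fun e g => by
    obtain ⟨l, -, hl⟩ := (isCompact_Icc (a := -(C * ‖e‖ * ‖g‖))
      (b := C * ‖e‖ * ‖g‖)).ultrafilter_le_nhds (U.map fun i => e (R i g))
      (le_principal_iff.mpr (mem_map.mpr (Eventually.of_forall fun i => abs_le.mp (hb e g i))))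
    exact ⟨l, hl⟩
  choose l hl using ex
  refine ⟨(LinearMap.mk₂ ℝ l (fun e e' g => ?_) (fun c e g => ?_) (fun e g g' => ?_)
    (fun c e g => ?_)).mkContinuous₂ C fun e g => ?_, hl⟩
  · exact tendsto_nhds_unique (hl (e + e') g) ((hl e g).add (hl e' g))
  · exact tendsto_nhds_unique (hl (c • e) g) ((hl e g).const_smul c)
  · exact tendsto_nhds_unique (hl e (g + g')) (by simpa using (hl e g).add (hl e g'))
  · exact tendsto_nhds_unique (hl e (c • g)) (by simpa using (hl e g).const_smul c)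
  · exact le_of_tendsto' (hl e g).norm (hb e g)

theorem neumann {E F : Type} [NormedAddCommGroup E] [NormedSpace ℝ E] [CompleteSpace E]
    [NormedAddCommGroup F] [NormedSpace ℝ F] (A : E →L[ℝ] F) (L : F →L[ℝ] E) {r θ : ℝ}
    (h0 : 0 ≤ θ) (hr : θ < r) (h : ∀ x, ‖L (A x) - r • x‖ ≤ θ * ‖x‖) : Cpl E F := by
  have r0 : 0 < r := h0.trans_lt hr
  let t : E →L[ℝ] E := 1 - r⁻¹ • L.comp A
  have ht : ‖t‖ < 1 := by
    refine lt_of_le_of_lt (b := θ / r) (t.opNorm_le_bound (by positivity) fun x => ?_)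
      ((div_lt_one r0).mpr hr)
    have e : t x = -(r⁻¹ • (L (A x) - r • x)) := by
      have : t x = x - r⁻¹ • L (A x) := rfl
      rw [this, smul_sub, smul_smul, inv_mul_cancel₀ r0.ne', one_smul, neg_sub]
    rw [e, norm_neg, norm_smul, Real.norm_eq_abs, abs_of_pos (inv_pos.mpr r0)]
    refine (mul_le_mul_of_nonneg_left (h x) (inv_pos.mpr r0).le).trans_eq ?_
    ring
  refine ⟨A, ((Units.oneSub t ht)⁻¹ : (E →L[ℝ] E)ˣ).1.comp (r⁻¹ • L), fun x => ?_⟩
  have e := congrArg (fun T : E →L[ℝ] E => T x) (Units.oneSub t ht).inv_mul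
  simp only [Units.val_oneSub, t, sub_sub_cancel] at e
  exact e

variable {ι : Type}

theorem unif (g : C(ι → Bool, ℝ)) {δ : ℝ} (hδ : 0 < δ) : ∃ F : Finset ι, ∀ k k' : ι → Bool,
    (∀ j ∈ F, k j = k' j) → |g k - g k'| ≤ δ := by
  classical
  by_contra hn
  push Not at hn
  let Z : Finset ι → Set ((ι → Bool) × (ι → Bool)) := fun F =>
    (⋂ j ∈ F, {p | p.1 j = p.2 j}) ∩ {p | δ ≤ |g p.1 - g p.2|}
  have hc : ∀ F, IsClosed (Z F) := fun F =>
    (isClosed_biInter fun j _ => isClosed_eq (by fun_prop) (by fun_prop)).inter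
      (isClosed_le continuous_const (by fun_prop))
  obtain ⟨p, hp⟩ := IsCompact.nonempty_iInter_of_directed_nonempty_isCompact_isClosed Z
    (fun F F' => ⟨F ∪ F',
      inter_subset_inter_left _ (biInter_subset_biInter_left fun _ => Finset.mem_union_left _),
      inter_subset_inter_left _ (biInter_subset_biInter_left fun _ => Finset.mem_union_right _)⟩)
    (fun F => by
      obtain ⟨k, k', h1, h2⟩ := hn F
      exact ⟨(k, k'), mem_iInter₂.mpr h1, h2.le⟩)
    (fun F => (hc F).isCompact) hc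
  have e : p.1 = p.2 := funext fun j =>
    mem_iInter₂.mp (mem_iInter.mp hp {j}).1 j (Finset.mem_singleton_self j)
  have := (mem_iInter.mp hp ∅).2
  rw [mem_ofPred_eq, e, sub_self, abs_zero] at this
  linarith

open Classical in
/-- extension of a finite pattern -/
noncomputable def ext (F : Finset ι) (y : F → Bool) : ι → Bool :=
  fun j => if h : j ∈ F then y ⟨j, h⟩ else false

theorem ext_restrict (F : Finset ι) (k : ι → Bool) {j : ι} (hj : j ∈ F) :
    ext F (F.restrict k) j = k j := by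
  simp [ext, hj]

variable {X : Type} [NormedAddCommGroup X] [NormedSpace ℝ X]

/-- sampling a family of functionals on a finite partition -/
noncomputable def samp (f : (ι → Bool) → X →L[ℝ] ℝ) (F : Finset ι) : X →ₗ[ℝ] C(ι → Bool, ℝ) where
  toFun x := ⟨fun k => f (ext F (F.restrict k)) x,
    (continuous_of_discreteTopology (f := fun y : F → Bool => f (ext F y) x)).comp
      (Finset.continuous_restrict F)⟩
  map_add' x y := by ext k; simp
  map_smul' c x := by ext k; simp

theorem samp_apply (f : (ι → Bool) → X →L[ℝ] ℝ) (F : Finset ι) (x : X) (k : ι → Bool) :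
    samp f F x k = f (ext F (F.restrict k)) x := rfl

theorem cpl_of {f : (ι → Bool) → X →L[ℝ] ℝ} (hf : ∀ k, ‖f k‖ ≤ 1)
    (Q : Finset ι → C(ι → Bool, ℝ) →ₗ[ℝ] X) (C : ℝ) (hQ : ∀ F g, ‖Q F g‖ ≤ C * ‖g‖) {r θ : ℝ}
    (h0 : 0 ≤ θ) (hr : θ < r)
    (h : ∀ F g k, |f k (Q F g) - r * g (ext F (F.restrict k))| ≤ θ * ‖g‖) :
    Cpl (MD ι) (X →L[ℝ] ℝ) := by
  classical
  let U : Ultrafilter (Finset ι) := Ultrafilter.of atTop
  have hU : ∀ F0 : Finset ι, ∀ᶠ F in (U : Filter (Finset ι)), F0 ⊆ F := fun F0 =>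
    Ultrafilter.of_le atTop (eventually_ge_atTop F0)
  obtain ⟨A, hA⟩ := ulim U (samp f) 1 fun F x =>
    (ContinuousMap.norm_le _ (by positivity)).mpr fun k =>
      ((f _).le_opNorm x).trans (mul_le_mul_of_nonneg_right (hf _) (norm_nonneg _))
  obtain ⟨L, hL⟩ := ulim U Q C hQ
  have r0 : 0 < r := h0.trans_lt hr
  have key : ∀ (μ : MD ι) g, |L (A μ) g - r * μ g| ≤ θ * ‖μ‖ * ‖g‖ := fun μ g => by
    refine le_of_forall_pos_le_add fun ε hε => ?_
    have hd : 0 < ε / (r * (‖μ‖ + 1)) := by positivity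
    obtain ⟨F0, hF0⟩ := unif g hd
    refine le_of_tendsto ((hL (A μ) g).sub_const (r * μ g)).abs ?_
    filter_upwards [hU F0] with F' hF'
    refine le_of_tendsto ((hA μ (Q F' g)).sub_const (r * μ g)).abs ?_
    filter_upwards [hU F0] with F hF
    have h1 : ‖samp f F (Q F' g) - r • g‖ ≤ θ * ‖g‖ + r * (ε / (r * (‖μ‖ + 1))) := by
      refine (ContinuousMap.norm_le _ (by positivity)).mpr fun k => ?_
      have a1 := h F' g (ext F (F.restrict k))
      have a2 := hF0 (ext F' (F'.restrict (ext F (F.restrict k)))) k fun j hj => by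
        rw [ext_restrict F' _ (hF' hj), ext_restrict F _ (hF hj)]
      rw [ContinuousMap.sub_apply, ContinuousMap.smul_apply, samp_apply, smul_eq_mul,
        Real.norm_eq_abs]
      refine (abs_sub_le _ (r * g (ext F' (F'.restrict (ext F (F.restrict k))))) _).trans ?_
      rw [← mul_sub, abs_mul, abs_of_pos r0]
      gcongr
    have h2 := μ.le_opNorm (samp f F (Q F' g) - r • g)
    rw [map_sub, map_smul, smul_eq_mul, Real.norm_eq_abs] at h2
    have h3 : r * (ε / (r * (‖μ‖ + 1))) * (‖μ‖ + 1) = ε := by field_simp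
    nlinarith [mul_le_mul_of_nonneg_left h1 (norm_nonneg μ), mul_pos r0 hd]
  refine neumann A L h0 hr fun μ => ContinuousLinearMap.opNorm_le_bound _ (by positivity) ?_
  exact key μ

end BS

open BS in
theorem bstmt : BStmt := by
  classical
  intro X _ _ _ hX ι hι hE
  obtain ⟨Γ, i, P, hi, hP⟩ := hX.exists_proj
  have : Infinite ι := infinite_iff.mpr hι.le
  obtain ⟨x, r0, hr0, hx, hx1⟩ := hE.isL1
  have hS0 : r0 ∈ {r | L1Fam P univ ι r} :=
    ⟨fun j => i (x j), fun j => (hi _).trans_le (hx j), fun _ _ ht => absurd (mem_univ _) ht,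
      by simpa only [hP] using hx1⟩
  have hbd : BddAbove {r | L1Fam P univ ι r} := ⟨‖P‖, by
    rintro r ⟨z, h1, -, h2⟩
    have j : ι := Classical.arbitrary ι
    have := h2 {j} fun _ => 1
    simp only [Finset.sum_singleton, abs_one, mul_one, one_smul] at this
    exact this.trans ((P.le_opNorm _).trans (mul_le_of_le_one_right (norm_nonneg _) (h1 j)))⟩
  have hs0 : 0 < sSup {r | L1Fam P univ ι r} := hr0.trans_le (le_csSup hbd hS0)
  obtain ⟨r, ⟨z, hz, -, hz1⟩, hr⟩ := exists_lt_of_lt_csSup ⟨r0, hS0⟩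
    (show 4 / 5 * sSup {r | L1Fam P univ ι r} < sSup {r | L1Fam P univ ι r} by linarith)
  have r0' : 0 < r := by linarith
  have hn : ¬ L1Fam P univ ι (r + r / 4) := fun h => by linarith [le_csSup hbd h]
  obtain ⟨e, he⟩ := good_family r0'.le (by linarith) hz1 hι hn
    (Σ F : Finset ι, ((F → Bool) → Bool)) (by
      rw [mk_sigma]
      refine (sum_le_sum _ (fun _ => ℵ₀) fun F => (lt_aleph0_of_finite _).le).trans ?_
      rw [sum_const', mk_finset_of_infinite, mul_aleph0_eq hι.le])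
  choose f hf1 hf2 hf3 using fun k : ι → Bool =>
    he (fun p => sg (p.2 (p.1.restrict k))) fun p => (abs_sg _).le
  choose h hh1 hh2 using fun F : Finset ι => block (fun φ => z (e ⟨F, φ⟩)) fun φ => hz _
  have hg : ∀ (g : C(ι → Bool, ℝ)) k, |g k| ≤ ‖g‖ := fun g k => g.norm_coe_le_norm k
  refine cpl_of hf1 (fun F => P.toLinearMap.comp (∑ y : F → Bool,
    (ContinuousMap.evalCLM ℝ (ext F y)).toLinearMap.smulRight (h F y))) ‖P‖ (fun F g => ?_)
    (r := r) (θ := 3 * (r / 4)) (by linarith) (by linarith) fun F g k => ?_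
  · simp only [LinearMap.comp_apply, LinearMap.sum_apply, LinearMap.smulRight_apply]
    exact (P.le_opNorm _).trans (mul_le_mul_of_nonneg_left
      (hh1 F (fun y => g (ext F y)) _ (norm_nonneg g) fun y => hg g _) (norm_nonneg _))
  · simp only [LinearMap.comp_apply, LinearMap.sum_apply, LinearMap.smulRight_apply]
    exact hh2 F ((f k).comp P) r (r / 4) (F.restrict k) (by linarith) (fun φ => hf2 k ⟨F, φ⟩)
      (hf3 k) (fun y => g (ext F y)) _ (norm_nonneg g) fun y => hg g _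

end Pool.Agent.Lib.MP_4a9e55_an
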