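import Pool.Agent.Lib.MP_4a9e55_an.Basic

set_option autoImplicit false

open scoped ENNReal
open Cardinal Set Filter Topology

namespace Pool.Agent.Lib.MP_4a9e55_an

namespace BS

variable {X : Type} [NormedAddCommGroup X] [NormedSpace ℝ X]

/-- Hahn-Banach with side conditions. -/
theorem hb {V : Type} [AddCommGroup V] [Module ℝ V] (T : V →ₗ[ℝ] X) (p : V → ℝ)
    (hom : ∀ c : ℝ, 0 < c → ∀ v, p (c • v) = c * p v) (add : ∀ v w, p (v + w) ≤ p v + p w)
    (h : ∀ v, 0 ≤ ‖T v‖ + p v) : ∃ f : X →L[ℝ] ℝ, ‖f‖ ≤ 1 ∧ ∀ v, f (T v) ≤ p v := by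
  have p0 : p 0 = 0 := by
    have := hom 2 two_pos 0
    rw [smul_zero] at this
    linarith
  obtain ⟨g, hg0, hg⟩ := exists_extension_of_le_sublinear
    (⟨LinearMap.range ((-T).prod LinearMap.id), 0⟩ : (X × V) →ₗ.[ℝ] ℝ)
    (fun q => ‖q.1‖ + p q.2)
    (fun c hc q => by
      simp only [Prod.smul_fst, Prod.smul_snd, norm_smul, Real.norm_eq_abs, abs_of_pos hc,
        hom c hc]
      ring)
    (fun q q' => by
      simp only [Prod.fst_add, Prod.snd_add]
      linarith [norm_add_le q.1 q'.1, add q.2 q'.2])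
    (by
      rintro ⟨_, v, rfl⟩
      simpa using h v)
  have hb : ∀ x : X, ‖(g.comp (LinearMap.inl ℝ X V)) x‖ ≤ 1 * ‖x‖ := fun x => by
    have h1 := hg (x, 0)
    have h2 := hg (-(x, 0))
    rw [map_neg] at h2
    simp only [p0, add_zero, Prod.fst_neg, Prod.snd_neg, neg_zero, norm_neg] at h1 h2
    rw [Real.norm_eq_abs, one_mul, abs_le]
    exact ⟨by simpa using neg_le.mp h2, h1⟩
  refine ⟨(g.comp (LinearMap.inl ℝ X V)).mkContinuous 1 hb,
    LinearMap.mkContinuous_norm_le _ zero_le_one _, fun v => ?_⟩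
  have h1 : g (-T v, v) = 0 := hg0 ⟨_, v, rfl⟩
  have h2 := hg (0, v)
  have h3 : g (T v, 0) + g (-T v, v) = g (0, v) := by rw [← map_add]; simp
  simp only [norm_zero, zero_add] at h2
  change g (T v, 0) ≤ p v
  linarith

/-- Every pattern is realised on an `ℓ¹`-family. -/
theorem realise {ι : Type} {x : ι → X} {r : ℝ} (hr : 0 ≤ r) (h : IsL1 x r) (σ : ι → ℝ)
    (hσ : ∀ j, |σ j| ≤ 1) : ∃ f : X →L[ℝ] ℝ, ‖f‖ ≤ 1 ∧ ∀ j, f (x j) = r * σ j := by
  obtain ⟨f, h1, h2⟩ := hb (Finsupp.linearCombination ℝ x)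
    (Finsupp.linearCombination ℝ fun j => r * σ j) (fun c _ v => by simp)
    (fun v w => by simp) fun t => by
      have a1 := h t.support t
      have a2 : |∑ j ∈ t.support, t j * (r * σ j)| ≤ r * ∑ j ∈ t.support, |t j| := by
        rw [Finset.mul_sum]
        refine (Finset.abs_sum_le_sum_abs _ _).trans (Finset.sum_le_sum fun j _ => ?_)
        rw [abs_mul, abs_mul, abs_of_nonneg hr]
        nlinarith [mul_nonneg (abs_nonneg (t j)) hr, hσ j]
      simp only [Finsupp.linearCombination_apply, Finsupp.sum, smul_eq_mul]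
      linarith [neg_abs_le (∑ j ∈ t.support, t j * (r * σ j))]
  refine ⟨f, h1, fun j => ?_⟩
  have a1 := h2 (Finsupp.single j 1)
  have a2 := h2 (-Finsupp.single j 1)
  simp only [map_neg, Finsupp.linearCombination_single, one_smul] at a1 a2
  linarith

variable {Γ ι : Type}

/-- A finite set of indices on which some pattern forces a large value. -/
def Bad (P : B Γ →L[ℝ] X) (z : ι → B Γ) (r r' : ℝ) (s : Finset ι) : Prop :=
  ∃ (σ : ι → ℝ) (w : B Γ), (∀ j, |σ j| ≤ 1) ∧ ‖w‖ ≤ 1 ∧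
    ∀ f : X →L[ℝ] ℝ, ‖f‖ ≤ 1 → (∀ j ∈ s, f (P (z j)) = r * σ j) → r' ≤ f (P w)

theorem fam_of_bad {P : B Γ →L[ℝ] X} {z : ι → B Γ} {r r' : ℝ} (hr : 0 ≤ r)
    (h : IsL1 (fun j => P (z j)) r) {κ : Type} (s : κ → Finset ι)
    (hd : Pairwise fun a b => Disjoint (s a) (s b)) (hb : ∀ a, Bad P z r r' (s a)) :
    L1Fam P univ κ r' := by
  classical
  choose σ w hσ hw hf using hb
  refine ⟨w, hw, fun _ _ ht => absurd (mem_univ _) ht, fun t a => ?_⟩
  let ε : κ → ℝ := fun j => if 0 ≤ a j then 1 else -1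
  have e1 : ∀ j, |ε j| = 1 := fun j => by simp only [ε]; split_ifs <;> simp
  have e2 : ∀ j, ε j * ε j = 1 := fun j => by simp only [ε]; split_ifs <;> simp
  have e3 : ∀ j, a j = |a j| * ε j := fun j => by
    simp only [ε]
    split_ifs with h0
    · rw [abs_of_nonneg h0, mul_one]
    · rw [abs_of_neg (not_le.mp h0)]; ring
  obtain ⟨f, f1, f2⟩ := realise hr h
    (fun k => if hk : ∃ j, k ∈ s j then ε hk.choose * σ hk.choose k else 0) fun k => by
      split_ifs
      · rw [abs_mul, e1, one_mul]; exact hσ _ _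
      · simp
  have key : ∀ j, r' ≤ ε j * f (P (w j)) := fun j => by
    refine hf j (ε j • f) (by rw [norm_smul, Real.norm_eq_abs, e1, one_mul]; exact f1)
      fun k hk => ?_
    have hk' : ∃ j, k ∈ s j := ⟨j, hk⟩
    have e : hk'.choose = j := by
      by_contra hne
      exact Finset.disjoint_left.mp (hd hne) hk'.choose_spec hk
    rw [smul_apply, f2, dif_pos hk', e, smul_eq_mul]
    linear_combination r * σ j k * e2 j
  have a1 := f.le_opNorm (∑ j ∈ t, a j • P (w j))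
  have a2 : r' * ∑ j ∈ t, |a j| ≤ f (∑ j ∈ t, a j • P (w j)) := by
    rw [map_sum, Finset.mul_sum]
    refine Finset.sum_le_sum fun j _ => ?_
    rw [map_smul, smul_eq_mul]
    nth_rewrite 2 [e3 j]
    nlinarith [mul_le_mul_of_nonneg_left (key j) (abs_nonneg (a j))]
  have a3 := mul_le_mul_of_nonneg_right f1 (norm_nonneg (∑ j ∈ t, a j • P (w j)))
  rw [Real.norm_eq_abs] at a1
  linarith [le_abs_self (f (∑ j ∈ t, a j • P (w j)))]

theorem small_bad {P : B Γ →L[ℝ] X} {z : ι → B Γ} {r r' : ℝ} (hr : 0 ≤ r) (hr' : 0 < r')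
    (h : IsL1 (fun j => P (z j)) r) (hι : ℵ₀ < #ι) (hn : ¬ L1Fam P univ ι r') :
    ∃ A : Set ι, #A < #ι ∧ ∀ s : Finset ι, (∀ j ∈ s, j ∉ A) → ¬ Bad P z r r' s := by
  obtain ⟨M, hM⟩ := zorn_subset
    {M : Set (Finset ι) | (∀ s ∈ M, Bad P z r r' s) ∧ M.Pairwise Disjoint} fun c hc hch =>
    ⟨⋃₀ c, ⟨fun s ⟨M, hM, hs⟩ => (hc hM).1 s hs, by
      rintro s ⟨M, hM, hs⟩ t ⟨N, hN, ht⟩ hne
      rcases hch.total hM hN with e | e
      · exact (hc hN).2 (e hs) ht hne
      · exact (hc hM).2 hs (e ht) hne⟩, fun _ => subset_sUnion_of_mem⟩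
  have hlt : #M < #ι := by
    by_contra hge
    obtain ⟨e⟩ := (Cardinal.le_def ι M).mp (not_lt.mp hge)
    exact hn (fam_of_bad hr h (fun a => (e a).1) (fun a b hab => hM.prop.2 (e a).2 (e b).2
      fun h' => hab (e.injective (Subtype.ext h'))) fun a => hM.prop.1 _ (e a).2)
  refine ⟨⋃ s : M, (s.1 : Set ι), ?_, fun s hs hb => ?_⟩
  · refine lt_of_le_of_lt (mk_iUnion_le_sum_mk.trans
      (sum_le_sum _ (fun _ => ℵ₀) fun s => (finset_card_lt_aleph0 s.1).le)) ?_
    rw [sum_const']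
    exact mul_lt_of_lt hι.le hlt hι
  · have hd : ∀ t ∈ M, Disjoint s t := fun t ht => Finset.disjoint_left.mpr fun j hj hjt =>
      hs j hj (mem_iUnion.mpr ⟨⟨t, ht⟩, hjt⟩)
    have hsM : s ∈ M := hM.mem_of_prop_insert ⟨by
      rintro t (rfl | ht)
      exacts [hb, hM.prop.1 t ht], hM.prop.2.insert fun t ht _ => ⟨hd t ht, (hd t ht).symm⟩⟩
    have he : s = ∅ := disjoint_self.mp (hd s hsM)
    obtain ⟨σ, w, -, -, hf⟩ := hb
    have := hf 0 (by simp) (by simp [he])
    simp only [zero_apply] at this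
    linarith

theorem good_family {P : B Γ →L[ℝ] X} {z : ι → B Γ} {r r' : ℝ} (hr : 0 ≤ r) (hr' : 0 < r')
    (h : IsL1 (fun j => P (z j)) r) (hι : ℵ₀ < #ι) (hn : ¬ L1Fam P univ ι r') (J : Type)
    (hJ : #J ≤ #ι) : ∃ e : J → ι, ∀ σ : J → ℝ, (∀ j, |σ j| ≤ 1) → ∃ f : X →L[ℝ] ℝ, ‖f‖ ≤ 1 ∧
      (∀ j, f (P (z (e j))) = r * σ j) ∧ ∀ w, f (P w) ≤ r' * ‖w‖ := by
  classical
  obtain ⟨A, hA, hb'⟩ := small_bad hr hr' h hι hn
  have : Infinite ι := infinite_iff.mpr hι.le
  obtain ⟨e0⟩ := (Cardinal.le_def J (Aᶜ : Set ι)).mp (by rwa [mk_compl_of_infinite A hA])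
  let e : J ↪ ι := e0.trans (Function.Embedding.subtype _)
  refine ⟨e, fun σ hσ => ?_⟩
  have step : ∀ (t : Finset J) (w : B Γ), ∃ f : X →L[ℝ] ℝ, ‖f‖ ≤ 1 ∧
      (∀ j ∈ t, f (P (z (e j))) = r * σ j) ∧ f (P w) ≤ r' * ‖w‖ := by
    intro t w
    have hnb := hb' (t.map e) fun j hj => by
      obtain ⟨k, -, rfl⟩ := Finset.mem_map.mp hj
      exact (e0 k).2
    simp only [Bad, not_exists, not_and, not_forall, not_le] at hnb
    obtain ⟨f, f1, f2, f3⟩ := hnb (Function.extend e σ 0) (‖w‖⁻¹ • w) (fun j => by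
      by_cases hj : ∃ k, e k = j
      · obtain ⟨k, rfl⟩ := hj
        rw [e.injective.extend_apply]; exact hσ k
      · rw [Function.extend_apply' _ _ _ hj]; simp) (by
      rw [norm_smul, norm_inv, norm_norm]
      exact inv_mul_le_one)
    refine ⟨f, f1, fun j hj => ?_, ?_⟩
    · rw [f2 _ (Finset.mem_map_of_mem e hj), e.injective.extend_apply]
    · rcases eq_or_ne w 0 with rfl | hw
      · simp
      · have hp := norm_pos_iff.mpr hw
        rw [map_smul, map_smul, smul_eq_mul, inv_mul_lt_iff₀ hp] at f3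
        linarith
  obtain ⟨f, h1, h2⟩ := hb
    ((Finsupp.linearCombination ℝ fun j => P (z (e j))).coprod P.toLinearMap)
    (fun q => Finsupp.linearCombination ℝ (fun j => r * σ j) q.1 + r' * ‖q.2‖)
    (fun c hc v => by
      simp only [Prod.smul_fst, Prod.smul_snd, map_smul, norm_smul, Real.norm_eq_abs,
        abs_of_pos hc, smul_eq_mul]
      ring)
    (fun v w => by
      simp only [Prod.fst_add, Prod.snd_add, map_add]
      nlinarith [norm_add_le v.2 w.2])
    fun q => by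
      obtain ⟨f, f1, f2, f3⟩ := step q.1.support q.2
      set v := ((Finsupp.linearCombination ℝ fun j => P (z (e j))).coprod P.toLinearMap) q with hv
      have a1 := f.le_opNorm v
      have a3 := mul_le_mul_of_nonneg_right f1 (norm_nonneg v)
      have a2 : f v = Finsupp.linearCombination ℝ (fun j => r * σ j) q.1 + f (P q.2) := by
        simp only [hv, LinearMap.coprod_apply, Finsupp.linearCombination_apply, Finsupp.sum,
          map_add, map_sum, map_smul, ContinuousLinearMap.coe_coe]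
        congr 1
        exact Finset.sum_congr rfl fun j hj => by rw [f2 j hj]
      rw [Real.norm_eq_abs] at a1
      linarith [neg_abs_le (f v)]
  refine ⟨f, h1, fun j => ?_, fun w => by simpa using h2 (0, w)⟩
  have a1 := h2 (Finsupp.single j 1, 0)
  have a2 := h2 (-Finsupp.single j 1, 0)
  simp only [map_neg, Finsupp.linearCombination_single, one_smul, LinearMap.coprod_apply,
    map_zero, add_zero, norm_zero, mul_zero] at a1 a2
  linarith

/-- the sign of a bit -/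
def sg (b : Bool) : ℝ := if b then 1 else -1

theorem abs_sg (b : Bool) : |sg b| = 1 := by cases b <;> simp [sg]

theorem sg_orth {Y : Type} [Fintype Y] [DecidableEq Y] (y y' : Y) :
    ∑ φ : Y → Bool, sg (φ y) * sg (φ y') = if y = y' then (Fintype.card (Y → Bool) : ℝ) else 0 := by
  split_ifs with h
  · subst h
    have : ∀ φ : Y → Bool, sg (φ y) * sg (φ y) = 1 := fun φ => by cases φ y <;> simp [sg]
    simp [this]
  · refine Finset.sum_involution (fun φ _ => Function.update φ y (!φ y)) (fun φ _ => ?_)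
      (fun φ _ _ he => ?_) (fun _ _ => Finset.mem_univ _) fun φ _ => ?_
    · rw [Function.update_self, Function.update_of_ne (Ne.symm h)]
      cases φ y <;> cases φ y' <;> simp [sg]
    · have := congrFun he y
      simp at this
    · simp

/-- One block: disjointly supported vectors read off the pattern. -/
theorem block {Y : Type} [Fintype Y] [DecidableEq Y] (z : (Y → Bool) → B Γ)
    (hz : ∀ φ, ‖z φ‖ ≤ 1) : ∃ h : Y → B Γ,
      (∀ (c : Y → ℝ) (M : ℝ), 0 ≤ M → (∀ y, |c y| ≤ M) → ‖∑ y, c y • h y‖ ≤ M) ∧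
      ∀ (g : B Γ →L[ℝ] ℝ) (r η : ℝ) (y0 : Y), 0 ≤ r + η → (∀ φ, g (z φ) = r * sg (φ y0)) →
        (∀ w, g w ≤ (r + η) * ‖w‖) → ∀ (c : Y → ℝ) (M : ℝ), 0 ≤ M → (∀ y, |c y| ≤ M) →
        |g (∑ y, c y • h y) - r * c y0| ≤ 3 * η * M := by
  classical
  obtain ⟨N, hN⟩ : ∃ N : ℝ, N = (Fintype.card (Y → Bool) : ℝ) := ⟨_, rfl⟩
  have hN0 : 0 < N := by rw [hN]; exact_mod_cast Fintype.card_pos
  obtain ⟨C, hC0⟩ : ∃ C : Y → B Γ, ∀ y, C y = N⁻¹ • ∑ φ, sg (φ y) • z φ := ⟨_, fun _ => rfl⟩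
  have hC : ∀ y t, C y t = N⁻¹ * ∑ φ, sg (φ y) * z φ t := fun y t => by
    simp only [hC0, B.smul_apply, B.sum_apply]
  have hzt : ∀ φ t, |z φ t| ≤ 1 := fun φ t => (B.abs_le _ t).trans (hz φ)
  have h1 : ∀ y t, |C y t| ≤ 1 := fun y t => by
    rw [hC, abs_mul, abs_of_pos (inv_pos.mpr hN0), inv_mul_le_iff₀ hN0]
    refine (Finset.abs_sum_le_sum_abs _ _).trans ?_
    refine (Finset.sum_le_sum (g := fun _ => 1) fun φ _ => ?_).trans (by simp [hN])
    rw [abs_mul, abs_sg, one_mul]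
    exact hzt φ t
  have h2 : ∀ y y', y ≠ y' → ∀ t (ε : ℝ), ε = 1 ∨ ε = -1 → |C y t + ε * C y' t| ≤ 1 := by
    intro y y' hne t ε hε
    have e : C y t + ε * C y' t = N⁻¹ * ∑ φ, (sg (φ y) + ε * sg (φ y')) * z φ t := by
      rw [hC, hC, mul_left_comm, ← mul_add, Finset.mul_sum _ _ ε, ← Finset.sum_add_distrib]
      congr 1
      exact Finset.sum_congr rfl fun φ _ => by ring
    rw [e, abs_mul, abs_of_pos (inv_pos.mpr hN0), inv_mul_le_iff₀ hN0]
    refine (Finset.abs_sum_le_sum_abs _ _).trans ?_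
    refine (Finset.sum_le_sum (g := fun φ => 1 + ε * (sg (φ y) * sg (φ y'))) fun φ _ => ?_).trans ?_
    · have : |sg (φ y) + ε * sg (φ y')| = 1 + ε * (sg (φ y) * sg (φ y')) := by
        rcases hε with rfl | rfl <;> cases φ y <;> cases φ y' <;> norm_num [sg]
      rw [abs_mul, ← this]
      exact mul_le_of_le_one_right (abs_nonneg _) (hzt φ t)
    · rw [Finset.sum_add_distrib, ← Finset.mul_sum, sg_orth, if_neg hne]
      simp [hN]
  have h3 : ∀ y y', y ≠ y' → ∀ t, |C y t| + |C y' t| ≤ 1 := fun y y' hne t => by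
    have a := abs_le.mp (h2 y y' hne t 1 (Or.inl rfl))
    have b := abs_le.mp (h2 y y' hne t (-1) (Or.inr rfl))
    rcases abs_cases (C y t) with p | p <;> rcases abs_cases (C y' t) with q | q <;>
      linarith [a.1, a.2, b.1, b.2, p.1, q.1]
  obtain ⟨h, hh1, hh2⟩ : ∃ h : Y → B Γ, (∀ y t, 1 / 2 < |C y t| → h y t = C y t) ∧
      ∀ y t, |C y t| ≤ 1 / 2 → h y t = 0 :=
    ⟨fun y => trunc {t | 1 / 2 < |C y t|} (C y), fun y t ht => trunc_of_mem _ ht,
      fun y t ht => trunc_of_not_mem _ (not_lt.mpr ht)⟩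
  have hs : ∀ (c : Y → ℝ) t, (∃ y, 1 / 2 < |C y t| ∧ (∑ y, c y • h y) t = c y * C y t) ∨
      ((∀ y, |C y t| ≤ 1 / 2) ∧ (∑ y, c y • h y) t = 0) := fun c t => by
    by_cases hy : ∃ y, 1 / 2 < |C y t|
    · obtain ⟨y, hy⟩ := hy
      refine Or.inl ⟨y, hy, ?_⟩
      rw [B.sum_apply, Finset.sum_eq_single y, B.smul_apply, hh1 y t hy]
      · intro y' _ hne
        rw [B.smul_apply, hh2 y' t (by linarith [h3 y' y hne t]), mul_zero]
      · simp
    · push Not at hy
      refine Or.inr ⟨hy, ?_⟩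
      rw [B.sum_apply]
      exact Finset.sum_eq_zero fun y _ => by
        rw [B.smul_apply, hh2 y t (hy y), mul_zero]
  refine ⟨h, fun c M hM hc => B.norm_le hM fun t => ?_, fun g r η y0 h0 hg hb => ?_⟩
  · rcases hs c t with ⟨y, -, e⟩ | ⟨-, e⟩
    · rw [e, abs_mul]
      exact (mul_le_of_le_one_right (abs_nonneg _) (h1 y t)).trans (hc y)
    · rw [e, abs_zero]; exact hM
  have hgC : g (C y0) = r := by
    have := sg_orth y0 y0
    rw [if_pos rfl, ← hN] at this
    simp only [hC0, map_smul, map_sum, hg, smul_eq_mul]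
    rw [Finset.sum_congr rfl fun φ _ => mul_left_comm _ r _, ← Finset.mul_sum, this]
    field_simp
  have one : ∀ (c : Y → ℝ) (M : ℝ), 0 ≤ M → (∀ y, |c y| ≤ M) →
      g (∑ y, c y • h y) - r * c y0 ≤ 3 * η * M := fun c M hM hc => by
    have hw : ‖(M - c y0 / 3) • C y0 + (1 / 3 : ℝ) • ∑ y, c y • h y‖ ≤ M := by
      refine B.norm_le hM fun t => ?_
      have c0 := abs_le.mp (hc y0)
      have c1 : |M - c y0 / 3| ≤ 4 / 3 * M := abs_le.mpr ⟨by linarith [c0.2], by linarith [c0.1]⟩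
      rw [B.add_apply, B.smul_apply, B.smul_apply]
      rcases hs c t with ⟨y, hy, e⟩ | ⟨hy, e⟩
      · rw [e]
        rcases eq_or_ne y0 y with rfl | hne
        · rw [show (M - c y0 / 3) * C y0 t + 1 / 3 * (c y0 * C y0 t) = M * C y0 t by ring,
            abs_mul, abs_of_nonneg hM]
          exact mul_le_of_le_one_right hM (h1 y0 t)
        · refine (abs_add_le _ _).trans ?_
          rw [abs_mul, abs_mul, abs_mul, abs_of_pos (by norm_num : (0 : ℝ) < 1 / 3)]
          have b1 := mul_le_mul_of_nonneg_right c1 (abs_nonneg (C y0 t))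
          have b2 := mul_le_mul_of_nonneg_right (hc y) (abs_nonneg (C y t))
          nlinarith [mul_le_mul_of_nonneg_left (h3 y0 y hne t) hM,
            mul_le_mul_of_nonneg_left hy.le hM]
      · rw [e, mul_zero, add_zero, abs_mul]
        nlinarith [mul_le_mul_of_nonneg_right c1 (abs_nonneg (C y0 t)),
          mul_le_mul_of_nonneg_left (hy y0) hM]
    have := (hb _).trans (mul_le_mul_of_nonneg_left hw h0)
    rw [map_add, map_smul, map_smul, hgC, smul_eq_mul, smul_eq_mul] at this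
    linarith
  intro c M hM hc
  have a := one (fun y => -c y) M hM fun y => by rw [abs_neg]; exact hc y
  simp only [neg_smul, Finset.sum_neg_distrib, map_neg] at a
  exact abs_le.mpr ⟨by linarith, one c M hM hc⟩

end BS

end Pool.Agent.Lib.MP_4a9e55_an
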