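import Pool.Agent.Lib.MP_4a9e55_an.Defs

set_option autoImplicit false

open scoped ENNReal
open Cardinal

namespace Pool.Agent.Lib.MP_4a9e55_an

section Bdd
variable {Γ : Type}

/-- a bounded function as an element of `B Γ` -/
def mkB (f : Γ → ℝ) (C : ℝ) (h : ∀ t, |f t| ≤ C) : B Γ :=
  ⟨f, memℓp_infty ⟨C, by rintro _ ⟨t, rfl⟩; exact h t⟩⟩

@[simp] theorem mkB_apply (f : Γ → ℝ) (C : ℝ) (h : ∀ t, |f t| ≤ C) (t : Γ) :
    mkB f C h t = f t := rfl

theorem B.abs_le (g : B Γ) (t : Γ) : |g t| ≤ ‖g‖ :=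
  lp.norm_apply_le_norm (by simp) g t

theorem B.norm_le {g : B Γ} {C : ℝ} (hC : 0 ≤ C) (h : ∀ t, |g t| ≤ C) : ‖g‖ ≤ C :=
  lp.norm_le_of_forall_le hC h

theorem B.ext' {g h : B Γ} (e : ∀ t, g t = h t) : g = h := lp.ext (funext e)

@[simp] theorem B.add_apply (g h : B Γ) (t : Γ) : (g + h) t = g t + h t := rfl
@[simp] theorem B.sub_apply (g h : B Γ) (t : Γ) : (g - h) t = g t - h t := rfl
@[simp] theorem B.neg_apply (g : B Γ) (t : Γ) : (-g) t = -g t := rfl
@[simp] theorem B.smul_apply (c : ℝ) (g : B Γ) (t : Γ) : (c • g) t = c * g t := rfl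
@[simp] theorem B.zero_apply (t : Γ) : (0 : B Γ) t = 0 := rfl

theorem B.sum_apply {ι : Type} (s : Finset ι) (g : ι → B Γ) (t : Γ) :
    (∑ j ∈ s, g j) t = ∑ j ∈ s, g j t := by
  classical
  induction s using Finset.induction_on with
  | empty => simp
  | insert a s ha ih => rw [Finset.sum_insert ha, Finset.sum_insert ha, B.add_apply, ih]

open Classical in
/-- restriction of `g` to `W` (zero elsewhere) -/
noncomputable def trunc (W : Set Γ) (g : B Γ) : B Γ :=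
  mkB (fun t => if t ∈ W then g t else 0) ‖g‖ (fun t => by
    split_ifs
    · exact B.abs_le g t
    · simp)

theorem trunc_of_mem {W : Set Γ} (g : B Γ) {t : Γ} (h : t ∈ W) : trunc W g t = g t := by
  simp [trunc, h]

theorem trunc_of_not_mem {W : Set Γ} (g : B Γ) {t : Γ} (h : t ∉ W) : trunc W g t = 0 := by
  simp [trunc, h]

theorem abs_trunc_le (W : Set Γ) (g : B Γ) (t : Γ) : |trunc W g t| ≤ |g t| := by
  by_cases h : t ∈ W
  · rw [trunc_of_mem g h]
  · rw [trunc_of_not_mem g h]; simp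

theorem norm_trunc_le (W : Set Γ) (g : B Γ) : ‖trunc W g‖ ≤ ‖g‖ :=
  B.norm_le (norm_nonneg _) fun t => (abs_trunc_le W g t).trans (B.abs_le g t)

theorem supp_trunc (W : Set Γ) (g : B Γ) : Supp W (trunc W g) := fun _ h => trunc_of_not_mem g h

theorem Supp.mono {V W : Set Γ} {g : B Γ} (h : Supp V g) (hVW : V ⊆ W) : Supp W g :=
  fun t ht => h t fun h' => ht (hVW h')

theorem Supp.trunc {V : Set Γ} {g : B Γ} (h : Supp V g) (W : Set Γ) : Supp V (trunc W g) := by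
  intro t ht
  have := abs_trunc_le W g t
  rw [h t ht, abs_zero] at this
  exact abs_nonpos_iff.mp this

theorem trunc_add_compl (W : Set Γ) (g : B Γ) : trunc W g + trunc Wᶜ g = g := by
  refine B.ext' fun t => ?_
  by_cases h : t ∈ W
  · rw [B.add_apply, trunc_of_mem g h, trunc_of_not_mem g (by simpa using h), add_zero]
  · rw [B.add_apply, trunc_of_not_mem g h, trunc_of_mem g (by simpa using h), zero_add]

theorem Supp.trunc_eq {W : Set Γ} {g : B Γ} (h : Supp W g) :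
    Pool.Agent.Lib.MP_4a9e55_an.trunc W g = g := by
  refine B.ext' fun t => ?_
  by_cases ht : t ∈ W
  · exact trunc_of_mem g ht
  · rw [trunc_of_not_mem g ht, h t ht]

/-- `trunc W` as a linear map -/
noncomputable def truncL (W : Set Γ) : B Γ →ₗ[ℝ] B Γ where
  toFun := trunc W
  map_add' g h := B.ext' fun t => by
    by_cases ht : t ∈ W
    · simp [trunc_of_mem _ ht]
    · simp [trunc_of_not_mem _ ht]
  map_smul' c g := B.ext' fun t => by
    by_cases ht : t ∈ W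
    · simp [trunc_of_mem _ ht]
    · simp [trunc_of_not_mem _ ht]

@[simp] theorem truncL_apply (W : Set Γ) (g : B Γ) : truncL W g = trunc W g := rfl

end Bdd

section Inj
variable {X : Type} [NormedAddCommGroup X] [NormedSpace ℝ X]

/-- extension from a dominated linear map -/
theorem Inj.ext (hX : Inj X) {V Y : Type} [AddCommGroup V] [Module ℝ V] [NormedAddCommGroup Y]
    [NormedSpace ℝ Y] (A : V →ₗ[ℝ] Y) (T : V →ₗ[ℝ] X) (C : ℝ) (h : ∀ v, ‖T v‖ ≤ C * ‖A v‖) :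
    ∃ S : Y →L[ℝ] X, ∀ v, S (A v) = T v := by
  obtain ⟨S, hS⟩ := hX Y (LinearMap.range A) (T.compLeftInverse A)
  refine ⟨S, fun v => ?_⟩
  have := hS ⟨A v, v, rfl⟩
  rw [LinearMap.compLeftInverse_apply_of_bdd T A ⟨C, h⟩ v (A v) rfl] at this
  exact this

/-- an injective space is a complemented subspace of some `ℓ∞(Γ)` -/
theorem Inj.exists_proj (hX : Inj X) :
    ∃ (Γ : Type) (i : X →L[ℝ] B Γ) (P : B Γ →L[ℝ] X),
      (∀ x, ‖i x‖ = ‖x‖) ∧ ∀ x, P (i x) = x := by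
  let Γ := {f : X →L[ℝ] ℝ // ‖f‖ ≤ 1}
  have hb : ∀ (x : X) (f : Γ), |f.1 x| ≤ ‖x‖ := fun x f => by
    have h1 := f.1.le_opNorm x
    have h2 := mul_le_mul_of_nonneg_right f.2 (norm_nonneg x)
    rw [Real.norm_eq_abs] at h1
    linarith
  let i₀ : X →ₗ[ℝ] B Γ :=
    { toFun := fun x => mkB (fun f => f.1 x) ‖x‖ (hb x)
      map_add' := fun x y => B.ext' fun f => by simp
      map_smul' := fun c x => B.ext' fun f => by simp }
  have h1 : ∀ x, ‖i₀ x‖ ≤ ‖x‖ := fun x => B.norm_le (norm_nonneg _) (hb x)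
  have h2 : ∀ x, ‖x‖ ≤ ‖i₀ x‖ := fun x => by
    obtain ⟨f, hf1, hf2⟩ := exists_dual_vector'' ℝ x
    have := B.abs_le (i₀ x) ⟨f, hf1⟩
    have e : (i₀ x) ⟨f, hf1⟩ = ‖x‖ := hf2
    rw [e, abs_norm] at this
    exact this
  obtain ⟨P, hP⟩ := hX.ext i₀ LinearMap.id 1 (fun v => by simpa using h2 v)
  exact ⟨Γ, i₀.mkContinuous 1 (fun x => by simpa using h1 x), P,
    fun x => le_antisymm (h1 x) (h2 x), fun x => hP x⟩

theorem Emb.trans {E F G : Type} [NormedAddCommGroup E] [NormedSpace ℝ E] [NormedAddCommGroup F]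
    [NormedSpace ℝ F] [NormedAddCommGroup G] [NormedSpace ℝ G] (h1 : Emb E F) (h2 : Emb F G) :
    Emb E G := by
  obtain ⟨A, C, hC, hA⟩ := h1
  obtain ⟨A', C', hC', hA'⟩ := h2
  refine ⟨A'.comp A, C * C', mul_pos hC hC', fun x => ?_⟩
  calc ‖x‖ ≤ C * ‖A x‖ := hA x
    _ ≤ C * (C' * ‖A' (A x)‖) := mul_le_mul_of_nonneg_left (hA' _) hC.le
    _ = _ := by simp [mul_assoc]

theorem Cpl.trans {E F G : Type} [NormedAddCommGroup E] [NormedSpace ℝ E] [NormedAddCommGroup F]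
    [NormedSpace ℝ F] [NormedAddCommGroup G] [NormedSpace ℝ G] (h1 : Cpl E F) (h2 : Cpl F G) :
    Cpl E G := by
  obtain ⟨A, Q, h⟩ := h1
  obtain ⟨A', Q', h'⟩ := h2
  exact ⟨A'.comp A, Q.comp Q', fun x => by simp [h, h']⟩

theorem L1.norm_sum_single {ι : Type} [DecidableEq ι] (s : Finset ι) (a : ι → ℝ) :
    ‖∑ j ∈ s, (lp.single 1 j (a j) : L1 ι)‖ = ∑ j ∈ s, |a j| := by
  have := lp.norm_sum_single (E := fun _ : ι => ℝ) (p := 1) (by simp) a s
  simpa using this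

/-- a bounded `ℓ¹`-family gives an embedding of `ℓ¹` -/
theorem IsL1.emb [CompleteSpace X] {ι : Type} {x : ι → X} {r C : ℝ} (hr : 0 < r)
    (h : IsL1 x r) (hC : ∀ j, ‖x j‖ ≤ C) : Emb (L1 ι) X := by
  classical
  have hC0 : 0 ≤ max C 0 := le_max_right _ _
  let T : ∀ _ : ι, ℝ →L[ℝ] X := fun j => ContinuousLinearMap.toSpanSingleton ℝ (x j)
  have hT : ∀ j, ‖T j‖ ≤ max C 0 := fun j => by
    simp only [T, ContinuousLinearMap.norm_toSpanSingleton]
    exact (hC j).trans (le_max_left _ _)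
  let A : L1 ι →L[ℝ] X := (lp.tsumCLM ℝ ι X).comp (lp.mapCLM 1 T hC0 hT)
  have hA : ∀ (j : ι) (c : ℝ), A (lp.single 1 j c) = c • x j := by
    intro j c
    change ∑' i, T i ((lp.single 1 j c : L1 ι) i) = _
    rw [tsum_eq_single j]
    · simp [T]
    · intro i hi
      simp [Pi.single_eq_of_ne hi]
  refine ⟨A, r⁻¹, inv_pos.mpr hr, fun y => ?_⟩
  have hs := lp.hasSum_single (E := fun _ : ι => ℝ) (p := 1) (by simp) y
  have h1 : Filter.Tendsto (fun s : Finset ι => r * ‖∑ j ∈ s, (lp.single 1 j (y j) : L1 ι)‖)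
      Filter.atTop (nhds (r * ‖y‖)) := (hs.norm).const_mul r
  have h2 : Filter.Tendsto (fun s : Finset ι => ‖A (∑ j ∈ s, (lp.single 1 j (y j) : L1 ι))‖)
      Filter.atTop (nhds ‖A y‖) := ((A.continuous.tendsto y).comp hs).norm
  have h3 : r * ‖y‖ ≤ ‖A y‖ := by
    refine le_of_tendsto_of_tendsto' h1 h2 fun s => ?_
    rw [L1.norm_sum_single, map_sum]
    simp only [hA]
    exact h s y
  rw [inv_mul_eq_div, le_div_iff₀ hr]
  linarith

/-- an embedding of `ℓ¹` gives an `ℓ¹`-family in the unit ball -/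
theorem Emb.isL1 {ι : Type} (h : Emb (L1 ι) X) :
    ∃ (x : ι → X) (r : ℝ), 0 < r ∧ (∀ j, ‖x j‖ ≤ 1) ∧ IsL1 x r := by
  classical
  obtain ⟨A, C, hC, hA⟩ := h
  have hp : 0 < ‖A‖ + 1 := by positivity
  refine ⟨fun j => (‖A‖ + 1)⁻¹ • A (lp.single 1 j 1), (‖A‖ + 1)⁻¹ * C⁻¹, by positivity,
    fun j => ?_, fun s a => ?_⟩
  · rw [norm_smul, Real.norm_eq_abs, abs_of_pos (inv_pos.mpr hp), inv_mul_le_iff₀ hp]
    have := A.le_opNorm (lp.single 1 j 1)
    rw [lp.norm_single (by simp)] at this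
    simp only [norm_one, mul_one] at this ⊢
    linarith
  · have e : ∑ j ∈ s, a j • (‖A‖ + 1)⁻¹ • A (lp.single 1 j 1)
        = (‖A‖ + 1)⁻¹ • A (∑ j ∈ s, (lp.single 1 j (a j) : L1 ι)) := by
      rw [map_sum, Finset.smul_sum]
      refine Finset.sum_congr rfl fun j _ => ?_
      rw [smul_comm, ← map_smul, ← lp.single_smul]
      simp
    rw [e, norm_smul, Real.norm_eq_abs, abs_of_pos (inv_pos.mpr hp), mul_assoc]
    refine mul_le_mul_of_nonneg_left ?_ (inv_pos.mpr hp).le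
    have := hA (∑ j ∈ s, (lp.single 1 j (a j) : L1 ι))
    rw [L1.norm_sum_single] at this
    rw [inv_mul_le_iff₀ hC]
    exact this

theorem IsL1.comp {ι κ : Type} {x : ι → X} {r : ℝ} (h : IsL1 x r) (e : κ → ι)
    (he : Function.Injective e) : IsL1 (fun j => x (e j)) r := by
  classical
  intro s a
  rcases isEmpty_or_nonempty κ with hκ | hκ
  · simp [Finset.eq_empty_of_isEmpty s]
  have := h (s.map ⟨e, he⟩) (fun i => a (Function.invFunOn e s i))
  rw [Finset.sum_map, Finset.sum_map] at this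
  have hi : ∀ j ∈ s, Function.invFunOn e s (e j) = j := fun j hj =>
    he (Function.invFunOn_eq ⟨j, hj, rfl⟩)
  have e1 : ∑ j ∈ s, |a j| = ∑ j ∈ s, |a (Function.invFunOn e s (e j))| :=
    Finset.sum_congr rfl fun j hj => by rw [hi j hj]
  have e2 : ∑ j ∈ s, a j • x (e j) = ∑ j ∈ s, a (Function.invFunOn e s (e j)) • x (e j) :=
    Finset.sum_congr rfl fun j hj => by rw [hi j hj]
  rw [e1, e2]
  exact this

theorem Emb.l1_mono [CompleteSpace X] {ι κ : Type} (h : Emb (L1 ι) X) (hκ : #κ ≤ #ι) :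
    Emb (L1 κ) X := by
  obtain ⟨x, r, hr, h1, h2⟩ := h.isL1
  obtain ⟨e⟩ := (Cardinal.le_def κ ι).mp hκ
  exact (h2.comp e e.injective).emb hr fun j => h1 _

end Inj

end Pool.Agent.Lib.MP_4a9e55_an
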