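import Pool.Agent.Lib.MP_4a9e55_an.Sm

set_option autoImplicit false

open Cardinal Set Filter

namespace Pool.Agent.Lib.MP_4a9e55_an

variable {Γ : Type} {F : Filter Γ} {κ τ : Cardinal.{0}}

theorem Nice.wit' {𝒳 : ℕ → Set (B Γ)} {S : Set (Set Γ)} (hS : Nice F τ 𝒳 S) (n : ℕ) {c : Set Γ}
    (hc : c ∈ S) {r r₁ : ℝ} (hr : r < r₁) {y : B Γ} (hy : y ∈ 𝒳 n)
    (h : ∀ U ∈ S, U ⊆ c → Osc F y U r₁) : VV F τ (𝒳 n) c r := by
  obtain ⟨q, h1, h2⟩ := exists_rat_btwn hr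
  exact (hS.wit n c hc q y hy fun U hU hUc => (h U hU hUc).mono subset_rfl h2.le).mono le_rfl
    subset_rfl subset_rfl h1.le

theorem abs_TB_le {T : B Γ →L[ℝ] B Γ} {W : Set Γ} {y : B Γ} (hy : y ∈ TB T W) (t : Γ) :
    |y t| ≤ ‖T‖ := by
  obtain ⟨g, hg, rfl⟩ := hy
  exact (B.abs_le _ t).trans ((T.le_opNorm g).trans (mul_le_of_le_one_right (norm_nonneg _) hg.2))

theorem VV.le_norm (hτ : ℵ₀ ≤ τ) {T : B Γ →L[ℝ] B Γ} {W c : Set Γ} {r : ℝ} (hc : Pos F c)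
    (h : VV F τ (TB T W) c r) : r ≤ ‖T‖ := by
  obtain ⟨y, hy, h1⟩ := h {c} (by simpa using one_lt_aleph0.trans_le hτ) (by simpa using hc)
  obtain ⟨a, h2, h3⟩ := h1 c rfl subset_rfl
  obtain ⟨t, -, ht⟩ := h2.nonempty
  obtain ⟨t', -, ht'⟩ := h3.nonempty
  have h4 := abs_le.mp (abs_TB_le hy t)
  have h5 := abs_le.mp (abs_TB_le hy t')
  simp only [mem_ofPred_eq] at ht ht'
  linarith

/-- `c` has oscillation type `e`, and no positive subset has type `e + ε` -/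
def NM (F : Filter Γ) (τ : Cardinal.{0}) (T : B Γ →L[ℝ] B Γ) (W c : Set Γ) (e ε : ℝ) : Prop :=
  Pos F c ∧ VV F τ (TB T W) c e ∧ ∀ c' ⊆ c, Pos F c' → ¬ VV F τ (TB T W) c' (e + ε)

theorem exists_NM (hτ : ℵ₀ ≤ τ) {T : B Γ →L[ℝ] B Γ} {W b : Set Γ} {r ε : ℝ} (hε : 0 < ε)
    (hb : Pos F b) (h : VV F τ (TB T W) b r) : ∃ c ⊆ b, ∃ e, r ≤ e ∧ NM F τ T W c e ε := by
  by_contra hc
  push Not at hc
  have : ∀ k : ℕ, ∃ c ⊆ b, Pos F c ∧ VV F τ (TB T W) c (r + k * ε) := fun k => by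
    induction k with
    | zero => exact ⟨b, subset_rfl, hb, by simpa using h⟩
    | succ k ih =>
      obtain ⟨c, h1, h2, h3⟩ := ih
      have h4 := hc c h1 _ (le_add_of_nonneg_right (mul_nonneg k.cast_nonneg hε.le))
      simp only [NM, not_and, not_forall, not_not] at h4
      obtain ⟨c', h5, h6, h7⟩ := h4 h2 h3
      exact ⟨c', h5.trans h1, h6, by push_cast; rwa [add_mul, one_mul, ← add_assoc]⟩
  obtain ⟨k, hk⟩ := exists_nat_gt ((‖T‖ - r) / ε)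
  obtain ⟨c, -, h2, h3⟩ := this k
  have := h3.le_norm hτ h2
  rw [div_lt_iff₀ hε] at hk
  linarith

/-- capture: the set where `C` is large carries all the oscillation where `T C` is large -/
theorem capture (hG : Good κ τ) (hC : CC F κ) {T : B Γ →L[ℝ] B Γ} {𝒳 : ℕ → Set (B Γ)}
    {S : Set (Set Γ)} (hS : Nice F τ 𝒳 S) (h𝒳 : 𝒳 0 = TB T Set.univ) {c : Set Γ} (hc : c ∈ S)
    {e ε : ℝ} (hε : 0 < ε) (hN : NM F τ T Set.univ c e ε) {C : B Γ} (hC1 : ‖C‖ ≤ 1)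
    (hC2 : ∀ U ∈ S, U ⊆ c → Pos F (U ∩ {t | T C t < -(e - ε)})) {c' : Set Γ} (hp : Pos F c')
    (hc' : c' ⊆ c ∩ {t | e - ε < T C t}) :
    ¬ VV F τ (TB T {s | 1 / 2 < |C s|}ᶜ) c' (12 * ε) := by
  intro hV
  have hτ := hG.reg.aleph0_le
  obtain ⟨g, hg, h1⟩ := VV.sym_ball hG hC T _ hV (rf F S {c', {t | T C t < -(e - ε)}})
    (mk_rf_lt hτ hS.small ((Set.toFinite _).lt_aleph0.trans_le hτ)) (fun V hV => hV.1) hε
  obtain ⟨U₀, hU₀, hred⟩ := hS.red c' hp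
  have hA : U₀ ∩ c ∈ S := hS.inter _ hU₀ _ hc
    ((hred _ hU₀ subset_rfl).mono (inter_subset_inter_right _ fun t ht => (hc' ht).1))
  have hy : T (C + (1 / 2 : ℝ) • g) ∈ 𝒳 0 := by
    rw [h𝒳]
    refine ⟨_, ⟨fun t ht => absurd trivial ht, B.norm_le zero_le_one fun s => ?_⟩, rfl⟩
    rw [B.add_apply, B.smul_apply]
    by_cases h : 1 / 2 < |C s|
    · rw [hg.1 s (not_not.mpr h), mul_zero, add_zero]
      exact (B.abs_le C s).trans hC1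
    · have h2 := abs_le.mp ((B.abs_le g s).trans hg.2)
      have h3 := abs_le.mp (not_lt.mp h)
      exact abs_le.mpr ⟨by linarith, by linarith⟩
  refine hN.2.2 _ inter_subset_right (hS.pos _ hA) (h𝒳 ▸ hS.wit' 0 hA
    (show e + ε < e + 3 / 2 * ε by linarith) hy fun U hU hUA => ⟨3 * ε, ?_, ?_⟩)
  · refine ((h1 _ (mem_rf hU (by simp) (hred U hU (hUA.trans inter_subset_left)))).2.2
      inter_subset_right).1.mono fun t ht => ⟨ht.1.1, ?_⟩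
    have e1 := (hc' ht.1.2).2
    have e2 := ht.2
    simp only [mem_ofPred_eq, map_add, map_smul, B.add_apply, B.smul_apply] at e1 e2 ⊢
    linarith
  · refine (h1 _ (mem_rf hU (by simp) (hC2 U hU (hUA.trans inter_subset_right)))).1.mono
      fun t ht => ⟨ht.1.1, ?_⟩
    have e1 := ht.1.2
    have e2 := ht.2
    simp only [mem_ofPred_eq, map_add, map_smul, B.add_apply, B.smul_apply] at e1 e2 ⊢
    linarith

/-- points where `T` has variation at most `η` on `E` -/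
def Sml (T : B Γ →L[ℝ] B Γ) (E : Set Γ) (η : ℝ) : Set Γ :=
  {t | ∀ g : B Γ, Supp E g → ‖g‖ ≤ 1 → T g t ≤ η}

theorem Sml.abs_le {T : B Γ →L[ℝ] B Γ} {E : Set Γ} {η : ℝ} {t : Γ} (h : t ∈ Sml T E η) {g : B Γ}
    (h1 : Supp E g) (h2 : ‖g‖ ≤ 1) : |T g t| ≤ η := by
  have h3 := h (-g) ((suppSub E).neg_mem h1) (by rwa [norm_neg])
  rw [map_neg, B.neg_apply] at h3
  exact _root_.abs_le.mpr ⟨by linarith, h g h1 h2⟩

theorem Sml.union {T : B Γ →L[ℝ] B Γ} {E E' : Set Γ} {η η' : ℝ} {t : Γ} (h : t ∈ Sml T E η)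
    (h' : t ∈ Sml T E' η') : t ∈ Sml T (E ∪ E') (η + η') := fun g hg hn => by
  rw [← trunc_add_compl E g, map_add, B.add_apply]
  refine add_le_add (h _ (supp_trunc E g) ((norm_trunc_le _ _).trans hn))
    (h' _ (fun s hs => ?_) ((norm_trunc_le _ _).trans hn))
  by_cases h1 : s ∈ E
  · exact trunc_of_not_mem g (not_not.mpr h1)
  · exact Supp.trunc hg _ s fun h' => h'.elim h1 hs

theorem Sm.sml {T : B Γ →L[ℝ] B Γ} {C : B Γ} {η : ℝ} {t : Γ} (h : t ∈ Sm T C η) :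
    t ∈ Sml T {s | 1 / 2 < |C s|} (4 * η) := fun g hg hn => by
  have := h ((1 / 4 : ℝ) • g) fun s => by
    rw [B.smul_apply]
    by_cases h1 : 1 / 2 < |C s|
    · have h2 := (B.abs_le g s).trans hn
      rw [abs_mul, abs_of_pos (by norm_num : (0 : ℝ) < 1 / 4), ← sq_abs]
      nlinarith
    · rw [hg s h1, mul_zero, abs_zero]; positivity
  rw [map_smul, B.smul_apply] at this
  linarith

theorem VV.remove {T : B Γ →L[ℝ] B Γ} {D E c : Set Γ} {r η : ℝ}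
    (h : VV F τ (TB T (D \ E)ᶜ) c (r + η)) (hc : c ⊆ Sml T E η) : VV F τ (TB T Dᶜ) c r := by
  intro 𝒰 h1 h2
  obtain ⟨_, ⟨g, hg, rfl⟩, h3⟩ := h 𝒰 h1 h2
  refine ⟨_, ⟨trunc Eᶜ g, ⟨fun s hs => ?_, (norm_trunc_le _ _).trans hg.2⟩, rfl⟩,
    fun U hU hUc => ?_⟩
  · by_cases h4 : s ∈ E
    · exact trunc_of_not_mem g (not_not.mpr h4)
    · exact Supp.trunc hg.1 _ s (not_not.mpr ⟨not_not.mp hs, h4⟩)
  · obtain ⟨a, h4, h5⟩ := h3 U hU hUc
    have h6 : ∀ t ∈ U, |T g t - T (trunc Eᶜ g) t| ≤ η := fun t ht => by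
      have h7 := congrArg (fun x => T x t) (trunc_add_compl E g)
      simp only [map_add, B.add_apply] at h7
      rw [← h7, add_sub_cancel_right]
      exact Sml.abs_le (hc (hUc ht)) (supp_trunc E g) ((norm_trunc_le _ _).trans hg.2)
    refine ⟨a, h4.mono fun t ht => ⟨ht.1, ?_⟩, h5.mono fun t ht => ⟨ht.1, ?_⟩⟩
    all_goals
      have e1 := abs_le.mp (h6 t ht.1)
      have e2 := ht.2
      simp only [mem_ofPred_eq] at e2 ⊢
      linarith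

/-- one step of the construction of disjoint servers -/
theorem server_step (hG : Good κ τ) (hC : CC F κ) {T : B Γ →L[ℝ] B Γ} {𝒳 : ℕ → Set (B Γ)}
    {S : Set (Set Γ)} (hS : Nice F τ 𝒳 S) (h𝒳 : 𝒳 0 = TB T Set.univ) {c : Set Γ} (hc : c ∈ S)
    {e ε : ℝ} (hε : 0 < ε) (hN : NM F τ T Set.univ c e ε) {E : Set Γ} {η η' : ℝ} (hη : η < η')
    (hηε : η ≤ ε) (hE : ∀ U ∈ S, Pos F (U ∩ Sml T E η)) :
    ∃ D c' : Set Γ, (∀ U ∈ S, Pos F (U ∩ Sml T (E ∪ D) η')) ∧ (∀ U ∈ S, U ⊆ c → Pos F (U ∩ c')) ∧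
      ∀ c'' ⊆ c', Pos F c'' → ¬ VV F τ (TB T (D \ E)ᶜ) c'' (13 * ε) := by
  have hτ := hG.reg.aleph0_le
  obtain ⟨C, hC1, h1⟩ := hN.2.1.smL hG hC hε (show 0 < (η' - η) / 4 by linarith)
    (rf F S {Sml T E η}) (mk_rf_lt hτ hS.small ((Set.toFinite _).lt_aleph0.trans_le hτ))
    fun V hV => hV.1
  have h2 := fun U hU => h1 _ (mem_rf hU rfl (hE U hU))
  refine ⟨{s | 1 / 2 < |C s|}, c ∩ {t | e - ε < T C t} ∩ Sml T E η, fun U hU => ?_,
    fun U hU hUc => ?_, fun c'' h3 h4 hV => ?_⟩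
  · refine (h2 U hU).1.mono fun t ht => ⟨ht.1.1, ?_⟩
    have := Sml.union ht.1.2 (Sm.sml ht.2)
    rwa [show η + 4 * ((η' - η) / 4) = η' by ring] at this
  · exact ((h2 U hU).2 (inter_subset_left.trans hUc)).1.mono fun t ht =>
      ⟨ht.1.1, ⟨hUc ht.1.1, ht.2⟩, ht.1.2⟩
  · refine capture hG hC hS h𝒳 hc hε hN hC1 (fun U hU hUc => ?_) h4 (h3.trans inter_subset_left)
      (VV.remove (hV.mono le_rfl subset_rfl subset_rfl (by linarith)) (h3.trans inter_subset_right))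
    exact ((h2 U hU).2 (inter_subset_left.trans hUc)).2.mono fun t ht => ⟨ht.1.1, ht.2⟩

end Pool.Agent.Lib.MP_4a9e55_an
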