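import Pool.Agent.Lib.MP_4a9e55_an.Basic

set_option autoImplicit false

open Cardinal Set

namespace Pool.Agent.Lib.MP_4a9e55_an

/-- the initial well-order of a cardinal -/
abbrev OT (c : Cardinal.{0}) : Type := c.ord.ToType

theorem mk_OT (c : Cardinal.{0}) : #(OT c) = c := mk_ord_toType c

theorem mk_Iio_OT {c : Cardinal.{0}} (x : OT c) : #(Iio x) < c := by
  simpa using mk_Iio_lt x

theorem mk_Iic_OT {c : Cardinal.{0}} (hc : ℵ₀ ≤ c) (x : OT c) : #(Iic x) < c := by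
  have : Iic x = insert x (Iio x) := by
    ext y; simp [le_iff_eq_or_lt]
  rw [this]
  exact mk_insert_le.trans_lt (add_lt_of_lt hc (mk_Iio_OT x) (one_lt_aleph0.trans_le hc))

theorem exists_Iio_eq {c ρ : Cardinal.{0}} (h : ρ < c) : ∃ x : OT c, #(Iio x) = ρ := by
  have h1 : ρ.ord < Ordinal.type (α := OT c) (· < ·) := by
    rw [Ordinal.type_toType]; exact ord_lt_ord.mpr h
  refine ⟨Ordinal.enum (α := OT c) (· < ·) ⟨ρ.ord, h1⟩, ?_⟩
  have := Ordinal.card_typein (r := ((· < ·) : OT c → OT c → Prop))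
    (Ordinal.enum (α := OT c) (· < ·) ⟨ρ.ord, h1⟩)
  rw [Ordinal.typein_enum, card_ord] at this
  exact this.symm

theorem exists_ub_OT {c : Cardinal.{0}} {s : Set (OT c)} (hs : #s < c.ord.cof) :
    ∃ x, ∀ y ∈ s, y < x := by
  by_contra h
  push Not at h
  have : IsCofinal s := fun x => h x
  have h2 := Order.cof_le this
  rw [Ordinal.cof_toType] at h2
  exact absurd hs (not_lt.mpr h2)

theorem exists_ub_fun {c : Cardinal.{0}} {ι : Type} (f : ι → OT c) (h : #ι < c.ord.cof) :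
    ∃ x, ∀ i, f i < x := by
  obtain ⟨x, hx⟩ := exists_ub_OT (s := range f) (mk_range_le.trans_lt h)
  exact ⟨x, fun i => hx _ ⟨i, rfl⟩⟩

theorem exists_cofinal_fun (c : Cardinal.{0}) (Θ : Type) (h : #Θ = c.ord.cof) :
    ∃ g : Θ → OT c, ∀ x, ∃ ξ, x ≤ g ξ := by
  obtain ⟨s, hs, hs'⟩ := Order.exists_cof_eq (OT c)
  rw [Ordinal.cof_toType, ← h] at hs'
  obtain ⟨e⟩ := Cardinal.eq.mp hs'
  refine ⟨fun ξ => (e.symm ξ).1, fun x => ?_⟩
  obtain ⟨y, hy, hxy⟩ := hs x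
  exact ⟨e ⟨y, hy⟩, by simpa using hxy⟩

theorem isRegular_cof_ord {c : Cardinal.{0}} (hc : ℵ₀ ≤ c) : c.ord.cof.IsRegular :=
  isRegular_cof (isSuccLimit_ord hc)

/-- a scale of length `cof c` in `c` -/
theorem exists_scale (c : Cardinal.{0}) (hc : ℵ₀ ≤ c) :
    ∃ b : OT c.ord.cof → OT c, ∀ x, ∃ ξ₀, ∀ ξ, ξ₀ ≤ ξ → x ≤ b ξ := by
  obtain ⟨g, hg⟩ := exists_cofinal_fun c (OT c.ord.cof) (mk_OT _)
  have h : ∀ ξ : OT c.ord.cof, ∃ x, ∀ i : Iic ξ, g i < x := fun ξ =>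
    exists_ub_fun (fun i : Iic ξ => g i) (mk_Iic_OT (isRegular_cof_ord hc).aleph0_le ξ)
  choose b hb using h
  refine ⟨b, fun x => ?_⟩
  obtain ⟨ξ₀, h0⟩ := hg x
  exact ⟨ξ₀, fun ξ hξ => h0.trans (hb ξ ⟨ξ₀, hξ⟩).le⟩

theorem exists_scale_nat (c : Cardinal.{0}) (h : c.ord.cof = ℵ₀) :
    ∃ b : ℕ → OT c, ∀ x, ∀ᶠ n in Filter.atTop, x ≤ b n := by
  obtain ⟨g, hg⟩ := exists_cofinal_fun c ℕ (by simp [h])
  have h' : ∀ n : ℕ, ∃ x, ∀ i : Iic n, g i < x := fun n =>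
    exists_ub_fun (fun i : Iic n => g i) (by
      rw [h]; exact lt_aleph0_of_finite _)
  choose b hb using h'
  refine ⟨b, fun x => ?_⟩
  obtain ⟨n₀, h0⟩ := hg x
  exact Filter.eventually_atTop.mpr ⟨n₀, fun n hn => h0.trans (hb n ⟨n₀, hn⟩).le⟩

/-- a set of full size in a cardinal is unbounded -/
theorem exists_ge_of_mk {c : Cardinal.{0}} {A : Set (OT c)} (hA : c ≤ #A)
    (x : OT c) : ∃ ξ ∈ A, x ≤ ξ := by
  by_contra h
  push Not at h
  have : A ⊆ Iio x := fun ξ hξ => h ξ hξ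
  exact absurd (hA.trans (mk_le_mk_of_subset this)) (not_le.mpr (mk_Iio_OT x))

theorem mk_small_Iio (μ ν : Cardinal.{0}) : #{x : OT μ | #(Iio x) < ν} ≤ ν := by
  rcases le_or_gt μ ν with h | h
  · exact (mk_set_le _).trans ((mk_OT μ).le.trans h)
  · obtain ⟨x₀, hx₀⟩ := exists_Iio_eq h
    rw [← hx₀]
    refine mk_le_mk_of_subset fun x hx => ?_
    by_contra hc
    have h1 : x₀ ≤ x := not_lt.mp hc
    exact absurd hx (not_lt.mpr (mk_le_mk_of_subset (Iio_subset_Iio h1)))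

theorem lt_powerlt {a b c : Cardinal.{0}} (h : c < a ^< b) : ∃ x < b, c < a ^ x := by
  by_contra hc
  push Not at hc
  exact absurd h (not_lt.mpr (powerlt_le.mpr hc))

theorem le_powerlt_self {δ κ : Cardinal.{0}} (hκ : ℵ₀ ≤ κ) : δ ≤ δ ^< κ := by
  have := le_powerlt δ (one_lt_aleph0.trans_le hκ)
  rwa [power_one] at this

theorem le_powerlt_exp {δ κ : Cardinal.{0}} (hδ : 2 ≤ δ) : κ ≤ δ ^< κ := by
  refine le_of_forall_lt fun ρ hρ => ?_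
  exact ((cantor ρ).trans_le (power_le_power_right hδ)).trans_le (le_powerlt δ hρ)

theorem powerlt_mono {δ δ' κ : Cardinal.{0}} (h : δ ≤ δ') : δ ^< κ ≤ δ' ^< κ :=
  powerlt_le.mpr fun _ hx => (power_le_power_right h).trans (le_powerlt δ' hx)

theorem powerlt_powerlt {δ κ : Cardinal.{0}} (hκ : κ.IsRegular) (hδ : 2 ≤ δ) :
    (δ ^< κ) ^< κ ≤ δ ^< κ := by
  refine powerlt_le.mpr fun ρ hρ => ?_
  set μ := δ ^< κ with hμ
  have hκμ : κ ≤ μ := le_powerlt_exp hδ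
  have hδ0 : δ ≠ 0 := by
    rintro rfl
    simp at hδ
  have h1 : μ ^ ρ = #(OT ρ → OT μ) := by
    rw [mk_arrow]; simp
  rw [h1]
  let T : OT κ → Set (OT μ) := fun o => {x | #(Iio x) < δ ^ #(Iio o)}
  have hcov : (univ : Set (OT ρ → OT μ)) ⊆ ⋃ o, {f | ∀ p, f p ∈ T o} := by
    intro f _
    have h2 : ∀ p, ∃ o : OT κ, #(Iio (f p)) < δ ^ #(Iio o) := fun p => by
      obtain ⟨x, hx, hx'⟩ := lt_powerlt (mk_Iio_OT (f p))
      obtain ⟨o, ho⟩ := exists_Iio_eq hx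
      exact ⟨o, ho ▸ hx'⟩
    choose o ho using h2
    obtain ⟨o', ho'⟩ := exists_ub_fun o (by rw [mk_OT, hκ.cof_ord]; exact hρ)
    refine mem_iUnion.mpr ⟨o', fun p => (ho p).trans_le ?_⟩
    exact power_le_power_left hδ0 (mk_le_mk_of_subset (Iio_subset_Iio (ho' p).le))
  have h3 : ∀ o, #{f : OT ρ → OT μ | ∀ p, f p ∈ T o} ≤ μ := by
    intro o
    have h4 : #{f : OT ρ → OT μ | ∀ p, f p ∈ T o} ≤ #(OT ρ → T o) := by
      refine mk_le_of_injective (f := fun f p => ⟨f.1 p, f.2 p⟩) ?_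
      intro f g h
      exact Subtype.ext (funext fun p => congrArg Subtype.val (congrFun h p))
    refine h4.trans ?_
    rw [mk_arrow]
    simp only [lift_id, mk_OT]
    calc #(T o) ^ ρ ≤ (δ ^ #(Iio o)) ^ ρ := power_le_power_right (mk_small_Iio _ _)
      _ = δ ^ (#(Iio o) * ρ) := (power_mul).symm
      _ ≤ μ := le_powerlt δ (mul_lt_of_lt hκ.aleph0_le (mk_Iio_OT o) hρ)
  calc #(OT ρ → OT μ) = #(univ : Set (OT ρ → OT μ)) := mk_univ.symm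
    _ ≤ #(⋃ o, {f : OT ρ → OT μ | ∀ p, f p ∈ T o}) := mk_le_mk_of_subset hcov
    _ ≤ #(OT κ) * ⨆ o, #{f : OT ρ → OT μ | ∀ p, f p ∈ T o} := mk_iUnion_le _
    _ ≤ μ * μ := mul_le_mul' ((mk_OT κ).le.trans hκμ) (ciSup_le' h3)
    _ = μ := mul_eq_self (hκ.aleph0_le.trans hκμ)

/-- `τ` is a regular cardinal inaccessible from below by `<κ`-powers -/
structure Good (κ τ : Cardinal.{0}) : Prop where
  regκ : κ.IsRegular
  unc : ℵ₀ < κ
  reg : τ.IsRegular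
  lt : κ < τ
  pow : ∀ δ < τ, δ ^< κ < τ

theorem exists_good {κ δ : Cardinal.{0}} (hκ : κ.IsRegular) (hu : ℵ₀ < κ) (hδ : 2 ≤ δ) :
    Good κ (Order.succ (δ ^< κ)) := by
  have h1 : κ ≤ δ ^< κ := le_powerlt_exp hδ
  refine ⟨hκ, hu, isRegular_succ (hu.le.trans h1), h1.trans_lt (Order.lt_succ _), fun δ' h => ?_⟩
  exact ((powerlt_mono (Order.le_of_lt_succ h)).trans (powerlt_powerlt hκ hδ)).trans_lt
    (Order.lt_succ _)

theorem Good.aleph0_lt {κ τ : Cardinal.{0}} (h : Good κ τ) : ℵ₀ < τ := h.unc.trans h.lt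

theorem mk_small_subsets {α : Type} {κ : Cardinal.{0}} (S : Set α) :
    #{A : Set α | A ⊆ S ∧ #A < κ} ≤ κ * (max #S ℵ₀) ^< κ := by
  have hcov : {A : Set α | A ⊆ S ∧ #A < κ} ⊆
      ⋃ o : OT κ, {A : Set α | A ⊆ S ∧ #A ≤ #(Iio o)} := by
    rintro A ⟨h1, h2⟩
    obtain ⟨o, ho⟩ := exists_Iio_eq h2
    exact mem_iUnion.mpr ⟨o, h1, ho.ge⟩
  refine (mk_le_mk_of_subset hcov).trans ((mk_iUnion_le _).trans ?_)
  refine mul_le_mul' (mk_OT κ).le (ciSup_le' fun o => ?_)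
  exact (mk_bounded_subset_le S _).trans (le_powerlt _ (mk_Iio_OT o))

theorem Good.mk_small {α : Type} {κ τ : Cardinal.{0}} (h : Good κ τ) {S : Set α} (hS : #S < τ) :
    #{A : Set α | A ⊆ S ∧ #A < κ} < τ :=
  (mk_small_subsets S).trans_lt
    (mul_lt_of_lt h.reg.aleph0_le h.lt (h.pow _ (max_lt hS h.aleph0_lt)))

/-- closure under an operation on small sets -/
theorem Good.exists_closed {α : Type} {κ τ : Cardinal.{0}} (h : Good κ τ) (Φ : Set α → Set α)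
    (hΦ : ∀ A : Set α, #A < κ → #(Φ A) < τ) (S₀ : Set α) (h₀ : #S₀ < τ) :
    ∃ S, S₀ ⊆ S ∧ #S < τ ∧ ∀ A ⊆ S, #A < κ → Φ A ⊆ S := by
  let step : Set α → Set α := fun S => S ∪ ⋃ A : {A : Set α | A ⊆ S ∧ #A < κ}, Φ A
  have hstep : ∀ S : Set α, #S < τ → #(step S) < τ := fun S hS =>
    (mk_union_le _ _).trans_lt (add_lt_of_lt h.reg.aleph0_le hS
      ((card_iUnion_lt_iff_forall_of_isRegular h.reg (h.mk_small hS)).mpr fun A => hΦ A A.2.2))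
  let G : OT κ → Set α := fun o => (wellFounded_lt (α := OT κ)).fix
    (C := fun _ => Set α) (fun o rec => step (S₀ ∪ ⋃ p : Iio o, rec p p.2)) o
  have hG : ∀ o, G o = step (S₀ ∪ ⋃ p : Iio o, G p) := fun o => by
    simp only [G]; rw [WellFounded.fix_eq]
  have hGs : ∀ o, #(G o) < τ := by
    intro o
    induction o using (wellFounded_lt (α := OT κ)).induction with
    | _ o ih =>
      rw [hG]
      refine hstep _ ((mk_union_le _ _).trans_lt (add_lt_of_lt h.reg.aleph0_le h₀ ?_))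
      exact (card_iUnion_lt_iff_forall_of_isRegular h.reg
        ((mk_Iio_OT o).trans h.lt)).mpr fun p => ih p p.2
  refine ⟨S₀ ∪ ⋃ o, G o, subset_union_left, ?_, fun A hA hAκ => ?_⟩
  · refine (mk_union_le _ _).trans_lt (add_lt_of_lt h.reg.aleph0_le h₀ ?_)
    exact (card_iUnion_lt_iff_forall_of_isRegular h.reg ((mk_OT κ).trans_lt h.lt)).mpr hGs
  · have hne : Nonempty (OT κ) := by
      rw [← mk_ne_zero_iff, mk_OT]; exact h.regκ.ne_zero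
    have h1 : ∀ a : A, ∃ o, (a : α) ∈ S₀ ∪ G o := fun a => by
      rcases hA a.2 with h1 | h1
      · exact ⟨Classical.arbitrary _, Or.inl h1⟩
      · obtain ⟨o, ho⟩ := mem_iUnion.mp h1
        exact ⟨o, Or.inr ho⟩
    choose o ho using h1
    obtain ⟨o', ho'⟩ := exists_ub_fun o (by rw [h.regκ.cof_ord]; exact hAκ)
    have h2 : A ⊆ S₀ ∪ ⋃ p : Iio o', G p := fun a ha => by
      rcases ho ⟨a, ha⟩ with h1 | h1
      · exact Or.inl h1
      · exact Or.inr (mem_iUnion.mpr ⟨⟨o ⟨a, ha⟩, ho' _⟩, h1⟩)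
    intro x hx
    refine Or.inr (mem_iUnion.mpr ⟨o', ?_⟩)
    rw [hG]
    exact Or.inr (mem_iUnion.mpr ⟨⟨A, h2, hAκ⟩, hx⟩)

/-- transfinite choice along a well-order -/
theorem exists_seq {Θ α : Type} [LinearOrder Θ] [WellFoundedLT Θ] (𝒞 : Set α)
    (R : Θ → Set α → α → Prop)
    (h : ∀ (ξ : Θ) (𝒱 : Set α), 𝒱 ⊆ 𝒞 → #𝒱 ≤ #(Iio ξ) → ∃ V ∈ 𝒞, R ξ 𝒱 V) :
    ∃ V : Θ → α, ∀ ξ, V ξ ∈ 𝒞 ∧ R ξ (V '' Iio ξ) (V ξ) := by
  classical
  have h' : ∀ (ξ : Θ) (f : Iio ξ → 𝒞), ∃ V : 𝒞, R ξ (range fun p => (f p : α)) V := by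
    intro ξ f
    obtain ⟨V, hV, hR⟩ := h ξ (range fun p => (f p : α))
      (by rintro _ ⟨p, rfl⟩; exact (f p).2) mk_range_le
    exact ⟨⟨V, hV⟩, hR⟩
  choose nxt hnxt using h'
  let G : Θ → 𝒞 := fun ξ => (wellFounded_lt (α := Θ)).fix (C := fun _ => 𝒞)
    (fun ξ rec => nxt ξ (fun p => rec p p.2)) ξ
  have hG : ∀ ξ, G ξ = nxt ξ (fun p => G p) := fun ξ => by
    simp only [G]; rw [WellFounded.fix_eq]
  refine ⟨fun ξ => G ξ, fun ξ => ⟨(G ξ).2, ?_⟩⟩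
  have := hnxt ξ (fun p => G p)
  rw [← hG] at this
  rwa [image_eq_range]

end Pool.Agent.Lib.MP_4a9e55_an
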