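import Pool.Agent.Lib.MP_4a9e55_an.T3

set_option autoImplicit false

open Cardinal Set Filter
open scoped ENNReal

namespace Pool.Agent.Lib.MP_4a9e55_an

variable {Γ : Type} {κ β γ : Cardinal.{0}}
variable {X : Type} [NormedAddCommGroup X] [NormedSpace ℝ X]

theorem power_le_self_of_cof {ρ : Cardinal.{0}} (h0 : ℵ₀ ≤ β) (hρ : ρ < β.ord.cof)
    (h : ∀ δ < β, δ ^ ρ ≤ β) : β ^ ρ ≤ β := by
  have h1 : (Set.univ : Set (OT ρ → OT β)) ⊆
      ⋃ x : OT β, range fun (f : OT ρ → Iio x) j => (f j).1 := fun f _ => by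
    obtain ⟨x, hx⟩ := exists_ub_fun f (by rwa [mk_OT])
    exact mem_iUnion.mpr ⟨x, fun j => ⟨f j, hx j⟩, rfl⟩
  have h2 := (mk_le_mk_of_subset h1).trans (mk_iUnion_le _)
  rw [mk_univ, mk_pi, prod_const', mk_OT, mk_OT] at h2
  have : Nonempty (OT β) := mk_ne_zero_iff.mp (by rw [mk_OT]; exact (aleph0_pos.trans_le h0).ne')
  refine h2.trans ((mul_le_mul' le_rfl (ciSup_le fun x => mk_range_le.trans ?_)).trans
    (mul_eq_self h0).le)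
  rw [mk_pi, prod_const', mk_OT]
  exact h _ (mk_Iio_OT x)

theorem powerlt_lt_of_cof_lt (hκ : κ.IsRegular) (h0 : ℵ₀ ≤ β) (hκβ : κ ≤ β) (hθ : β.ord.cof < κ)
    {δ : Cardinal.{0}} (hδ : δ ≠ 0) (h : ∀ ρ < κ, δ ^ ρ < β) : δ ^< κ < β := by
  by_contra hc
  obtain ⟨g, hg⟩ := exists_cofinal_fun β (OT β.ord.cof) (mk_OT _)
  choose ρ h1 h2 using fun ξ => lt_powerlt ((mk_Iic_OT h0 (g ξ)).trans_le (not_lt.mp hc))
  have h3 : (⨆ ξ, ρ ξ) < κ := iSup_lt_of_lt_cof_ord (by rwa [mk_OT, hκ.cof_ord]) h1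
  have h4 : (Set.univ : Set (OT β)) ⊆ ⋃ ξ, Iic (g ξ) := fun x _ => mem_iUnion.mpr (hg x)
  have h5 := (mk_le_mk_of_subset h4).trans (mk_iUnion_le _)
  rw [mk_univ, mk_OT, mk_OT] at h5
  refine absurd h5 (not_le.mpr (mul_lt_of_lt h0 (hθ.trans_le hκβ) (lt_of_le_of_lt ?_ (h _ h3))))
  exact ciSup_le' fun ξ => (h2 ξ).le.trans
    (power_le_power_left hδ (le_ciSup (f := ρ) bddAbove_of_small ξ))

theorem powerlt_lt_of_lt_cof (hθ : κ < β.ord.cof) {δ : Cardinal.{0}} (h : ∀ ρ < κ, δ ^ ρ < β) :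
    δ ^< κ < β := by
  refine lt_of_le_of_lt (powerlt_le.mpr fun ρ hρ => ?_)
    (iSup_lt_of_lt_cof_ord (f := fun x : OT κ => δ ^ #(Iio x)) (by rwa [mk_OT])
      fun x => h _ (mk_Iio_OT x))
  obtain ⟨x, rfl⟩ := exists_Iio_eq hρ
  exact le_ciSup (f := fun x : OT κ => δ ^ #(Iio x)) bddAbove_of_small x

theorem emb_pow_of_B [CompleteSpace X] {ρ : Cardinal.{0}} (h0 : ℵ₀ ≤ ρ) (h : Emb (B (OT ρ)) X)
    (J : Type) (hJ : #J ≤ 2 ^ ρ) : Emb (L1 J) X := by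
  have : Infinite (OT ρ) := infinite_iff.mpr (h0.trans (mk_OT ρ).ge)
  exact ((fkh (OT ρ)).trans h).l1_mono (by rwa [mk_set, mk_OT])

/-- a large antichain of the null ideal of `P` gives `ℓ¹ (2 ^ ρ)` -/
theorem t1pow [CompleteSpace X] (hX : Inj X) (P : B Γ →L[ℝ] X) {ρ : Cardinal.{0}} (hρ : ℵ₀ < ρ)
    {𝒜 : Set (Set Γ)} (h𝒜 : AC (jF P) 𝒜) (hc : ρ ≤ #𝒜) (J : Type) (hJ : #J ≤ 2 ^ ρ) :
    Emb (L1 J) X := by
  rcases (isRegular_cof_ord hρ.le).aleph0_le.lt_or_eq with h | h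
  · exact emb_pow_of_B hρ.le (t1step hX P h h𝒜 hc) J hJ
  obtain ⟨b, hb⟩ := exists_scale_nat ρ h.symm
  refine Emb.l1_mono (ι := Set (OT ρ)) ?_ (by rwa [mk_set, mk_OT])
  refine tw glue X hX (fun n => Set (Iic (b n)) × ℕ) (fun n => inferInstance) (fun n => ?_) _
    (fun n s => (Subtype.val ⁻¹' s, 0)) fun s s' hne => ?_
  · have h1 : ℵ₀ ≤ max #(Iic (b n)) ℵ₀ := le_max_right _ _
    have h2 := isRegular_succ h1
    refine emb_pow_of_B h2.aleph0_le (t1step hX P (by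
      rw [h2.cof_ord]; exact h1.trans_lt (Order.lt_succ _)) h𝒜
      ((Order.succ_le_of_lt (max_lt (mk_Iic_OT hρ.le _) hρ)).trans hc)) _ ?_
    simp only [mk_prod, lift_id, mk_nat, mk_set]
    have h3 := h2.aleph0_le.trans (cantor _).le
    exact (mul_le_mul' (power_le_power_left two_ne_zero ((le_max_left _ _).trans
      (Order.le_succ _))) h3).trans (mul_eq_self h3).le
  · obtain ⟨x, hx⟩ : ∃ x, ¬ (x ∈ s ↔ x ∈ s') := not_forall.mp fun h' => hne (Set.ext h')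
    exact (hb x).mono fun n hn he => hx (Set.ext_iff.mp (congrArg Prod.fst he) ⟨x, hn⟩)

/-- either `ℓ¹ (2 ^ ρ)` or a chain condition at most `ρ` -/
theorem t1case [CompleteSpace X] (hX : Inj X) (P : B Γ →L[ℝ] X) {ρ : Cardinal.{0}} (hρ : ℵ₀ < ρ)
    (J : Type) (hJ : #J ≤ 2 ^ ρ) :
    Emb (L1 J) X ∨ ∃ κ ≤ ρ, κ.IsRegular ∧ ℵ₀ < κ ∧ CC (jF P) κ := by
  by_cases h1 : ∃ μ < ρ, CC (jF P) μ
  · obtain ⟨μ, h1, h2⟩ := h1
    have h3 : ℵ₀ ≤ max μ ℵ₀ := le_max_right _ _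
    exact Or.inr ⟨_, Order.succ_le_of_lt (max_lt h1 hρ), isRegular_succ h3,
      h3.trans_lt (Order.lt_succ _), h2.mono ((le_max_left _ _).trans (Order.le_succ _))⟩
  rcases (Ordinal.cof_ord_le ρ).lt_or_eq with h2 | h2
  · unfold CC at h1
    push Not at h1
    obtain ⟨𝒜, h3, h4⟩ := erdos_tarski hρ h2 h1
    exact Or.inl (t1pow hX P hρ h3 h4 J hJ)
  · by_cases h3 : CC (jF P) ρ
    · exact Or.inr ⟨ρ, le_rfl, ⟨hρ.le, h2.ge⟩, hρ, h3⟩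
    · unfold CC at h3
      push Not at h3
      obtain ⟨𝒜, h3, h4⟩ := h3
      exact Or.inl (t1pow hX P hρ h3 h4 J hJ)

/-- the countable chain condition case -/
def CCCStmt : Prop :=
  ∀ (X : Type) [NormedAddCommGroup X] [NormedSpace ℝ X] [CompleteSpace X] (Γ : Type)
    (F : Filter Γ) (i : X →L[ℝ] B Γ) (P : B Γ →L[ℝ] X) (γ : Cardinal.{0}),
    (∀ x, ‖i x‖ = ‖x‖) → (∀ x, P (i x) = x) → CC F ℵ₁ → Big ℵ₁ γ → ℵ₀ < γ.ord.cof →
    #(Ker F i) < γ → γ ≤ #X → Emb (L1 (OT γ)) X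

theorem main_ind (ccc : CCCStmt) [CompleteSpace X] (hX : Inj X) (i : X →L[ℝ] B Γ)
    (hi : ∀ x, ‖i x‖ = ‖x‖) (P : B Γ →L[ℝ] X) (hP : ∀ x, P (i x) = x) (hγ : γ ≤ #X)
    (hc : 𝔠 < γ) (κ : Cardinal.{0}) : κ.IsRegular → ℵ₀ < κ →
    (κ ≤ ℵ₁ ∨ (γ.IsRegular ∧ ¬ γ.IsStrongLimit) ∨ γ.ord.cof ≤ ℵ₁) →
    ∀ F : Filter Γ, CC F κ → (∀ ρ < κ, #(Ker F i) ^ ρ < γ) → Emb (L1 (OT γ)) X := by
  induction κ using WellFoundedLT.induction with
  | ind κ ih =>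
  intro hκ hu H F hC hK
  have hγ0 : ℵ₀ < γ := aleph0_lt_continuum.trans hc
  have hγ1 : ℵ₁ < γ := aleph_one_le_continuum.trans_lt hc
  have H' : ∀ κ' < κ, κ' ≤ ℵ₁ ∨ (γ.IsRegular ∧ ¬ γ.IsStrongLimit) ∨ γ.ord.cof ≤ ℵ₁ :=
    fun κ' h => H.imp_left fun h' => h.le.trans h'
  by_cases ha : ∃ ρ < κ, γ ≤ 2 ^ ρ
  · obtain ⟨ρ, h1, h2⟩ := ha
    have h3 : ℵ₀ < ρ := by
      by_contra h3
      have := h2.trans (power_le_power_left two_ne_zero (not_lt.mp h3))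
      rw [two_power_aleph0] at this
      exact absurd this (not_le.mpr hc)
    rcases t1case hX P h3 (OT γ) ((mk_OT γ).le.trans h2) with h | ⟨κ', h4, h5, h6, h7⟩
    · exact h
    · refine ih κ' (h4.trans_lt h1) h5 h6 (H' _ (h4.trans_lt h1)) _ h7 fun ρ' _ => ?_
      refine ((power_le_power_right (mk_ker_jF i P hP)).trans_eq one_power).trans_lt ?_
      exact one_lt_aleph0.trans hγ0
  push Not at ha
  obtain ⟨β, ⟨ρ, hρ, hβρ⟩, hmin⟩ := wellFounded_lt.has_min {β | ∃ ρ < κ, γ ≤ β ^ ρ}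
    ⟨γ, 1, one_lt_aleph0.trans hu, by simp⟩
  have hlt : ∀ δ < β, ∀ ρ' < κ, δ ^ ρ' < γ := fun δ hδ ρ' hρ' =>
    not_le.mp fun h => hmin δ ⟨ρ', hρ', h⟩ hδ
  have hβγ : β ≤ γ := not_lt.mp (hmin γ ⟨1, one_lt_aleph0.trans hu, by simp⟩)
  have hpow : ∀ δ < β, ∀ ρ' < κ, δ ^ ρ' < β := fun δ hδ ρ' hρ' => not_le.mp fun h => by
    have := hβρ.trans (power_le_power_right h)
    rw [← power_mul] at this
    exact absurd this (not_le.mpr (hlt δ hδ _ (mul_lt_of_lt hu.le hρ' hρ)))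
  have h2 : 2 < β := not_le.mp fun h =>
    absurd (hβρ.trans (power_le_power_right h)) (not_le.mpr (ha ρ hρ))
  have h0 : ℵ₀ ≤ β := (cantor _).le.trans (hpow 2 h2 _ hu).le
  have hκβ : κ ≤ β := (le_powerlt_exp le_rfl).trans (powerlt_le.mpr fun ρ' h => (hpow 2 h2 ρ' h).le)
  have hKβ : #(Ker F i) < β := not_le.mp fun h =>
    absurd (hβρ.trans (power_le_power_right h)) (not_le.mpr (hK ρ hρ))
  rcases lt_or_ge β.ord.cof κ with hb | hb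
  · have hp : ∀ δ < β, δ ^< κ < β := fun δ hδ => (powerlt_mono (le_max_left δ 2)).trans_lt
      (powerlt_lt_of_cof_lt hκ h0 hκβ hb (two_pos.trans_le (le_max_right _ _)).ne'
        (hpow _ (max_lt hδ h2)))
    have hB : Big κ β := ⟨hκ, hu, (le_powerlt_exp le_rfl).trans_lt (hp 2 h2), hp, hb.trans_le hκβ⟩
    have hfin : Emb (L1 (OT ρ → OT β)) X → Emb (L1 (OT γ)) X := fun h =>
      h.l1_mono (by rwa [mk_pi, prod_const', mk_OT, mk_OT, mk_OT])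
    rcases (isRegular_cof_ord h0).aleph0_le.lt_or_eq with h | h
    · rcases t3 hX hB hC i hi P hP hKβ h hb (OT ρ) (by rwa [mk_OT]) with h' | ⟨F', h3, h4⟩
      · exact hfin h'
      · exact ih _ hb (isRegular_cof_ord h0) h (H' _ hb) F' h3 fun ρ' h' =>
          hlt _ h4 _ (h'.trans hb)
    · exact hfin (t3w hX hB hC i hi P hP hKβ (hβγ.trans hγ) h.symm (OT ρ) (by rwa [mk_OT]))
  · obtain rfl : β = γ := le_antisymm hβγ (hβρ.trans (power_le_self_of_cof h0 (hρ.trans_le hb)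
      fun δ hδ => (hpow δ hδ ρ hρ).le))
    rcases (Ordinal.cof_ord_le β).lt_or_eq with h | h
    · have h1 : κ ≤ ℵ₁ := by
        rcases H with H | H | H
        · exact H
        · exact absurd H.1.cof_ord h.ne
        · exact hb.trans H
      obtain rfl : κ = ℵ₁ := le_antisymm h1 (succ_aleph0 ▸ Order.succ_le_of_lt hu)
      refine ccc X Γ F i P β hi hP hC ⟨hκ, hu, hγ1, fun δ hδ => ?_, h⟩ (hu.trans_le hb) hKβ hγ
      refine lt_of_le_of_lt (powerlt_le.mpr fun ρ' h' => ?_) (hpow _ (max_lt hδ h2) _ hu)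
      exact (power_le_power_right (le_max_left _ _)).trans (power_le_power_left
        (two_pos.trans_le (le_max_right _ _)).ne' (Order.lt_succ_iff.mp (succ_aleph0 ▸ h')))
    · have h1 : κ < β := lt_of_le_of_ne hκβ fun e => by
        rcases H with H | H | H
        · exact absurd (e ▸ H) (not_le.mpr hγ1)
        · exact H.2 ⟨(aleph0_pos.trans hγ0).ne', fun x hx => ha x (e ▸ hx)⟩
        · exact absurd (h ▸ H) (not_le.mpr hγ1)
      exact t2emb ⟨hκ, hu, ⟨h0, h.ge⟩, h1, fun δ hδ =>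
        powerlt_lt_of_lt_cof (h.symm ▸ h1) (hpow δ hδ)⟩ hC i hi P hP hKβ hγ _ (mk_OT _).le

end Pool.Agent.Lib.MP_4a9e55_an
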