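import Pool.Agent.Lib.MP_4a9e55_an.Cap
import Pool.Agent.Lib.MP_4a9e55_an.Main1

set_option autoImplicit false

open Cardinal Set Filter

namespace Pool.Agent.Lib.MP_4a9e55_an

variable {Γ : Type} {F : Filter Γ} {κ τ : Cardinal.{0}}

/-- disjoint servers for countably many near-maximal conditions -/
theorem servers (hG : Good κ τ) (hC : CC F κ) {T : B Γ →L[ℝ] B Γ} {𝒳 : ℕ → Set (B Γ)}
    {S : Set (Set Γ)} (hS : Nice F τ 𝒳 S) (h𝒳 : 𝒳 0 = TB T Set.univ) {c : ℕ → Set Γ}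
    (hc : ∀ n, c n ∈ S) {e : ℕ → ℝ} {ε : ℝ} (hε : 0 < ε)
    (hN : ∀ n, NM F τ T Set.univ (c n) (e n) ε) :
    ∃ D c' : ℕ → Set Γ, (∀ m n, m ≠ n → Disjoint (D m) (D n)) ∧ ∀ n,
      (∀ U ∈ S, U ⊆ c n → Pos F (U ∩ c' n)) ∧
      ∀ c'' ⊆ c' n, Pos F c'' → ¬ VV F τ (TB T (D n)ᶜ) c'' (13 * ε) := by
  let η : ℕ → ℝ := fun n => ε - ε / (n + 1)
  have hη : ∀ n, η n < η (n + 1) := fun n => sub_lt_sub_left
    (div_lt_div_of_pos_left hε (by positivity) (by push_cast; linarith)) _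
  have hη' : ∀ n, η n ≤ ε := fun n => sub_le_self _ (by positivity)
  have h : ∀ (n : ℕ) (E : Set Γ), ∃ D c' : Set Γ, (∀ U ∈ S, Pos F (U ∩ Sml T E (η n))) →
      (∀ U ∈ S, Pos F (U ∩ Sml T (E ∪ D) (η (n + 1)))) ∧ (∀ U ∈ S, U ⊆ c n → Pos F (U ∩ c')) ∧
      ∀ c'' ⊆ c', Pos F c'' → ¬ VV F τ (TB T (D \ E)ᶜ) c'' (13 * ε) := fun n E => by
    by_cases hE : ∀ U ∈ S, Pos F (U ∩ Sml T E (η n))
    · obtain ⟨D, c', h⟩ := server_step hG hC hS h𝒳 (hc n) hε (hN n) (hη n) (hη' n) hE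
      exact ⟨D, c', fun _ => h⟩
    · exact ⟨∅, ∅, fun h => absurd h hE⟩
  choose D c' h using h
  let E : ℕ → Set Γ := fun n => Nat.rec ∅ (fun n E => E ∪ D n E) n
  have hE : ∀ n, ∀ U ∈ S, Pos F (U ∩ Sml T (E n) (η n)) := fun n => by
    induction n with
    | zero =>
      refine fun U hU => (hS.pos U hU).mono fun t ht => ⟨ht, fun g hg _ => ?_⟩
      have : g = 0 := B.ext' fun s => hg s (notMem_empty s)
      simp [this, η]
    | succ n ih => exact (h n _ ih).1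
  have hmono : Monotone E := monotone_nat_of_le_succ fun n => subset_union_left
  have hd : ∀ m n, m < n → Disjoint (D m (E m) \ E m) (D n (E n) \ E n) := fun m n hmn =>
    Set.disjoint_left.mpr fun t h1 h2 => h2.2 (hmono hmn (Or.inr h1.1))
  exact ⟨fun n => D n (E n) \ E n, fun n => c' n (E n), fun m n hmn =>
    (lt_or_gt_of_ne hmn).elim (hd m n) fun h' => (hd n m h').symm, fun n => (h n _ (hE n)).2⟩

/-- a dense oscillation type is global -/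
theorem glue_ccc (hG : Good ℵ₁ τ) (hC : CC F ℵ₁) {T : B Γ →L[ℝ] B Γ} {a : Set Γ} (ha : Pos F a)
    {r : ℝ} (hr : 0 < r) (h : ∀ b ⊆ a, Pos F b → ∃ c ⊆ b, Pos F c ∧ VV F τ (TB T Set.univ) c r) :
    VV F τ (TB T Set.univ) a (r / 2) := by
  classical
  have hτ := hG.reg.aleph0_le
  set ε := r / 60 with hεd
  have hε : 0 < ε := by positivity
  obtain ⟨𝒜, h1, h2, h3⟩ := exists_maxAC (F := F)
    {c | ∃ e, r ≤ e ∧ NM F τ T Set.univ c e ε} fun U ⟨_, _, hU⟩ => hU.1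
  have h4 : ∀ b ⊆ a, Pos F b → ∃ A ∈ 𝒜, Pos F (b ∩ A) := fun b hb hp => by
    obtain ⟨c, h5, h6, h7⟩ := h b hb hp
    obtain ⟨c', h8, h9⟩ := exists_NM hτ hε h6 h7
    obtain ⟨A, hA, h10⟩ := h3 c' h9
    exact ⟨A, hA, h10.mono (inter_subset_inter_left _ (h8.trans h5))⟩
  obtain ⟨c, rfl⟩ := (le_aleph0_iff_set_countable.mp (lt_aleph_one_iff.mp (hC _ h2))).exists_eq_range
    (by obtain ⟨A, hA, -⟩ := h4 a subset_rfl ha; exact ⟨A, hA⟩)
  choose e he hN using fun n => h1 (mem_range_self n)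
  intro 𝒰 h𝒰 hp
  obtain ⟨S, hS0, hS⟩ := exists_nice hG hC (fun _ => TB T Set.univ) (𝒰 ∪ range c)
    ((mk_union_le _ _).trans_lt (add_lt_of_lt hτ h𝒰 ((hC _ h2).trans hG.lt)))
    fun U hU => hU.elim (hp U) (h2.1 U)
  have hcS : ∀ n, c n ∈ S := fun n => hS0 (Or.inr (mem_range_self n))
  obtain ⟨D, c', hD, hc'⟩ := servers hG hC hS rfl hcS hε hN
  obtain ⟨S', hS0', hS'⟩ := exists_nice hG hC (fun n => TB T (D n)ᶜ) (rf F S (range c'))
    (mk_rf_lt hτ hS.small (mk_range_le.trans_lt (by simpa using hG.aleph0_lt))) fun V hV => hV.1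
  choose y hy hosc using fun n => (hN n).2.1 S' hS'.small hS'.pos
  choose g hg hgy using hy
  let G : B Γ := mkB (fun s => if h : ∃ n, s ∈ D n then g h.choose s else 0) 1 fun s => by
    split_ifs with h
    · exact (B.abs_le _ s).trans (hg _).2
    · simp
  have hG1 : ‖G‖ ≤ 1 := B.norm_le zero_le_one fun s => by
    simp only [G, mkB_apply]
    split_ifs with h
    · exact (B.abs_le _ s).trans (hg _).2
    · simp
  have hG2 : ∀ n, ∀ s ∈ D n, G s = g n s := fun n s hs => by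
    have h : ∃ n, s ∈ D n := ⟨n, hs⟩
    have : h.choose = n := by
      by_contra hne
      exact Set.disjoint_left.mp (hD _ _ hne) h.choose_spec hs
    simp only [G, mkB_apply, dif_pos h, this]
  refine ⟨T G, ⟨G, ⟨fun t ht => absurd trivial ht, hG1⟩, rfl⟩, fun U hU hUa => ?_⟩
  obtain ⟨_, ⟨n, rfl⟩, h5⟩ := h4 U hUa (hp U hU)
  have h6 := hS.inter U (hS0 (Or.inl hU)) _ (hcS n) h5
  have h7 := hS0' (mem_rf h6 (mem_range_self n) ((hc' n).1 _ h6 inter_subset_right))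
  have hy' : T (hs G (-g n)) ∈ TB T (D n)ᶜ :=
    ⟨_, ⟨fun s hs => by rw [hs_apply, hG2 n s (not_not.mp hs)]; simp,
      norm_hs hG1 (by rw [norm_neg]; exact (hg n).2)⟩, rfl⟩
  obtain ⟨A, hA, hAU, l, k, hf⟩ := exists_flat hS'.pos (T (hs G (-g n))) hε h7
  have h8 : k * ε - l * ε < 30 * ε := by
    by_contra hge
    exact (hc' n).2 A (hAU.trans inter_subset_right) (hS'.pos A hA)
      (hS'.wit' n hA (show 13 * ε < 14 * ε by linarith) hy' (hf.osc (by linarith)))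
  obtain ⟨a₀, h9, h10⟩ := hosc n A hA fun t ht => (hAU ht).1.2
  have h11 : ∀ t, T G t = y n t + 2 * T (hs G (-g n)) t := fun t => by
    rw [T_hs, map_neg, B.neg_apply, hgy]; ring
  have h12 := he n
  refine ⟨a₀ + (k * ε + l * ε), h9.of_null hf.dn fun t ht => ?_, h10.of_null hf.up fun t ht => ?_⟩
  · by_cases h13 : T (hs G (-g n)) t < l * ε
    · exact Or.inl ⟨ht.1, h13⟩
    · have := ht.2
      refine Or.inr ⟨(hAU ht.1).1.1, ?_⟩
      simp only [mem_ofPred_eq, h11] at this ⊢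
      linarith
  · by_cases h13 : k * ε < T (hs G (-g n)) t
    · exact Or.inl ⟨ht.1, h13⟩
    · have := ht.2
      refine Or.inr ⟨(hAU ht.1).1.1, ?_⟩
      simp only [mem_ofPred_eq, h11] at this ⊢
      linarith

/-- stabilisation of a decreasing family of dense properties -/
theorem stabilise {γ : Cardinal.{0}} (hC : CC F κ) (hκ : ℵ₀ < κ) (hκγ : κ ≤ γ.ord.cof)
    (Q : Cardinal.{0} → ℕ → Set Γ → Prop)
    (hQ : ∀ δ δ' n c c', δ' ≤ δ → c' ⊆ c → Q δ n c → Q δ' n c')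
    (h : ∀ δ < γ, ∃ n c, Pos F c ∧ Q δ n c) :
    ∃ n a, Pos F a ∧ ∀ b ⊆ a, Pos F b → ∀ δ < γ, ∃ c ⊆ b, Pos F c ∧ Q δ n c := by
  by_contra hc
  push Not at hc
  choose 𝒜 h1 h2 h3 using fun n => exists_maxAC (F := F)
    {b | Pos F b ∧ ∃ δ < γ, ∀ c ⊆ b, Pos F c → ¬ Q δ n c} fun U hU => hU.1
  choose δ h4 h5 using fun p : Σ n, 𝒜 n => (h1 p.1 p.2.2).2
  have h6 : #(Σ n, 𝒜 n) < γ.ord.cof := by
    have hγ := isRegular_cof_ord (hκ.le.trans (hκγ.trans (Ordinal.cof_ord_le γ)))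
    rw [mk_sigma]
    exact sum_lt_of_isRegular hγ (by simpa using hκ.trans_le hκγ) fun n =>
      (hC _ (h2 n)).trans_le hκγ
  obtain ⟨n, c, h7, h8⟩ := h _ (iSup_lt_of_lt_cof_ord h6 h4)
  obtain ⟨b, h9, h10, h11⟩ := hc n c h7
  obtain ⟨A, hA, h12⟩ := h3 n b ⟨h10, h11⟩
  exact h5 ⟨n, A, hA⟩ _ inter_subset_right h12 (hQ _ _ _ _ _
    (le_ciSup (f := δ) bddAbove_of_small _) (inter_subset_left.trans h9) h8)

theorem ccc : CCCStmt := by
  intro X _ _ _ Γ F i P γ hi hP hC hB hγ hK hX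
  have hN : #X ≤ #(P '' suppSub (Γ := Γ) Set.univ) := (mk_image_top i P hP).trans
    (mk_le_mk_of_subset (image_mono fun g _ t ht => absurd (mem_univ t) ht))
  obtain ⟨n, a, ha, h⟩ := stabilise hC aleph0_lt_aleph_one (aleph_one_le_iff.mpr hγ)
    (fun δ n c => VV F δ (TB (i.comp P) Set.univ) c (1 / ((n : ℝ) + 1)))
    (fun δ δ' n c c' h1 h2 h3 => h3.mono h1 subset_rfl h2 le_rfl) fun δ hδ => by
      obtain ⟨τ, h1, h2, h3⟩ := hB.exists_good (max_lt hδ hK)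
      obtain ⟨c, r, h4, h5, h6⟩ := exists_VV_op h3 hC i P ((le_max_right _ _).trans_lt h2) _
        (h1.le.trans (hX.trans hN))
      obtain ⟨n, hn⟩ := exists_nat_one_div_lt h5
      exact ⟨n, c, h4, h6.mono ((le_max_left _ _).trans h2.le) subset_rfl subset_rfl hn.le⟩
  have hr : (0 : ℝ) < 1 / ((n : ℝ) + 1) := Nat.one_div_pos_of_nat
  set r : ℝ := 1 / ((n : ℝ) + 1)
  obtain ⟨z, h1, h2⟩ := l1_of_split hB.aleph0_lt i hi P {g | g ∈ suppSub Set.univ ∧ ‖g‖ ≤ 1} ha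
    (show 0 ≤ r / 2 - r / 4 by linarith) (fun 𝒰 h𝒰 hp => by
      obtain ⟨τ, h1, h2, h3⟩ := hB.exists_good h𝒰
      obtain ⟨g, hg, h4⟩ := VV.sym_ball h3 hC (i.comp P) _
        (glue_ccc h3 hC ha hr fun b hb hpb => h b hb hpb τ h1) 𝒰 h2 hp
        (show 0 < r / 4 by positivity)
      exact ⟨g, hg, fun U hU hUc => (h4 U hU).2.2 hUc⟩) (OT γ) (mk_OT γ).le
  exact h2.emb (C := ‖P‖) (by linarith) fun j => (P.le_opNorm _).trans
    (mul_le_of_le_one_right (norm_nonneg _) (h1 j).2)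

end Pool.Agent.Lib.MP_4a9e55_an
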