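import Pool.Agent.Lib.MP_4a9e55_an.Card

set_option autoImplicit false

open Cardinal Set

namespace Pool.Agent.Lib.MP_4a9e55_an

/-- transfinite choice with access to the earlier values -/
theorem exists_rec {Θ α : Type} [LinearOrder Θ] [WellFoundedLT Θ]
    (Rel : ∀ ξ : Θ, (Iio ξ → α) → α → Prop) (h : ∀ ξ f, ∃ a, Rel ξ f a) :
    ∃ V : Θ → α, ∀ ξ, Rel ξ (fun p => V p) (V ξ) := by
  choose nxt hnxt using h
  let G : Θ → α := fun ξ => (wellFounded_lt (α := Θ)).fix (C := fun _ => α)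
    (fun ξ rec => nxt ξ (fun p => rec p p.2)) ξ
  have hG : ∀ ξ, G ξ = nxt ξ (fun p => G p) := fun ξ => by
    simp only [G]; rw [WellFounded.fix_eq]
  exact ⟨G, fun ξ => by rw [hG ξ]; exact hnxt ξ _⟩

theorem exists_isLeast {Λ : Type} [LinearOrder Λ] [WellFoundedLT Λ] {s : Set Λ}
    (hs : s.Nonempty) : ∃ x, IsLeast s x := by
  obtain ⟨x, hx, h⟩ := wellFounded_lt.has_min s hs
  exact ⟨x, hx, fun y hy => not_lt.mp (h y hy)⟩

/-- closure points of a monotone function -/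
theorem closed_pt {Λ : Type} [LinearOrder Λ] [WellFoundedLT Λ] (I : Set Λ)
    (hI : ∀ x ∈ I, ∀ y ≤ x, y ∈ I) (hb : ∀ u : ℕ → Λ, (∀ n, u n ∈ I) → ∃ y ∈ I, ∀ n, u n < y)
    {H : Λ → Λ} (hH : Monotone H) (hHI : ∀ x ∈ I, H x ∈ I) {x₀ : Λ} (h₀ : x₀ ∈ I) :
    ∃ e ∈ I, x₀ < e ∧ ∀ y < e, H y < e := by
  have hu : ∀ n, H^[n] x₀ ∈ I := fun n => by
    induction n with
    | zero => exact h₀
    | succ n ih => rw [Function.iterate_succ_apply']; exact hHI _ ih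
  obtain ⟨y, hy, hy'⟩ := hb _ hu
  obtain ⟨e, he, he'⟩ := exists_isLeast (s := {y | ∀ n, H^[n] x₀ < y}) ⟨y, hy'⟩
  refine ⟨e, hI y hy e (he' hy'), he 0, fun z hz => ?_⟩
  obtain ⟨n, hn⟩ : ∃ n, z ≤ H^[n] x₀ := by
    by_contra hc
    push Not at hc
    exact absurd (he' hc) (not_le.mpr hz)
  have := he (n + 1)
  rw [Function.iterate_succ_apply'] at this
  exact (hH hn).trans_lt this

/-- least upper bounds of small sets -/
theorem mono_bound {c : Cardinal.{0}} (hc : c.IsRegular) {A : Type} (Q : A → Set (OT c))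
    (hQ : ∀ a, #(Q a) < c) : ∃ H : A → OT c, (∀ a, ∀ x ∈ Q a, x < H a) ∧
      ∀ a a', Q a ⊆ Q a' → H a ≤ H a' := by
  choose H hH using fun a => exists_isLeast (s := {y | ∀ x ∈ Q a, x < y})
    (exists_ub_OT (by rw [hc.cof_ord]; exact hQ a))
  exact ⟨H, fun a => (hH a).1, fun a a' h => (hH a).2 fun x hx => (hH a').1 x (h hx)⟩

theorem ub_nat {c : Cardinal.{0}} (hc : c.IsRegular) (hu : ℵ₀ < c) (u : ℕ → OT c) :
    ∃ y, ∀ n, u n < y := exists_ub_fun u (by rw [hc.cof_ord]; simpa using hu)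

/-- `δ` has cofinality `θ` -/
def NiceAt (θ : Cardinal.{0}) {Λ : Type} [LinearOrder Λ] (δ : Λ) : Prop :=
  (∃ c : OT θ → Λ, (∀ r, c r < δ) ∧ ∀ y < δ, ∃ r, y ≤ c r) ∧
    ∀ s : Set Λ, (∀ x ∈ s, x < δ) → #s < θ → ∃ y < δ, ∀ x ∈ s, x < y

theorem exists_niceAt {θ c : Cardinal.{0}} (hθ : θ.IsRegular) (hc : c.IsRegular) (hθc : θ < c)
    (H : OT c → OT c) (hH : Monotone H) : ∃ δ : OT c, NiceAt θ δ ∧ ∀ y < δ, H y < δ := by
  obtain ⟨x, hx⟩ := exists_rec (Θ := OT θ) (α := OT c)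
    (fun r f y => ∀ q, f q < y ∧ H (f q) < y) fun r f => by
      obtain ⟨y, hy⟩ := exists_ub_fun (fun q => max (f q) (H (f q)))
        (by rw [hc.cof_ord]; exact (mk_Iio_OT r).trans hθc)
      exact ⟨y, fun q => max_lt_iff.mp (hy q)⟩
  obtain ⟨δ, h1, h2⟩ := exists_isLeast (s := {y | ∀ r, x r < y})
    (exists_ub_fun x (by rwa [hc.cof_ord, mk_OT]))
  have h3 : ∀ y < δ, ∃ r, y ≤ x r := fun y hy => by
    by_contra hcon
    push Not at hcon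
    exact absurd (h2 hcon) (not_le.mpr hy)
  refine ⟨δ, ⟨⟨x, h1, h3⟩, fun s hs hs' => ?_⟩, fun y hy => ?_⟩
  · choose r hr using fun y : s => h3 y (hs y y.2)
    obtain ⟨r₀, h4⟩ := exists_ub_fun r (by rwa [hθ.cof_ord])
    exact ⟨x r₀, h1 r₀, fun y hy => (hr ⟨y, hy⟩).trans_lt (hx r₀ ⟨_, h4 _⟩).1⟩
  · obtain ⟨r, hr⟩ := h3 y hy
    obtain ⟨r₀, h4⟩ := exists_ub_fun (fun _ : Unit => r) (by
      rw [hθ.cof_ord]; simpa using one_lt_aleph0.trans_le hθ.aleph0_le)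
    exact (hH hr).trans_lt ((hx r₀ ⟨r, h4 ()⟩).2.trans (h1 r₀))

/-- coherent small cofinal sets -/
theorem exists_coherent {θ μ : Cardinal.{0}} (hμ : μ.IsRegular) (hu : ℵ₀ < μ) (hθμ : θ < μ) :
    ∃ a : OT (Order.succ μ) → OT μ → Set (OT (Order.succ μ)),
      (∀ δ ξ, #(a δ ξ) < μ ∧ ∀ x ∈ a δ ξ, x < δ) ∧ ∀ δ, NiceAt θ δ → ∃ ξ,
        (∀ y < δ, ∃ x ∈ a δ ξ, y ≤ x) ∧ ∀ x ∈ a δ ξ, ∀ y < x, (y ∈ a δ ξ ↔ y ∈ a x ξ) := by
  classical
  have hne : Nonempty (OT μ) := mk_ne_zero_iff.mp (by rw [mk_OT]; exact hμ.ne_zero)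
  have hi : ∀ α : OT (Order.succ μ), ∃ i : OT (Order.succ μ) → OT μ, InjOn i (Iio α) := fun α => by
    obtain ⟨e⟩ := (Cardinal.le_def (Iio α) (OT μ)).mp
      ((Order.le_of_lt_succ (mk_Iio_OT α)).trans (mk_OT μ).ge)
    refine ⟨fun x => if h : x < α then e ⟨x, h⟩ else Classical.arbitrary _, fun x hx y hy h => ?_⟩
    simp only [dif_pos (mem_Iio.mp hx), dif_pos (mem_Iio.mp hy)] at h
    exact congrArg Subtype.val (e.injective h)
  choose i hi using hi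
  have hs : ∀ α ζ, #{x | x < α ∧ i α x ≤ ζ} < μ := fun α ζ =>
    (mk_le_of_injective (f := fun x : {x | x < α ∧ i α x ≤ ζ} => (⟨i α x, x.2.2⟩ : Iic ζ))
      fun x y h => Subtype.ext (hi α x.2.1 y.2.1 (congrArg Subtype.val h))).trans_lt
      (mk_Iic_OT hu.le ζ)
  refine ⟨fun α ξ => {x | x < α ∧ i α x < ξ}, fun δ ξ => ⟨lt_of_le_of_lt
    (mk_le_mk_of_subset (t := {x | x < δ ∧ i δ x ≤ ξ}) fun x hx => ⟨hx.1, hx.2.le⟩) (hs δ ξ), fun x hx => hx.1⟩, ?_⟩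
  rintro δ ⟨⟨c, hc1, hc2⟩, -⟩
  obtain ⟨H, h1, h2⟩ := mono_bound hμ (fun ζ => (range fun r => i δ (c r)) ∪
      ⋃ x ∈ {x | x < δ ∧ i δ x ≤ ζ}, (i x '' {y | y < δ ∧ i δ y ≤ ζ} ∪
        i δ '' {y | y < x ∧ i x y ≤ ζ})) fun ζ => by
    refine (mk_union_le _ _).trans_lt (add_lt_of_lt hu.le
      (mk_range_le.trans_lt (by rwa [mk_OT])) ?_)
    rw [biUnion_eq_iUnion]
    exact (card_iUnion_lt_iff_forall_of_isRegular hμ (hs δ ζ)).mpr fun x =>
      (mk_union_le _ _).trans_lt (add_lt_of_lt hu.le (mk_image_le.trans_lt (hs δ ζ))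
        (mk_image_le.trans_lt (hs x ζ)))
  obtain ⟨ξ, -, h3, h4⟩ := closed_pt (Λ := OT μ) univ (fun _ _ _ _ => trivial)
    (fun u _ => by obtain ⟨y, hy⟩ := ub_nat hμ hu u; exact ⟨y, trivial, hy⟩) (H := H)
    (fun ζ ζ' h => h2 _ _ (union_subset_union_right _ (biUnion_mono
      (fun x hx => ⟨hx.1, hx.2.trans h⟩) fun x _ => union_subset_union
        (image_mono fun y hy => ⟨hy.1, hy.2.trans h⟩) (image_mono fun y hy => ⟨hy.1, hy.2.trans h⟩))))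
    (fun _ _ => trivial) (mem_univ (Classical.arbitrary _))
  refine ⟨ξ, fun y hy => ?_, fun x hx y hy => ⟨fun h => ⟨hy, ?_⟩, fun h => ⟨hy.trans hx.1, ?_⟩⟩⟩
  · obtain ⟨r, hr⟩ := hc2 y hy
    exact ⟨c r, ⟨hc1 r, (h1 _ _ (Or.inl ⟨r, rfl⟩)).trans (h4 _ h3)⟩, hr⟩
  · exact (h1 _ _ (Or.inr (mem_biUnion (x := x) ⟨hx.1, le_max_left _ _⟩
      (Or.inl ⟨y, ⟨h.1, le_max_right _ _⟩, rfl⟩)))).trans (h4 _ (max_lt hx.2 h.2))
  · exact (h1 _ _ (Or.inr (mem_biUnion (x := x) ⟨hx.1, le_max_left _ _⟩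
      (Or.inr ⟨y, ⟨hy, le_max_right _ _⟩, rfl⟩)))).trans (h4 _ (max_lt hx.2 h.2))

/-- the points of `a` closed under `H` inside `a` -/
def thin {Λ : Type} [LinearOrder Λ] (H : Λ → Λ) (a : Set Λ) : Set Λ :=
  {x | x ∈ a ∧ ∀ y ∈ a, y < x → H y ≤ x}

/-- club guessing -/
theorem club_guess {θ μ : Cardinal.{0}} (hθ : θ.IsRegular) (hμ : μ.IsRegular) (hθμ : θ < μ)
    (a : OT (Order.succ μ) → Set (OT (Order.succ μ))) (ha : ∀ δ, #(a δ) < μ) :
    ∃ H : OT (Order.succ μ) → OT (Order.succ μ), Monotone H ∧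
      ∀ G : OT (Order.succ μ) → OT (Order.succ μ), ∃ δ, NiceAt θ δ ∧ (∀ y < δ, H y < δ) ∧
        ∀ x ∈ thin H (a δ), ∀ x' ∈ thin H (a δ), x < x' → G x ≤ x' := by
  classical
  by_contra hcon
  push Not at hcon
  choose! G hG using hcon
  have hs := isRegular_succ hμ.aleph0_le
  have hb : ∀ (I : Type) (f : I → OT (Order.succ μ) → OT (Order.succ μ)), #I ≤ μ →
      ∃ H : OT (Order.succ μ) → OT (Order.succ μ), Monotone H ∧ ∀ j y, f j y ≤ H y := by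
    intro I f hI
    obtain ⟨H, h1, h2⟩ := mono_bound hs (fun y => ⋃ j, f j '' Iic y) fun y =>
      (card_iUnion_lt_iff_forall_of_isRegular hs (hI.trans_lt (Order.lt_succ μ))).mpr fun j =>
        mk_image_le.trans_lt (mk_Iic_OT hs.aleph0_le y)
    exact ⟨H, fun y y' h => h2 _ _ (iUnion_mono fun j => image_mono (Iic_subset_Iic.mpr h)),
      fun j y => (h1 y _ (mem_iUnion.mpr ⟨j, y, mem_Iic.mpr le_rfl, rfl⟩)).le⟩
  obtain ⟨H, hH⟩ := exists_rec (Θ := OT μ) (α := OT (Order.succ μ) → OT (Order.succ μ))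
    (fun r f H => Monotone H ∧ ∀ q y, max (f q y) (G (f q) y) ≤ H y) fun r f =>
      hb _ _ (mk_Iio_OT r).le
  obtain ⟨H', h1, h2⟩ := hb _ H (mk_OT μ).le
  obtain ⟨δ, h3, h4⟩ := exists_niceAt hθ hs (hθμ.trans (Order.lt_succ μ)) H' h1
  have h5 : ∀ r, ∃ x' ∈ thin (H r) (a δ), ∀ r', r < r' → x' ∉ thin (H r') (a δ) := fun r => by
    obtain ⟨x, hx, x', hx', h6, h7⟩ := hG (H r) (hH r).1 δ h3
      fun y hy => (h2 r y).trans_lt (h4 y hy)
    exact ⟨x', hx', fun r' hr' h => absurd ((le_max_right _ _).trans (((hH r').2 ⟨r, hr'⟩ x).trans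
      (h.2 x hx.1 h6))) (not_le.mpr h7)⟩
  choose x hx hx' using h5
  have h6 : Function.Injective fun r => (⟨x r, (hx r).1⟩ : a δ) := fun r r' h => by
    have h7 : x r = x r' := congrArg Subtype.val h
    by_contra hne
    rcases lt_or_gt_of_ne hne with h8 | h8
    · exact hx' r r' h8 (h7 ▸ hx r')
    · exact hx' r' r h8 (h7 ▸ hx r)
  have := mk_le_of_injective h6
  rw [mk_OT] at this
  exact absurd this (not_le.mpr (ha δ))

/-- a small tree of columns in which no opponent can kill all branches -/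
theorem guess {θ μ : Cardinal.{0}} (hθ : θ.IsRegular) (hu : ℵ₀ < θ) (hμ : μ.IsRegular)
    (hθμ : θ < μ) : ∃ (L Nd V : Type) (nd : OT θ → L → Nd) (val : OT θ → L → V),
      #L ≤ Order.succ μ ∧ Infinite V ∧
      (∀ r l l', nd r l = nd r l' → ∀ q < r, nd q l = nd q l' ∧ val q l = val q l') ∧
      ∀ S : OT θ → Nd → Set V, (∀ r s, (S r s).Finite) → ∃ l, ∀ r, val r l ∉ S r (nd r l) := by
  classical
  have hs := isRegular_succ hμ.aleph0_le
  obtain ⟨a, ha, hξ⟩ := exists_coherent hμ (hu.trans hθμ) hθμ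
  have hne : Nonempty (OT μ) := mk_ne_zero_iff.mp (by rw [mk_OT]; exact hμ.ne_zero)
  choose! ξ hξ1 hξ2 using hξ
  obtain ⟨H, hH, hG⟩ := club_guess hθ hμ hθμ (fun δ => a δ (ξ δ)) fun δ => (ha _ _).1
  let L := {δ : OT (Order.succ μ) // NiceAt θ δ ∧ ∀ y < δ, H y < δ}
  let b : L → Set (OT (Order.succ μ)) := fun δ => thin H (a δ (ξ δ))
  have hb : ∀ (δ : L) (s : Set (OT (Order.succ μ))), (∀ x ∈ s, x < δ) → #s < θ →
      ∃ z, IsLeast {x | x ∈ b δ ∧ ∀ y ∈ s, y < x} z := fun δ s h1 h2 => by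
    obtain ⟨y, hy, hy'⟩ := δ.2.1.2 s h1 h2
    obtain ⟨e, he, h3, h4⟩ := closed_pt (Iio δ.1) (fun x hx y hy => hy.trans_lt hx)
      (fun u hu' => by
        obtain ⟨y, hy, hy'⟩ := δ.2.1.2 (range u) (by rintro _ ⟨n, rfl⟩; exact hu' n)
          (mk_range_le.trans_lt (by simpa using hu))
        exact ⟨y, hy, fun n => hy' _ ⟨n, rfl⟩⟩) hH δ.2.2 hy
    obtain ⟨x, hx, hx'⟩ := exists_isLeast (s := {x | x ∈ a δ (ξ δ) ∧ e ≤ x}) (hξ1 _ δ.2.1 e he)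
    refine exists_isLeast ⟨x, ⟨hx.1, fun z hz hzx => ?_⟩, fun z hz =>
      (hy' z hz).trans (h3.trans_le hx.2)⟩
    exact (h4 z (not_le.mp fun h => absurd (hx' ⟨hz, h⟩) (not_le.mpr hzx))).le.trans hx.2
  have hg : ∀ δ : L, ∃ g : OT θ → OT (Order.succ μ),
      ∀ r, IsLeast {x | x ∈ b δ ∧ ∀ y ∈ g '' Iio r, y < x} (g r) := fun δ => by
    obtain ⟨g, hg⟩ := exists_rec (Θ := OT θ) (α := OT (Order.succ μ))
      (fun r f z => (∀ q, f q < δ) → IsLeast {x | x ∈ b δ ∧ ∀ y ∈ range f, y < x} z) fun r f => by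
        by_cases h : ∀ q, f q < δ
        · obtain ⟨z, hz⟩ := hb δ (range f) (by rintro _ ⟨q, rfl⟩; exact h q)
            (mk_range_le.trans_lt (mk_Iio_OT r))
          exact ⟨z, fun _ => hz⟩
        · exact ⟨δ, fun h' => absurd h' h⟩
    refine ⟨g, fun r => ?_⟩
    induction r using WellFoundedLT.induction with
    | ind r ih =>
      rw [image_eq_range]
      exact hg r fun q => (ha _ _).2 _ (ih q q.2).1.1.1
  choose g hg using hg
  choose v hv using fun (r : OT θ) (δ : L) => hb δ {g δ r}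
    (fun x hx => hx ▸ (ha _ _).2 _ (hg δ r).1.1.1) (by simpa using one_lt_aleph0.trans hu)
  refine ⟨L, OT (Order.succ μ) × OT μ, OT (Order.succ μ), fun r δ => (g δ r, ξ δ), v,
    (mk_set_le _).trans (mk_OT _).le, infinite_iff.mpr (hs.aleph0_le.trans (mk_OT _).ge),
    fun r l l' h => ?_, fun S hS => ?_⟩
  · obtain ⟨h1, h2⟩ := Prod.mk.inj h
    have h3 : ∀ y < g l r, (y ∈ a l (ξ l) ↔ y ∈ a l' (ξ l')) := fun y hy => by
      rw [hξ2 _ l.2.1 _ (hg l r).1.1.1 y hy, hξ2 _ l'.2.1 _ (hg l' r).1.1.1 y (h1 ▸ hy), h1, h2]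
    have h4 : ∀ y ≤ g l r, (y ∈ b l ↔ y ∈ b l') := fun y hy => by
      rcases hy.eq_or_lt with rfl | hy
      · exact ⟨fun _ => h1 ▸ (hg l' r).1.1, fun _ => (hg l r).1.1⟩
      · exact and_congr (h3 y hy) (forall_congr' fun z => ⟨fun h hz hzy =>
          h ((h3 z (hzy.trans hy)).mpr hz) hzy, fun h hz hzy =>
          h ((h3 z (hzy.trans hy)).mp hz) hzy⟩)
    have h5 : ∀ (s : Set (OT (Order.succ μ))) (z z' : OT (Order.succ μ)),
        (∀ y ∈ s, y < g l r) → IsLeast {x | x ∈ b l ∧ ∀ y ∈ s, y < x} z →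
        IsLeast {x | x ∈ b l' ∧ ∀ y ∈ s, y < x} z' → z = z' := fun s z z' h6 h7 h8 =>
      le_antisymm (h7.2 ⟨(h4 _ (h8.2 ⟨(h4 _ le_rfl).mp (hg l r).1.1, h6⟩)).mpr h8.1.1, h8.1.2⟩)
        (h8.2 ⟨(h4 _ (h7.2 ⟨(hg l r).1.1, h6⟩)).mp h7.1.1, h7.1.2⟩)
    have h6 : ∀ q < r, g l q = g l' q := fun q => by
      induction q using WellFoundedLT.induction with
      | ind q ih =>
        intro hq
        refine h5 (g l '' Iio q) _ _ (fun y hy => (hg l r).1.2 y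
          (image_mono (Iio_subset_Iio hq.le) hy)) (hg l q) ?_
        rw [image_congr (s := Iio q) fun p hp => ih p hp (lt_trans hp hq)]
        exact hg l' q
    refine fun q hq => ⟨Prod.ext (h6 q hq) h2, h5 {g l q} _ _
      (fun y hy => hy ▸ (hg l r).1.2 _ ⟨q, hq, rfl⟩) (hv q l) ?_⟩
    rw [h6 q hq]
    exact hv q l'
  · obtain ⟨G, h1, -⟩ := mono_bound hs (fun x => ⋃ p : OT θ × OT μ, S p.1 (x, p.2)) fun x =>
      (card_iUnion_lt_iff_forall_of_isRegular hs (by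
        simp only [mk_prod, lift_id, mk_OT]
        exact ((mul_le_mul' hθμ.le le_rfl).trans (mul_eq_self hμ.aleph0_le).le).trans_lt
          (Order.lt_succ μ))).mpr fun p => (hS _ _).lt_aleph0.trans_le hs.aleph0_le
    obtain ⟨δ, h2, h3, h4⟩ := hG G
    refine ⟨⟨δ, h2, h3⟩, fun r hr => ?_⟩
    exact absurd (h4 _ (hg ⟨δ, h2, h3⟩ r).1.1 _ (hv r ⟨δ, h2, h3⟩).1.1
      ((hv r _).1.2 _ rfl)) (not_le.mpr (h1 _ _ (mem_iUnion.mpr ⟨(r, ξ δ), hr⟩)))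

/-- the third successor -/
noncomputable def s3 (θ : Cardinal.{0}) : Cardinal.{0} := Order.succ (Order.succ (Order.succ θ))

theorem lt_s3 (θ : Cardinal.{0}) : Order.succ θ < s3 θ :=
  (Order.lt_succ _).trans (Order.lt_succ _)

theorem isRegular_s3 {θ : Cardinal.{0}} (hθ : ℵ₀ ≤ θ) : (s3 θ).IsRegular :=
  isRegular_succ (hθ.trans ((Order.le_succ _).trans (Order.le_succ _)))

theorem guess' {R : Type} {θ : Cardinal.{0}} (hθ : ℵ₀ ≤ θ) (hR : #R ≤ θ) :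
    ∃ (_ : LinearOrder R) (_ : WellFoundedLT R) (L Nd V : Type) (nd : R → L → Nd)
      (val : R → L → V), #L ≤ s3 θ ∧
      (∀ r l l', nd r l = nd r l' → ∀ q < r, nd q l = nd q l' ∧ val q l = val q l') ∧
      ∀ S : R → Nd → Set V, (∀ r s, (S r s).Finite) → ∃ l, ∀ r, val r l ∉ S r (nd r l) := by
  obtain ⟨L, Nd, V, nd, val, h1, -, h2, h3⟩ := guess (isRegular_succ hθ)
    (hθ.trans_lt (Order.lt_succ θ)) (isRegular_succ (hθ.trans (Order.le_succ θ))) (Order.lt_succ _)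
  obtain ⟨e⟩ := (Cardinal.le_def R (OT (Order.succ θ))).mp
    (hR.trans ((Order.le_succ θ).trans (mk_OT _).ge))
  let _ : LinearOrder R := LinearOrder.lift' e e.injective
  refine ⟨inferInstance, ⟨InvImage.wf e wellFounded_lt⟩, L, Nd, V, fun r => nd (e r),
    fun r => val (e r), h1, fun r l l' h q hq => h2 _ l l' h _ hq, fun S hS => ?_⟩
  obtain ⟨l, hl⟩ := h3 (fun x s => ⋃ r ∈ e ⁻¹' {x}, S r s) fun x s =>
    ((finite_singleton x).preimage e.injective.injOn).biUnion fun r _ => hS r s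
  exact ⟨l, fun r hr => hl (e r) (mem_biUnion (x := r) rfl hr)⟩

end Pool.Agent.Lib.MP_4a9e55_an
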