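import Pool.Agent.Lib.MP_4a9e55_an.T5

set_option autoImplicit false

open Cardinal Set Filter
open scoped ENNReal

namespace Pool.Agent.Lib.MP_4a9e55_an

variable {Γ : Type} {F : Filter Γ} {κ τ β : Cardinal.{0}}
variable {X : Type} [NormedAddCommGroup X] [NormedSpace ℝ X]

/-- Engelking-Karlowicz -/
theorem ek {N S : Type} [Infinite N] (hS : #S ≤ 2 ^ #N) :
    ∃ f : N → S → N, ∀ (T : Finset S) (p : S → N), ∃ n, ∀ ξ ∈ T, f n ξ = p ξ := by
  classical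
  obtain ⟨a⟩ := (Cardinal.le_def S (Set N)).mp (by rwa [mk_set])
  obtain ⟨d⟩ : Nonempty (N ≃ Finset N × Finset (Finset N × N)) := by
    rw [← Cardinal.eq]
    simp
  refine ⟨fun n ξ => if h : ∃ y, ((d n).1.filter (· ∈ a ξ), y) ∈ (d n).2 then h.choose
    else Classical.arbitrary N, fun T p => ?_⟩
  have hsep : ∀ ξ η : S, ∃ t : N, (t ∈ a ξ ↔ t ∈ a η) → ξ = η := fun ξ η => by
    by_contra hc
    push Not at hc
    exact (hc (Classical.arbitrary N)).2 (a.injective (Set.ext fun t => (hc t).1))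
  choose u hu using hsep
  let s : Finset N := (T ×ˢ T).image fun q => u q.1 q.2
  refine ⟨d.symm (s, T.image fun ξ => (s.filter (· ∈ a ξ), p ξ)), fun ξ hξ => ?_⟩
  simp only [Equiv.apply_symm_apply]
  have h : ∃ y, (s.filter (· ∈ a ξ), y) ∈ T.image fun ξ => (s.filter (· ∈ a ξ), p ξ) :=
    ⟨p ξ, Finset.mem_image_of_mem _ hξ⟩
  rw [dif_pos h]
  obtain ⟨η, hη, he⟩ := Finset.mem_image.mp h.choose_spec
  have h1 := Finset.ext_iff.mp (congrArg Prod.fst he) (u η ξ)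
  have h2 : u η ξ ∈ s := Finset.mem_image.mpr ⟨(η, ξ), Finset.mem_product.mpr ⟨hη, hξ⟩, rfl⟩
  simp only [Finset.mem_filter, h2, true_and] at h1
  exact (congrArg Prod.snd he).symm.trans (congrArg p (hu η ξ h1))

/-- dense sets met on one of many pieces -/
theorem pieces {N S : Type} [Infinite N] [LinearOrder S] [WellFoundedLT S] (hS : #S ≤ 2 ^ #N)
    (hI : ∀ ξ : S, #(Iio ξ) ≤ #N) (U : N → Set Γ) (hU : ∀ j, Pos F (U j))
    (D : N → S → Set Γ → Prop)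
    (hD : ∀ j ξ A, A ⊆ U j → Pos F A → ∃ E ⊆ A, Pos F E ∧ D j ξ E) :
    ∃ E : N → S → Set Γ, (∀ j ξ, E j ξ ⊆ U j ∧ D j ξ (E j ξ)) ∧
      ∀ T : Finset S, T.Nonempty → ∃ j, Pos F (⋂ ξ ∈ T, E j ξ) := by
  classical
  obtain ⟨f, hf⟩ := ek hS
  have hdec : ∀ ξ : S, ∃ g : N → Option (Iio ξ), Function.Surjective g := fun ξ => by
    have h1 : #(Option (Iio ξ)) ≤ #N := by
      rw [mk_option]
      exact (add_le_add (hI ξ) (one_le_aleph0.trans (aleph0_le_mk N))).trans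
        (add_eq_self (aleph0_le_mk N)).le
    obtain ⟨e⟩ := (Cardinal.le_def _ _).mp h1
    exact ⟨Function.invFun e, Function.invFun_surjective e.injective⟩
  choose g hg using hdec
  let C : N → Type := fun j => {A : Set Γ // A ⊆ U j ∧ Pos F A}
  have hD' : ∀ j ξ (A : C j), ∃ E : C j, E.1 ⊆ A.1 ∧ D j ξ E.1 := fun j ξ A => by
    obtain ⟨E, h1, h2, h3⟩ := hD j ξ A.1 A.2.1 A.2.2
    exact ⟨⟨E, h1.trans A.2.1, h2⟩, h1, h3⟩
  choose nxt h1 h2 using hD'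
  let E : ∀ j, S → C j := fun j ξ => (wellFounded_lt (α := S)).fix (C := fun _ => C j)
    (fun ξ rec => nxt j ξ ((g ξ (f j ξ)).elim ⟨U j, subset_rfl, hU j⟩ fun ζ => rec ζ.1 ζ.2)) ξ
  have hE : ∀ j ξ, E j ξ = nxt j ξ ((g ξ (f j ξ)).elim ⟨U j, subset_rfl, hU j⟩
      fun ζ => E j ζ.1) := fun j ξ => by
    simp only [E]; rw [WellFounded.fix_eq]
  refine ⟨fun j ξ => (E j ξ).1, fun j ξ => ⟨(E j ξ).2.1, by beta_reduce; rw [hE]; exact h2 _ _ _⟩,
    fun T hT => ?_⟩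
  have hp : ∀ ξ : S, ∃ n, ∀ ζ ∈ T, ζ < ξ → ∃ ζ' : Iio ξ, g ξ n = some ζ' ∧ ζ'.1 ∈ T ∧ ζ ≤ ζ'.1 := by
    intro ξ
    by_cases h : (T.filter (· < ξ)).Nonempty
    · have hm := Finset.mem_filter.mp (Finset.max'_mem _ h)
      obtain ⟨n, hn⟩ := hg ξ (some ⟨_, hm.2⟩)
      exact ⟨n, fun ζ hζ hlt => ⟨_, hn, hm.1,
        Finset.le_max' _ _ (Finset.mem_filter.mpr ⟨hζ, hlt⟩)⟩⟩
    · exact ⟨Classical.arbitrary N, fun ζ hζ hlt =>
        absurd ⟨ζ, Finset.mem_filter.mpr ⟨hζ, hlt⟩⟩ h⟩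
  choose p hp using hp
  obtain ⟨j, hj⟩ := hf T p
  have key : ∀ ξ, ξ ∈ T → ∀ ζ ∈ T, ζ ≤ ξ → (E j ξ).1 ⊆ (E j ζ).1 := fun ξ => by
    induction ξ using WellFoundedLT.induction with
    | ind ξ ih =>
      intro hξ ζ hζ hle
      rcases hle.eq_or_lt with rfl | hlt
      · exact subset_rfl
      obtain ⟨ζ', h3, h4, h5⟩ := hp ξ ζ hζ hlt
      refine subset_trans ?_ (ih ζ'.1 ζ'.2 h4 ζ hζ h5)
      rw [hE j ξ, hj ξ hξ, h3]
      exact h1 _ _ _
  exact ⟨j, (E j (T.max' hT)).2.2.mono (subset_iInter₂ fun ζ hζ =>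
    key _ (Finset.max'_mem _ _) ζ hζ (Finset.le_max' _ _ hζ))⟩

/-- a property met at every level is met densely below some set -/
theorem every (hC : CC F κ) (hκ : κ ≤ β.ord.cof) (hβ : ℵ₀ < β) (R : Cardinal.{0} → Set Γ → Prop)
    (hm : ∀ τ τ' c c', R τ c → τ' ≤ τ → c' ⊆ c → R τ' c') (H : Set Γ)
    (h : ∀ τ < β, ∃ c ⊆ H, Pos F c ∧ R τ c) :
    ∃ U ⊆ H, Pos F U ∧ ∀ τ < β, ∀ A ⊆ U, Pos F A → ∃ c ⊆ A, Pos F c ∧ R τ c := by
  by_contra hcon
  push Not at hcon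
  obtain ⟨𝒜, h1, h2, h3⟩ := exists_maxAC (F := F)
    {A | Pos F A ∧ ∃ τ < β, ∀ c ⊆ A, Pos F c → ¬ R τ c} fun U hU => hU.1
  choose t ht ht' using fun A : 𝒜 => (h1 A.2).2
  obtain ⟨δ, hδ, -, hδ'⟩ := exists_bound_of_cof t hβ ((hC 𝒜 h2).trans_le hκ) ht
  obtain ⟨c, hc, hc1, hc2⟩ := h δ hδ
  obtain ⟨τ, hτ, A, hA, hA1, hA2⟩ := hcon c hc hc1
  obtain ⟨A', hA', hp⟩ := h3 A ⟨hA1, τ, hτ, hA2⟩
  exact ht' ⟨A', hA'⟩ _ inter_subset_right hp
    (hm _ _ _ _ hc2 (hδ' _) (inter_subset_left.trans hA))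

/-- the reduction to a filter all of whose positive sets have a large image -/
theorem t3' [CompleteSpace X] (hX : Inj X) (hB : Big κ β) (hC : CC F κ) (i : X →L[ℝ] B Γ)
    (hi : ∀ x, ‖i x‖ = ‖x‖) (P : B Γ →L[ℝ] X) (hP : ∀ x, P (i x) = x) (hK : #(Ker F i) < β)
    (hθ : ℵ₀ < β.ord.cof) (hθκ : β.ord.cof ≤ κ) :
    Emb (L1 (Unit → OT β)) X ∨ #(Ker (smallF P β hB.aleph0_lt.le) i) < β := by
  classical
  have h0 := hB.aleph0_lt
  have hR : #Unit < κ := by simpa using one_lt_aleph0.trans hB.unc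
  by_cases hB1 : ∀ δ < β, ∃ W, cc P W < β ∧ δ ≤ cc P W
  · left
    refine t3supply hX hB hC i hi P hK hθ {W | cc P W < β} (fun 𝒱 h1 h2 τ hτ => ?_) Unit hR
    obtain ⟨δ, hδ, hδ0, hδ1⟩ := exists_bound_of_cof (fun W : 𝒱 => cc P W) h0 h2 fun W => h1 W.2
    have h3 := hB.power_lt hδ (mk_finset_lt hB.unc (h2.trans_le hθκ))
    obtain ⟨W, hW, hW'⟩ := hB1 _ (succ_lt_of_cof_lt h0.le hB.sing (max_lt (max_lt hτ h0) h3))
    refine ⟨W, hW, le_trans ?_ (le_of_le_mul ?_ ?_ (hW'.trans (cc_le_triSub P W 𝒱 hδ0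
      fun V hV => (cc_mono P inter_subset_right).trans (hδ1 ⟨V, hV⟩))))⟩
    · exact (le_max_left _ _).trans ((le_max_left _ _).trans (Order.le_succ _))
    · exact (le_max_right _ _).trans ((le_max_left _ _).trans (Order.le_succ _))
    · exact (le_max_right _ _).trans_lt (Order.lt_succ _)
  · right
    push Not at hB1
    obtain ⟨δ, hδ, hδ1⟩ := hB1
    obtain ⟨𝒱, h1, h2, h3⟩ := nested hB.regκ hB.unc hC i hi P {W | cc P W < β}
    refine (mk_ker_le i P hP (P '' {g | ∃ W, cc P W < β ∧ Supp W g})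
      fun W g hW hg => ⟨g, ⟨W, not_le.mp fun h => hW ((pos_smallF P h0.le _).mpr h), hg⟩,
        rfl⟩).trans_lt (hB.power_lt ?_ hB.unc)
    refine (count_le P _ 𝒱 δ (fun s => ?_) (Ker F i) ?_).trans_lt
      (mul_lt_of_lt h0.le (hB.power_lt hδ (mk_finset_lt hB.unc h2)) hK)
    · refine (mk_trunc_image_le P Set.univ _ _ fun g _ t ht => absurd trivial ht).trans ?_
      rw [univ_inter]
      refine (hδ1 _ (not_le.mp fun h => ?_)).le
      exact not_pos_biUnion s (fun V => V.1) (fun V _ hp =>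
        absurd ((pos_smallF P h0.le _).mp hp) (not_le.mpr (h1 V.2))) ((pos_smallF P h0.le _).mpr h)
    · rintro g ⟨W, hW, hg⟩ g' ⟨W', hW', hg'⟩ h4
      exact h3 (W ∪ W') ((cc_union P _ _).trans_lt (mul_lt_of_lt h0.le hW hW')) _
        ⟨(suppSub _).sub_mem (hg.mono subset_union_left) (hg'.mono subset_union_right), h4⟩

/-- one oscillation constant for all levels -/
theorem Big.exists_VV (hB : Big κ β) (hC : CC F κ) (i : X →L[ℝ] B Γ) (P : B Γ →L[ℝ] X)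
    (hK : #(Ker F i) < β) (hθ : ℵ₀ < β.ord.cof) (N : Submodule ℝ (B Γ)) (hN : β ≤ #(P '' N)) :
    ∃ r > 0, ∀ τ < β, ∃ c, Pos F c ∧ VV F τ ((i.comp P) '' {g | g ∈ N ∧ ‖g‖ ≤ 1}) c r := by
  by_contra hcon
  push Not at hcon
  choose t ht ht' using fun n : ℕ => hcon (1 / ((n : ℝ) + 1)) Nat.one_div_pos_of_nat
  obtain ⟨δ, hδ, -, hδ'⟩ := exists_bound_of_cof t hB.aleph0_lt (by simpa using hθ) ht
  obtain ⟨τ, h1, h2, h3⟩ := hB.exists_good (max_lt hδ hK)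
  obtain ⟨c, r, h4, h5, h6⟩ := exists_VV_op h3 hC i P ((le_max_right _ _).trans_lt h2) N
    (h1.le.trans hN)
  obtain ⟨n, hn⟩ := exists_nat_one_div_lt h5
  exact ht' n c h4 (h6.mono ((hδ' n).trans ((le_max_left _ _).trans h2.le)) subset_rfl
    subset_rfl hn.le)

open Classical in
/-- a function on `Γ` placed on the `j`-th copy of `Γ` -/
noncomputable def place {Θ : Type} (j : Θ) (g : B Γ) : B (Θ × Γ) :=
  mkB (fun q => if q.1 = j then g q.2 else 0) ‖g‖ fun q => by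
    split_ifs
    · exact B.abs_le _ _
    · simp

/-- triangular subspaces can be moved to disjoint copies -/
theorem exists_place (hX : Inj X) (P : B Γ →L[ℝ] X) {Θ : Type} [LinearOrder Θ] (V : Θ → Set Γ) :
    ∃ S : B (Θ × Γ) →L[ℝ] X, ∀ j, ∀ g ∈ triSub P (V j) (V '' Iio j), S (place j g) = P g := by
  classical
  let I := Σ j, triSub P (V j) (V '' Iio j)
  obtain ⟨S, hS⟩ := hX.ext (Finsupp.linearCombination ℝ fun p : I => place p.1 p.2.1)
      (Finsupp.linearCombination ℝ fun p : I => P p.2.1) ‖P‖ fun v => by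
    let u : Θ → B Γ := fun ξ => ∑ p ∈ v.support with p.1 = ξ, v p • p.2.1
    have h1 := triSub_bound P V u (v.support.image Sigma.fst)
      (norm_nonneg (Finsupp.linearCombination ℝ (fun p : I => place p.1 p.2.1) v))
      (fun ξ _ => ?_) (fun ξ _ => ?_)
    · refine le_trans (le_of_eq (congrArg _ ?_)) h1
      simp only [Finsupp.linearCombination_apply, Finsupp.sum, u, map_sum, map_smul]
      exact (Finset.sum_fiberwise_of_maps_to (fun p hp => Finset.mem_image_of_mem _ hp) _).symm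
    · refine Submodule.sum_mem _ fun p hp => Submodule.smul_mem _ _ ?_
      rw [← (Finset.mem_filter.mp hp).2]
      exact p.2.2
    · refine B.norm_le (norm_nonneg _) fun t => le_trans (le_of_eq (congrArg _ ?_))
        (B.abs_le _ (ξ, t))
      simp only [Finsupp.linearCombination_apply, Finsupp.sum, B.sum_apply, B.smul_apply, u,
        place, mkB_apply, Finset.sum_filter]
      refine Finset.sum_congr rfl fun p _ => ?_
      by_cases h3 : p.1 = ξ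
      · rw [if_pos h3, if_pos h3.symm, B.smul_apply]
      · rw [if_neg h3, if_neg (Ne.symm h3), mul_zero, B.zero_apply]
  exact ⟨S, fun j g hg => by simpa using hS (Finsupp.single ⟨j, g, hg⟩ 1)⟩

/-- evaluation functionals -/
noncomputable def evD (i : X →L[ℝ] B Γ) (hi : ∀ x, ‖i x‖ = ‖x‖) (t : Γ) : Glue.DB X :=
  ⟨LinearMap.mkContinuous
    { toFun := fun x => i x t
      map_add' := fun x y => by simp
      map_smul' := fun c x => by simp } 1 fun x => by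
        simpa [hi] using (B.abs_le (i x) t).trans (hi x).le,
   LinearMap.mkContinuous_norm_le _ zero_le_one _⟩

/-- the pieces trick -/
theorem t6core [CompleteSpace X] (hX : Inj X) {ν : Cardinal.{0}} (hν : ℵ₀ < ν.ord.cof)
    (hB : Big κ β) (hκ : κ ≤ β.ord.cof) (hcof : β.ord.cof ≤ Order.succ ν) (hC : CC F κ)
    (i : X →L[ℝ] B Γ) (hi : ∀ x, ‖i x‖ = ‖x‖) (P : B Γ →L[ℝ] X) (hK : #(Ker F i) < β)
    (V : OT ν → Set Γ) (hV : ∀ j, β ≤ #(P '' triSub P (V j) (V '' Iio j))) :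
    Emb (L1 (OT β)) X := by
  classical
  have hθ : ℵ₀ < β.ord.cof := hB.unc.trans_le hκ
  have hν0 : ℵ₀ ≤ ν := (hν.trans_le (Ordinal.cof_ord_le ν)).le
  obtain ⟨S, hS⟩ := exists_place hX P V
  choose r hr hr' using fun j => hB.exists_VV hC i P hK hθ _ (hV j)
  obtain ⟨δ, hδ, hJ⟩ := exists_unif hν (mk_OT ν).ge r hr
  set J := {j | δ ≤ r j} with hJd
  have : Infinite J := infinite_iff.mpr (hν0.trans hJ)
  let 𝒳 : J → Set (B Γ) := fun j =>
    (i.comp P) '' {g | g ∈ triSub P (V j) (V '' Iio j.1) ∧ ‖g‖ ≤ 1}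
  let W : J → Set (OT ν × Γ) := fun j => {q | q.1 = j.1}
  obtain ⟨e, he⟩ := Glue.kupka_op S W
    (fun j j' hne => Set.disjoint_left.mpr fun q h1 h2 => hne (Subtype.ext (h1.symm.trans h2)))
    (fun j => {𝔉 | ∀ τ < β, ∃ c ⊆ evD i hi ⁻¹' 𝔉, Pos F c ∧ VV F τ (𝒳 j) c δ})
    (fun j => ⟨univ, fun τ hτ => by
      obtain ⟨c, h1, h2⟩ := hr' j.1 τ hτ
      exact ⟨c, subset_univ _, h1, h2.mono le_rfl subset_rfl subset_rfl j.2⟩⟩)
    (fun j h => by
      obtain ⟨c, h1, h2, -⟩ := h 0 (aleph0_pos.trans hB.aleph0_lt)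
      obtain ⟨t, ht⟩ := h2.nonempty
      exact h1 ht)
    (fun j A A' h => by
      by_contra hc
      simp only [mem_ofPred_eq, not_or, not_forall, not_exists, not_and] at hc
      obtain ⟨⟨τ₁, h1, h2⟩, τ₂, h3, h4⟩ := hc
      obtain ⟨c, h5, h6, h7⟩ := h _ (max_lt h1 h3)
      rcases h6.of_subset_union (V := c ∩ evD i hi ⁻¹' A) (W := c ∩ evD i hi ⁻¹' A')
        (fun t ht => (h5 ht).imp (fun h => ⟨ht, h⟩) fun h => ⟨ht, h⟩) with h8 | h8
      · exact h2 _ inter_subset_right h8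
          (h7.mono (le_max_left _ _) subset_rfl inter_subset_left le_rfl)
      · exact h4 _ inter_subset_right h8
          (h7.mono (le_max_right _ _) subset_rfl inter_subset_left le_rfl))
    (show 0 < δ / 4 by positivity)
  choose 𝔉 h𝔉 h𝔉' using he
  choose U hU1 hU2 hU3 using fun θ => every hC hκ hB.aleph0_lt (fun τ c => VV F τ (𝒳 (e θ)) c δ)
    (fun _ _ _ _ h1 h2 h3 => h1.mono h2 subset_rfl h3 le_rfl) _ (h𝔉 θ)
  obtain ⟨lv, h1, h2⟩ := hB.exists_levels hK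
  obtain ⟨E, hE1, hE2⟩ := pieces (N := J) (S := OT β.ord.cof)
    (by rw [mk_OT]
        exact hcof.trans ((Order.succ_le_of_lt (cantor ν)).trans
          (power_le_power_left two_ne_zero hJ)))
    (fun ξ => (Order.le_of_lt_succ ((mk_Iio_OT ξ).trans_le hcof)).trans hJ) U hU2
    (fun θ ξ c => VV F (lv ξ) (𝒳 (e θ)) c δ) fun θ ξ => hU3 θ _ (h1 ξ).1
  obtain ⟨ξ, z, hz, hz'⟩ := ind_seq (F := F) (N := J) (S := OT β.ord.cof) (Θ := OT β)
    (fun _ => sgn (i.comp P) (δ - δ / 4))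
    (fun θ => {g | g ∈ triSub P (V (e θ)) (V '' Iio (e θ).1) ∧ ‖g‖ ≤ 1}) lv E
    (fun θ ξ => VV.split (h1 _).2.1 hC (i.comp P) _ (hE1 θ ξ).2 (by positivity))
    (fun x => by
      obtain ⟨ξ₀, h0⟩ := h2 x
      exact ⟨ξ₀, h0 _ le_rfl, (mk_OT _).trans_lt (h1 _).2.2.2, (h1 _).2.1.aleph0_lt⟩)
  let w₀ : OT β → OT ν × Γ → ℝ := fun x q =>
    if h : ∃ θ, (e θ).1 = q.1 then z x h.choose q.2 else 0
  have hw₀ : ∀ x q, |w₀ x q| ≤ 1 := fun x q => by
    simp only [w₀]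
    split_ifs
    · exact (B.abs_le _ _).trans (hz _ _).2
    · simp
  let w : OT β → B (OT ν × Γ) := fun x => mkB (w₀ x) 1 (hw₀ x)
  have hw : ∀ x, ‖w x‖ ≤ 1 := fun x => B.norm_le zero_le_one (hw₀ x)
  have hw1 : ∀ x θ, trunc (W (e θ)) (w x) = place (e θ).1 (z x θ) := fun x θ => B.ext' fun q => by
    by_cases hq : q.1 = (e θ).1
    · have h : ∃ θ', (e θ').1 = q.1 := ⟨θ, hq.symm⟩
      have h' : h.choose = θ := e.injective (Subtype.ext (h.choose_spec.trans hq))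
      rw [trunc_of_mem _ (show q ∈ W (e θ) from hq)]
      simp only [w, w₀, place, mkB_apply, dif_pos h, if_pos hq, h']
    · rw [trunc_of_not_mem _ (show q ∉ W (e θ) from hq)]
      simp only [place, mkB_apply, if_neg hq]
  have hw2 : ∀ x θ, Supp (⋃ η ∈ range e \ {e θ}, W η) (trunc (W (e θ))ᶜ (w x)) := by
    intro x θ q hq
    by_cases h3 : q ∈ W (e θ)
    · exact trunc_of_not_mem _ (not_not.mpr h3)
    · rw [trunc_of_mem _ h3]
      refine dif_neg ?_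
      rintro ⟨θ', h'⟩
      refine hq (mem_biUnion (x := e θ') ⟨⟨θ', rfl⟩, fun h4 => h3 ?_⟩ h'.symm)
      rw [← mem_singleton_iff.mp h4]
      exact h'.symm
  refine (l1_of_cells i hi (fun x => S (w x)) (r := δ / 2) fun s σ => ?_).emb (C := ‖S‖)
    (by positivity) fun x => (S.le_opNorm _).trans
      (mul_le_of_le_one_right (norm_nonneg _) (hw x))
  rcases s.eq_empty_or_nonempty with rfl | hs
  · obtain ⟨t, -⟩ := (hU2 (Classical.arbitrary J)).nonempty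
    exact ⟨t, by simp⟩
  obtain ⟨θ, hθ'⟩ := hE2 (s.image ξ) (hs.image _)
  obtain ⟨t, ht1, ht⟩ := (hz' θ σ (s.image ξ) s (fun x hx => Finset.mem_image_of_mem _ hx)
    hθ').nonempty
  refine ⟨t, fun x hx => ?_⟩
  have h5 : t ∈ sgn (i.comp P) (δ - δ / 4) (z x θ) (σ x) := mem_iInter₂.mp ht x hx
  have h6 := Glue.not_big (h𝔉' θ _ (hU1 θ ((hE1 θ (ξ x)).1
    (mem_iInter₂.mp ht1 _ (Finset.mem_image_of_mem _ hx))))) (hw2 x θ)
    ((norm_trunc_le _ _).trans (hw x))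
  have h7 : i (S (w x)) t = i (P (z x θ)) t + i (S (trunc (W (e θ))ᶜ (w x))) t := by
    rw [← hS _ _ (hz x θ).1, ← hw1, ← B.add_apply, ← map_add, ← map_add, trunc_add_compl]
  have h8 : |i (S (trunc (W (e θ))ᶜ (w x))) t| ≤ δ / 4 * 1 := h6
  simp only [sgn, mem_ofPred_eq, ContinuousLinearMap.comp_apply] at h5
  rw [h7]
  have h9 := abs_le.mp h8
  split_ifs at h5 ⊢ <;> linarith [h9.1, h9.2]

/-- the cofinality is the successor cardinal `κ` -/
theorem t6 [CompleteSpace X] (hX : Inj X) {ν : Cardinal.{0}} (hν : ℵ₀ < ν.ord.cof)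
    (hB : Big (Order.succ ν) β) (hcof : β.ord.cof = Order.succ ν) (hC : CC F (Order.succ ν))
    (i : X →L[ℝ] B Γ) (hi : ∀ x, ‖i x‖ = ‖x‖) (P : B Γ →L[ℝ] X) (hP : ∀ x, P (i x) = x)
    (hK : #(Ker F i) < β) :
    Emb (L1 (OT β)) X ∨ ∃ F' : Filter Γ, CC F' ν ∧ #(Ker F' i) < β := by
  have h0 := hB.aleph0_lt
  rcases t3' hX hB hC i hi P hP hK (hB.unc.trans_le hcof.ge) hcof.le with h | h
  · exact Or.inl (h.l1_mono (by simp))
  by_cases hA : CC (smallF P β h0.le) ν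
  · exact Or.inr ⟨_, hA, h⟩
  left
  unfold CC at hA
  push Not at hA
  obtain ⟨𝒜, h𝒜, hc⟩ := hA
  obtain ⟨e⟩ := (Cardinal.le_def (OT ν) 𝒜).mp ((mk_OT ν).le.trans hc)
  refine t6core hX hν hB hcof.ge hcof.le hC i hi P hK (fun j => (e j).1) fun j => ?_
  have h2 : #((fun j => (e j).1) '' Iio j) < Order.succ ν :=
    mk_image_le.trans_lt ((mk_Iio_OT j).trans (Order.lt_succ ν))
  obtain ⟨δ, hδ, hδ0, hδ1⟩ := exists_bound_of_cof
    (fun W : (fun j => (e j).1) '' Iio j => cc P ((e j).1 ∩ W)) h0 (h2.trans_le hcof.ge) (by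
      rintro ⟨_, j', hj', rfl⟩
      exact not_le.mp fun h => h𝒜.2 (e j).2 (e j').2
        (fun h' => hj'.ne' (e.injective (Subtype.ext h'))) ((pos_smallF P h0.le _).mpr h))
  exact le_of_le_mul h0.le (hB.power_lt hδ (mk_finset_lt hB.unc h2))
    (((pos_smallF P h0.le _).mp (h𝒜.1 _ (e j).2)).trans
      (cc_le_triSub P _ _ hδ0 fun W hW => hδ1 ⟨W, hW⟩))

end Pool.Agent.Lib.MP_4a9e55_an
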