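import Pool.Agent.Lib.MP_4a9e55_an.Ccc
import Pool.Agent.Lib.MP_4a9e55_an.T6
import Pool.Agent.Lib.MP_4a9e55_an.Guess

set_option autoImplicit false

open Cardinal Set Filter
open scoped ENNReal

namespace Pool.Agent.Lib.MP_4a9e55_an

variable {Γ : Type} {F : Filter Γ}
variable {X : Type} [NormedAddCommGroup X] [NormedSpace ℝ X]

/-- every point lies in at most `N` of the sets `E j` -/
def Ord {J : Type} (E : J → Set Γ) (N : ℕ) : Prop :=
  ∀ (u : Finset J) (s : Γ), (∀ j ∈ u, s ∈ E j) → u.card ≤ N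

/-- among many sets of bounded order, one is light at a given point -/
theorem exists_light (T : B Γ →L[ℝ] B Γ) {N N₀ : ℕ} (E : Fin N → Set Γ) (hE : Ord E N₀) {ε : ℝ}
    (h : ‖T‖ * N₀ < N * ε) (t : Γ) : ∃ j, t ∈ Sml T (E j) ε := by
  classical
  by_contra hc
  simp only [Sml, mem_ofPred_eq, not_exists, not_forall, not_le] at hc
  choose g h1 h2 h3 using hc
  have h4 : ‖∑ j, g j‖ ≤ N₀ := B.norm_le (Nat.cast_nonneg _) fun s => by
    rw [B.sum_apply, ← Finset.sum_filter_add_sum_filter_not Finset.univ (fun j => s ∈ E j),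
      Finset.sum_eq_zero (s := Finset.univ.filter fun j => ¬ s ∈ E j)
        (fun j hj => h1 j s (Finset.mem_filter.mp hj).2), add_zero]
    refine (Finset.abs_sum_le_sum_abs _ _).trans ((Finset.sum_le_card_nsmul _ _ 1
      fun j _ => (B.abs_le _ s).trans (h2 j)).trans ?_)
    simpa using hE _ s fun j hj => (Finset.mem_filter.mp hj).2
  have h5 : (N : ℝ) * ε ≤ T (∑ j, g j) t := by
    rw [map_sum, B.sum_apply]
    simpa using Finset.card_nsmul_le_sum Finset.univ (fun j => T (g j) t) ε fun j _ => (h3 j).le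
  have h6 := (le_abs_self _).trans ((B.abs_le (T (∑ j, g j)) t).trans ((T.le_opNorm _).trans
    (mul_le_mul_of_nonneg_left h4 (norm_nonneg _))))
  linarith

theorem pos_light (T : B Γ →L[ℝ] B Γ) {N N₀ : ℕ} (E : Fin N → Set Γ) (hE : Ord E N₀) {ε : ℝ}
    (h : ‖T‖ * N₀ < N * ε) {c : Set Γ} (hc : Pos F c) : ∃ j, Pos F (c ∩ Sml T (E j) ε) := by
  by_contra hcon
  push Not at hcon
  refine not_pos_biUnion Finset.univ (fun j => c ∩ Sml T (E j) ε) (fun j _ => hcon j)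
    (hc.mono fun t ht => ?_)
  obtain ⟨j, hj⟩ := exists_light T E hE h t
  exact mem_biUnion (s := ((Finset.univ : Finset (Fin N)) : Set (Fin N))) (x := j) (by simp)
    ⟨ht, hj⟩

/-- a small set met by all small heavy sets -/
theorem exists_block {M : Type} {θ : Cardinal.{0}} (hθ : ℵ₀ ≤ θ) (H : Set M → Prop) (N : ℕ)
    (hH : ∀ A : Fin N → Set M, Pairwise (fun a b => Disjoint (A a) (A b)) → ∃ j, ¬ H (A j)) :
    ∃ Z : Set M, #Z ≤ θ ∧ ∀ A : Set M, #A ≤ θ → Disjoint A Z → ¬ H A := by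
  by_contra hc
  push Not at hc
  obtain ⟨V, hV⟩ := exists_seq (Θ := Fin N) {A : Set M | #A ≤ θ ∧ H A}
    (fun _ 𝒱 A => Disjoint A (⋃₀ 𝒱)) fun ξ 𝒱 h1 h2 => by
      obtain ⟨A, h3, h4, h5⟩ := hc (⋃₀ 𝒱) (by
        rw [sUnion_eq_iUnion]
        exact (mk_iUnion_le _).trans ((mul_le_mul' (h2.trans ((lt_aleph0_of_finite _).le.trans hθ))
          (ciSup_le' fun A => (h1 A.2).1)).trans (mul_eq_self hθ).le))
      exact ⟨A, ⟨h3, h5⟩, h4⟩
  have h : ∀ a b, a < b → Disjoint (V b) (V a) := fun a b hab =>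
    (hV b).2.mono_right (subset_sUnion_of_mem (mem_image_of_mem V hab))
  obtain ⟨j, hj⟩ := hH V fun a b hab =>
    (lt_or_gt_of_ne hab).elim (fun h' => (h a b h').symm) (h b a)
  exact hj (hV j).1.2

/-- the column trick, combinatorial form -/
theorem columns {R : Type} {θ : Cardinal.{0}} (hθ : ℵ₀ ≤ θ) (hR : #R ≤ θ) (T : B Γ →L[ℝ] B Γ)
    (K : R → Type) (hK : ∀ r, s3 θ ≤ #(K r)) (𝔉 : ∀ r, K r → Filter Γ) (W c : ∀ r, K r → Set Γ)
    {N₀ : ℕ} (hW : ∀ r, Ord (W r) N₀) (hc : ∀ r k, Pos (𝔉 r k) (c r k)) {ε : ℝ} (hε : 0 < ε) :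
    ∃ (k : ∀ r, K r) (D A c' : R → Set Γ), ∀ r, c' r ⊆ c r (k r) ∧ Pos (𝔉 r (k r)) (c' r) ∧
      c' r ⊆ Sml T (A r) (ε + ε) ∧ W r (k r) ⊆ D r ∪ A r ∧ ∀ r', r' ≠ r → D r' ⊆ A r := by
  classical
  obtain ⟨N, hN⟩ := exists_nat_gt (‖T‖ * N₀ / ε)
  rw [div_lt_iff₀ hε] at hN
  obtain ⟨_, _, L₀, Nd, V, nd, val, hL₀, hcoh, hguess⟩ := guess' hθ hR
  let M := OT (Order.succ θ)
  let L := L₀ × M
  have h3 := isRegular_s3 hθ
  have hL : #L ≤ s3 θ := by
    simp only [L, M, mk_prod, lift_id, mk_OT]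
    exact (mul_le_mul' hL₀ (lt_s3 θ).le).trans (mul_eq_self h3.aleph0_le).le
  let Cl : ∀ r : R, (Iio r → L → Set Γ) → Nd → V → Set Γ := fun r f x v =>
    {s | ∃ (p : Iio r) (l : L), nd r l.1 = x ∧ val r l.1 = v ∧ s ∈ f p l}
  obtain ⟨D, hD⟩ := exists_rec (Θ := R) (α := L → Set Γ) (fun r f a =>
      ∃ kk : Nd → V → L ↪ K r, (∀ l, a l = W r (kk (nd r l.1) (val r l.1) l) \
        Cl r f (nd r l.1) (val r l.1)) ∧ ∀ x v,
        s3 θ ≤ #{k | Pos (𝔉 r k) (c r k ∩ Sml T (Cl r f x v) ε)} →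
        ∀ l, Pos (𝔉 r (kk x v l)) (c r (kk x v l) ∩ Sml T (Cl r f x v) ε)) fun r f => by
    have h1 : ∀ x v, ∃ kk : L ↪ K r, s3 θ ≤ #{k | Pos (𝔉 r k) (c r k ∩ Sml T (Cl r f x v) ε)} →
        ∀ l, Pos (𝔉 r (kk l)) (c r (kk l) ∩ Sml T (Cl r f x v) ε) := fun x v => by
      by_cases h2 : s3 θ ≤ #{k | Pos (𝔉 r k) (c r k ∩ Sml T (Cl r f x v) ε)}
      · obtain ⟨e⟩ := (Cardinal.le_def _ _).mp (hL.trans h2)
        exact ⟨e.trans (Function.Embedding.subtype _), fun _ l => (e l).2⟩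
      · obtain ⟨e⟩ := (Cardinal.le_def _ _).mp (hL.trans (hK r))
        exact ⟨e, fun h => absurd h h2⟩
    choose kk hkk using h1
    exact ⟨_, kk, fun _ => rfl, hkk⟩
  choose kk hD hP using hD
  let C : R → Nd → V → Set Γ := fun r => Cl r fun p => D p
  have hsub : ∀ (p r : R) (l : L), p < r → D p l ⊆ C r (nd r l.1) (val r l.1) :=
    fun p r l hp s hs => ⟨⟨p, hp⟩, l, rfl, rfl, hs⟩
  have hord : ∀ (u : Finset (Fin N)) (ρ : Fin N → R) (l : Fin N → L) (s : Γ), InjOn l u →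
      (∀ a ∈ u, ∀ b ∈ u, nd (ρ b) (l a).1 = nd (ρ b) (l b).1 ∧
        val (ρ b) (l a).1 = val (ρ b) (l b).1) → (∀ a ∈ u, s ∈ D (ρ a) (l a)) →
      u.card ≤ N₀ := by
    intro u ρ l s h1 h2 h3
    rcases u.eq_empty_or_nonempty with rfl | ⟨b, hb⟩
    · simp
    have h4 : ∀ a ∈ u, ∀ a' ∈ u, ¬ ρ a < ρ a' := fun a ha a' ha' hlt => by
      have h5 := h3 a' ha'
      rw [hD, ← (h2 a ha a' ha').1, ← (h2 a ha a' ha').2] at h5
      exact h5.2 (hsub _ _ _ hlt (h3 a ha))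
    have h5 : ∀ a ∈ u, ρ a = ρ b := fun a ha =>
      le_antisymm (not_lt.mp (h4 b hb a ha)) (not_lt.mp (h4 a ha b hb))
    rw [← Finset.card_image_of_injOn
      (f := fun a => kk (ρ b) (nd (ρ b) (l b).1) (val (ρ b) (l b).1) (l a))
      ((kk (ρ b) _ _).injective.comp_injOn h1)]
    refine hW (ρ b) _ s fun k hk => ?_
    obtain ⟨a, ha, rfl⟩ := Finset.mem_image.mp hk
    have h6 := h3 a ha
    rw [h5 a ha, hD, (h2 a ha b hb).1, (h2 a ha b hb).2] at h6
    exact h6.1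
  obtain ⟨jj, hjj⟩ := hguess
    (fun r x => {v | ¬ s3 θ ≤ #{k | Pos (𝔉 r k) (c r k ∩ Sml T (C r x v) ε)}}) fun r x => by
    by_contra hinf
    let w := Set.Infinite.natEmbedding _ hinf
    have hC : Ord (fun j : Fin N => C r x (w j)) N₀ := fun u s hu => by
      rcases u.eq_empty_or_nonempty with rfl | ⟨b, hb⟩
      · simp
      choose p l h1 h2 h3 using hu
      refine hord u (fun a => if h : a ∈ u then (p a h).1 else r)
        (fun a => if h : a ∈ u then l a h else l b hb) s (fun a ha a' ha' he => ?_)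
        (fun a ha a' ha' => ?_) fun a ha => ?_
      · simp only [dif_pos (Finset.mem_coe.mp ha), dif_pos (Finset.mem_coe.mp ha')] at he
        exact Fin.ext (w.injective (Subtype.ext ((h2 a ha).symm.trans
          ((congrArg (fun x : L => val r x.1) he).trans (h2 a' ha')))))
      · simp only [dif_pos ha, dif_pos ha']
        exact hcoh r _ _ ((h1 a ha).trans (h1 a' ha').symm) _ (p a' ha').2
      · simp only [dif_pos ha]
        exact h3 a ha
    choose j hj using fun k => pos_light T _ hC hN (hc r k)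
    obtain ⟨j₀, h5⟩ := infinite_pigeonhole_card j (s3 θ) (hK r) h3.aleph0_le
      ((lt_aleph0_of_finite _).trans_le (h3.aleph0_le.trans h3.cof_ord.ge))
    exact (w j₀).2 (h5.trans (mk_le_mk_of_subset fun k hk => by
      have := hj k; rwa [show j k = j₀ from hk] at this))
  let E : Set M → Set Γ := fun A => {s | ∃ r, ∃ m ∈ A, s ∈ D r (jj, m)}
  have hZ : ∀ (r : R) (m : M), ∃ Z : Set M, #Z ≤ θ ∧ ∀ A : Set M, #A ≤ θ → Disjoint A Z →
      ¬ ¬ Pos (𝔉 r (kk r (nd r jj) (val r jj) (jj, m))) ((c r (kk r (nd r jj) (val r jj) (jj, m)) ∩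
        Sml T (C r (nd r jj) (val r jj)) ε) ∩ Sml T (E A) ε) := fun r m =>
    exists_block hθ _ N fun A hA => by
      refine (pos_light T (fun j => E (A j)) (fun u s hu => ?_) hN
        (hP r _ _ (not_not.mp (hjj r)) (jj, m))).imp fun j hj => not_not.mpr hj
      rcases u.eq_empty_or_nonempty with rfl | ⟨b, hb⟩
      · simp
      choose ρ m' h1 h2 using hu
      refine hord u (fun a => if h : a ∈ u then ρ a h else r)
        (fun a => (jj, if h : a ∈ u then m' a h else m)) s (fun a ha a' ha' he => ?_)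
        (fun _ _ _ _ => ⟨rfl, rfl⟩) fun a ha => ?_
      · have h3 := congrArg Prod.snd he
        simp only [dif_pos (Finset.mem_coe.mp ha), dif_pos (Finset.mem_coe.mp ha')] at h3
        by_contra hne
        exact Set.disjoint_left.mp (hA hne) (h1 a ha) (h3 ▸ h1 a' ha')
      · simp only [dif_pos ha]
        exact h2 a ha
  choose Z hZ1 hZ2 using hZ
  obtain ⟨φ, hφ⟩ := exists_rec (Θ := R) (α := M) (fun r f m => ∀ p : Iio r, m ∉ Z p (f p))
    fun r f => by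
      by_contra hcon
      push Not at hcon
      have h1 : (univ : Set M) ⊆ ⋃ p : Iio r, Z p (f p) := fun m _ => mem_iUnion.mpr (hcon m)
      have h2 := (mk_le_mk_of_subset h1).trans ((mk_iUnion_le _).trans ((mul_le_mul'
        ((mk_set_le _).trans hR) (ciSup_le' fun p => hZ1 _ _)).trans (mul_eq_self hθ).le))
      rw [mk_univ, mk_OT] at h2
      exact absurd h2 (not_le.mpr (Order.lt_succ θ))
  refine ⟨fun r => kk r (nd r jj) (val r jj) (jj, φ r), fun r => D r (jj, φ r),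
    fun r => C r (nd r jj) (val r jj) ∪ E (φ '' Ioi r),
    fun r => (c r (kk r (nd r jj) (val r jj) (jj, φ r)) ∩ Sml T (C r (nd r jj) (val r jj)) ε) ∩
      Sml T (E (φ '' Ioi r)) ε, fun r =>
    ⟨fun t ht => ht.1.1, not_not.mp (hZ2 r (φ r) _ (mk_image_le.trans ((mk_set_le _).trans hR))
      (Set.disjoint_left.mpr ?_)), fun t ht => Sml.union ht.1.2 ht.2, fun s hs => ?_,
      fun r' hr' => ?_⟩⟩
  · rintro _ ⟨r', hr', rfl⟩
    exact hφ r' ⟨r, hr'⟩
  · by_cases h : s ∈ C r (nd r jj) (val r jj)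
    · exact Or.inr (Or.inl h)
    · left
      beta_reduce
      rw [hD]
      exact ⟨hs, h⟩
  · rcases lt_or_gt_of_ne hr' with h | h
    · exact (hsub _ _ (jj, φ r') h).trans subset_union_left
    · exact fun s hs => Or.inr ⟨r', φ r', ⟨r', h, rfl⟩, hs⟩

/-- the sets `Y j` have uniformly bounded pointwise sums -/
def C0 (i : X →L[ℝ] B Γ) {J : Type} (Y : J → Set X) (C : ℝ) : Prop :=
  ∀ (s : Finset J) (y : J → X), (∀ j ∈ s, y j ∈ Y j) → ∀ t, ∑ j ∈ s, |i (y j) t| ≤ C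

theorem C0.comp {i : X →L[ℝ] B Γ} {J J' : Type} {Y : J → Set X} {C : ℝ} (h : C0 i Y C)
    (e : J' → J) (he : Function.Injective e) : C0 i (fun j => Y (e j)) C := by
  classical
  intro s y hy t
  have := h (s.map ⟨e, he⟩) (Function.extend e y 0) (fun j hj => by
    obtain ⟨j', hj', rfl⟩ := Finset.mem_map.mp hj
    simpa only [Function.Embedding.coeFn_mk, he.extend_apply] using hy j' hj') t
  simpa only [Finset.sum_map, Function.Embedding.coeFn_mk, he.extend_apply] using this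

theorem C0.abs_le {i : X →L[ℝ] B Γ} {J : Type} {Y : J → Set X} {C : ℝ} (h : C0 i Y C) {j : J}
    {y : X} (hy : y ∈ Y j) (t : Γ) : |i y t| ≤ C := by
  simpa using h {j} (fun _ => y) (by simpa using hy) t

theorem C0.ord {i : X →L[ℝ] B Γ} {J : Type} {Y : J → Set X} {C η : ℝ} (h : C0 i Y C)
    (hη : 0 < η) : Ord (fun j => {t | ∃ y ∈ Y j, η < |i y t|}) ⌊C / η⌋₊ := by
  classical
  intro u s hu
  choose! y h1 h2 using hu
  have h3 := (Finset.card_nsmul_le_sum u _ η fun j hj => (h2 j hj).le).trans (h u y h1 s)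
  rw [nsmul_eq_mul, ← le_div_iff₀ hη] at h3
  exact Nat.le_floor h3

/-- the column trick: one vector imitates a vector of every row on a positive set -/
theorem imitate (i : X →L[ℝ] B Γ) (P : B Γ →L[ℝ] X) (hP : ∀ x, P (i x) = x) {R : Type}
    {θ : Cardinal.{0}} (hθ : ℵ₀ ≤ θ) (hR : #R ≤ θ) (K : R → Type) (hK : ∀ r, s3 θ ≤ #(K r))
    (Y : ∀ r, K r → Set X) (c : ∀ r, K r → Set Γ) (hc : ∀ r k, Pos F (c r k)) {C : ℝ}
    (hC : 0 < C) (hY : ∀ r, C0 i (Y r) C) {ε : ℝ} (hε : 0 < ε) :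
    ∃ (k : ∀ r, K r) (c' : R → Set Γ), (∀ r, c' r ⊆ c r (k r) ∧ Pos F (c' r)) ∧
      ∀ y : R → X, (∀ r, y r ∈ Y r (k r)) → ∃ g : B Γ, ‖g‖ ≤ C ∧
        ∀ r, ∀ t ∈ c' r, |i (P g) t - i (y r) t| ≤ ε := by
  classical
  set T := i.comp P with hT
  have hη : 0 < ε / (2 * (‖T‖ + 1)) := by positivity
  obtain ⟨k, D, A, c', h⟩ := columns hθ hR T K hK (fun _ _ => F) _ c (fun r => (hY r).ord hη) hc
    (show 0 < ε / (8 * C) by positivity)
  refine ⟨k, c', fun r => ⟨(h r).1, (h r).2.1⟩, fun y hy => ?_⟩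
  have hb : ∀ s, |if h : ∃ r, s ∈ D r then i (y h.choose) s else 0| ≤ C := fun s => by
    split_ifs with h1
    · exact (hY _).abs_le (hy _) s
    · simpa using hC.le
  let g : B Γ := mkB _ C hb
  have hg : ‖g‖ ≤ C := B.norm_le hC.le hb
  refine ⟨g, hg, fun r t ht => ?_⟩
  obtain ⟨-, -, h1, h2, h3⟩ := h r
  have h4 : ‖g - i (y r)‖ ≤ 2 * C := (norm_sub_le _ _).trans (by
    linarith [B.norm_le (g := i (y r)) hC.le ((hY r).abs_le (hy r))])
  have h5 : ‖trunc (A r)ᶜ (g - i (y r))‖ ≤ ε / (2 * (‖T‖ + 1)) := B.norm_le hη.le fun s => by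
    by_cases hs : s ∈ A r
    · rw [trunc_of_not_mem _ (not_not.mpr hs), abs_zero]; exact hη.le
    rw [trunc_of_mem _ hs, B.sub_apply]
    simp only [g, mkB_apply]
    split_ifs with h6
    · have h7 : h6.choose = r := by
        by_contra hne
        exact hs (h3 _ hne h6.choose_spec)
      rw [h7, sub_self, abs_zero]; exact hη.le
    · rw [zero_sub, abs_neg]
      by_contra h7
      exact (h2 ⟨y r, hy r, not_le.mp h7⟩).elim (fun h8 => h6 ⟨r, h8⟩) hs
  have h6 : |T (trunc (A r)ᶜ (g - i (y r))) t| ≤ ε / 2 := by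
    refine (B.abs_le _ t).trans ((T.le_opNorm _).trans ((mul_le_mul_of_nonneg_left h5
      (norm_nonneg _)).trans ?_))
    rw [← mul_div_assoc, div_le_div_iff₀ (by positivity) (by positivity)]
    nlinarith [norm_nonneg T]
  have h7 : |T (trunc (A r) (g - i (y r))) t| ≤ ε / 2 := by
    have h8 := Sml.abs_le (h1 ht) (g := (2 * C)⁻¹ • trunc (A r) (g - i (y r)))
      ((suppSub _).smul_mem _ (supp_trunc _ _)) (by
        rw [norm_smul, Real.norm_eq_abs, abs_of_pos (by positivity),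
          inv_mul_le_iff₀ (by positivity), mul_one]
        exact (norm_trunc_le _ _).trans h4)
    rw [map_smul, B.smul_apply, abs_mul, abs_of_pos (by positivity),
      inv_mul_le_iff₀ (by positivity)] at h8
    refine h8.trans (le_of_eq ?_)
    field_simp
    ring
  have h8 : i (P g) t - i (y r) t = T (trunc (A r) (g - i (y r))) t +
      T (trunc (A r)ᶜ (g - i (y r))) t := by
    rw [← B.add_apply, ← map_add, trunc_add_compl, map_sub, B.sub_apply]
    simp only [hT, ContinuousLinearMap.comp_apply, hP]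
  rw [h8]
  exact (abs_add_le _ _).trans (by linarith)

/-- systems of every size below `κ` are met densely below some set -/
theorem systems {κ : Cardinal.{0}} (hκ : κ.IsRegular) (hu : ℵ₀ < κ)
    (hl : ∀ θ < κ, Order.succ θ < κ) (hC : CC F κ) (i : X →L[ℝ] B Γ) (C : ℝ)
    (Reg : ℕ → Set X → Set Γ → Prop)
    (h : ∀ θ < κ, ∃ (J : Type) (Y : J → Set X) (U : J → Set Γ), θ ≤ #J ∧ C0 i Y C ∧
      ∀ j, Pos F (U j) ∧ ∃ n, Reg n (Y j) (U j)) :
    ∃ n U₀, Pos F U₀ ∧ ∀ A ⊆ U₀, Pos F A → ∀ θ < κ, ∃ (J : Type) (Y : J → Set X)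
      (U : J → Set Γ), θ ≤ #J ∧ C0 i Y C ∧ ∀ j, Pos F (A ∩ U j) ∧ Reg n (Y j) (U j) := by
  let S : ℕ → Set Γ → Cardinal.{0} → Prop := fun n A θ => ∃ (J : Type) (Y : J → Set X)
    (U : J → Set Γ), θ ≤ #J ∧ C0 i Y C ∧ ∀ j, Pos F (A ∩ U j) ∧ Reg n (Y j) (U j)
  change ∃ n U₀, Pos F U₀ ∧ ∀ A ⊆ U₀, Pos F A → ∀ θ < κ, S n A θ
  by_contra hc
  push Not at hc
  choose 𝒜 h1 h2 h3 using fun n => exists_maxAC (F := F)
    {A | Pos F A ∧ ∃ θ < κ, ¬ S n A θ} fun U hU => hU.1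
  choose δ h4 h5 using fun p : Σ n, 𝒜 n => (h1 p.1 p.2.2).2
  have h6 : #(Σ n, 𝒜 n) < κ := by
    rw [mk_sigma]
    exact sum_lt_of_isRegular hκ (by simpa using hu) fun n => hC _ (h2 n)
  have h7 : (⨆ p, δ p) < κ := iSup_lt_of_lt_cof_ord (by rwa [hκ.cof_ord]) h4
  set μ := max (max (⨆ p, δ p) #(Σ n, 𝒜 n)) ℵ₀ with hμ
  have h8 := isRegular_succ (c := μ) (le_max_right _ _)
  obtain ⟨J, Y, U, h9, h10, h11⟩ := h _ (hl μ (max_lt (max_lt h7 h6) hu))
  have h12 : ∀ j, ∃ p : Σ n, 𝒜 n, Pos F (p.2.1 ∩ U j) ∧ Reg p.1 (Y j) (U j) := fun j => by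
    obtain ⟨h13, n, h14⟩ := h11 j
    obtain ⟨A, h15, h16⟩ := hc n _ h13
    obtain ⟨A', h17, h18⟩ := h3 n A h16
    exact ⟨⟨n, A', h17⟩, h18.mono fun t ht => ⟨ht.2, h15 ht.1⟩, h14⟩
  choose p hp using h12
  obtain ⟨p₀, h13⟩ := infinite_pigeonhole_card p _ h9 h8.aleph0_le (by
    rw [h8.cof_ord]
    exact ((le_max_right _ _).trans (le_max_left _ _)).trans_lt (Order.lt_succ μ))
  refine h5 p₀ ⟨p ⁻¹' {p₀}, fun j => Y j, fun j => U j, le_trans ?_ h13,
    h10.comp _ Subtype.val_injective, fun j => ?_⟩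
  · exact (le_ciSup (f := δ) bddAbove_of_small p₀).trans
      (((le_max_left _ _).trans (le_max_left _ _)).trans (Order.le_succ μ))
  · have := hp j
    rwa [show p j = p₀ from j.2] at this

end Pool.Agent.Lib.MP_4a9e55_an
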