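import Mathlib

set_option autoImplicit false

open scoped ENNReal
open Cardinal MeasureTheory

namespace Pool.Agent.Lib.MP_4a9e55_an

/-- injective Banach space (as in the frozen statement) -/
def Inj (X : Type) [NormedAddCommGroup X] [NormedSpace ℝ X] : Prop :=
  ∀ (Y : Type) [NormedAddCommGroup Y] [NormedSpace ℝ Y] (Z : Submodule ℝ Y)
    (T : Z →L[ℝ] X), ∃ S : Y →L[ℝ] X, ∀ z : Z, S (z : Y) = T z

/-- `E` embeds isomorphically in `X` -/
def Emb (E X : Type) [NormedAddCommGroup E] [NormedSpace ℝ E] [NormedAddCommGroup X]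
    [NormedSpace ℝ X] : Prop :=
  ∃ (A : E →L[ℝ] X) (C : ℝ), 0 < C ∧ ∀ x, ‖x‖ ≤ C * ‖A x‖

/-- bounded functions on `Γ` -/
abbrev B (Γ : Type) : Type := lp (fun _ : Γ => ℝ) ∞

/-- summable functions on `ι` -/
abbrev L1 (ι : Type) : Type := lp (fun _ : ι => ℝ) 1

/-- `E` is isomorphic to a complemented subspace of `F` -/
def Cpl (E F : Type) [NormedAddCommGroup E] [NormedSpace ℝ E] [NormedAddCommGroup F]
    [NormedSpace ℝ F] : Prop :=
  ∃ (A : E →L[ℝ] F) (Q : F →L[ℝ] E), ∀ x, Q (A x) = x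

/-- Haar measure of the cube -/
noncomputable abbrev cube (ι : Type) : Measure (ι → Bool) :=
  Measure.infinitePi (fun _ : ι => (PMF.uniformOfFintype Bool).toMeasure)

/-- the space of part (ii) -/
abbrev WW (ι : Type) : Type := lp (fun _ : Set ι => Lp ℝ 1 (cube ι)) 1

/-- dual of the continuous functions on the cube -/
abbrev MD (ι : Type) : Type := C(ι → Bool, ℝ) →L[ℝ] ℝ

/-- `x` is an `ℓ¹`-family with lower constant `r` -/
def IsL1 {ι X : Type} [NormedAddCommGroup X] [NormedSpace ℝ X] (x : ι → X) (r : ℝ) : Prop :=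
  ∀ (s : Finset ι) (a : ι → ℝ), r * ∑ j ∈ s, |a j| ≤ ‖∑ j ∈ s, a j • x j‖

/-- `g` vanishes off `W` -/
def Supp {Γ : Type} (W : Set Γ) (g : B Γ) : Prop := ∀ t, t ∉ W → g t = 0

/-- the set `W` carries an `ℓ¹(J)`-family for `T` with constant `r` -/
def L1Fam {Γ X : Type} [NormedAddCommGroup X] [NormedSpace ℝ X] (T : B Γ →L[ℝ] X) (W : Set Γ)
    (J : Type) (r : ℝ) : Prop :=
  ∃ z : J → B Γ, (∀ j, ‖z j‖ ≤ 1) ∧ (∀ j, Supp W (z j)) ∧ IsL1 (fun j => T (z j)) r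

/-- Pelczynski decomposition -/
def PelStmt : Prop :=
  ∀ (E V : Type) [NormedAddCommGroup E] [NormedSpace ℝ E] [CompleteSpace E]
    [NormedAddCommGroup V] [NormedSpace ℝ V] [CompleteSpace V] (κ : Type) [Infinite κ],
    Cpl E (lp (fun _ : κ => V) 1) → Cpl (lp (fun _ : κ => V) 1) E →
      Nonempty (E ≃L[ℝ] lp (fun _ : κ => V) 1)

/-- every probability measure on the cube is a factor of Haar measure -/
def MahStmt : Prop :=
  ∀ (ι : Type) [Infinite ι] (μ : Measure (ι → Bool)) [IsProbabilityMeasure μ],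
    ∃ φ : (ι → Bool) → (ι → Bool), MeasurePreserving φ (cube ι) μ

def M1Stmt : Prop := MahStmt → ∀ (ι : Type) [Infinite ι], Cpl (MD ι) (WW ι)

def M2Stmt : Prop := ∀ (ι : Type) [Infinite ι], Cpl (WW ι) (MD ι)

def AStmt : Prop :=
  ∀ (X : Type) [NormedAddCommGroup X] [NormedSpace ℝ X] [CompleteSpace X], Inj X →
    ∀ (ι : Type) [Infinite ι] (s : Set X), Dense s → #s ≤ #ι → Cpl (X →L[ℝ] ℝ) (MD ι)

def BStmt : Prop :=
  ∀ (X : Type) [NormedAddCommGroup X] [NormedSpace ℝ X] [CompleteSpace X], Inj X →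
    ∀ (ι : Type), ℵ₀ < #ι → Emb (L1 ι) X → Cpl (MD ι) (X →L[ℝ] ℝ)

/-- Rosenthal's lemma in Kupka's form, one vector per point -/
def T1Stmt : Prop :=
  ∀ (X : Type) [NormedAddCommGroup X] [NormedSpace ℝ X] [CompleteSpace X] (Θ : Type)
    [DecidableEq Θ] [Infinite Θ] (T : B Θ →L[ℝ] X) (δ : ℝ), 0 < δ →
    (∀ ξ, δ ≤ ‖T (lp.single ∞ ξ (1 : ℝ))‖) → Emb (B Θ) X

/-- Fichtenholz-Kantorovich-Hausdorff -/
def FKHStmt : Prop := ∀ (Θ : Type) [Infinite Θ], Emb (L1 (Set Θ)) (B Θ)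

/-- gluing `ℓ¹`-families carried by disjoint sets -/
def GStmt : Prop :=
  ∀ (X : Type) [NormedAddCommGroup X] [NormedSpace ℝ X] [CompleteSpace X] (Γ : Type)
    (T : B Γ →L[ℝ] X) (Θ : Type) [Infinite Θ] (W : Θ → Set Γ) (τ : Θ → Type) (r : ℝ), 0 < r →
    Pairwise (fun ξ η => Disjoint (W ξ) (W η)) → (∀ ξ, Infinite (τ ξ)) →
    (∀ ξ, L1Fam T (W ξ) (τ ξ) r) →
    ∀ (S : Type) (c : ∀ ξ, S → τ ξ),
      (∀ (A : Set Θ), #A = #Θ → ∀ s : Finset S, ∃ ξ ∈ A, Set.InjOn (c ξ) s) → Emb (L1 S) X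

/-- countable products of `ℓ¹`-sizes -/
def TwStmt : Prop :=
  GStmt → ∀ (X : Type) [NormedAddCommGroup X] [NormedSpace ℝ X] [CompleteSpace X], Inj X →
    ∀ (τ : ℕ → Type), (∀ n, Infinite (τ n)) → (∀ n, Emb (L1 (τ n)) X) →
    ∀ (S : Type) (c : ∀ n, S → τ n),
      (∀ s s', s ≠ s' → ∀ᶠ n in Filter.atTop, c n s ≠ c n s') → Emb (L1 S) X

/-- Rosenthal: an infinite dimensional injective space contains `ℓ∞` -/
def LinfStmt : Prop :=
  T1Stmt → ∀ (X : Type) [NormedAddCommGroup X] [NormedSpace ℝ X] [CompleteSpace X], Inj X →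
    ¬ FiniteDimensional ℝ X → Emb (B ℕ) X

end Pool.Agent.Lib.MP_4a9e55_an
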