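import Mathlib

set_option autoImplicit false

open Cardinal

namespace Pool.Agent.Lib.MP_4a9e55_an

/-- fewer than `ρ` maps `ν → ν`, each with a set of size `ν`, are met by one map on their sets -/
def Hit (ν ρ : Cardinal.{0}) : Prop :=
  ∀ ι : Type, #ι < ρ → ∀ (A : ι → Set ν.ord.ToType) (h : ι → ν.ord.ToType → ν.ord.ToType),
    (∀ t, #(A t) = ν) → ∃ f : ν.ord.ToType → ν.ord.ToType, ∀ t, ∃ j ∈ A t, f j = h t j

/-- some product of at most `σ` regular cardinals below `δ` has cofinality at least `ρ` -/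
def PP (σ δ ρ : Cardinal.{0}) : Prop :=
  ∃ (K : Type) (θ : K → Cardinal.{0}), #K ≤ σ ∧ (∀ k, (θ k).IsRegular ∧ θ k < δ) ∧
    ∀ ι : Type, #ι < ρ → ∀ Φ : ι → ∀ k, (θ k).ord.ToType,
      ∃ g : ∀ k, (θ k).ord.ToType, ∀ t, ∃ k, Φ t k < g k

end Pool.Agent.Lib.MP_4a9e55_an
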