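import Pool.Agent.Lib.MP_4a9e55_an.Ideal

set_option autoImplicit false

open Cardinal Set Filter

namespace Pool.Agent.Lib.MP_4a9e55_an

variable {Γ : Type} {F : Filter Γ} {κ τ : Cardinal.{0}}

/-- `y` has essential oscillation more than `2 r` on `U` -/
def Osc (F : Filter Γ) (y : B Γ) (U : Set Γ) (r : ℝ) : Prop :=
  ∃ a : ℝ, Pos F (U ∩ {t | a + r < y t}) ∧ Pos F (U ∩ {t | y t < a - r})

theorem Osc.mono {y : B Γ} {U U' : Set Γ} {r r' : ℝ} (h : Osc F y U r) (hU : U ⊆ U')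
    (hr : r' ≤ r) : Osc F y U' r' := by
  obtain ⟨a, h1, h2⟩ := h
  refine ⟨a, h1.mono fun t ht => ⟨hU ht.1, ?_⟩, h2.mono fun t ht => ⟨hU ht.1, ?_⟩⟩
  · have := ht.2; simp only [mem_ofPred_eq] at this ⊢; linarith
  · have := ht.2; simp only [mem_ofPred_eq] at this ⊢; linarith

/-- every small family of positive subsets of `c` is split by one member of `𝒳` -/
def VV (F : Filter Γ) (τ : Cardinal.{0}) (𝒳 : Set (B Γ)) (c : Set Γ) (r : ℝ) : Prop :=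
  ∀ 𝒰 : Set (Set Γ), #𝒰 < τ → (∀ U ∈ 𝒰, Pos F U) → ∃ y ∈ 𝒳, ∀ U ∈ 𝒰, U ⊆ c → Osc F y U r

theorem VV.mono {τ' : Cardinal.{0}} {𝒳 𝒳' : Set (B Γ)} {c c' : Set Γ} {r r' : ℝ}
    (h : VV F τ 𝒳 c r) (hτ : τ' ≤ τ) (h𝒳 : 𝒳 ⊆ 𝒳') (hc : c' ⊆ c) (hr : r' ≤ r) :
    VV F τ' 𝒳' c' r' := fun 𝒰 h1 h2 => by
  obtain ⟨y, hy, h3⟩ := h 𝒰 (h1.trans_le hτ) h2
  exact ⟨y, h𝒳 hy, fun U hU hUc => (h3 U hU (hUc.trans hc)).mono subset_rfl hr⟩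

/-- a small family of positive sets with all closure properties -/
structure Nice (F : Filter Γ) (τ : Cardinal.{0}) (𝒳 : ℕ → Set (B Γ)) (S : Set (Set Γ)) :
    Prop where
  small : #S < τ
  pos : ∀ U ∈ S, Pos F U
  inter : ∀ U ∈ S, ∀ V ∈ S, Pos F (U ∩ V) → U ∩ V ∈ S
  red : ∀ V, Pos F V → ∃ U ∈ S, ∀ U' ∈ S, U' ⊆ U → Pos F (U' ∩ V)
  wit : ∀ n, ∀ c ∈ S, ∀ r : ℚ, ∀ y ∈ 𝒳 n, (∀ U ∈ S, U ⊆ c → Osc F y U r) → VV F τ (𝒳 n) c r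

theorem exists_nice (hG : Good κ τ) (hC : CC F κ) (𝒳 : ℕ → Set (B Γ)) (S₀ : Set (Set Γ))
    (h₀ : #S₀ < τ) (hp : ∀ U ∈ S₀, Pos F U) : ∃ S, S₀ ⊆ S ∧ Nice F τ 𝒳 S := by
  classical
  have hw : ∀ (n : ℕ) (c : Set Γ) (r : ℚ), ∃ 𝒰 : Set (Set Γ), #𝒰 < τ ∧ (∀ U ∈ 𝒰, Pos F U) ∧
      ∀ y ∈ 𝒳 n, (∀ U ∈ 𝒰, U ⊆ c → Osc F y U r) → VV F τ (𝒳 n) c r := by
    intro n c r
    by_cases h : VV F τ (𝒳 n) c r
    · exact ⟨∅, by simpa using hG.reg.pos, by simp, fun _ _ _ => h⟩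
    · unfold VV at h
      push Not at h
      obtain ⟨𝒰, h1, h2, h3⟩ := h
      refine ⟨𝒰, h1, h2, fun y hy h4 => ?_⟩
      obtain ⟨U, hU, hUc, h5⟩ := h3 y hy
      exact absurd (h4 U hU hUc) h5
  choose w hw1 hw2 hw3 using hw
  have hv : ∀ A : Set (Set Γ), ∃ 𝒱 : Set (Set Γ), #𝒱 ≤ 1 ∧ (∀ U ∈ 𝒱, Pos F U) ∧
      ∀ V, Pos F V → (∀ a ∈ A, ¬ Pos F (V ∩ a)) → ∃ U ∈ 𝒱, ∀ a ∈ A, ¬ Pos F (U ∩ a) := by
    intro A
    by_cases h : ∃ V, Pos F V ∧ ∀ a ∈ A, ¬ Pos F (V ∩ a)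
    · obtain ⟨V, h1, h2⟩ := h
      exact ⟨{V}, by simp, by simpa using h1, fun _ _ _ => ⟨V, rfl, h2⟩⟩
    · exact ⟨∅, by simp, by simp, fun V h1 h2 => absurd ⟨V, h1, h2⟩ h⟩
  choose v hv1 hv2 hv3 using hv
  let Φ : Set (Set Γ) → Set (Set Γ) := fun A =>
    (range fun p : A × A => p.1.1 ∩ p.2.1) ∪ v A ∪ ⋃ p : ℕ × ℚ × A, w p.1 p.2.2.1 p.2.1
  obtain ⟨S, hS0, hS1, hS2⟩ := hG.exists_closed (fun A => {U ∈ Φ A | Pos F U}) (fun A hA => by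
    refine (mk_le_mk_of_subset (sep_subset _ _)).trans_lt ?_
    have hA' : #A < τ := hA.trans hG.lt
    refine (mk_union_le _ _).trans_lt (add_lt_of_lt hG.reg.aleph0_le
      ((mk_union_le _ _).trans_lt (add_lt_of_lt hG.reg.aleph0_le ?_ ?_)) ?_)
    · refine mk_range_le.trans_lt ?_
      simp only [mk_prod, lift_id]
      exact mul_lt_of_lt hG.reg.aleph0_le hA' hA'
    · exact (hv1 A).trans_lt (one_lt_aleph0.trans hG.aleph0_lt)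
    · refine (card_iUnion_lt_iff_forall_of_isRegular hG.reg ?_).mpr fun p => hw1 _ _ _
      simp only [mk_prod, lift_id, mk_nat, Cardinal.mkRat]
      exact mul_lt_of_lt hG.reg.aleph0_le hG.aleph0_lt
        (mul_lt_of_lt hG.reg.aleph0_le hG.aleph0_lt hA')) S₀ h₀
  have hfin : ∀ A : Set (Set Γ), A.Finite → #A < κ := fun A hA => hA.lt_aleph0.trans hG.unc
  have hint : ∀ U ∈ S, ∀ V ∈ S, Pos F (U ∩ V) → U ∩ V ∈ S := fun U hU V hV hUV =>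
    hS2 {U, V} (by simp [insert_subset_iff, hU, hV]) (hfin _ (by simp))
      ⟨Or.inl (Or.inl ⟨(⟨U, by simp⟩, ⟨V, by simp⟩), rfl⟩), hUV⟩
  refine ⟨{U ∈ S | Pos F U}, fun U hU => ⟨hS0 hU, hp U hU⟩,
    (mk_le_mk_of_subset (sep_subset _ _)).trans_lt hS1, fun U hU => hU.2,
    fun U hU V hV hUV => ⟨hint U hU.1 V hV.1 hUV, hUV⟩, fun V hV => ?_, fun n c hc r y hy h => ?_⟩
  · obtain ⟨𝒜, h1, h2, h3⟩ := exists_maxAC (F := F) {U ∈ S | Pos F U ∧ ¬ Pos F (U ∩ V)}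
      fun U hU => hU.2.1
    obtain ⟨U, hU, hU'⟩ := hv3 𝒜 V hV fun a ha => by
      rw [inter_comm]; exact (h1 ha).2.2
    have hUS := hS2 𝒜 (fun a ha => (h1 ha).1) (hC 𝒜 h2) ⟨Or.inl (Or.inr hU), hv2 𝒜 U hU⟩
    refine ⟨U, ⟨hUS, hv2 𝒜 U hU⟩, fun U' hU'S hU'U => ?_⟩
    by_contra hc
    obtain ⟨a, ha, hpa⟩ := h3 U' ⟨hU'S.1, hU'S.2, hc⟩
    exact hU' a ha (hpa.mono (inter_subset_inter_left _ hU'U))
  · refine hw3 n c r y hy fun U hU hUc => h U ⟨?_, hw2 n c r U hU⟩ hUc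
    exact hS2 {c} (by simpa using hc.1) (hfin _ (by simp))
      ⟨Or.inr (mem_iUnion.mpr ⟨(n, r, ⟨c, rfl⟩), hU⟩), hw2 n c r U hU⟩

/-- on `A` the function `y` lies in `[m, M]` and comes `ε`-close to both ends on every
member of `S` below `A` -/
structure Flat (F : Filter Γ) (S : Set (Set Γ)) (y : B Γ) (ε : ℝ) (A : Set Γ) (m M : ℝ) :
    Prop where
  up : ¬ Pos F (A ∩ {t | M < y t})
  dn : ¬ Pos F (A ∩ {t | y t < m})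
  up' : ∀ A' ∈ S, A' ⊆ A → Pos F (A' ∩ {t | M - ε < y t})
  dn' : ∀ A' ∈ S, A' ⊆ A → Pos F (A' ∩ {t | y t < m + ε})

theorem exists_flat_up {S : Set (Set Γ)} (hS : ∀ U ∈ S, Pos F U) (y : B Γ) {ε : ℝ} (hε : 0 < ε)
    {U : Set Γ} (hU : U ∈ S) : ∃ A ∈ S, A ⊆ U ∧ ∃ k : ℤ, ¬ Pos F (A ∩ {t | k * ε < y t}) ∧
      ∀ A' ∈ S, A' ⊆ A → Pos F (A' ∩ {t | k * ε - ε < y t}) := by
  obtain ⟨N, hN⟩ := exists_nat_gt (‖y‖ / ε)
  rw [div_lt_iff₀ hε] at hN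
  obtain ⟨k, ⟨A, hA, hAU, hk⟩, hmin⟩ := Int.exists_least_of_bdd
    (P := fun k : ℤ => ∃ A ∈ S, A ⊆ U ∧ ¬ Pos F (A ∩ {t | k * ε < y t}))
    ⟨-N, by
      rintro k ⟨A, hA, -, hk⟩
      by_contra hlt
      refine hk ((hS A hA).mono fun t ht => ⟨ht, ?_⟩)
      have h1 : (k : ℝ) ≤ -N := by exact_mod_cast (not_le.mp hlt).le
      have h2 := mul_le_mul_of_nonneg_right h1 hε.le
      have h3 := (abs_le.mp (B.abs_le y t)).1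
      simp only [mem_ofPred_eq]
      linarith⟩
    ⟨N, U, hU, subset_rfl, fun hp => by
      obtain ⟨t, -, ht⟩ := hp.nonempty
      have h3 := (abs_le.mp (B.abs_le y t)).2
      simp only [mem_ofPred_eq, Int.cast_natCast] at ht
      linarith⟩
  refine ⟨A, hA, hAU, k, hk, fun A' hA' hA'A => ?_⟩
  by_contra hc
  have := hmin (k - 1) ⟨A', hA', hA'A.trans hAU, by
    have e : ((k - 1 : ℤ) : ℝ) * ε = k * ε - ε := by push_cast; ring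
    rw [e]; exact hc⟩
  omega

theorem exists_flat {S : Set (Set Γ)} (hS : ∀ U ∈ S, Pos F U) (y : B Γ) {ε : ℝ} (hε : 0 < ε)
    {U : Set Γ} (hU : U ∈ S) : ∃ A ∈ S, A ⊆ U ∧ ∃ l k : ℤ, Flat F S y ε A (l * ε) (k * ε) := by
  obtain ⟨A, hA, hAU, k, h1, h2⟩ := exists_flat_up hS y hε hU
  obtain ⟨A', hA', hA'A, l, h3, h4⟩ := exists_flat_up hS (-y) hε hA
  refine ⟨A', hA', hA'A.trans hAU, -l, k, fun hp => h1 (hp.mono (inter_subset_inter_left _ hA'A)),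
    fun hp => h3 (hp.mono fun t ht => ⟨ht.1, ?_⟩), fun A'' h5 h6 => h2 A'' h5 (h6.trans hA'A),
    fun A'' h5 h6 => (h4 A'' h5 h6).mono fun t ht => ⟨ht.1, ?_⟩⟩
  · have := ht.2
    simp only [mem_ofPred_eq, B.neg_apply, Int.cast_neg] at this ⊢
    linarith
  · have := ht.2
    simp only [mem_ofPred_eq, B.neg_apply, Int.cast_neg] at this ⊢
    linarith

/-- few types over a small family -/
theorem exists_data (hG : Good κ τ) (hC : CC F κ) {S : Set (Set Γ)} (hS : #S < τ)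
    (hp : ∀ U ∈ S, Pos F U) {ε : ℝ} (hε : 0 < ε) :
    ∃ (D : Type) (data : B Γ → D), #D < τ ∧ ∀ y₁ y₂, data y₁ = data y₂ → ∀ U ∈ S, ∃ A ∈ S,
      ∃ l k : ℤ, Pos F (U ∩ A) ∧ Flat F S y₁ ε A (l * ε) (k * ε) ∧
        Flat F S y₂ ε A (l * ε) (k * ε) := by
  have h𝒜 : ∀ y : B Γ, ∃ 𝒜 ⊆ {A ∈ S | ∃ l k : ℤ, Flat F S y ε A (l * ε) (k * ε)}, AC F 𝒜 ∧
      ∀ U ∈ {A ∈ S | ∃ l k : ℤ, Flat F S y ε A (l * ε) (k * ε)}, ∃ A ∈ 𝒜, Pos F (U ∩ A) :=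
    fun y => exists_maxAC _ fun U hU => hp U hU.1
  choose 𝒜 h1 h2 h3 using h𝒜
  let S' : Set (Set Γ × ℤ × ℤ) := S ×ˢ Set.univ
  have hS' : #S' < τ := by
    simp only [S', mk_setProd, mk_univ, mk_prod, lift_id, mk_int]
    exact mul_lt_of_lt hG.reg.aleph0_le hS
      (mul_lt_of_lt hG.reg.aleph0_le hG.aleph0_lt hG.aleph0_lt)
  let d : B Γ → Set (Set Γ × ℤ × ℤ) := fun y =>
    {p | p.1 ∈ 𝒜 y ∧ Flat F S y ε p.1 (p.2.1 * ε) (p.2.2 * ε)}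
  have hd : ∀ y, d y ⊆ S' ∧ #(d y) < κ := fun y => by
    refine ⟨fun p hp => ⟨(h1 y hp.1).1, trivial⟩, ?_⟩
    have : d y ⊆ 𝒜 y ×ˢ Set.univ := fun p hp => ⟨hp.1, trivial⟩
    refine (mk_le_mk_of_subset this).trans_lt ?_
    simp only [mk_setProd, mk_univ, mk_prod, lift_id, mk_int]
    exact mul_lt_of_lt hG.unc.le (hC _ (h2 y)) (mul_lt_of_lt hG.unc.le hG.unc hG.unc)
  refine ⟨{A | A ⊆ S' ∧ #A < κ}, fun y => ⟨d y, hd y⟩, hG.mk_small hS', fun y₁ y₂ he U hU => ?_⟩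
  have he' : d y₁ = d y₂ := congrArg Subtype.val he
  obtain ⟨A', hA', hA'U, hfl⟩ := exists_flat hp y₁ hε hU
  obtain ⟨A, hA, hpA⟩ := h3 y₁ A' ⟨hA', hfl⟩
  obtain ⟨hAS, l, k, hlk⟩ := h1 y₁ hA
  have : (A, l, k) ∈ d y₂ := he' ▸ (⟨hA, hlk⟩ : (A, l, k) ∈ d y₁)
  exact ⟨A, hAS, l, k, hpA.mono (inter_subset_inter_left _ hA'U), hlk, this.2⟩

/-- the positive level sets of `y` over `S` -/
def lev (F : Filter Γ) (S : Set (Set Γ)) (y : B Γ) (ε : ℝ) : Set (Set Γ) :=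
  {V | Pos F V ∧ ∃ U ∈ S, ∃ k : ℤ, V = U ∩ {t | k * ε < y t} ∨ V = U ∩ {t | y t < k * ε}}

theorem mk_lev_lt (hτ : ℵ₀ < τ) {S : Set (Set Γ)} (hS : #S < τ) (y : B Γ) (ε : ℝ) :
    #(lev F S y ε) < τ := by
  have : lev F S y ε ⊆ (range fun p : S × ℤ => p.1.1 ∩ {t | p.2 * ε < y t}) ∪
      range fun p : S × ℤ => p.1.1 ∩ {t | y t < p.2 * ε} := by
    rintro V ⟨-, U, hU, k, h | h⟩
    · exact Or.inl ⟨(⟨U, hU⟩, k), h.symm⟩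
    · exact Or.inr ⟨(⟨U, hU⟩, k), h.symm⟩
  have h2 : #(S × ℤ) < τ := by
    simp only [mk_prod, lift_id, mk_int]
    exact mul_lt_of_lt hτ.le hS hτ
  exact (mk_le_mk_of_subset this).trans_lt ((mk_union_le _ _).trans_lt
    (add_lt_of_lt hτ.le (mk_range_le.trans_lt h2) (mk_range_le.trans_lt h2)))

/-- symmetrisation -/
theorem VV.sym (hG : Good κ τ) (hC : CC F κ) {𝒳 : Set (B Γ)} {c : Set Γ} {r : ℝ}
    (h : VV F τ 𝒳 c r) (𝒰 : Set (Set Γ)) (h𝒰 : #𝒰 < τ) (hp : ∀ U ∈ 𝒰, Pos F U) {ε : ℝ}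
    (hε : 0 < ε) : ∃ y₁ ∈ 𝒳, ∃ y₂ ∈ 𝒳, ∀ U ∈ 𝒰,
      Pos F (U ∩ {t | y₁ t - y₂ t ≤ ε}) ∧ Pos F (U ∩ {t | -ε ≤ y₁ t - y₂ t}) ∧
      (U ⊆ c → Pos F (U ∩ {t | 2 * r - ε < y₁ t - y₂ t}) ∧
        Pos F (U ∩ {t | y₁ t - y₂ t < -(2 * r - ε)})) := by
  classical
  obtain ⟨S, hS0, hS⟩ := exists_nice hG hC (fun _ => ∅) 𝒰 h𝒰 hp
  obtain ⟨D, data, hD, hdata⟩ := exists_data hG hC hS.small hS.pos hε
  have hrep : ∀ d : D, ∃ y : B Γ, (∃ y' ∈ 𝒳, data y' = d) → y ∈ 𝒳 ∧ data y = d := fun d => by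
    by_cases hd : ∃ y' ∈ 𝒳, data y' = d
    · obtain ⟨y, hy⟩ := hd
      exact ⟨y, fun _ => hy⟩
    · exact ⟨0, fun h => absurd h hd⟩
  choose rep hrep using hrep
  obtain ⟨y₂, hy₂, hosc⟩ := h (⋃ d, lev F S (rep d) ε)
    ((card_iUnion_lt_iff_forall_of_isRegular hG.reg hD).mpr fun d =>
      mk_lev_lt hG.aleph0_lt hS.small _ _)
    (fun U hU => by obtain ⟨d, hd⟩ := mem_iUnion.mp hU; exact hd.1)
  obtain ⟨hy₁, he⟩ := hrep (data y₂) ⟨y₂, hy₂, rfl⟩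
  set y₁ := rep (data y₂)
  refine ⟨y₁, hy₁, y₂, hy₂, fun U hU => ?_⟩
  obtain ⟨A, hA, l, k, hUA, hf1, hf2⟩ := hdata y₁ y₂ he U (hS0 hU)
  have hU' := hS.inter U (hS0 hU) A hA hUA
  have hu := hf1.up' _ hU' inter_subset_right
  have hd := hf1.dn' _ hU' inter_subset_right
  refine ⟨hd.of_null hf2.dn fun t ht => ?_, hu.of_null hf2.up fun t ht => ?_, fun hUc => ⟨?_, ?_⟩⟩
  · by_cases h1 : y₂ t < l * ε
    · exact Or.inl ⟨ht.1.2, h1⟩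
    · have := ht.2
      simp only [mem_ofPred_eq] at this
      exact Or.inr ⟨ht.1.1, by simp only [mem_ofPred_eq]; linarith⟩
  · by_cases h1 : k * ε < y₂ t
    · exact Or.inl ⟨ht.1.2, h1⟩
    · have := ht.2
      simp only [mem_ofPred_eq] at this
      exact Or.inr ⟨ht.1.1, by simp only [mem_ofPred_eq]; linarith⟩
  · obtain ⟨a, h1, h2⟩ := hosc _ (mem_iUnion.mpr ⟨data y₂, hu, U ∩ A, hU', k - 1, Or.inl (by
      push_cast; simp only [sub_mul, one_mul]; rfl)⟩) (fun t ht => hUc ht.1.1)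
    have h3 : a + r < k * ε := by
      obtain ⟨t, ht⟩ := (h1.of_null (W := {t | a + r < y₂ t ∧ y₂ t ≤ k * ε}) hf2.up fun t ht => by
        by_cases h4 : k * ε < y₂ t
        · exact Or.inl ⟨ht.1.1.2, h4⟩
        · exact Or.inr ⟨ht.2, not_lt.mp h4⟩).nonempty
      exact ht.1.trans_le ht.2
    refine h2.mono fun t ht => ⟨ht.1.1.1, ?_⟩
    have h5 := ht.1.2
    have h6 := ht.2
    simp only [mem_ofPred_eq] at h5 h6 ⊢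
    linarith
  · obtain ⟨a, h1, h2⟩ := hosc _ (mem_iUnion.mpr ⟨data y₂, hd, U ∩ A, hU', l + 1, Or.inr (by
      push_cast; simp only [add_mul, one_mul]; rfl)⟩) (fun t ht => hUc ht.1.1)
    have h3 : l * ε < a - r := by
      obtain ⟨t, ht⟩ := (h2.of_null (W := {t | y₂ t < a - r ∧ l * ε ≤ y₂ t}) hf2.dn fun t ht => by
        by_cases h4 : y₂ t < l * ε
        · exact Or.inl ⟨ht.1.1.2, h4⟩
        · exact Or.inr ⟨ht.2, not_lt.mp h4⟩).nonempty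
      exact ht.2.trans_lt ht.1
    refine h1.mono fun t ht => ⟨ht.1.1.1, ?_⟩
    have h5 := ht.1.2
    have h6 := ht.2
    simp only [mem_ofPred_eq] at h5 h6 ⊢
    linarith

end Pool.Agent.Lib.MP_4a9e55_an
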