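import Pool.Agent.Lib.MP_4a9e55_an.Main5

/-! The last cardinal case implies the whole conjecture. -/

set_option autoImplicit false

open Cardinal Set Filter
open scoped ENNReal

namespace Pool.Agent.Lib.MP_4a9e55_an

/-- the missing step -/
def GapSt : Prop :=
  ∀ (X : Type) [NormedAddCommGroup X] [NormedSpace ℝ X] [CompleteSpace X] (Γ : Type)
    (κ β : Cardinal.{0}) (F : Filter Γ) (i : X →L[ℝ] B Γ) (P : B Γ →L[ℝ] X),
    Inj X → Big κ β → ℵ₁ < κ → κ < β.ord.cof → CC F κ → (∀ x, ‖i x‖ = ‖x‖) → (∀ x, P (i x) = x) →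
    #(Ker F i) < β → β ≤ #X → (∃ δ, Order.succ δ < β.ord.cof ∧ ∃ σ < κ, β.ord.cof ≤ δ ^ σ) →
    Emb (L1 (OT β)) X ∨ ∃ F' : Filter Γ, ∃ μ < κ, CC F' μ ∧ #(Ker F' i) < β

variable {Γ : Type} {κ β γ : Cardinal.{0}}
variable {X : Type} [NormedAddCommGroup X] [NormedSpace ℝ X]

theorem main_ind4 (G : GapSt) [CompleteSpace X] (hX : Inj X) (i : X →L[ℝ] B Γ)
    (hi : ∀ x, ‖i x‖ = ‖x‖) (P : B Γ →L[ℝ] X) (hP : ∀ x, P (i x) = x) (hγ : γ ≤ #X)
    (hc : 𝔠 < γ) (κ : Cardinal.{0}) : κ.IsRegular → ℵ₀ < κ →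
    ∀ F : Filter Γ, CC F κ → (∀ ρ < κ, #(Ker F i) ^ ρ < γ) → Emb (L1 (OT γ)) X := by
  induction κ using WellFoundedLT.induction with
  | ind κ ih =>
  intro hκ hu F hC hK
  by_cases h1 : κ ≤ ℵ₁
  · exact main_ind ccc hX i hi P hP hγ hc κ hκ hu (Or.inl h1) F hC hK
  have hγ0 : ℵ₀ < γ := aleph0_lt_continuum.trans hc
  by_cases ha : ∃ ρ < κ, γ ≤ 2 ^ ρ
  · obtain ⟨ρ, h1, h2⟩ := ha
    have h3 : ℵ₀ < ρ := by
      by_contra h3
      have := h2.trans (power_le_power_left two_ne_zero (not_lt.mp h3))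
      rw [two_power_aleph0] at this
      exact absurd this (not_le.mpr hc)
    rcases t1case hX P h3 (OT γ) ((mk_OT γ).le.trans h2) with h | ⟨κ', h4, h5, h6, h7⟩
    · exact h
    · refine ih κ' (h4.trans_lt h1) h5 h6 _ h7 fun ρ' _ => ?_
      refine ((power_le_power_right (mk_ker_jF i P hP)).trans_eq one_power).trans_lt ?_
      exact one_lt_aleph0.trans hγ0
  push Not at ha
  have h1' : ℵ₁ < κ := not_le.mp h1
  by_cases ha' : (∀ θ < κ, Order.succ θ < κ) ∧ γ ≤ 2 ^< κ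
  · by_cases h2 : ∃ μ < κ, CC (jF P) μ
    · obtain ⟨μ, h2, h3⟩ := h2
      obtain ⟨κ', h4, h5, h6, h7⟩ := h3.reduce h2 h1'
      refine ih κ' h4 h5 h6 _ h7 fun ρ' _ => ?_
      refine ((power_le_power_right (mk_ker_jF i P hP)).trans_eq one_power).trans_lt ?_
      exact one_lt_aleph0.trans hγ0
    · unfold CC at h2
      push Not at h2
      exact t7p hX hκ hu ha'.1 i hi P hP h2 _ ((mk_OT γ).le.trans ha'.2)
  obtain ⟨β, ⟨ρ, hρ, hβρ⟩, hmin⟩ := wellFounded_lt.has_min {β | ∃ ρ < κ, γ ≤ β ^ ρ}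
    ⟨γ, 1, one_lt_aleph0.trans hu, by simp⟩
  have hlt : ∀ δ < β, ∀ ρ' < κ, δ ^ ρ' < γ := fun δ hδ ρ' hρ' =>
    not_le.mp fun h => hmin δ ⟨ρ', hρ', h⟩ hδ
  have hβγ : β ≤ γ := not_lt.mp (hmin γ ⟨1, one_lt_aleph0.trans hu, by simp⟩)
  have hpow : ∀ δ < β, ∀ ρ' < κ, δ ^ ρ' < β := fun δ hδ ρ' hρ' => not_le.mp fun h => by
    have := hβρ.trans (power_le_power_right h)
    rw [← power_mul] at this
    exact absurd this (not_le.mpr (hlt δ hδ _ (mul_lt_of_lt hu.le hρ' hρ)))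
  have h2 : 2 < β := not_le.mp fun h =>
    absurd (hβρ.trans (power_le_power_right h)) (not_le.mpr (ha ρ hρ))
  have h0 : ℵ₀ ≤ β := (cantor _).le.trans (hpow 2 h2 _ hu).le
  have hκβ : κ ≤ β := (le_powerlt_exp le_rfl).trans (powerlt_le.mpr fun ρ' h => (hpow 2 h2 ρ' h).le)
  have hKβ : #(Ker F i) < β := not_le.mp fun h =>
    absurd (hβρ.trans (power_le_power_right h)) (not_le.mpr (hK ρ hρ))
  rcases lt_or_ge β.ord.cof κ with hb | hb
  · have hp : ∀ δ < β, δ ^< κ < β := fun δ hδ => (powerlt_mono (le_max_left δ 2)).trans_lt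
      (powerlt_lt_of_cof_lt hκ h0 hκβ hb (two_pos.trans_le (le_max_right _ _)).ne'
        (hpow _ (max_lt hδ h2)))
    have hB : Big κ β := ⟨hκ, hu, (le_powerlt_exp le_rfl).trans_lt (hp 2 h2), hp, hb.trans_le hκβ⟩
    have hfin : Emb (L1 (OT ρ → OT β)) X → Emb (L1 (OT γ)) X := fun h =>
      h.l1_mono (by rwa [mk_pi, prod_const', mk_OT, mk_OT, mk_OT])
    rcases (isRegular_cof_ord h0).aleph0_le.lt_or_eq with h | h
    · rcases t3 hX hB hC i hi P hP hKβ h hb (OT ρ) (by rwa [mk_OT]) with h' | ⟨F', h3, h4⟩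
      · exact hfin h'
      · exact ih _ hb (isRegular_cof_ord h0) h F' h3 fun ρ' h' =>
          hlt _ h4 _ (h'.trans hb)
    · exact hfin (t3w hX hB hC i hi P hP hKβ (hβγ.trans hγ) h.symm (OT ρ) (by rwa [mk_OT]))
  · obtain rfl : β = γ := le_antisymm hβγ (hβρ.trans (power_le_self_of_cof h0 (hρ.trans_le hb)
      fun δ hδ => (hpow δ hδ ρ hρ).le))
    have hsucc : ¬ (∀ θ < κ, Order.succ θ < κ) → ∃ ν, κ = Order.succ ν := fun h => by
      push Not at h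
      obtain ⟨ν, h3, h4⟩ := h
      exact ⟨ν, le_antisymm h4 (Order.succ_le_of_lt h3)⟩
    have hp : ∀ δ < β, δ ^< κ < β := fun δ hδ => by
      by_cases hl : ∀ θ < κ, Order.succ θ < κ
      · exact powerlt_lt_of_two hκ (not_le.mp fun h => ha' ⟨hl, h⟩) hpow δ hδ
      · obtain ⟨ν, rfl⟩ := hsucc hl
        refine lt_of_le_of_lt (powerlt_le.mpr fun ρ' h' => ?_)
          (hpow _ (max_lt hδ h2) _ (Order.lt_succ ν))
        exact (power_le_power_right (le_max_left _ _)).trans (power_le_power_left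
          (two_pos.trans_le (le_max_right _ _)).ne' (Order.lt_succ_iff.mp h'))
    have h3 : κ < β := (le_powerlt_exp le_rfl).trans_lt (hp 2 h2)
    rcases (Ordinal.cof_ord_le β).lt_or_eq with h | h
    swap
    · exact t2emb ⟨hκ, hu, ⟨h0, h.ge⟩, h3, hp⟩ hC i hi P hP hKβ hγ _ (mk_OT _).le
    have hB : Big κ β := ⟨hκ, hu, h3, hp, h⟩
    have hred : (∃ F' : Filter Γ, ∃ μ < κ, CC F' μ ∧ #(Ker F' i) < β) →
        Emb (L1 (OT β)) X := fun ⟨F', μ, h4, h5, h6⟩ => by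
      obtain ⟨κ', h7, h8, h9, h10⟩ := h5.reduce h4 h1'
      exact ih κ' h7 h8 h9 F' h10 fun ρ' h' => hlt _ h6 _ (h'.trans h7)
    have hr := isRegular_cof_ord h0
    rcases hb.lt_or_eq with hb' | hb'
    · by_cases hcl : ∀ δ < β.ord.cof, ∀ σ < κ, δ ^ σ < β.ord.cof
      · exact t5 hB ⟨hκ, hu, hr, hb', fun δ hδ =>
          powerlt_lt_of_lt_cof (by rwa [hr.cof_ord]) (hcl δ hδ)⟩ hC i hi P hP hKβ hγ
      push Not at hcl
      obtain ⟨δ, h4, σ, h5, h6⟩ := hcl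
      by_cases h7 : ∀ δ, Order.succ δ < β.ord.cof → ∀ σ < κ, δ ^ σ < β.ord.cof
      swap
      · push Not at h7
        exact (G X Γ κ β F i P hX hB h1' hb' hC hi hP hKβ hγ h7).elim id hred
      have hcof : β.ord.cof = Order.succ δ := le_antisymm
        (not_lt.mp fun h8 => absurd (h7 δ h8 σ h5) (not_lt.mpr h6)) (Order.succ_le_of_lt h4)
      have h8 : κ ≤ δ := Order.le_of_lt_succ (hb'.trans_eq hcof)
      have hδ0 : ℵ₀ ≤ δ := hu.le.trans h8
      have h9 : ∀ g < δ, ∀ σ < κ, g ^ σ ≤ δ := fun g hg σ hσ => Order.le_of_lt_succ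
        ((h7 g (hcof ▸ Order.succ_lt_succ hg) σ hσ).trans_eq hcof)
      have h10 : δ.ord.cof < κ := not_le.mp fun h10 => absurd (hcof.ge.trans (h6.trans
        (power_le_self_of_cof hδ0 (h5.trans_le h10) fun g hg => h9 g hg σ h5)))
        (not_le.mpr (Order.lt_succ δ))
      have h11 : ∀ g < δ, ∀ σ < κ, g ^ σ < δ := fun g hg σ hσ => not_le.mp fun h11 => by
        have h12 := (lt_power_cof_ord hδ0).trans_le (power_le_power_right h11)
        rw [← power_mul] at h12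
        exact absurd h12 (not_lt.mpr (h9 g hg _ (mul_lt_of_lt hu.le hσ h10)))
      have h12 : 2 < δ := (natCast_lt_aleph0 (n := 2)).trans_le hδ0
      have h13 : ∀ g < δ, g ^< κ < δ := fun g hg => (powerlt_mono (le_max_left g 2)).trans_lt
        (powerlt_lt_of_cof_lt hκ hδ0 h8 h10 (two_pos.trans_le (le_max_right _ _)).ne'
          (h11 _ (max_lt hg h12)))
      exact (t8 hX hB ⟨hκ, hu, (le_powerlt_exp le_rfl).trans_lt (h13 2 h12), h13,
        h10.trans_le h8⟩ hcof h10 h1' hC i hi P hP hKβ).elim id hred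
    by_cases hl : ∀ θ < κ, Order.succ θ < κ
    · subst hb'
      exact (t7 hX hB hl hC i hi P hP hKβ).elim id hred
    obtain ⟨ν, rfl⟩ := hsucc hl
    have hν0 : ℵ₀ < ν := by
      by_contra hc'
      exact h1 (succ_aleph0 ▸ Order.succ_le_succ (not_lt.mp hc'))
    rcases (isRegular_cof_ord hν0.le).aleph0_le.lt_or_eq with h4 | h4
    · exact (t6 hX h4 hB hb'.symm hC i hi P hP hKβ).elim id fun ⟨F', h5, h6⟩ =>
        hred ⟨F', ν, Order.lt_succ ν, h5, h6⟩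
    · exact (t9 hX h4.symm hν0 hB hb'.symm hC i hi P hP hKβ).elim id fun ⟨F', h5, h6⟩ =>
        hred ⟨F', ν, Order.lt_succ ν, h5, h6⟩

theorem l1_gap (G : GapSt) [CompleteSpace X] (hX : Inj X) (hinf : ¬ FiniteDimensional ℝ X)
    (ι : Type) (hι : #ι ≤ #X) : Emb (L1 ι) X := by
  rcases le_or_gt #ι 𝔠 with hc | hc
  · exact (l1_continuum hX hinf).l1_mono (by simpa using hc)
  obtain ⟨Γ, i, P, hi, hP⟩ := hX.exists_proj
  refine Emb.l1_mono (ι := OT #ι) ?_ (mk_OT _).ge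
  have hK : ∀ ρ : Cardinal.{0}, #(Ker (jF P) i) ^ ρ < #ι := fun ρ =>
    ((power_le_power_right (mk_ker_jF i P hP)).trans_eq one_power).trans_lt
      (one_lt_aleph0.trans (aleph0_lt_continuum.trans hc))
  obtain ⟨κ, h1, h2, h4⟩ := exists_not_emb (X := X)
  exact main_ind4 G hX i hi P hP hι hc _ h1 h2 (jF P)
      (fun 𝒜 h𝒜 => not_le.mp fun h' => h4 (t1step hX P (by rwa [h1.cof_ord]) h𝒜 h'))
      fun ρ _ => hK ρ

theorem full_of_gap (G : GapSt) (X : Type) [NormedAddCommGroup X] [NormedSpace ℝ X]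
    [CompleteSpace X] (hX : Inj X) (hinf : ¬ FiniteDimensional ℝ X) (ι : Type)
    (hι : #ι = sInf {κ : Cardinal.{0} | ∃ s : Set X, Dense s ∧ #s = κ}) :
    Emb (L1 ι) X ∧ Nonempty ((X →L[ℝ] ℝ) ≃L[ℝ] WW ι) := by
  obtain ⟨s, hs, hs'⟩ := csInf_mem
    (s := {κ : Cardinal.{0} | ∃ s : Set X, Dense s ∧ #s = κ}) ⟨_, Set.univ, dense_univ, rfl⟩
  rw [← hι] at hs'
  have h : Emb (L1 ι) X := l1_gap G hX hinf ι (hs'.ge.trans (mk_set_le s))
  exact ⟨h, dual_iso hX hinf ι hs hs' h⟩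

end Pool.Agent.Lib.MP_4a9e55_an
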