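import Pool.Agent.Lib.MP_4a9e55_an.Basic

set_option autoImplicit false

open scoped ENNReal
open Cardinal

namespace Pool.Agent.Lib.MP_4a9e55_an

namespace Glue

/-- abstract form of the Rosenthal-Kupka lemma -/
theorem kupka {Θ Φ : Type} [Infinite Θ] (big : Φ → Set Θ → ℝ → Prop) (M : ℝ)
    (h0 : ∀ f A, big f A 0)
    (hmono : ∀ f A A' c, big f A c → A ⊆ A' → big f A' c)
    (hadd : ∀ f A A' c c', big f A c → big f A' c' → Disjoint A A' → big f (A ∪ A') (c + c'))
    (hbd : ∀ f A c, big f A c → c ≤ M)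
    (G : Θ → Set (Set Φ)) (hne : ∀ ξ, (G ξ).Nonempty) (hemp : ∀ ξ, ∅ ∉ G ξ)
    (hpart : ∀ ξ A A', A ∪ A' ∈ G ξ → A ∈ G ξ ∨ A' ∈ G ξ) {ε : ℝ} (hε : 0 < ε) :
    ∃ e : Θ ↪ Θ, ∀ θ, ∃ F ∈ G (e θ), ∀ f ∈ F, ¬ big f (Set.range e \ {e θ}) ε := by
  by_contra hcon
  obtain ⟨p⟩ : Nonempty (Θ × Θ ≃ Θ) := by
    rw [← Cardinal.eq]
    simp
  have key : ∀ k : ℕ, ∃ e : Θ ↪ Θ, ∀ θ, ∃ F ∈ G (e θ), ∀ f ∈ F,
      big f (Set.range e)ᶜ (k * ε) := by
    intro k
    induction k with
    | zero =>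
      refine ⟨Function.Embedding.refl Θ, fun θ => ?_⟩
      obtain ⟨F, hF⟩ := hne θ
      exact ⟨F, hF, fun f _ => by simpa using h0 f _⟩
    | succ k ih =>
      obtain ⟨e, he⟩ := ih
      choose F hFG hF using he
      let q : Θ → Θ ↪ Θ := fun a =>
        ⟨fun θ => e (p (a, θ)), fun θ θ' h => by
          have := p.injective (e.injective h)
          exact (Prod.mk.inj this).2⟩
      by_cases hall : ∀ a, ∃ θ,
          {f | f ∈ F (p (a, θ)) ∧ ¬ big f (Set.range e \ Set.range (q a)) ε} ∈ G (q a θ)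
      · exfalso
        choose u hu using hall
        apply hcon
        refine ⟨⟨fun a => q a (u a), fun a b h => ?_⟩, fun a => ⟨_, hu a, fun f hf hb => ?_⟩⟩
        · have := p.injective (e.injective h)
          exact (Prod.mk.inj this).1
        · refine hf.2 (hmono _ _ _ _ hb ?_)
          rintro _ ⟨⟨b, rfl⟩, hb⟩
          refine ⟨⟨_, rfl⟩, ?_⟩
          rintro ⟨θ, hθ⟩
          have := p.injective (e.injective hθ)
          have hab : a = b := (Prod.mk.inj this).1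
          subst hab
          exact hb rfl
      · push Not at hall
        obtain ⟨a, ha⟩ := hall
        refine ⟨q a, fun θ => ?_⟩
        have hu : {f | f ∈ F (p (a, θ)) ∧ ¬ big f (Set.range e \ Set.range (q a)) ε} ∪
            {f | f ∈ F (p (a, θ)) ∧ big f (Set.range e \ Set.range (q a)) ε} = F (p (a, θ)) := by
          ext f
          simp only [Set.mem_union, Set.mem_ofPred_eq]
          tauto
        have hG : F (p (a, θ)) ∈ G (q a θ) := hFG _
        rw [← hu] at hG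
        rcases hpart _ _ _ hG with h | h
        · exact absurd h (ha θ)
        · refine ⟨_, h, fun f hf => ?_⟩
          have h1 := hadd f _ _ _ _ (hF _ f hf.1) hf.2
            (Set.disjoint_left.mpr fun x hx hx' => hx hx'.1)
          have e1 : ((k + 1 : ℕ) : ℝ) * ε = k * ε + ε := by push_cast; ring
          rw [e1]
          refine hmono _ _ _ _ h1 ?_
          rintro x (hx | hx)
          · rintro ⟨θ', rfl⟩
            exact hx ⟨_, rfl⟩
          · exact hx.2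
  obtain ⟨k, hk⟩ := exists_nat_gt (M / ε)
  obtain ⟨e, he⟩ := key k
  obtain ⟨F, hFG, hF⟩ := he (Classical.arbitrary Θ)
  obtain ⟨f, hf⟩ : F.Nonempty := by
    rw [Set.nonempty_iff_ne_empty]
    rintro rfl
    exact hemp _ hFG
  have := hbd f _ _ (hF f hf)
  rw [div_lt_iff₀ hε] at hk
  linarith

variable {X : Type} [NormedAddCommGroup X] [NormedSpace ℝ X]

/-- the dual unit ball -/
abbrev DB (X : Type) [NormedAddCommGroup X] [NormedSpace ℝ X] : Type :=
  {f : X →L[ℝ] ℝ // ‖f‖ ≤ 1}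

theorem DB.abs_le (f : DB X) (x : X) : |f.1 x| ≤ ‖x‖ := by
  have h1 := f.1.le_opNorm x
  have h2 := mul_le_mul_of_nonneg_right f.2 (norm_nonneg x)
  rw [Real.norm_eq_abs] at h1
  linarith

/-- `f ∘ T` has variation at least `c` on the union of the sets `W η`, `η ∈ A` -/
def Big {Γ Θ : Type} (T : B Γ →L[ℝ] X) (W : Θ → Set Γ) (f : DB X) (A : Set Θ) (c : ℝ) : Prop :=
  ∃ g : B Γ, ‖g‖ ≤ 1 ∧ Supp (⋃ η ∈ A, W η) g ∧ c ≤ f.1 (T g)

theorem not_big {Γ Θ : Type} {T : B Γ →L[ℝ] X} {W : Θ → Set Γ} {f : DB X} {A : Set Θ} {ε : ℝ}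
    (h : ¬ Big T W f A ε) {g : B Γ} (hg : Supp (⋃ η ∈ A, W η) g) {C : ℝ} (hC : ‖g‖ ≤ C) :
    |f.1 (T g)| ≤ ε * C := by
  have hC0 : 0 ≤ C := (norm_nonneg _).trans hC
  rcases hC0.eq_or_lt with rfl | hpos
  · have : g = 0 := norm_le_zero_iff.mp hC
    simp [this]
  have key : ∀ u : ℝ, |u| = 1 → u * f.1 (T g) ≤ ε * C := by
    intro u hu
    by_contra hlt
    push Not at hlt
    apply h
    refine ⟨(u * C⁻¹) • g, ?_, fun t ht => ?_, ?_⟩
    · rw [norm_smul, Real.norm_eq_abs, abs_mul, hu, one_mul, abs_of_pos (inv_pos.mpr hpos),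
        inv_mul_le_iff₀ hpos, mul_one]
      exact hC
    · rw [B.smul_apply, hg t ht, mul_zero]
    · rw [map_smul, map_smul, smul_eq_mul]
      have : u * C⁻¹ * f.1 (T g) = (u * f.1 (T g)) / C := by ring
      rw [this, le_div_iff₀ hpos]
      exact hlt.le
  have h1 := key 1 (by simp)
  have h2 := key (-1) (by simp)
  rw [abs_le]
  constructor <;> linarith

/-- Rosenthal-Kupka lemma for an operator on bounded functions -/
theorem kupka_op {Γ Θ : Type} [Infinite Θ] (T : B Γ →L[ℝ] X) (W : Θ → Set Γ)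
    (hW : Pairwise (fun ξ η => Disjoint (W ξ) (W η)))
    (G : Θ → Set (Set (DB X))) (hne : ∀ ξ, (G ξ).Nonempty) (hemp : ∀ ξ, ∅ ∉ G ξ)
    (hpart : ∀ ξ A A', A ∪ A' ∈ G ξ → A ∈ G ξ ∨ A' ∈ G ξ) {ε : ℝ} (hε : 0 < ε) :
    ∃ e : Θ ↪ Θ, ∀ θ, ∃ F ∈ G (e θ), ∀ f ∈ F, ¬ Big T W f (Set.range e \ {e θ}) ε := by
  refine kupka (Big T W) ‖T‖ ?_ ?_ ?_ ?_ G hne hemp hpart hε
  · intro f A
    exact ⟨0, by simp, fun t _ => rfl, by simp⟩
  · rintro f A A' c ⟨g, h1, h2, h3⟩ hA
    exact ⟨g, h1, h2.mono (Set.biUnion_subset_biUnion_left hA), h3⟩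
  · rintro f A A' c c' ⟨g, h1, h2, h3⟩ ⟨g', h1', h2', h3'⟩ hA
    refine ⟨g + g', B.norm_le zero_le_one fun t => ?_, fun t ht => ?_, ?_⟩
    · rw [B.add_apply]
      by_cases ht : t ∈ ⋃ η ∈ A, W η
      · have ht' : t ∉ ⋃ η ∈ A', W η := by
          intro ht'
          simp only [Set.mem_iUnion] at ht ht'
          obtain ⟨η, hη, h⟩ := ht
          obtain ⟨η', hη', h'⟩ := ht'
          have hne : η ≠ η' := by
            rintro rfl
            exact Set.disjoint_left.mp hA hη hη'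
          exact Set.disjoint_left.mp (hW hne) h h'
        rw [h2' t ht', add_zero]
        exact (B.abs_le g t).trans h1
      · rw [h2 t ht, zero_add]
        exact (B.abs_le g' t).trans h1'
    · rw [Set.biUnion_union, Set.mem_union, not_or] at ht
      rw [B.add_apply, h2 t ht.1, h2' t ht.2, add_zero]
    · rw [map_add, map_add]
      linarith
  · rintro f A c ⟨g, h1, -, h3⟩
    have a1 := (le_abs_self _).trans (DB.abs_le f (T g))
    have a2 := T.le_opNorm g
    have a3 := mul_le_mul_of_nonneg_left h1 (norm_nonneg T)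
    linarith

/-- Hahn-Banach for an `ℓ¹`-family -/
theorem exists_dual {J : Type} {x : J → X} {r : ℝ} (hr : 0 ≤ r) (h : IsL1 x r) (σ : J → ℝ)
    (hσ : ∀ j, |σ j| ≤ 1) : ∃ f : DB X, ∀ j, f.1 (x j) = r * σ j := by
  let A : (J →₀ ℝ) →ₗ[ℝ] X := Finsupp.linearCombination ℝ x
  let L : (J →₀ ℝ) →ₗ[ℝ] ℝ := Finsupp.linearCombination ℝ (fun j => r * σ j)
  have hb : ∀ v, ‖L v‖ ≤ 1 * ‖A v‖ := by
    intro v
    have h1 := h v.support v
    simp only [A, L, Finsupp.linearCombination_apply, Finsupp.sum, one_mul]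
    refine le_trans ?_ h1
    rw [Real.norm_eq_abs, Finset.mul_sum]
    refine (Finset.abs_sum_le_sum_abs _ _).trans (Finset.sum_le_sum fun j _ => ?_)
    rw [smul_eq_mul, abs_mul, abs_mul, abs_of_nonneg hr]
    have := mul_le_mul_of_nonneg_left (hσ j) (mul_nonneg (abs_nonneg (v j)) hr)
    nlinarith
  have hL : ∀ v, L.compLeftInverse A ⟨A v, v, rfl⟩ = L v := fun v =>
    LinearMap.compLeftInverse_apply_of_bdd L A ⟨1, hb⟩ v (A v) rfl
  have hn : ‖L.compLeftInverse A‖ ≤ 1 := by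
    refine ContinuousLinearMap.opNorm_le_bound _ zero_le_one ?_
    rintro ⟨_, v, rfl⟩
    rw [hL]
    exact hb v
  obtain ⟨f, hf1, hf2⟩ := exists_extension_norm_eq (LinearMap.range A) (L.compLeftInverse A)
  refine ⟨⟨f, hf2.le.trans hn⟩, fun j => ?_⟩
  have := hf1 ⟨A (Finsupp.single j 1), _, rfl⟩
  rw [hL] at this
  simpa [A, L] using this

end Glue

open Glue

theorem t1 : T1Stmt := by
  intro X _ _ _ Θ _ _ T δ hδ hT
  have hf : ∀ ξ : Θ, ∃ f : DB X, δ ≤ f.1 (T (lp.single ∞ ξ (1 : ℝ))) := by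
    intro ξ
    obtain ⟨f, hf1, hf2⟩ := exists_dual_vector'' ℝ (T (lp.single ∞ ξ (1 : ℝ)))
    refine ⟨⟨f, hf1⟩, ?_⟩
    have e : f (T (lp.single ∞ ξ (1 : ℝ))) = ‖T (lp.single ∞ ξ (1 : ℝ))‖ := hf2
    exact (hT ξ).trans e.ge
  choose φ hφ using hf
  obtain ⟨e, he⟩ := kupka_op T (fun ξ : Θ => ({ξ} : Set Θ))
    (fun ξ η h => Set.disjoint_singleton.mpr h) (fun ξ => {F | φ ξ ∈ F})
    (fun ξ => ⟨Set.univ, Set.mem_univ (φ ξ)⟩) (fun ξ h => h) (fun ξ A A' h => h) (half_pos hδ)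
  have hb : ∀ (g : B Θ) (t : Θ), |Function.extend e (fun θ => g θ) 0 t| ≤ ‖g‖ := by
    intro g t
    by_cases ht : ∃ θ, e θ = t
    · obtain ⟨θ, rfl⟩ := ht
      rw [e.injective.extend_apply]
      exact B.abs_le g θ
    · rw [Function.extend_apply' _ _ _ ht]
      simp
  let J₀ : B Θ →ₗ[ℝ] B Θ :=
    { toFun := fun g => mkB (Function.extend e (fun θ => g θ) 0) ‖g‖ (hb g)
      map_add' := fun g h => B.ext' fun t => by
        by_cases ht : ∃ θ, e θ = t
        · obtain ⟨θ, rfl⟩ := ht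
          simp [e.injective.extend_apply]
        · simp [Function.extend_apply' _ _ _ ht]
      map_smul' := fun c g => B.ext' fun t => by
        by_cases ht : ∃ θ, e θ = t
        · obtain ⟨θ, rfl⟩ := ht
          simp [e.injective.extend_apply]
        · simp [Function.extend_apply' _ _ _ ht] }
  have hJ : ∀ g, ‖J₀ g‖ ≤ ‖g‖ := fun g => B.norm_le (norm_nonneg _) (hb g)
  have hJe : ∀ g θ, J₀ g (e θ) = g θ := fun g θ => e.injective.extend_apply _ _ θ
  have hJn : ∀ g t, (¬ ∃ θ, e θ = t) → J₀ g t = 0 := fun g t ht =>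
    Function.extend_apply' _ _ _ ht
  let J : B Θ →L[ℝ] B Θ := J₀.mkContinuous 1 (fun g => by simpa using hJ g)
  refine ⟨T.comp J, 2 / δ, by positivity, fun g => ?_⟩
  change ‖g‖ ≤ 2 / δ * ‖T (J₀ g)‖
  have key : ∀ θ, |g θ| ≤ (‖T (J₀ g)‖ + δ / 2 * ‖g‖) / δ := by
    intro θ
    obtain ⟨F, hF, hs⟩ := he θ
    have hs' := hs _ hF
    have hsupp : Supp (⋃ η ∈ Set.range e \ {e θ}, ({η} : Set Θ))
        (trunc ({e θ} : Set Θ)ᶜ (J₀ g)) := by
      intro t ht
      rw [Set.biUnion_of_singleton, Set.mem_sdiff, not_and, not_not] at ht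
      by_cases h1 : t ∈ Set.range e
      · exact trunc_of_not_mem _ (by simpa using ht h1)
      · have := abs_trunc_le ({e θ} : Set Θ)ᶜ (J₀ g) t
        rw [hJn g t h1, abs_zero] at this
        exact abs_nonpos_iff.mp this
    have h1 := not_big hs' hsupp ((norm_trunc_le _ _).trans (hJ g))
    have h2 : trunc ({e θ} : Set Θ) (J₀ g) = g θ • (lp.single ∞ (e θ) (1 : ℝ) : B Θ) := by
      refine B.ext' fun t => ?_
      by_cases ht : t = e θ
      · subst ht
        rw [trunc_of_mem _ (Set.mem_singleton _), hJe, B.smul_apply, lp.single_apply_self, mul_one]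
      · rw [trunc_of_not_mem _ (by simpa using ht), B.smul_apply, lp.single_apply_ne _ _ _ ht,
          mul_zero]
    have h3 : (φ (e θ)).1 (T (J₀ g)) = g θ * (φ (e θ)).1 (T (lp.single ∞ (e θ) (1 : ℝ))) +
        (φ (e θ)).1 (T (trunc ({e θ} : Set Θ)ᶜ (J₀ g))) := by
      conv_lhs => rw [← trunc_add_compl ({e θ} : Set Θ) (J₀ g)]
      rw [map_add, map_add, h2, map_smul, map_smul, smul_eq_mul]
    have h4 := DB.abs_le (φ (e θ)) (T (J₀ g))
    have h5 : |g θ| * δ ≤ |g θ * (φ (e θ)).1 (T (lp.single ∞ (e θ) (1 : ℝ)))| := by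
      rw [abs_mul]
      exact mul_le_mul_of_nonneg_left ((hφ _).trans (le_abs_self _)) (abs_nonneg _)
    have h6 : g θ * (φ (e θ)).1 (T (lp.single ∞ (e θ) (1 : ℝ))) = (φ (e θ)).1 (T (J₀ g)) -
        (φ (e θ)).1 (T (trunc ({e θ} : Set Θ)ᶜ (J₀ g))) := by linarith
    rw [h6] at h5
    have h7 := abs_sub ((φ (e θ)).1 (T (J₀ g))) ((φ (e θ)).1 (T (trunc ({e θ} : Set Θ)ᶜ (J₀ g))))
    rw [le_div_iff₀ hδ]
    linarith
  have h := B.norm_le (by positivity) key
  rw [le_div_iff₀ hδ] at h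
  rw [div_mul_eq_mul_div, le_div_iff₀ hδ]
  linarith

theorem fkh : FKHStmt := by
  classical
  intro Θ _
  obtain ⟨d⟩ : Nonempty (Θ ≃ Finset Θ × Finset (Finset Θ)) := by
    rw [← Cardinal.eq]
    simp
  let x : Set Θ → B Θ := fun A =>
    mkB (fun t => if (d t).1.filter (· ∈ A) ∈ (d t).2 then 1 else -1) 1 (fun t => by
      split_ifs <;> simp)
  refine IsL1.emb (x := x) (r := 1) (C := 1) one_pos (fun s a => ?_)
    (fun A => B.norm_le zero_le_one fun t => ?_)
  · have hsep : ∀ A A' : Set Θ, ∃ F : Finset Θ,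
        F.filter (· ∈ A) = F.filter (· ∈ A') → A = A' := by
      intro A A'
      by_cases h : A = A'
      · exact ⟨∅, fun _ => h⟩
      · obtain ⟨t, ht⟩ : ∃ t, ¬ (t ∈ A ↔ t ∈ A') := by
          by_contra hc
          push Not at hc
          exact h (Set.ext hc)
        refine ⟨{t}, fun hF => absurd ?_ ht⟩
        have := Finset.ext_iff.mp hF t
        simpa using this
    choose u hu using hsep
    let F : Finset Θ := (s ×ˢ s).biUnion fun p => u p.1 p.2
    have hF : ∀ A ∈ s, ∀ A' ∈ s, F.filter (· ∈ A) = F.filter (· ∈ A') → A = A' := by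
      intro A hA A' hA' h
      apply hu A A'
      ext t
      have h1 := Finset.ext_iff.mp h t
      simp only [Finset.mem_filter] at h1 ⊢
      have h2 : t ∈ u A A' → t ∈ F := fun ht =>
        Finset.mem_biUnion.mpr ⟨(A, A'), Finset.mem_product.mpr ⟨hA, hA'⟩, ht⟩
      tauto
    let G : Finset (Finset Θ) := (s.filter fun A => 0 ≤ a A).image fun A => F.filter (· ∈ A)
    have h1 := B.abs_le (∑ A ∈ s, a A • x A) (d.symm (F, G))
    refine le_trans ?_ ((le_abs_self _).trans h1)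
    rw [one_mul, B.sum_apply]
    refine le_of_eq (Finset.sum_congr rfl fun A hA => ?_)
    simp only [x, B.smul_apply, mkB_apply, Equiv.apply_symm_apply]
    by_cases ha : 0 ≤ a A
    · rw [if_pos, mul_one, abs_of_nonneg ha]
      exact Finset.mem_image.mpr ⟨A, Finset.mem_filter.mpr ⟨hA, ha⟩, rfl⟩
    · rw [if_neg, mul_neg_one, abs_of_neg (not_le.mp ha)]
      intro h
      obtain ⟨A', hA', e⟩ := Finset.mem_image.mp h
      rw [Finset.mem_filter] at hA'
      have := hF A' hA'.1 A hA e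
      subst this
      exact ha hA'.2
  · simp only [x, mkB_apply]
    split_ifs <;> simp

theorem glue : GStmt := by
  classical
  intro X _ _ _ Γ T Θ _ W τ r hr hW hτ hfam S c hc
  choose z hz1 hz2 hz3 using hfam
  let G : Θ → Set (Set (DB X)) := fun ξ =>
    {F | ∃ E : Finset (τ ξ), ∀ (s : Finset (τ ξ)) (σ : τ ξ → ℝ), (∀ j, |σ j| ≤ 1) →
      Disjoint s E → ∃ f ∈ F, ∀ j ∈ s, f.1 (T (z ξ j)) = r * σ j}
  obtain ⟨e, he⟩ := kupka_op T W hW G
    (fun ξ => ⟨Set.univ, ∅, fun s σ hσ _ => by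
      obtain ⟨f, hf⟩ := exists_dual hr.le (hz3 ξ) σ hσ
      exact ⟨f, Set.mem_univ _, fun j _ => hf j⟩⟩)
    (fun ξ h => by
      obtain ⟨E, hE⟩ := h
      obtain ⟨f, hf, -⟩ := hE ∅ 0 (fun j => by simp) (by simp)
      exact hf)
    (fun ξ A A' h => by
      obtain ⟨E, hE⟩ := h
      by_cases hA : A ∈ G ξ
      · exact Or.inl hA
      right
      have hA' : ¬ ∀ (s : Finset (τ ξ)) (σ : τ ξ → ℝ), (∀ j, |σ j| ≤ 1) →
          Disjoint s E → ∃ f ∈ A, ∀ j ∈ s, f.1 (T (z ξ j)) = r * σ j := fun h => hA ⟨E, h⟩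
      push Not at hA'
      obtain ⟨s₀, σ₀, hσ₀, hs₀, hno⟩ := hA'
      refine ⟨E ∪ s₀, fun s σ hσ hs => ?_⟩
      rw [Finset.disjoint_union_right] at hs
      obtain ⟨f, hf, hf'⟩ := hE (s ∪ s₀) (fun j => if j ∈ s₀ then σ₀ j else σ j)
        (fun j => by
          split_ifs
          · exact hσ₀ j
          · exact hσ j)
        (Finset.disjoint_union_left.mpr ⟨hs.1, hs₀⟩)
      rcases hf with hf | hf
      · obtain ⟨j, hj, hj'⟩ := hno f hf
        have := hf' j (Finset.mem_union_right _ hj)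
        simp only [if_pos hj] at this
        exact absurd this hj'
      · refine ⟨f, hf, fun j hj => ?_⟩
        have := hf' j (Finset.mem_union_left _ hj)
        simp only [if_neg (Finset.disjoint_left.mp hs.2 hj)] at this
        exact this)
    (half_pos hr)
  choose F hFG hF using he
  choose E hE using hFG
  have hι : ∀ θ, ∃ ι : τ (e θ) → τ (e θ), Function.Injective ι ∧ ∀ j, ι j ∉ E θ := by
    intro θ
    have := hτ (e θ)
    obtain ⟨q⟩ : Nonempty (τ (e θ) ≃ ((E θ : Set (τ (e θ)))ᶜ : Set (τ (e θ)))) := by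
      rw [← Cardinal.eq, Cardinal.mk_compl_finset_of_infinite]
    exact ⟨fun j => (q j).1, Subtype.val_injective.comp q.injective, fun j => (q j).2⟩
  choose ι hι1 hι2 using hι
  let y₀ : S → Γ → ℝ := fun u t =>
    if h : ∃ θ, t ∈ W (e θ) then z (e h.choose) (ι h.choose (c (e h.choose) u)) t else 0
  have hy₀ : ∀ u t, |y₀ u t| ≤ 1 := by
    intro u t
    simp only [y₀]
    split_ifs
    · exact (B.abs_le _ _).trans (hz1 _ _)
    · simp
  let y : S → B Γ := fun u => mkB (y₀ u) 1 (hy₀ u)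
  have hyn : ∀ u, ‖y u‖ ≤ 1 := fun u => B.norm_le zero_le_one (hy₀ u)
  have hyW : ∀ u θ t, t ∈ W (e θ) → y u t = z (e θ) (ι θ (c (e θ) u)) t := by
    intro u θ t ht
    have h : ∃ θ, t ∈ W (e θ) := ⟨θ, ht⟩
    have h' : h.choose = θ := by
      by_contra hne
      exact Set.disjoint_left.mp (hW fun h2 => hne (e.injective h2)) h.choose_spec ht
    change y₀ u t = _
    simp only [y₀, dif_pos h]
    rw [h']
  have hyt : ∀ u θ, trunc (W (e θ)) (y u) = z (e θ) (ι θ (c (e θ) u)) := by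
    intro u θ
    refine B.ext' fun t => ?_
    by_cases ht : t ∈ W (e θ)
    · rw [trunc_of_mem _ ht, hyW u θ t ht]
    · rw [trunc_of_not_mem _ ht, hz2 _ _ t ht]
  have hys : ∀ u θ, Supp (⋃ η ∈ Set.range e \ {e θ}, W η) (trunc (W (e θ))ᶜ (y u)) := by
    intro u θ t ht
    by_cases h1 : t ∈ W (e θ)
    · exact trunc_of_not_mem _ (by simpa using h1)
    · rw [trunc_of_mem _ (by simpa using h1)]
      have h : ¬ ∃ θ, t ∈ W (e θ) := by
        rintro ⟨θ', h'⟩
        apply ht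
        simp only [Set.mem_iUnion]
        refine ⟨e θ', ⟨⟨θ', rfl⟩, fun h2 => h1 ?_⟩, h'⟩
        rw [← Set.mem_singleton_iff.mp h2]
        exact h'
      change y₀ u t = 0
      simp only [y₀, dif_neg h]
  refine IsL1.emb (x := fun u => T (y u)) (r := r / 2) (C := ‖T‖) (half_pos hr) (fun s a => ?_)
    (fun u => ?_)
  · obtain ⟨_, ⟨θ, rfl⟩, hinj⟩ := hc (Set.range e) (Cardinal.mk_range_eq e e.injective) s
    obtain ⟨f, hf, hf'⟩ := hE θ (s.image fun u => ι θ (c (e θ) u))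
      (fun j => if ∃ u ∈ s, ι θ (c (e θ) u) = j ∧ 0 ≤ a u then 1 else -1)
      (fun j => by split_ifs <;> simp)
      (Finset.disjoint_left.mpr fun j hj => by
        obtain ⟨u, -, rfl⟩ := Finset.mem_image.mp hj
        exact hι2 θ _)
    refine le_trans ?_ ((le_abs_self _).trans (DB.abs_le f _))
    rw [map_sum, Finset.mul_sum]
    refine Finset.sum_le_sum fun u hu => ?_
    have h1 := hf' _ (Finset.mem_image_of_mem _ hu)
    have h2 := not_big (hF θ f hf) (hys u θ) ((norm_trunc_le _ _).trans (hyn u))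
    have h3 : f.1 (T (y u)) = f.1 (T (z (e θ) (ι θ (c (e θ) u)))) +
        f.1 (T (trunc (W (e θ))ᶜ (y u))) := by
      conv_lhs => rw [← trunc_add_compl (W (e θ)) (y u)]
      rw [map_add, map_add, hyt]
    rw [map_smul, smul_eq_mul, h3, h1]
    rw [mul_one, abs_le] at h2
    by_cases ha : 0 ≤ a u
    · rw [if_pos ⟨u, hu, rfl, ha⟩, abs_of_nonneg ha]
      nlinarith [h2.1]
    · rw [if_neg, abs_of_neg (not_le.mp ha)]
      · nlinarith [h2.2]
      · rintro ⟨u', hu', h4, h5⟩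
        have := hinj hu' hu (hι1 θ h4)
        subst this
        exact ha h5
  · have a2 := T.le_opNorm (y u)
    have a3 := mul_le_mul_of_nonneg_left (hyn u) (norm_nonneg T)
    linarith

end Pool.Agent.Lib.MP_4a9e55_an
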