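import Pool.Agent.Lib.MP_4a9e55_an.Card

set_option autoImplicit false

open Cardinal Set Filter

namespace Pool.Agent.Lib.MP_4a9e55_an

variable {Γ : Type} {F : Filter Γ}

/-- `U` is positive for the ideal dual to `F` -/
def Pos (F : Filter Γ) (U : Set Γ) : Prop := ∃ᶠ t in F, t ∈ U

theorem Pos.mono {U V : Set Γ} (h : Pos F U) (hUV : U ⊆ V) : Pos F V :=
  Frequently.mono h fun _ ht => hUV ht

theorem Pos.nonempty {U : Set Γ} (h : Pos F U) : U.Nonempty := h.exists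

theorem not_pos_empty : ¬ Pos F ∅ := fun h => Set.not_nonempty_empty h.nonempty

theorem not_pos_iff {U : Set Γ} : ¬ Pos F U ↔ Uᶜ ∈ F := by
  unfold Pos
  rw [not_frequently]
  rfl

theorem pos_union {U V : Set Γ} : Pos F (U ∪ V) ↔ Pos F U ∨ Pos F V :=
  frequently_or_distrib

theorem Pos.of_subset_union {U V W : Set Γ} (h : Pos F U) (hU : U ⊆ V ∪ W) :
    Pos F V ∨ Pos F W := pos_union.mp (h.mono hU)

/-- a positive set stays positive after removing a null set -/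
theorem Pos.of_null {U V W : Set Γ} (h : Pos F U) (hV : ¬ Pos F V) (hU : U ⊆ V ∪ W) :
    Pos F W := (h.of_subset_union hU).resolve_left hV

theorem not_pos_biUnion {ι : Type} (s : Finset ι) (V : ι → Set Γ) (h : ∀ i ∈ s, ¬ Pos F (V i)) :
    ¬ Pos F (⋃ i ∈ s, V i) := by
  classical
  induction s using Finset.induction_on with
  | empty => simpa using not_pos_empty
  | insert a s ha ih =>
    rw [Finset.set_biUnion_insert, pos_union]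
    rintro (h1 | h1)
    · exact h a (Finset.mem_insert_self _ _) h1
    · exact ih (fun i hi => h i (Finset.mem_insert_of_mem hi)) h1

/-- antichain of positive sets -/
def AC (F : Filter Γ) (𝒜 : Set (Set Γ)) : Prop :=
  (∀ A ∈ 𝒜, Pos F A) ∧ 𝒜.Pairwise fun A A' => ¬ Pos F (A ∩ A')

/-- chain condition -/
def CC (F : Filter Γ) (κ : Cardinal.{0}) : Prop := ∀ 𝒜, AC F 𝒜 → #𝒜 < κ

theorem AC.mono {𝒜 ℬ : Set (Set Γ)} (h : AC F 𝒜) (hs : ℬ ⊆ 𝒜) : AC F ℬ :=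
  ⟨fun A hA => h.1 A (hs hA), h.2.mono hs⟩

theorem CC.mono {κ κ' : Cardinal.{0}} (h : CC F κ) (hκ : κ ≤ κ') : CC F κ' :=
  fun 𝒜 h𝒜 => (h 𝒜 h𝒜).trans_le hκ

theorem exists_maxAC (D : Set (Set Γ)) (hD : ∀ U ∈ D, Pos F U) :
    ∃ 𝒜 ⊆ D, AC F 𝒜 ∧ ∀ U ∈ D, ∃ A ∈ 𝒜, Pos F (U ∩ A) := by
  obtain ⟨𝒜, h𝒜⟩ := zorn_subset {𝒜 | 𝒜 ⊆ D ∧ 𝒜.Pairwise fun A A' => ¬ Pos F (A ∩ A')} (by
    intro c hc hchain
    refine ⟨⋃₀ c, ⟨sUnion_subset fun s hs => (hc hs).1, ?_⟩, fun s hs => subset_sUnion_of_mem hs⟩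
    rintro A ⟨s, hs, hA⟩ A' ⟨s', hs', hA'⟩ hne
    rcases hchain.total hs hs' with h | h
    · exact (hc hs').2 (h hA) hA' hne
    · exact (hc hs).2 hA (h hA') hne)
  refine ⟨𝒜, h𝒜.prop.1, ⟨fun A hA => hD A (h𝒜.prop.1 hA), h𝒜.prop.2⟩, fun U hU => ?_⟩
  by_contra hc
  push Not at hc
  have hU𝒜 : U ∉ 𝒜 := fun h => hc U h (by simpa using hD U hU)
  have h1 : insert U 𝒜 ∈ {𝒜 | 𝒜 ⊆ D ∧ 𝒜.Pairwise fun A A' => ¬ Pos F (A ∩ A')} := by
    refine ⟨insert_subset hU h𝒜.prop.1, ?_⟩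
    refine h𝒜.prop.2.insert fun A hA _ => ⟨hc A hA, ?_⟩
    rw [inter_comm]; exact hc A hA
  exact hU𝒜 (h𝒜.eq_of_subset h1 (subset_insert _ _) ▸ mem_insert _ _)

/-- an injective family of pairwise almost disjoint positive sets -/
theorem ac_range {ι : Type} (U : ι → Set Γ) (h1 : ∀ i, Pos F (U i))
    (h2 : ∀ i j, i ≠ j → ¬ Pos F (U i ∩ U j)) : AC F (range U) ∧ #(range U) = #ι := by
  refine ⟨⟨by rintro _ ⟨i, rfl⟩; exact h1 i, ?_⟩, mk_range_eq U fun i j hij => ?_⟩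
  · rintro _ ⟨i, rfl⟩ _ ⟨j, rfl⟩ hne
    exact h2 i j fun h => hne (h ▸ rfl)
  · by_contra hne
    have := h2 i j hne
    rw [← hij, inter_self] at this
    exact this (h1 i)

/-- a family of positive sets of bounded order is small -/
theorem CC.bounded_order {κ : Cardinal.{0}} (h : CC F κ) (hκ : ℵ₀ < κ) {ι : Type} (U : ι → Set Γ)
    (hU : ∀ i, Pos F (U i)) (N : ℕ) (hN : ∀ (s : Finset ι) (t : Γ), (∀ i ∈ s, t ∈ U i) → s.card ≤ N) :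
    #ι < κ := by
  classical
  let I : Finset ι → Set Γ := fun s => {t | ∀ i ∈ s, t ∈ U i}
  have hmax : ∀ i, ∃ s : Finset ι, i ∈ s ∧ Pos F (I s) ∧
      ∀ s' : Finset ι, s ⊆ s' → Pos F (I s') → s' = s := by
    intro i
    have hne : ∃ n, ∃ s : Finset ι, i ∈ s ∧ Pos F (I s) ∧ N - s.card = n :=
      ⟨_, {i}, by simp, (hU i).mono (by intro t ht; simpa [I] using ht), rfl⟩
    obtain ⟨s, hs1, hs2, hs3⟩ := Nat.find_spec hne
    refine ⟨s, hs1, hs2, fun s' hss' hs' => ?_⟩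
    have h1 := Nat.find_min' hne ⟨s', hss' hs1, hs', rfl⟩
    obtain ⟨t, ht⟩ := hs'.nonempty
    have h2 := hN s' t ht
    exact (Finset.eq_of_subset_of_card_le hss' (by omega)).symm
  choose s hs1 hs2 hs3 using hmax
  have hac := ac_range (F := F) (fun a : range s => I a.1)
    (by rintro ⟨_, i, rfl⟩; exact hs2 i) (by
      rintro ⟨_, i, rfl⟩ ⟨_, j, rfl⟩ hne hp
      have hp' : Pos F (I (s i ∪ s j)) := hp.mono fun t ht k hk => by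
        rcases Finset.mem_union.mp hk with hk | hk
        · exact ht.1 k hk
        · exact ht.2 k hk
      have e1 := hs3 i _ Finset.subset_union_left hp'
      have e2 := hs3 j _ Finset.subset_union_right hp'
      exact hne (Subtype.ext (e1.symm.trans e2)))
  have h1 : #(range s) < κ := hac.2 ▸ h _ hac.1
  have h2 : (univ : Set ι) ⊆ ⋃ a : range s, (a.1 : Set ι) := fun i _ =>
    mem_iUnion.mpr ⟨⟨s i, i, rfl⟩, hs1 i⟩
  calc #ι = #(univ : Set ι) := mk_univ.symm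
    _ ≤ #(range s) * ⨆ a : range s, #(a.1 : Set ι) := (mk_le_mk_of_subset h2).trans (mk_iUnion_le _)
    _ ≤ #(range s) * ℵ₀ := mul_le_mul' le_rfl (ciSup_le' fun a => (Finset.finite_toSet _).lt_aleph0.le)
    _ < κ := mul_lt_of_lt hκ.le h1 hκ

/-- joining antichains that live below the members of an antichain -/
theorem ac_join {ι : Type} (b : ι → Set Γ) (hb : ∀ i j, i ≠ j → ¬ Pos F (b i ∩ b j))
    (𝒞 : ι → Set (Set Γ)) (h𝒞 : ∀ i, AC F (𝒞 i)) (hs : ∀ i, ∀ C ∈ 𝒞 i, C ⊆ b i) :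
    AC F (⋃ i, 𝒞 i) := by
  refine ⟨fun C hC => ?_, fun C hC C' hC' hne => ?_⟩
  · obtain ⟨i, hi⟩ := mem_iUnion.mp hC
    exact (h𝒞 i).1 C hi
  · obtain ⟨i, hi⟩ := mem_iUnion.mp hC
    obtain ⟨j, hj⟩ := mem_iUnion.mp hC'
    by_cases hij : i = j
    · subst hij; exact (h𝒞 i).2 hi hj hne
    · exact fun hp => hb i j hij (hp.mono (inter_subset_inter (hs i C hi) (hs j C' hj)))

/-- Erdos-Tarski: a singular cardinal is not the saturation -/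
theorem erdos_tarski {ρ : Cardinal.{0}} (hρ : ℵ₀ < ρ) (hs : ρ.ord.cof < ρ)
    (h : ∀ μ < ρ, ∃ 𝒜, AC F 𝒜 ∧ μ ≤ #𝒜) : ∃ 𝒜, AC F 𝒜 ∧ ρ ≤ #𝒜 := by
  classical
  by_contra hcon
  push Not at hcon
  obtain ⟨g, hg⟩ := exists_cofinal_fun ρ (OT ρ.ord.cof) (mk_OT _)
  let m : OT ρ.ord.cof → Cardinal.{0} := fun ξ => #(Iio (g ξ))
  have hm : ∀ c : Cardinal.{0}, (∀ ξ, m ξ ≤ c) → ρ ≤ c := fun c hc => by
    by_contra hlt
    have hsl : Order.IsSuccLimit ρ := (IsSingular.mk hρ.le hs.ne).isSuccLimit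
    obtain ⟨x, hx⟩ := exists_Iio_eq (hsl.succ_lt (not_le.mp hlt))
    obtain ⟨ξ, hξ⟩ := hg x
    have := (mk_le_mk_of_subset (Iio_subset_Iio hξ)).trans (hc ξ)
    rw [hx] at this
    exact absurd this (not_le.mpr (Order.lt_succ c))
  let Has : Set Γ → Cardinal.{0} → Prop := fun b μ => ∃ 𝒜, AC F 𝒜 ∧ (∀ A ∈ 𝒜, A ⊆ b) ∧ μ ≤ #𝒜
  let D : Set (Set Γ) := {b | Pos F b ∧ ∃ μ < ρ, ¬ Has b μ}
  by_cases hd : ∀ b, Pos F b → ∃ b' ∈ D, b' ⊆ b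
  · obtain ⟨𝒜, h𝒜D, h𝒜, hmax⟩ := exists_maxAC D fun U hU => hU.1
    have h𝒜ρ := hcon 𝒜 h𝒜
    -- the bounds are unbounded
    have hub : ∀ μ < ρ, ∃ a ∈ 𝒜, Has a μ := by
      intro μ hμ
      by_contra hc
      push Not at hc
      obtain ⟨𝒞, h𝒞, h𝒞μ⟩ := h (Order.succ (#𝒜 * μ))
        ((IsSingular.mk hρ.le hs.ne).isSuccLimit.succ_lt (mul_lt_of_lt hρ.le h𝒜ρ hμ))
      have hcov : 𝒞 ⊆ ⋃ a : 𝒜, {C ∈ 𝒞 | Pos F (C ∩ a)} := fun C hC => by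
        obtain ⟨b', hb', hb'C⟩ := hd C (h𝒞.1 C hC)
        obtain ⟨a, ha, hp⟩ := hmax b' hb'
        exact mem_iUnion.mpr ⟨⟨a, ha⟩, hC, hp.mono (inter_subset_inter_left _ hb'C)⟩
      have hsm : ∀ a : 𝒜, #{C ∈ 𝒞 | Pos F (C ∩ a)} ≤ μ := fun a => by
        have hac := ac_range (F := F) (fun C : {C ∈ 𝒞 | Pos F (C ∩ a)} => C.1 ∩ a)
          (fun C => C.2.2) (fun C C' hne hp => h𝒞.2 C.2.1 C'.2.1 (fun e => hne (Subtype.ext e))
            (hp.mono (inter_subset_inter inter_subset_left inter_subset_left)))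
        by_contra hlt
        exact hc a a.2 ⟨_, hac.1, by rintro _ ⟨C, rfl⟩; exact inter_subset_right,
          hac.2 ▸ (not_le.mp hlt).le⟩
      have : #𝒞 ≤ #𝒜 * μ := (mk_le_mk_of_subset hcov).trans
        ((mk_iUnion_le _).trans (mul_le_mul' le_rfl (ciSup_le' hsm)))
      exact absurd (h𝒞μ.trans this) (not_le.mpr (Order.lt_succ _))
    have hch : ∀ a : 𝒜, ∃ μ < ρ, ¬ Has a μ := fun a => (h𝒜D a.2).2
    choose ν hν hν' using hch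
    obtain ⟨V, hV⟩ := exists_seq (Θ := OT ρ.ord.cof) 𝒜 (fun ξ 𝒱 V => V ∉ 𝒱 ∧ Has V (m ξ)) (by
      intro ξ 𝒱 h𝒱 h𝒱c
      have h1 : (⨆ a : 𝒱, ν ⟨a, h𝒱 a.2⟩) < ρ :=
        iSup_lt_of_lt_cof_ord (h𝒱c.trans_lt (mk_Iio_OT ξ)) fun a => hν _
      obtain ⟨a, ha, 𝒞, h2, h3, h4⟩ := hub _ (max_lt h1 (mk_Iio_OT (g ξ)))
      refine ⟨a, ha, fun haV => hν' ⟨a, ha⟩ ⟨𝒞, h2, h3, ?_⟩, 𝒞, h2, h3, (le_max_right _ _).trans h4⟩
      exact ((le_ciSup (f := fun a : 𝒱 => ν ⟨a, h𝒱 a.2⟩) bddAbove_of_small ⟨a, haV⟩).trans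
        (le_max_left _ _)).trans h4)
    have hinj : ∀ i j, i ≠ j → V i ≠ V j := fun i j hij he => by
      rcases lt_or_gt_of_ne hij with hl | hl
      · exact (hV j).2.1 ⟨i, hl, he⟩
      · exact (hV i).2.1 ⟨j, hl, he.symm⟩
    choose 𝒞 h1 h2 h3 using fun ξ => (hV ξ).2.2
    have hac := ac_join V (fun i j hij => h𝒜.2 (hV i).1 (hV j).1 (hinj i j hij)) 𝒞 h1 h2
    exact absurd (hm _ fun ξ => (h3 ξ).trans (mk_le_mk_of_subset (subset_iUnion 𝒞 ξ)))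
      (not_le.mpr (hcon _ hac))
  · push Not at hd
    obtain ⟨b, hb, hbD⟩ := hd
    have hall : ∀ b' ⊆ b, Pos F b' → ∀ μ < ρ, Has b' μ := fun b' hb' hp μ hμ => by
      by_contra hc
      exact hbD b' ⟨hp, μ, hμ, hc⟩ hb'
    obtain ⟨ℬ, hℬ, hℬb, hℬc⟩ := hall b subset_rfl hb _ hs
    rw [← mk_OT ρ.ord.cof] at hℬc
    obtain ⟨e⟩ := (Cardinal.le_def _ _).mp hℬc
    have h𝒞 : ∀ ξ, Has (e ξ) (m ξ) := fun ξ =>
      hall _ (hℬb _ (e ξ).2) (hℬ.1 _ (e ξ).2) _ (mk_Iio_OT _)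
    choose 𝒞 h1 h2 h3 using h𝒞
    have hac := ac_join (fun ξ => (e ξ : Set Γ)) (fun i j hij =>
      hℬ.2 (e i).2 (e j).2 fun he => hij (e.injective (Subtype.ext he))) 𝒞 h1 h2
    exact absurd (hm _ fun ξ => (h3 ξ).trans (mk_le_mk_of_subset (subset_iUnion 𝒞 ξ)))
      (not_le.mpr (hcon _ hac))

end Pool.Agent.Lib.MP_4a9e55_an
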