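import Pool.Agent.Lib.MP_4a9e55_an.Basic

set_option autoImplicit false

open scoped ENNReal

namespace Pool.Agent.Lib.MP_4a9e55_an

namespace Linf

variable {Γ : Type}

/-- pointwise product of bounded functions -/
noncomputable def mul (g h : B Γ) : B Γ :=
  mkB (fun t => g t * h t) (‖g‖ * ‖h‖) (fun t => by
    rw [abs_mul]
    exact mul_le_mul (B.abs_le g t) (B.abs_le h t) (abs_nonneg _) (norm_nonneg _))

@[simp] theorem mul_apply (g h : B Γ) (t : Γ) : mul g h t = g t * h t := rfl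

/-- every functional on `ℓ∞(Γ)` is dominated by a positive functional -/
theorem dom (ν : B Γ →L[ℝ] ℝ) :
    ∃ m : B Γ →L[ℝ] ℝ, ∀ h w : B Γ, (∀ t, |h t| ≤ w t) → ν h ≤ m w := by
  by_cases h0 : ∀ h, ν h ≤ 0
  · exact ⟨0, fun h w _ => by simpa using h0 h⟩
  push Not at h0
  obtain ⟨h₀, hh₀⟩ := h0
  set M : ℝ := ‖ν‖ + 1 with hM
  have hMpos : 0 < M := by positivity
  let C : Set (B Γ) := {w | ∃ h : B Γ, (∀ t, |h t| ≤ w t) ∧ M ≤ ν h}
  have hC : Convex ℝ C := by
    rintro w ⟨h, h1, h2⟩ w' ⟨h', h1', h2'⟩ a b ha hb hab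
    refine ⟨a • h + b • h', fun t => ?_, ?_⟩
    · simp only [B.add_apply, B.smul_apply]
      refine (abs_add_le _ _).trans ?_
      rw [abs_mul, abs_mul, abs_of_nonneg ha, abs_of_nonneg hb]
      exact add_le_add (mul_le_mul_of_nonneg_left (h1 t) ha) (mul_le_mul_of_nonneg_left (h1' t) hb)
    · rw [map_add, map_smul, map_smul, smul_eq_mul, smul_eq_mul]
      have e : M = a * M + b * M := by rw [← add_mul, hab, one_mul]
      rw [e]
      exact add_le_add (mul_le_mul_of_nonneg_left h2 ha) (mul_le_mul_of_nonneg_left h2' hb)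
  have hdis : Disjoint (Metric.ball (0 : B Γ) 1) C := by
    rw [Set.disjoint_left]
    rintro w hw ⟨h, h1, h2⟩
    rw [mem_ball_zero_iff] at hw
    have h3 : ‖h‖ ≤ 1 := B.norm_le zero_le_one fun t =>
      (h1 t).trans ((le_abs_self _).trans ((B.abs_le w t).trans hw.le))
    have h4 := ν.le_opNorm h
    have h5 := mul_le_mul_of_nonneg_left h3 (norm_nonneg ν)
    have h6 := le_abs_self (ν h)
    rw [Real.norm_eq_abs] at h4
    linarith
  obtain ⟨m, c, hm1, hm2⟩ :=
    geometric_hahn_banach_open (convex_ball (0 : B Γ) 1) Metric.isOpen_ball hC hdis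
  have hc : 0 < c := by simpa using hm1 0 (by simp)
  have key : ∀ h w : B Γ, (∀ t, |h t| ≤ w t) → 0 < ν h → ν h ≤ M / c * m w := by
    intro h w hw hp
    have hs : 0 < M / ν h := div_pos hMpos hp
    have := hm2 ((M / ν h) • w) ⟨(M / ν h) • h, fun t => by
      simp only [B.smul_apply]
      rw [abs_mul, abs_of_pos hs]
      exact mul_le_mul_of_nonneg_left (hw t) hs.le, by
      rw [map_smul, smul_eq_mul, div_mul_cancel₀ _ hp.ne']⟩
    rw [map_smul, smul_eq_mul, div_mul_eq_mul_div, le_div_iff₀ hp] at this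
    rw [div_mul_eq_mul_div, le_div_iff₀ hc]
    linarith
  refine ⟨(M / c) • m, fun h w hw => ?_⟩
  change ν h ≤ M / c * m w
  by_cases hp : 0 < ν h
  · exact key h w hw hp
  have hw0 : ∀ t, 0 ≤ w t := fun t => (abs_nonneg _).trans (hw t)
  have hpos : 0 ≤ M / c * m w := by
    by_contra hneg
    push Not at hneg
    let w₀ : B Γ := mkB (fun t => |h₀ t|) ‖h₀‖ (fun t => by simpa using B.abs_le h₀ t)
    set s : ℝ := |M / c * m w₀| / (-(M / c * m w)) with hs
    have hs0 : 0 ≤ s := div_nonneg (abs_nonneg _) (by linarith)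
    have := key h₀ (w₀ + s • w) (fun t => by
      simp only [B.add_apply, B.smul_apply, w₀, mkB_apply]
      have := mul_nonneg hs0 (hw0 t)
      linarith) hh₀
    rw [map_add, map_smul, smul_eq_mul] at this
    have e : s * (-(M / c * m w)) = |M / c * m w₀| := div_mul_cancel₀ _ (by linarith)
    have h7 := le_abs_self (M / c * m w₀)
    nlinarith
  linarith

variable {X : Type} [NormedAddCommGroup X] [NormedSpace ℝ X]

/-- Grothendieck's argument: a space of bounded functions on which the uniform norm is dominated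
by a Hilbert seminorm `m (x²)` is finite dimensional -/
theorem groth (i : X →L[ℝ] B Γ) (hi : ∀ x, ‖i x‖ ≤ ‖x‖) (m : B Γ →L[ℝ] ℝ) (K : ℝ) (hK0 : 0 ≤ K)
    (hK : ∀ x, ‖x‖ ^ 2 ≤ K * m (mul (i x) (i x))) : FiniteDimensional ℝ X := by
  classical
  by_contra hX
  let β : X →ₗ[ℝ] X →ₗ[ℝ] ℝ := LinearMap.mk₂ ℝ (fun x y => m (mul (i x) (i y)))
    (fun x x' y => by
      rw [← map_add]; congr 1; exact B.ext' fun t => by simp [add_mul])
    (fun c x y => by
      rw [← map_smul]; congr 1; exact B.ext' fun t => by simp [mul_assoc])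
    (fun x y y' => by
      rw [← map_add]; congr 1; exact B.ext' fun t => by simp [mul_add])
    (fun c x y => by
      rw [← map_smul]; congr 1; exact B.ext' fun t => by simp [mul_left_comm])
  have hβ : ∀ x y, β x y = m (mul (i x) (i y)) := fun _ _ => rfl
  have hsymm : ∀ x y, β x y = β y x := fun x y => by
    rw [hβ, hβ]; congr 1; exact B.ext' fun t => by simp [mul_comm]
  have horth : ∀ n : ℕ, ∃ e : Fin n → X, ∀ j k, β (e j) (e k) = if j = k then 1 else 0 := by
    intro n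
    induction n with
    | zero => exact ⟨Fin.elim0, fun j => j.elim0⟩
    | succ n ih =>
      obtain ⟨e, he⟩ := ih
      let φ : X →ₗ[ℝ] (Fin n → ℝ) := LinearMap.pi fun j => β (e j)
      have hφ : ¬ Function.Injective φ := fun h => hX (FiniteDimensional.of_injective φ h)
      rw [injective_iff_map_eq_zero] at hφ
      push Not at hφ
      obtain ⟨x, hx1, hx2⟩ := hφ
      have hx3 : ∀ j, β (e j) x = 0 := fun j => congrFun hx1 j
      have hx4 : 0 < β x x := by
        have h1 := hK x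
        have h2 : 0 < ‖x‖ ^ 2 := pow_pos (norm_pos_iff.mpr hx2) 2
        rw [← hβ] at h1
        by_contra h3
        have := mul_nonpos_of_nonneg_of_nonpos hK0 (not_lt.mp h3)
        linarith
      set y : X := (√(β x x))⁻¹ • x with hy
      have hy1 : β y y = 1 := by
        have hs : √(β x x) ≠ 0 := (Real.sqrt_pos.mpr hx4).ne'
        rw [hy, map_smul, map_smul, LinearMap.smul_apply, smul_eq_mul, smul_eq_mul]
        have := Real.mul_self_sqrt hx4.le
        field_simp
        nlinarith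
      have hy2 : ∀ j, β (e j) y = 0 := fun j => by rw [hy, map_smul, hx3, smul_zero]
      refine ⟨Fin.cons y e, fun j k => ?_⟩
      refine Fin.cases ?_ (fun j => ?_) j <;> refine Fin.cases ?_ (fun k => ?_) k
      · simpa using hy1
      · rw [Fin.cons_zero, Fin.cons_succ, hsymm, hy2, if_neg (Fin.succ_ne_zero k).symm]
      · rw [Fin.cons_zero, Fin.cons_succ, hy2, if_neg (Fin.succ_ne_zero j)]
      · simp only [Fin.cons_succ, he, Fin.succ_inj]
  obtain ⟨n, hn⟩ := exists_nat_gt (‖m‖ * K)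
  obtain ⟨e, he⟩ := horth n
  let S : B Γ := ∑ j, mul (i (e j)) (i (e j))
  have hS : ‖S‖ ≤ K := by
    refine B.norm_le hK0 fun t => ?_
    have hSt : S t = ∑ j, i (e j) t * i (e j) t := by
      simp only [S, B.sum_apply, mul_apply]
    have hS0 : 0 ≤ S t := by rw [hSt]; exact Finset.sum_nonneg fun j _ => mul_self_nonneg _
    let x : X := ∑ j, (i (e j) t) • e j
    have h1 : i x t = S t := by
      simp only [x, hSt, map_sum, map_smul, B.sum_apply, B.smul_apply]
    have h2 : β x x = S t := by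
      simp only [x, map_sum, map_smul, LinearMap.sum_apply, LinearMap.smul_apply, he, hSt,
        smul_eq_mul]
      simp
    have h3 := hK x
    rw [← hβ, h2] at h3
    have h4 : S t ≤ ‖x‖ := by
      rw [← h1]; exact (le_abs_self _).trans ((B.abs_le _ t).trans (hi x))
    rw [abs_of_nonneg hS0]
    by_contra h5
    push Not at h5
    nlinarith
  have h1 : m S = n := by
    simp only [S, map_sum, ← hβ, he]
    simp
  have h2 := m.le_opNorm S
  have h3 := mul_le_mul_of_nonneg_left hS (norm_nonneg m)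
  rw [h1, Real.norm_eq_abs, abs_of_nonneg (Nat.cast_nonneg n)] at h2
  linarith

/-- `W` carries arbitrarily many disjointly supported functions of the unit ball with large image -/
def Many (P : B Γ →L[ℝ] X) (W : Set Γ) (r : ℝ) : Prop :=
  ∀ N : ℕ, ∃ (s : Finset ℕ) (g : ℕ → B Γ), N ≤ s.card ∧
    (∀ j ∈ s, ‖g j‖ ≤ 1 ∧ Supp W (g j) ∧ r ≤ ‖P (g j)‖) ∧
    ∀ j ∈ s, ∀ k ∈ s, j ≠ k → ∀ t, g j t = 0 ∨ g k t = 0

theorem trunc_zero_of {W : Set Γ} {g : B Γ} {t : Γ} (h : g t = 0) : trunc W g t = 0 := by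
  have := abs_trunc_le W g t
  rw [h, abs_zero] at this
  exact abs_nonpos_iff.mp this

theorem norming (x : X) : ∃ f : X →L[ℝ] ℝ, ‖f‖ ≤ 1 ∧ f x = ‖x‖ := by
  obtain ⟨f, h1, h2⟩ := exists_dual_vector'' ℝ x
  exact ⟨f, h1, h2⟩

theorem le_norm_of {f : X →L[ℝ] ℝ} (hf : ‖f‖ ≤ 1) (x : X) : f x ≤ ‖x‖ := by
  have h1 := f.le_opNorm x
  have h2 := mul_le_mul_of_nonneg_right hf (norm_nonneg x)
  have h3 := le_abs_self (f x)
  rw [Real.norm_eq_abs] at h1
  linarith

/-- greedy construction of many disjoint functions -/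
theorem greedy (P : B Γ →L[ℝ] X) (δ : ℝ) (hδ : 0 ≤ δ)
    (H : ∀ F : Finset (X →L[ℝ] ℝ), ∃ g : B Γ, ‖g‖ ≤ 1 ∧ 1 / 4 ≤ ‖P g‖ ∧
      ∀ f ∈ F, ∀ h : B Γ, ‖h‖ ≤ 1 → Supp {t | g t ≠ 0} h → f (P h) ≤ δ) (k : ℕ) :
    ∃ g : ℕ → B Γ, (∀ j < k, ‖g j‖ ≤ 1 ∧ 1 / 4 - k * δ ≤ ‖P (g j)‖) ∧
      ∀ j < k, ∀ l < k, j ≠ l → ∀ t, g j t = 0 ∨ g l t = 0 := by
  classical
  induction k with
  | zero => exact ⟨fun _ => 0, by simp, by simp⟩
  | succ k ih =>
    obtain ⟨g, hg1, hg2⟩ := ih
    choose f hf1 hf2 using fun j => norming (P (g j))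
    obtain ⟨u, hu1, hu2, hu3⟩ := H ((Finset.range k).image f)
    let U : Set Γ := {t | u t ≠ 0}
    refine ⟨fun j => if j < k then trunc Uᶜ (g j) else u, fun j hj => ?_, ?_⟩
    · by_cases hjk : j < k
      · simp only [if_pos hjk]
        refine ⟨(norm_trunc_le _ _).trans (hg1 j hjk).1, ?_⟩
        have h1 := hu3 (f j) (Finset.mem_image_of_mem f (Finset.mem_range.mpr hjk)) (trunc U (g j))
          ((norm_trunc_le _ _).trans (hg1 j hjk).1) (supp_trunc _ _)
        have h2 : f j (P (g j)) = f j (P (trunc U (g j))) + f j (P (trunc Uᶜ (g j))) := by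
          rw [← map_add, ← map_add, trunc_add_compl]
        have h3 := le_norm_of (hf1 j) (P (trunc Uᶜ (g j)))
        have h4 := (hg1 j hjk).2
        have h5 := hf2 j
        push_cast
        linarith
      · simp only [if_neg hjk]
        refine ⟨hu1, ?_⟩
        have : 0 ≤ ((k + 1 : ℕ) : ℝ) * δ := by positivity
        linarith
    · have aux : ∀ j t, trunc Uᶜ (g j) t = 0 ∨ u t = 0 := fun j t => by
        by_cases ht : u t = 0
        · exact Or.inr ht
        · exact Or.inl (trunc_of_not_mem _ (by simpa [U] using ht))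
      intro j hj l hl hjl t
      by_cases hjk : j < k <;> by_cases hlk : l < k
      · simp only [if_pos hjk, if_pos hlk]
        exact (hg2 j hjk l hlk hjl t).imp trunc_zero_of trunc_zero_of
      · simp only [if_pos hjk, if_neg hlk]
        exact aux j t
      · simp only [if_neg hjk, if_pos hlk]
        exact (aux l t).symm
      · omega

/-- an infinite dimensional complemented subspace gives many disjoint heavy functions -/
theorem many_univ (i : X →L[ℝ] B Γ) (P : B Γ →L[ℝ] X) (hi : ∀ x, ‖i x‖ = ‖x‖)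
    (hP : ∀ x, P (i x) = x) (hX : ¬ FiniteDimensional ℝ X) : Many P Set.univ (1 / 8) := by
  classical
  intro N
  set δ : ℝ := 1 / (8 * (N + 1)) with hδ
  have hδ0 : 0 < δ := by positivity
  have H : ∀ F : Finset (X →L[ℝ] ℝ), ∃ g : B Γ, ‖g‖ ≤ 1 ∧ 1 / 4 ≤ ‖P g‖ ∧
      ∀ f ∈ F, ∀ h : B Γ, ‖h‖ ≤ 1 → Supp {t | g t ≠ 0} h → f (P h) ≤ δ := by
    intro F
    by_contra hF
    push Not at hF
    choose m hm using fun f : X →L[ℝ] ℝ => dom (f.comp P)
    set M : ℝ := ‖P‖ + 1 with hM
    have hM0 : 0 < M := by positivity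
    have unit : ∀ x : X, ‖x‖ = 1 → δ ≤ (2 * M) ^ 2 * (∑ f ∈ F, m f) (mul (i x) (i x)) := by
      intro x hx
      let D : Set Γ := {t | 1 / (2 * M) < |i x t|}
      have h1 : ‖trunc Dᶜ (i x)‖ ≤ 1 / (2 * M) := B.norm_le (by positivity) fun t => by
        by_cases ht : t ∈ D
        · rw [trunc_of_not_mem _ (by simpa using ht), abs_zero]; positivity
        · rw [trunc_of_mem _ (by simpa using ht)]
          exact not_lt.mp ht
      have h2 : ‖P (trunc Dᶜ (i x))‖ ≤ 1 / 2 := by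
        refine (P.le_opNorm _).trans ?_
        calc ‖P‖ * ‖trunc Dᶜ (i x)‖ ≤ M * (1 / (2 * M)) :=
              mul_le_mul (by linarith) h1 (norm_nonneg _) hM0.le
          _ = 1 / 2 := by field_simp
      have h3 : x = P (trunc D (i x)) + P (trunc Dᶜ (i x)) := by
        rw [← map_add, trunc_add_compl, hP]
      have h4 : 1 / 4 ≤ ‖P (trunc D (i x))‖ := by
        have := norm_add_le (P (trunc D (i x))) (P (trunc Dᶜ (i x)))
        rw [← h3, hx] at this
        linarith
      obtain ⟨f, hf, h, hh1, hh2, hh3⟩ := hF (trunc D (i x))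
        ((norm_trunc_le _ _).trans (by rw [hi, hx])) h4
      let w : B Γ := (2 * M) ^ 2 • mul (i x) (i x)
      have hw : ∀ t, |h t| ≤ w t := by
        intro t
        simp only [w, B.smul_apply, mul_apply]
        by_cases ht : t ∈ D
        · have h5 : 1 / (2 * M) < |i x t| := ht
          rw [div_lt_iff₀ (by positivity)] at h5
          have h6 := (B.abs_le h t).trans hh1
          have h7 : (2 * M) ^ 2 * (i x t * i x t) = (|i x t| * (2 * M)) ^ 2 := by
            rw [mul_pow |i x t|, sq_abs]; ring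
          rw [h7]
          nlinarith
        · rw [hh2 t (by simp [trunc_of_not_mem _ ht]), abs_zero]
          exact mul_nonneg (sq_nonneg _) (mul_self_nonneg _)
      have h8 : f (P h) ≤ m f w := hm f h w hw
      have h9 : ∀ f' ∈ F, 0 ≤ m f' w := fun f' _ => by
        simpa using hm f' 0 w fun t => by simpa using (abs_nonneg _).trans (hw t)
      have h10 : m f w ≤ ∑ f' ∈ F, m f' w := Finset.single_le_sum h9 hf
      have h11 : ∑ f' ∈ F, m f' w = (2 * M) ^ 2 * (∑ f ∈ F, m f) (mul (i x) (i x)) := by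
        rw [← smul_eq_mul, ← map_smul, sum_apply]
      linarith
    refine hX (groth i (fun x => (hi x).le) (∑ f ∈ F, m f) ((2 * M) ^ 2 / δ) (by positivity)
      fun x => ?_)
    by_cases hx : x = 0
    · have e : mul (i x) (i x) = 0 := B.ext' fun t => by simp [hx]
      rw [e, map_zero, hx]; simp
    have hx0 : 0 < ‖x‖ := norm_pos_iff.mpr hx
    have h1 := unit (‖x‖⁻¹ • x) (by rw [norm_smul, norm_inv, norm_norm, inv_mul_cancel₀ hx0.ne'])
    have e : mul (i (‖x‖⁻¹ • x)) (i (‖x‖⁻¹ • x)) = (‖x‖ ^ 2)⁻¹ • mul (i x) (i x) :=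
      B.ext' fun t => by
        simp only [map_smul, mul_apply, B.smul_apply]
        field_simp
    rw [e, map_smul, smul_eq_mul] at h1
    rw [div_mul_eq_mul_div, le_div_iff₀ hδ0]
    have h2 := mul_le_mul_of_nonneg_left h1 (sq_nonneg ‖x‖)
    have h3 : ‖x‖ ^ 2 * ((2 * M) ^ 2 * ((‖x‖ ^ 2)⁻¹ * (∑ f ∈ F, m f) (mul (i x) (i x))))
        = (2 * M) ^ 2 * (∑ f ∈ F, m f) (mul (i x) (i x)) := by field_simp
    linarith
  obtain ⟨g, hg1, hg2⟩ := greedy P δ hδ0.le H N
  refine ⟨Finset.range N, g, by simp, fun j hj => ?_, fun j hj k hk =>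
    hg2 j (Finset.mem_range.mp hj) k (Finset.mem_range.mp hk)⟩
  have h1 := hg1 j (Finset.mem_range.mp hj)
  refine ⟨h1.1, fun t ht => absurd (Set.mem_univ t) ht, ?_⟩
  have h2 : (N : ℝ) * δ ≤ 1 / 8 := by
    rw [hδ, mul_one_div, div_le_iff₀ (by positivity)]
    linarith
  linarith [h1.2]

/-- one of many disjoint sets can be removed at a small cost -/
theorem Many.remove {P : B Γ →L[ℝ] X} {W : Set Γ} {r : ℝ} (hW : Many P W r) (ε : ℝ)
    (s : Finset ℕ) (hs : s.Nonempty) (hε : ‖P‖ ≤ s.card * ε) (u : ℕ → B Γ)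
    (hu : ∀ j ∈ s, ∀ k ∈ s, j ≠ k → ∀ t, u j t = 0 ∨ u k t = 0) :
    ∃ l ∈ s, Many P (W \ {t | u l t ≠ 0}) (r - ε) := by
  classical
  by_contra hno
  push Not at hno
  simp only [Many, not_forall] at hno
  choose! N hN using hno
  obtain ⟨q, g, hq, hg1, hg2⟩ := hW (s.card * s.sup N)
  let U : ℕ → Set Γ := fun l => {t | u l t ≠ 0}
  have pick : ∀ j ∈ q, ∃ l ∈ s, r - ε ≤ ‖P (trunc (U l)ᶜ (g j))‖ := by
    intro j hj
    obtain ⟨f, hf1, hf2⟩ := norming (P (g j))
    have h1 : ‖∑ l ∈ s, trunc (U l) (g j)‖ ≤ 1 := by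
      refine B.norm_le zero_le_one fun t => ?_
      rw [B.sum_apply]
      by_cases ht : ∃ l ∈ s, t ∈ U l
      · obtain ⟨l, hl, htl⟩ := ht
        rw [Finset.sum_eq_single l]
        · exact (abs_trunc_le _ _ _).trans ((B.abs_le _ t).trans (hg1 j hj).1)
        · intro k hk hkl
          refine trunc_of_not_mem _ fun htk => ?_
          rcases hu k hk l hl hkl t with h | h
          · exact htk h
          · exact htl h
        · exact fun h => absurd hl h
      · push Not at ht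
        rw [Finset.sum_eq_zero fun l hl => trunc_of_not_mem _ (ht l hl)]
        simp
    have h2 : ∑ l ∈ s, f (P (trunc (U l) (g j))) ≤ ∑ _l ∈ s, ε := by
      rw [← map_sum, ← map_sum, Finset.sum_const, nsmul_eq_mul]
      refine (le_norm_of hf1 _).trans ((P.le_opNorm _).trans ?_)
      have := mul_le_mul_of_nonneg_left h1 (norm_nonneg P)
      linarith
    obtain ⟨l, hl, h3⟩ := Finset.exists_le_of_sum_le hs h2
    refine ⟨l, hl, ?_⟩
    have h4 : f (P (g j)) = f (P (trunc (U l) (g j))) + f (P (trunc (U l)ᶜ (g j))) := by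
      rw [← map_add, ← map_add, trunc_add_compl]
    have h5 := le_norm_of hf1 (P (trunc (U l)ᶜ (g j)))
    have h6 := (hg1 j hj).2.2
    linarith
  choose! c hc1 hc2 using pick
  obtain ⟨l, hl, h7⟩ := Finset.exists_le_card_fiber_of_mul_le_card_of_maps_to hc1 hs hq
  refine hN l hl ⟨q.filter fun j => c j = l, fun j => trunc (U l)ᶜ (g j),
    (Finset.le_sup hl).trans h7, fun j hj => ?_, fun j hj k hk hjk t => ?_⟩
  · rw [Finset.mem_filter] at hj
    refine ⟨(norm_trunc_le _ _).trans (hg1 j hj.1).1, fun t ht => ?_, hj.2 ▸ hc2 j hj.1⟩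
    by_cases htW : t ∈ W
    · refine trunc_of_not_mem _ fun h => ht ⟨htW, h⟩
    · exact trunc_zero_of ((hg1 j hj.1).2.1 t htW)
  · exact (hg2 j (Finset.mem_filter.mp hj).1 k (Finset.mem_filter.mp hk).1 hjk t).imp
      trunc_zero_of trunc_zero_of

/-- an infinite disjoint sequence of heavy functions -/
theorem exists_seq {P : B Γ →L[ℝ] X} (hP : Many P Set.univ (1 / 8)) :
    ∃ h : ℕ → B Γ, (∀ n, ‖h n‖ ≤ 1 ∧ 1 / 16 ≤ ‖P (h n)‖) ∧
      ∀ n k, n ≠ k → ∀ t, h n t = 0 ∨ h k t = 0 := by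
  let ρ : ℕ → ℝ := fun n => 1 / 16 + 1 / 16 * (1 / 2) ^ n
  have step : ∀ (n : ℕ) (W : Set Γ), Many P W (ρ n) → ∃ h : B Γ, ‖h‖ ≤ 1 ∧ Supp W h ∧
      1 / 16 ≤ ‖P h‖ ∧ Many P (W \ {t | h t ≠ 0}) (ρ (n + 1)) := by
    intro n W hW
    have hε : (0 : ℝ) < 1 / 32 * (1 / 2) ^ n := by positivity
    obtain ⟨L, hL⟩ := exists_nat_gt (‖P‖ / (1 / 32 * (1 / 2) ^ n))
    obtain ⟨s, u, hs, hu1, hu2⟩ := hW (L + 1)
    have hs' : s.Nonempty := Finset.card_pos.mp (by omega)
    have h1 : ‖P‖ ≤ s.card * (1 / 32 * (1 / 2) ^ n) := by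
      rw [div_lt_iff₀ hε] at hL
      have : (L : ℝ) ≤ s.card := by exact_mod_cast (by omega : L ≤ s.card)
      exact hL.le.trans (mul_le_mul_of_nonneg_right this hε.le)
    obtain ⟨l, hl, h2⟩ := hW.remove _ s hs' h1 u hu2
    refine ⟨u l, (hu1 l hl).1, (hu1 l hl).2.1, ?_, ?_⟩
    · have h3 := (hu1 l hl).2.2
      have h4 : (0 : ℝ) ≤ 1 / 16 * (1 / 2) ^ n := by positivity
      simp only [ρ] at h3
      linarith
    · have e : ρ (n + 1) = ρ n - 1 / 32 * (1 / 2) ^ n := by
        simp only [ρ]; ring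
      rw [e]; exact h2
  choose! h hh using step
  let W : ℕ → Set Γ := fun n => Nat.rec Set.univ (fun n V => V \ {t | h n V t ≠ 0}) n
  have hW : ∀ n, Many P (W n) (ρ n) := by
    intro n
    induction n with
    | zero =>
      have e : ρ 0 = 1 / 8 := by simp only [ρ]; norm_num
      rw [e]; exact hP
    | succ n ih => exact (hh n _ ih).2.2.2
  have hanti : Antitone W := antitone_nat_of_succ_le fun n => Set.sdiff_subset
  have key : ∀ n k, n < k → ∀ t, h n (W n) t = 0 ∨ h k (W k) t = 0 := by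
    intro n k hnk t
    by_cases ht : h n (W n) t = 0
    · exact Or.inl ht
    · refine Or.inr ((hh k _ (hW k)).2.1 t fun htk => ?_)
      exact (hanti (Nat.succ_le_of_lt hnk) htk).2 ht
  refine ⟨fun n => h n (W n), fun n => ⟨(hh n _ (hW n)).1, (hh n _ (hW n)).2.2.1⟩,
    fun n k hnk t => ?_⟩
  rcases lt_or_gt_of_ne hnk with h1 | h1
  · exact key n k h1 t
  · exact (key k n h1 t).symm

end Linf

open Linf in
/-- Rosenthal: an infinite dimensional injective space contains `ℓ∞` -/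
theorem linf : LinfStmt := by
  intro hT X _ _ _ hX hfin
  obtain ⟨Γ, i, P, hi, hP⟩ := hX.exists_proj
  obtain ⟨h, hh1, hh2⟩ := exists_seq (many_univ i P hi hP hfin)
  have hν : ∀ t, ∃ n, ∀ k, k ≠ n → h k t = 0 := by
    intro t
    by_cases ht : ∃ n, h n t ≠ 0
    · obtain ⟨n, hn⟩ := ht
      exact ⟨n, fun k hk => (hh2 k n hk t).resolve_right hn⟩
    · push Not at ht
      exact ⟨0, fun k _ => ht k⟩
  choose ν hν using hν
  have hb : ∀ (a : B ℕ) (t : Γ), |a (ν t) * h (ν t) t| ≤ ‖a‖ := fun a t => by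
    rw [abs_mul]
    have := mul_le_mul (B.abs_le a (ν t)) ((B.abs_le (h (ν t)) t).trans (hh1 (ν t)).1)
      (abs_nonneg _) (norm_nonneg _)
    simpa using this
  let S₀ : B ℕ →ₗ[ℝ] B Γ :=
    { toFun := fun a => mkB (fun t => a (ν t) * h (ν t) t) ‖a‖ (hb a)
      map_add' := fun a b => B.ext' fun t => by simp [add_mul]
      map_smul' := fun c a => B.ext' fun t => by simp [mul_assoc] }
  let S : B ℕ →L[ℝ] B Γ := S₀.mkContinuous 1 fun a => by
    rw [one_mul]; exact B.norm_le (norm_nonneg _) (hb a)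
  refine hT X ℕ (P.comp S) (1 / 16) (by norm_num) fun n => ?_
  have e : S (lp.single ∞ n (1 : ℝ)) = h n := by
    refine B.ext' fun t => ?_
    change (lp.single ∞ n (1 : ℝ) : B ℕ) (ν t) * h (ν t) t = h n t
    by_cases hn : ν t = n
    · rw [hn, lp.single_apply_self, one_mul]
    · rw [lp.single_apply_ne _ _ _ hn, zero_mul, hν t n (Ne.symm hn)]
  rw [ContinuousLinearMap.comp_apply, e]
  exact (hh1 n).2

end Pool.Agent.Lib.MP_4a9e55_an
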