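import Pool.Agent.Lib.MP_4a9e55_an.Basic

set_option autoImplicit false

open scoped ENNReal unitInterval ProbabilityTheory Classical
open MeasureTheory ProbabilityTheory Set Filter Measure

namespace Pool.Agent.Lib.MP_4a9e55_an

namespace Mah

/-- probability integral transform -/
theorem pit (m : Measure ℝ) [IsProbabilityMeasure m] (h0 : ∀ x, m {x} = 0) :
    ∃ u : ℝ → I, Measurable u ∧ m.map u = volume := by
  have hc : Continuous (cdf m) := continuous_iff_continuousAt.mpr fun x => by
    rw [(monotone_cdf m).continuousAt_iff_leftLim_eq_rightLim, (cdf m).rightLim_eq]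
    have h1 := (cdf m).measure_singleton x
    rw [measure_cdf, h0, eq_comm, ENNReal.ofReal_eq_zero] at h1
    exact le_antisymm ((monotone_cdf m).leftLim_le le_rfl) (by linarith)
  have ex : ∀ t : ℝ, 0 < t → t < 1 → ∃ a, cdf m a = t := fun t h1 h2 => by
    obtain ⟨a, ha⟩ := ((tendsto_cdf_atBot m).eventually (gt_mem_nhds h1)).exists
    obtain ⟨b, hb⟩ := ((tendsto_cdf_atTop m).eventually (lt_mem_nhds h2)).exists
    exact intermediate_value_univ a b hc ⟨ha.le, hb.le⟩
  have hu : Measurable (fun x => (⟨cdf m x, cdf_nonneg m x, cdf_le_one m x⟩ : I)) :=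
    hc.measurable.subtype_mk
  refine ⟨_, hu, Measure.ext_of_Iic _ _ fun t => ?_⟩
  rw [map_apply hu measurableSet_Iic, unitInterval.volume_Iic]
  refine le_antisymm ?_ ?_
  · refine ENNReal.le_of_forall_pos_le_add fun ε hε _ => ?_
    rw [← ENNReal.ofReal_coe_nnreal, ← ENNReal.ofReal_add (unitInterval.nonneg t) ε.coe_nonneg]
    by_cases h : (t : ℝ) + ε < 1
    · obtain ⟨a, ha⟩ := ex ((t : ℝ) + ε) (add_pos_of_nonneg_of_pos (unitInterval.nonneg t) hε) h
      refine le_trans (measure_mono fun x hx => ?_) (ha ▸ ofReal_cdf m a).ge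
      by_contra h1
      have h2 := monotone_cdf m (not_le.mp h1).le
      have h3 : cdf m x ≤ t := hx
      have h4 : (0 : ℝ) < ε := hε
      linarith
    · exact prob_le_one.trans (ENNReal.one_le_ofReal.mpr (not_lt.mp h))
  · rcases t.2.1.eq_or_lt with h | h
    · rw [← h]; simp
    rcases t.2.2.eq_or_lt with h' | h'
    · have : (fun x => (⟨cdf m x, cdf_nonneg m x, cdf_le_one m x⟩ : I)) ⁻¹' Iic t = univ :=
        eq_univ_of_forall fun x => show cdf m x ≤ t from h' ▸ cdf_le_one m x
      rw [this, h']; simp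
    · obtain ⟨a, ha⟩ := ex _ h h'
      rw [← ha, ofReal_cdf]
      exact measure_mono fun x hx => show cdf m x ≤ t from ha ▸ monotone_cdf m hx

theorem cube_singleton (w : ℕ → Bool) : cube ℕ {w} = 0 := by
  have h : ∀ n, cube ℕ {w} ≤ (2⁻¹ : ℝ≥0∞) ^ n := fun n => by
    have : cube ℕ (Set.pi (Finset.range n) (fun i => {w i})) = 2⁻¹ ^ n := by
      rw [infinitePi_pi _ (fun _ _ => measurableSet_singleton _)]
      simp
    rw [← this]
    exact measure_mono (by rintro _ rfl; simp)
  exact nonpos_iff_eq_zero.mp (ge_of_tendsto' (ENNReal.tendsto_pow_atTop_nhds_zero_of_lt_one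
    (by norm_num)) h)

theorem unif : ∃ u : (ℕ → Bool) → I, Measurable u ∧ (cube ℕ).map u = volume := by
  have he := measurableEmbedding_embeddingReal (ℕ → Bool)
  have := isProbabilityMeasure_map (μ := cube ℕ) he.measurable.aemeasurable
  obtain ⟨u, h1, h2⟩ := pit ((cube ℕ).map (embeddingReal (ℕ → Bool))) fun x => by
    rw [he.map_apply]
    rcases (subsingleton_singleton.preimage he.injective).eq_empty_or_singleton with h | ⟨w, h⟩
    · rw [h, measure_empty]
    · rw [h, cube_singleton]
  exact ⟨_, h1.comp he.measurable, by rw [← map_map h1 he.measurable, h2]⟩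

variable {ι : Type}

theorem toUnif [Infinite ι] : ∃ ψ : (ι → Bool) → (ι → I),
    MeasurePreserving ψ (cube ι) (infinitePi fun _ => volume) := by
  obtain ⟨u, h1, h2⟩ := unif
  obtain ⟨e⟩ : Nonempty (ι × ℕ ≃ ι) := Cardinal.eq.mp (by simp)
  have a1 : MeasurePreserving (fun (ω : ι → Bool) (p : ι × ℕ) => ω (e p)) (cube ι) (cube (ι × ℕ)) :=
    ⟨by fun_prop, map_infinitePi_infinitePi_of_inj e.injective⟩
  have a2 : MeasurePreserving (MeasurableEquiv.curry ι ℕ Bool) (cube (ι × ℕ))
      (infinitePi fun _ => cube ℕ) :=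
    ⟨by fun_prop, infinitePi_map_curry (fun _ _ => (PMF.uniformOfFintype Bool).toMeasure)⟩
  have a3 : MeasurePreserving (fun (x : ι → ℕ → Bool) i => u (x i)) (infinitePi fun _ => cube ℕ)
      (infinitePi fun _ => volume) :=
    ⟨by fun_prop, by rw [infinitePi_map_pi _ (fun _ => h1), h2]⟩
  exact ⟨_, a3.comp (a2.comp a1)⟩

/-- truncation to a set of coordinates -/
noncomputable def tr (D : Set ι) (x : ι → Bool) : ι → Bool := fun η => if η ∈ D then x η else false

theorem meas_tr (D : Set ι) : Measurable (tr D) := measurable_pi_lambda _ fun η => by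
  unfold tr
  split_ifs <;> fun_prop

theorem ext_fin {a b : Measure (ι → Bool)} [IsFiniteMeasure b]
    (h : ∀ s : Finset ι, a.map s.restrict = b.map s.restrict) : a = b :=
  IsProjectiveLimit.unique (P := fun s : Finset ι => b.map s.restrict) h (fun _ => rfl)

variable [LinearOrder ι]

theorem glue {a b : Measure (ι → Bool)} [IsProbabilityMeasure a] [IsProbabilityMeasure b]
    (D : Set ι) (h : ∀ ξ ∈ D, a.map (fun x => (tr (Iio ξ) x, x ξ)) =
      b.map (fun x => (tr (Iio ξ) x, x ξ))) : a.map (tr D) = b.map (tr D) := by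
  refine ext_fin fun s => ?_
  rw [map_map s.measurable_restrict (meas_tr D), map_map s.measurable_restrict (meas_tr D)]
  rcases (s.filter (· ∈ D)).eq_empty_or_nonempty with h0 | h0
  · have : s.restrict ∘ tr D = fun _ _ => false := by
      ext x i
      have : i.1 ∉ D := fun h1 => Finset.filter_eq_empty_iff.mp h0 i.2 h1
      simp [tr, this]
    rw [this, Measure.map_const, Measure.map_const, measure_univ, measure_univ]
  · obtain ⟨ξ, h1, h2⟩ := (s.filter (· ∈ D)).exists_max_image id h0
    let g : (ι → Bool) × Bool → (s → Bool) := fun p i =>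
      if i.1 ∈ D then (if i.1 = ξ then p.2 else p.1 i.1) else false
    have hg : Measurable g := measurable_pi_lambda _ fun i => by
      dsimp only [g]
      split_ifs <;> fun_prop
    have hm : Measurable (fun x : ι → Bool => (tr (Iio ξ) x, x ξ)) :=
      (meas_tr _).prodMk (measurable_pi_apply ξ)
    have : s.restrict ∘ tr D = g ∘ fun x => (tr (Iio ξ) x, x ξ) := by
      ext x i
      simp only [g, tr, Function.comp, Finset.restrict]
      split_ifs with b1 b2 b3
      · rw [b2]
      · rfl
      · exact absurd (lt_of_le_of_ne (h2 i.1 (Finset.mem_filter.mpr ⟨i.2, b1⟩)) b2) b3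
      · rfl
    rw [this, ← map_map hg hm, ← map_map hg hm, h ξ (Finset.mem_filter.mp h1).2]

theorem prod_map {X : Type} [MeasurableSpace X] (α : Measure X) [IsProbabilityMeasure α]
    (κ : Kernel X Bool) [IsMarkovKernel κ] {g : X → I → Bool} (hg : Measurable (Function.uncurry g))
    (h : ∀ a, volume.map (g a) = κ a) :
    (α.prod volume).map (fun p => (p.1, g p.1 p.2)) = α ⊗ₘ κ := by
  have hm : Measurable (fun p : X × I => (p.1, g p.1 p.2)) := measurable_fst.prodMk hg
  ext s hs
  rw [map_apply hm hs, prod_apply (hm hs), compProd_apply hs]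
  refine lintegral_congr fun a => ?_
  rw [← h a, map_apply hg.of_uncurry_left (measurable_prodMk_left hs)]
  rfl

variable [WellFoundedLT ι]

/-- the factor map, defined by recursion -/
noncomputable def ph (f : ι → (ι → Bool) → I → Bool) (w : ι → I) : ι → Bool :=
  (wellFounded_lt (α := ι)).fix fun ξ r => f ξ (fun η => if h : η < ξ then r η h else false) (w ξ)

theorem ph_eq (f : ι → (ι → Bool) → I → Bool) (w : ι → I) (ξ : ι) :
    ph f w ξ = f ξ (tr (Iio ξ) (ph f w)) (w ξ) := by
  rw [ph, WellFounded.fix_eq]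
  congr 1
  ext η
  simp [tr]

theorem meas_ph {f : ι → (ι → Bool) → I → Bool} (hf : ∀ ξ, Measurable (Function.uncurry (f ξ)))
    (m : MeasurableSpace (ι → I)) (ξ : ι) (h : ∀ η < ξ, Measurable[m] (fun w : ι → I => w η)) :
    Measurable[m] (fun w => tr (Iio ξ) (ph f w)) := by
  induction ξ using WellFoundedLT.induction with
  | ind ξ ih =>
    refine measurable_pi_lambda _ fun η => ?_
    by_cases e : η < ξ
    · have : (fun w => tr (Iio ξ) (ph f w) η) =
          Function.uncurry (f η) ∘ fun w => (tr (Iio η) (ph f w), w η) := by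
        ext w
        simp [tr, e, ph_eq f w η]
      rw [this]
      exact (hf η).comp ((ih η e (fun ζ h1 => h ζ (h1.trans e))).prodMk (h η e))
    · simp [tr, e]

theorem main (μ : Measure (ι → Bool)) [IsProbabilityMeasure μ] : ∃ φ : (ι → I) → (ι → Bool),
    MeasurePreserving φ (infinitePi fun _ => volume) μ := by
  choose f hf hk using fun ξ : ι => Kernel.exists_measurable_map_eq_unitInterval
    (condDistrib (fun x : ι → Bool => x ξ) (tr (Iio ξ)) μ)
  set ν : Measure (ι → I) := infinitePi fun _ => volume with hν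
  have m1 : ∀ ξ, Measurable (fun w => tr (Iio ξ) (ph f w)) := fun ξ =>
    meas_ph hf _ ξ (fun η _ => measurable_pi_apply η)
  have m2 : Measurable (ph f) := measurable_pi_lambda _ fun ξ => by
    simp only [ph_eq f _ ξ]
    exact (hf ξ).comp ((m1 ξ).prodMk (measurable_pi_apply ξ))
  have := isProbabilityMeasure_map (μ := ν) m2.aemeasurable
  have key : ∀ ξ, (ν.map (ph f)).map (fun x => (tr (Iio ξ) x, x ξ)) =
      μ.map (fun x => (tr (Iio ξ) x, x ξ)) := by
    intro ξ
    induction ξ using WellFoundedLT.induction with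
    | ind ξ ih =>
      have h1 := glue (Iio ξ) ih
      have := isProbabilityMeasure_map (μ := μ) (meas_tr (Iio ξ)).aemeasurable
      have ind : (fun w => tr (Iio ξ) (ph f w)) ⟂ᵢ[ν] (fun w => w ξ) := by
        rw [IndepFun_iff_Indep]
        refine indep_of_indep_of_le (indep_iSup_of_disjoint (fun i => (measurable_pi_apply i).comap_le)
          (iIndepFun_infinitePi (X := fun _ x => x) (fun _ => measurable_id)).iIndep
          (S := Iio ξ) (T := {ξ}) (by simp)) (meas_ph hf _ ξ fun η h => ?_).comap_le (by simp)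
        exact Measurable.of_comap_le (le_iSup₂_of_le η h le_rfl)
      have h2 := ind.map_prod_eq_prod_map_map (m1 ξ).aemeasurable (measurable_pi_apply ξ).aemeasurable
      rw [map_map (meas_tr _) m2] at h1
      rw [hν, infinitePi_map_eval, ← hν] at h2
      rw [← compProd_map_condDistrib (μ := μ) (measurable_pi_apply ξ).aemeasurable,
        ← prod_map _ _ (hf ξ) (hk ξ), ← h1, Function.comp_def, ← h2,
        map_map ((meas_tr _).prodMk (measurable_pi_apply ξ)) m2,
        map_map (g := fun p : (ι → Bool) × I => (p.1, f ξ p.1 p.2)) (measurable_fst.prodMk (hf ξ))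
          ((m1 ξ).prodMk (measurable_pi_apply ξ))]
      congr 1
      ext w : 1
      simp [ph_eq f w ξ]
  have h := glue univ (fun ξ _ => key ξ)
  have e : tr (univ : Set ι) = id := by ext x i; simp [tr]
  rw [e, Measure.map_id, Measure.map_id] at h
  exact ⟨ph f, m2, h⟩

end Mah

theorem mah : MahStmt := by
  intro ι _ μ _
  obtain ⟨o, wo⟩ := exists_wellFoundedLT ι
  obtain ⟨ψ, h1⟩ := Mah.toUnif (ι := ι)
  obtain ⟨φ, h2⟩ := Mah.main μ
  exact ⟨_, h2.comp h1⟩

end Pool.Agent.Lib.MP_4a9e55_an
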