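import Pool.Agent.Lib.MP_4a9e55_an.MxBridge

set_option autoImplicit false

open scoped ENNReal
open MeasureTheory Cardinal

namespace Pool.Agent.Lib.MP_4a9e55_an
namespace Mx

section Abstract
variable {E V : Type} [NormedAddCommGroup E] [NormedSpace ℝ E] [NormedAddCommGroup V]
  [NormedSpace ℝ V] {κ : Type}

theorem exists_T (a : κ → E →L[ℝ] V) (C : ℝ) (hC : 0 ≤ C)
    (h : ∀ (x : E) (F : Finset κ), ∑ i ∈ F, ‖a i x‖ ≤ C * ‖x‖) :
    ∃ T : E →L[ℝ] lp (fun _ : κ => V) 1, ∀ x i, T x i = a i x := by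
  let T₀ : E →ₗ[ℝ] lp (fun _ : κ => V) 1 :=
    { toFun := fun x => ⟨fun i => a i x, memℓp_gen' (C := C * ‖x‖) fun F => by simpa using h x F⟩
      map_add' := fun x y => lp.ext (funext fun i => map_add (a i) x y)
      map_smul' := fun c x => lp.ext (funext fun i => map_smul (a i) c x) }
  refine ⟨T₀.mkContinuous C fun x => ?_, fun x i => rfl⟩
  refine lp.norm_le_of_forall_sum_le (by simp) (mul_nonneg hC (norm_nonneg x)) fun F => ?_
  simp only [ENNReal.toReal_one, Real.rpow_one]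
  exact h x F

theorem exists_S [CompleteSpace E] (b : κ → V →L[ℝ] E) (h : ∀ i v, ‖b i v‖ ≤ ‖v‖) :
    ∃ S : lp (fun _ : κ => V) 1 →L[ℝ] E, ∀ f, HasSum (fun i => b i (f i)) (S f) := by
  have hb : ∀ i, ‖b i‖ ≤ 1 := fun i =>
    ContinuousLinearMap.opNorm_le_bound _ zero_le_one fun v => by simpa using h i v
  refine ⟨(lp.tsumCLM ℝ κ E).comp (lp.mapCLM 1 b zero_le_one hb), fun f => ?_⟩
  have : Summable fun i => b i (f i) :=
    Summable.of_norm_bounded (g := fun i => ‖f i‖) (by simpa using f.2.summable) fun i => h i _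
  exact this.hasSum

/-- biorthogonal families give a complemented copy -/
theorem cpl_of_biorth [CompleteSpace E] (a : κ → E →L[ℝ] V) (b : κ → V →L[ℝ] E) (C : ℝ)
    (hC : 0 ≤ C) (ha : ∀ (x : E) (F : Finset κ), ∑ i ∈ F, ‖a i x‖ ≤ C * ‖x‖)
    (hb : ∀ i v, ‖b i v‖ ≤ ‖v‖) (h1 : ∀ i v, a i (b i v) = v)
    (h0 : ∀ i j v, j ≠ i → a i (b j v) = 0) : Cpl (lp (fun _ : κ => V) 1) E := by
  obtain ⟨T, hT⟩ := exists_T a C hC ha
  obtain ⟨S, hS⟩ := exists_S b hb
  refine ⟨S, T, fun f => lp.ext (funext fun i => ?_)⟩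
  rw [hT]
  have e1 := (hS f).mapL (a i)
  have e2 : HasSum (fun j => a i (b j (f j))) (a i (b i (f i))) :=
    hasSum_single i fun j hj => h0 i j _ hj
  rw [e1.unique e2, h1]

theorem cpl_of_inj [CompleteSpace V] {κ' : Type} (e : κ → κ') (he : Function.Injective e) :
    Cpl (lp (fun _ : κ => V) 1) (lp (fun _ : κ' => V) 1) := by
  classical
  refine cpl_of_biorth (fun i => lp.evalCLM ℝ (fun _ : κ' => V) 1 (e i))
    (fun i => lp.singleContinuousLinearMap ℝ (fun _ : κ' => V) 1 (e i)) 1 zero_le_one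
    (fun x F => ?_) (fun i v => ?_) (fun i v => ?_) (fun i j v hj => ?_)
  · have := lp.sum_rpow_le_norm_rpow (p := 1) (by simp) x (F.map ⟨e, he⟩)
    rw [Finset.sum_map] at this
    simp only [ENNReal.toReal_one, Real.rpow_one] at this
    rw [one_mul]
    exact this
  · exact (lp.norm_single (E := fun _ : κ' => V) (p := 1) (by simp) (e i) v).le
  · change (lp.single 1 (e i) v : lp (fun _ : κ' => V) 1) (e i) = v
    simp
  · change (lp.single 1 (e j) v : lp (fun _ : κ' => V) 1) (e i) = 0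
    have : e i ≠ e j := fun h => hj (he h).symm
    simp [Pi.single_eq_of_ne this]

end Abstract

variable {ι : Type}

/-- difference of the densities -/
noncomputable def dd (a b μ : Measure (ι → Bool)) (x : ι → Bool) : ℝ :=
  (a.rnDeriv μ x).toReal - (b.rnDeriv μ x).toReal

theorem integrable_dd (a b μ : Measure (ι → Bool)) [IsFiniteMeasure a] [IsFiniteMeasure b] :
    Integrable (dd a b μ) μ :=
  (Measure.integrable_toReal_rnDeriv).sub (Measure.integrable_toReal_rnDeriv)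

theorem rn_add (a b μ : Measure (ι → Bool)) [IsFiniteMeasure a] [IsFiniteMeasure b]
    [IsFiniteMeasure μ] : ∀ᵐ x ∂μ, ((a + b).rnDeriv μ x).toReal
      = (a.rnDeriv μ x).toReal + (b.rnDeriv μ x).toReal := by
  filter_upwards [Measure.rnDeriv_add' a b μ, Measure.rnDeriv_ne_top a μ,
    Measure.rnDeriv_ne_top b μ] with x h1 h2 h3
  rw [h1, Pi.add_apply, ENNReal.toReal_add h2 h3]

theorem Rep.dd_congr {ν : MD ι} {a b a' b' : Measure (ι → Bool)} (h : Rep ν a b)
    (h' : Rep ν a' b') (μ : Measure (ι → Bool)) [IsFiniteMeasure μ] :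
    dd a b μ =ᵐ[μ] dd a' b' μ := by
  have := h.fa; have := h.fb; have := h'.fa; have := h'.fb
  have e := h.add_eq h'
  filter_upwards [rn_add a b' μ, rn_add a' b μ] with x h1 h2
  rw [e] at h1
  unfold dd
  linarith

theorem norm_rn (a μ : Measure (ι → Bool)) [IsFiniteMeasure a] [IsFiniteMeasure μ] :
    ∫ x, (a.rnDeriv μ x).toReal ∂μ = (μ.withDensity (a.rnDeriv μ)).real Set.univ := by
  rw [integral_toReal (Measure.measurable_rnDeriv a μ).aemeasurable (Measure.rnDeriv_lt_top a μ),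
    measureReal_def, withDensity_apply _ MeasurableSet.univ, Measure.restrict_univ]

theorem norm_dd_le (a b μ : Measure (ι → Bool)) [IsFiniteMeasure a] [IsFiniteMeasure b]
    [IsFiniteMeasure μ] (f : Lp ℝ 1 μ) (hf : f =ᵐ[μ] dd a b μ) :
    ‖f‖ ≤ (μ.withDensity (a.rnDeriv μ)).real Set.univ
      + (μ.withDensity (b.rnDeriv μ)).real Set.univ := by
  rw [L1.norm_eq_integral_norm, ← norm_rn, ← norm_rn,
    ← integral_add Measure.integrable_toReal_rnDeriv Measure.integrable_toReal_rnDeriv]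
  refine integral_mono_ae (L1.integrable_coeFn f).norm
    (Measure.integrable_toReal_rnDeriv.add Measure.integrable_toReal_rnDeriv) ?_
  filter_upwards [hf] with x hx
  rw [hx, Real.norm_eq_abs, abs_le]
  unfold dd
  have h1 : 0 ≤ (a.rnDeriv μ x).toReal := ENNReal.toReal_nonneg
  have h2 : 0 ≤ (b.rnDeriv μ x).toReal := ENNReal.toReal_nonneg
  constructor <;> linarith

/-- the absolutely continuous part of a functional -/
theorem exists_ana (μ : Measure (ι → Bool)) [IsFiniteMeasure μ] :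
    ∃ An : MD ι →L[ℝ] Lp ℝ 1 μ, ∀ ν a b, Rep ν a b → An ν =ᵐ[μ] dd a b μ := by
  choose pa pb hrep _ hle using exists_rep (ι := ι)
  have hint : ∀ ν, Integrable (dd (pa ν) (pb ν) μ) μ := fun ν => by
    have := (hrep ν).fa; have := (hrep ν).fb
    exact integrable_dd _ _ _
  have hchar : ∀ ν a b, Rep ν a b → (hint ν).toL1 _ =ᵐ[μ] dd a b μ := fun ν a b h =>
    (Integrable.coeFn_toL1 _).trans ((hrep ν).dd_congr h μ)
  let A₀ : MD ι →+ Lp ℝ 1 μ := AddMonoidHom.mk' (fun ν => (hint ν).toL1 _) (by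
    intro ν ν'
    have := (hrep ν).fa; have := (hrep ν).fb; have := (hrep ν').fa; have := (hrep ν').fb
    refine Lp.ext ?_
    filter_upwards [hchar _ _ _ ((hrep ν).add (hrep ν')), hchar _ _ _ (hrep ν),
      hchar _ _ _ (hrep ν'), Lp.coeFn_add ((hint ν).toL1 _) ((hint ν').toL1 _),
      rn_add (pa ν) (pa ν') μ, rn_add (pb ν) (pb ν') μ] with x h1 h2 h3 h4 h5 h6
    rw [h1, h4, Pi.add_apply, h2, h3]
    unfold dd
    linarith)
  have hb : ∀ ν, ‖A₀ ν‖ ≤ 3 * ‖ν‖ := fun ν => by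
    have := (hrep ν).fa; have := (hrep ν).fb
    refine (norm_dd_le _ _ μ _ (hchar _ _ _ (hrep ν))).trans (le_trans (add_le_add ?_ ?_) (hle ν))
    · exact ENNReal.toReal_mono (measure_ne_top _ _) (Measure.withDensity_rnDeriv_le _ _ _)
    · exact ENNReal.toReal_mono (measure_ne_top _ _) (Measure.withDensity_rnDeriv_le _ _ _)
  exact ⟨A₀.toRealLinearMap (AddMonoidHomClass.continuous_of_bound A₀ _ hb), hchar⟩

/-- the absolutely continuous part of a functional -/
noncomputable def ana (μ : Measure (ι → Bool)) [IsFiniteMeasure μ] : MD ι →L[ℝ] Lp ℝ 1 μ :=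
  (exists_ana μ).choose

theorem ana_spec (μ : Measure (ι → Bool)) [IsFiniteMeasure μ] {ν : MD ι}
    {a b : Measure (ι → Bool)} (h : Rep ν a b) : ana μ ν =ᵐ[μ] dd a b μ :=
  (exists_ana μ).choose_spec ν a b h

theorem add_le_of_sing {u v a : Measure (ι → Bool)} (hu : u ≤ a) (hv : v ≤ a) (h : u ⟂ₘ v) :
    u + v ≤ a := by
  obtain ⟨s, hs, h1, h2⟩ := h
  rw [Measure.le_iff]
  intro t ht
  have e1 : u t = u (t \ s) := (measure_sdiff_null h1).symm
  have e2 : v t = v (t ∩ s) := by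
    rw [← measure_sdiff_null (s := t) h2, Set.sdiff_compl]
  rw [Measure.add_apply, e1, e2, ← measure_inter_add_sdiff t hs, add_comm]
  exact add_le_add (hv _) (hu _)

theorem sum_le_of_sing {κ : Type} (w : κ → Measure (ι → Bool)) (a : Measure (ι → Bool))
    (hw : ∀ i, w i ≤ a) (h : ∀ i j, i ≠ j → w i ⟂ₘ w j) (F : Finset κ) :
    ∑ i ∈ F, w i ≤ a := by
  classical
  have hs : ∀ (j : κ) (G : Finset κ), j ∉ G → w j ⟂ₘ ∑ i ∈ G, w i := by
    intro j G
    induction G using Finset.induction_on with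
    | empty => intro _; simp
    | insert k G hk ih =>
      intro hj
      rw [Finset.sum_insert hk]
      rw [Finset.mem_insert, not_or] at hj
      exact (h j k hj.1).add_right (ih hj.2)
  induction F using Finset.induction_on with
  | empty => simpa using Measure.zero_le a
  | insert k G hk ih =>
    rw [Finset.sum_insert hk]
    exact add_le_of_sing (hw k) ih (hs k G hk)

theorem sum_rn_le {κ : Type} (μ : κ → Measure (ι → Bool)) (h : ∀ i j, i ≠ j → μ i ⟂ₘ μ j)
    (a : Measure (ι → Bool)) [IsFiniteMeasure a] (F : Finset κ) :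
    ∑ i ∈ F, ((μ i).withDensity (a.rnDeriv (μ i))).real Set.univ ≤ a.real Set.univ := by
  have hw : ∀ i, (μ i).withDensity (a.rnDeriv (μ i)) ≤ a := fun i =>
    Measure.withDensity_rnDeriv_le _ _
  have := sum_le_of_sing (fun i => (μ i).withDensity (a.rnDeriv (μ i))) a hw
    (fun i j hij => (h i j hij).mono_ac (withDensity_absolutelyContinuous _ _)
      (withDensity_absolutelyContinuous _ _)) F Set.univ
  rw [Measure.finsetSum_apply] at this
  simp only [measureReal_def]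
  rw [← ENNReal.toReal_sum fun i _ => ne_top_of_le_ne_top (measure_ne_top a _) (hw i _)]
  exact ENNReal.toReal_mono (measure_ne_top _ _) this

theorem sum_ana_le {κ : Type} (μ : κ → Measure (ι → Bool)) [∀ i, IsFiniteMeasure (μ i)]
    (h : ∀ i j, i ≠ j → μ i ⟂ₘ μ j) (ν : MD ι) (F : Finset κ) :
    ∑ i ∈ F, ‖ana (μ i) ν‖ ≤ 3 * ‖ν‖ := by
  obtain ⟨a, b, hrep, -, hle⟩ := exists_rep ν
  have := hrep.fa; have := hrep.fb
  have h1 := sum_rn_le μ h a F
  have h2 := sum_rn_le μ h b F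
  have h3 := Finset.sum_le_sum (s := F) fun i _ => norm_dd_le a b (μ i) _ (ana_spec (μ i) hrep)
  rw [Finset.sum_add_distrib] at h3
  linarith

section J
variable {Ω : Type} [MeasurableSpace Ω] (P : Measure Ω) (φ : Ω → ι → Bool) (hφ : Measurable φ)
include hφ

theorem integrable_J (h : Lp ℝ 1 P) (g : C(ι → Bool, ℝ)) :
    Integrable (fun ω => h ω * g (φ ω)) P :=
  (L1.integrable_coeFn h).mul_bdd (c := ‖g‖) ((meas_cont g).comp hφ).aestronglyMeasurable
    (Filter.Eventually.of_forall fun _ => g.norm_coe_le_norm _)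

omit hφ in
theorem abs_J_le (h : Lp ℝ 1 P) (g : C(ι → Bool, ℝ)) :
    ‖∫ ω, h ω * g (φ ω) ∂P‖ ≤ 1 * ‖h‖ * ‖g‖ := by
  rw [one_mul, L1.norm_eq_integral_norm, ← integral_mul_const]
  refine norm_integral_le_of_norm_le ((L1.integrable_coeFn h).norm.mul_const _)
    (Filter.Eventually.of_forall fun ω => ?_)
  rw [norm_mul]
  exact mul_le_mul_of_nonneg_left (g.norm_coe_le_norm _) (norm_nonneg _)

/-- a density as a functional -/
noncomputable def JJ : Lp ℝ 1 P →L[ℝ] MD ι :=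
  LinearMap.mkContinuous₂
    (LinearMap.mk₂ ℝ (fun (h : Lp ℝ 1 P) (g : C(ι → Bool, ℝ)) => ∫ ω, h ω * g (φ ω) ∂P)
      (fun h h' g => by
        rw [← integral_add (integrable_J P φ hφ h g) (integrable_J P φ hφ h' g)]
        refine integral_congr_ae ?_
        filter_upwards [Lp.coeFn_add h h'] with ω e
        rw [e, Pi.add_apply, add_mul])
      (fun c h g => by
        rw [← integral_smul]
        refine integral_congr_ae ?_
        filter_upwards [Lp.coeFn_smul c h] with ω e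
        rw [e, Pi.smul_apply, smul_mul_assoc])
      (fun h g g' => by
        rw [← integral_add (integrable_J P φ hφ h g) (integrable_J P φ hφ h g')]
        simp only [ContinuousMap.add_apply, mul_add])
      (fun c h g => by
        rw [← integral_smul]
        simp only [ContinuousMap.smul_apply, mul_smul_comm]))
    1 (abs_J_le P φ)

theorem JJ_apply (h : Lp ℝ 1 P) (g : C(ι → Bool, ℝ)) :
    JJ P φ hφ h g = ∫ ω, h ω * g (φ ω) ∂P := rfl

theorem norm_JJ_le (h : Lp ℝ 1 P) : ‖JJ P φ hφ h‖ ≤ ‖h‖ :=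
  ContinuousLinearMap.opNorm_le_bound _ (norm_nonneg _) fun g => by
    have := abs_J_le P φ h g
    rw [one_mul] at this
    exact this

end J

theorem JJ_comp {Ω : Type} [MeasurableSpace Ω] {P : Measure Ω} {φ : Ω → ι → Bool}
    {μ : Measure (ι → Bool)} (hφ : MeasurePreserving φ P μ) (h : Lp ℝ 1 μ) :
    JJ P φ hφ.measurable (Lp.compMeasurePreserving φ hφ h) = JJ μ id measurable_id h := by
  ext g
  rw [JJ_apply, JJ_apply]
  have e : ∫ ω, (Lp.compMeasurePreserving φ hφ h) ω * g (φ ω) ∂P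
      = ∫ ω, h (φ ω) * g (φ ω) ∂P := by
    refine integral_congr_ae ?_
    filter_upwards [Lp.coeFn_compMeasurePreserving h hφ] with ω e
    rw [e, Function.comp_apply]
  rw [e, ← integral_map (f := fun x => h x * g x) hφ.measurable.aemeasurable
    ((Lp.stronglyMeasurable h).measurable.mul (meas_cont g)).aestronglyMeasurable, hφ.map_eq]
  rfl

theorem integral_ofReal_density (μ : Measure (ι → Bool)) {f : (ι → Bool) → ℝ} (hf : Measurable f)
    (g : C(ι → Bool, ℝ)) :
    ∫ x, g x ∂(μ.withDensity fun x => ENNReal.ofReal (f x)) = ∫ x, max (f x) 0 * g x ∂μ := by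
  rw [integral_withDensity_eq_integral_toReal_smul hf.ennreal_ofReal
    (Filter.Eventually.of_forall fun _ => ENNReal.ofReal_lt_top)]
  simp only [ENNReal.toReal_ofReal', smul_eq_mul]

theorem rep_JJ (μ : Measure (ι → Bool)) (h : Lp ℝ 1 μ) :
    Rep (JJ μ id measurable_id h) (μ.withDensity fun x => ENNReal.ofReal (h x))
      (μ.withDensity fun x => ENNReal.ofReal (-h x)) := by
  have hi := L1.integrable_coeFn h
  have hm := (Lp.stronglyMeasurable h).measurable
  refine ⟨isFiniteMeasure_withDensity_ofReal hi.2, isFiniteMeasure_withDensity_ofReal hi.neg.2,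
    fun g => ?_⟩
  have hg : ∀ᵐ x ∂μ, ‖g x‖ ≤ ‖g‖ := Filter.Eventually.of_forall fun x => g.norm_coe_le_norm x
  rw [integral_ofReal_density μ hm, integral_ofReal_density μ hm.fun_neg, JJ_apply,
    ← integral_sub (hi.pos_part.mul_bdd (meas_cont g).aestronglyMeasurable hg)
      (hi.neg_part.mul_bdd (meas_cont g).aestronglyMeasurable hg)]
  refine integral_congr_ae (Filter.Eventually.of_forall fun x => ?_)
  simp only [id]
  rw [← sub_mul, max_zero_sub_max_neg_zero_eq_self]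

theorem ana_JJ_self (μ : Measure (ι → Bool)) [IsFiniteMeasure μ] (h : Lp ℝ 1 μ) :
    ana μ (JJ μ id measurable_id h) = h := by
  have hm := (Lp.stronglyMeasurable h).measurable
  refine Lp.ext ?_
  filter_upwards [ana_spec μ (rep_JJ μ h), Measure.rnDeriv_withDensity μ hm.ennreal_ofReal,
    Measure.rnDeriv_withDensity μ hm.fun_neg.ennreal_ofReal] with x h1 h2 h3
  rw [h1]
  unfold dd
  rw [h2, h3, ENNReal.toReal_ofReal', ENNReal.toReal_ofReal', max_zero_sub_max_neg_zero_eq_self]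

theorem ana_JJ_sing (μ μ' : Measure (ι → Bool)) [IsFiniteMeasure μ] (hs : μ' ⟂ₘ μ)
    (h : Lp ℝ 1 μ') : ana μ (JJ μ' id measurable_id h) = 0 := by
  refine Lp.ext ?_
  have hz : ∀ f : (ι → Bool) → ℝ≥0∞, (μ'.withDensity f).rnDeriv μ =ᵐ[μ] 0 := fun f =>
    (hs.mono_ac (withDensity_absolutelyContinuous _ _)
      Measure.AbsolutelyContinuous.rfl).rnDeriv_ae_eq_zero
  filter_upwards [ana_spec μ (rep_JJ μ' h), hz fun x => ENNReal.ofReal (h x),
    hz fun x => ENNReal.ofReal (-h x), Lp.coeFn_zero ℝ 1 μ] with x h1 h2 h3 h4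
  rw [h1, h4]
  unfold dd
  rw [h2, h3]
  simp

/-- a functional with no absolutely continuous part is carried by singular measures -/
theorem sing_of_ana_eq_zero (μ : Measure (ι → Bool)) [IsFiniteMeasure μ] {ν : MD ι}
    {a b : Measure (ι → Bool)} (hrep : Rep ν a b) (hab : a ⟂ₘ b) (h : ana μ ν = 0) :
    a ⟂ₘ μ ∧ b ⟂ₘ μ := by
  have := hrep.fa; have := hrep.fb
  have e : a.rnDeriv μ =ᵐ[μ] b.rnDeriv μ := by
    have h1 := ana_spec μ hrep
    rw [h] at h1
    filter_upwards [h1, Lp.coeFn_zero ℝ 1 μ, Measure.rnDeriv_ne_top a μ,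
      Measure.rnDeriv_ne_top b μ] with x e1 e2 e3 e4
    rw [e2] at e1
    unfold dd at e1
    exact (ENNReal.toReal_eq_toReal_iff' e3 e4).mp (sub_eq_zero.mp e1.symm)
  have e' : μ.withDensity (a.rnDeriv μ) = μ.withDensity (b.rnDeriv μ) := withDensity_congr_ae e
  have hs := hab.mono (Measure.withDensity_rnDeriv_le a μ) (Measure.withDensity_rnDeriv_le b μ)
  rw [← e', Measure.MutuallySingular.self_iff] at hs
  exact ⟨(Measure.withDensity_rnDeriv_eq_zero a μ).mp hs,
    (Measure.withDensity_rnDeriv_eq_zero b μ).mp (e' ▸ hs)⟩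

/-- a maximal family of mutually singular probability measures -/
theorem exists_maximal (ι : Type) : ∃ 𝓕 : Set (Measure (ι → Bool)),
    (∀ μ ∈ 𝓕, IsProbabilityMeasure μ) ∧ 𝓕.Pairwise Measure.MutuallySingular ∧
    ∀ a : Measure (ι → Bool), IsFiniteMeasure a → (∀ μ ∈ 𝓕, a ⟂ₘ μ) → a = 0 := by
  obtain ⟨𝓕, h𝓕⟩ := zorn_subset {𝓕 : Set (Measure (ι → Bool)) |
      (∀ μ ∈ 𝓕, IsProbabilityMeasure μ) ∧ 𝓕.Pairwise Measure.MutuallySingular} (by
    intro c hc hchain
    refine ⟨⋃₀ c, ⟨?_, ?_⟩, fun s hs => Set.subset_sUnion_of_mem hs⟩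
    · rintro μ ⟨s, hs, hμ⟩
      exact (hc hs).1 μ hμ
    · rintro μ ⟨s, hs, hμ⟩ μ' ⟨t, ht, hμ'⟩ hne
      rcases hchain.total hs ht with h | h
      · exact (hc ht).2 (h hμ) hμ' hne
      · exact (hc hs).2 hμ (h hμ') hne)
  refine ⟨𝓕, h𝓕.prop.1, h𝓕.prop.2, fun a ha hs => ?_⟩
  by_contra h0
  have : NeZero a := ⟨h0⟩
  have hp : IsProbabilityMeasure ((a Set.univ)⁻¹ • a) := inferInstance
  have hs' : ∀ μ ∈ 𝓕, ((a Set.univ)⁻¹ • a) ⟂ₘ μ := fun μ hμ => (hs μ hμ).smul _
  have hmem : (a Set.univ)⁻¹ • a ∈ 𝓕 := by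
    refine h𝓕.mem_of_prop_insert ⟨?_, ?_⟩
    · rintro μ (rfl | hμ)
      · exact hp
      · exact h𝓕.prop.1 μ hμ
    · exact h𝓕.prop.2.insert fun μ hμ _ => ⟨hs' μ hμ, (hs' μ hμ).symm⟩
  have := (Measure.MutuallySingular.self_iff _).mp (hs' _ hmem)
  exact IsProbabilityMeasure.ne_zero _ this

theorem card_le [Infinite ι] (𝓕 : Set (Measure (ι → Bool)))
    (h : ∀ μ ∈ 𝓕, IsProbabilityMeasure μ) : #𝓕 ≤ #(Set ι) := by
  let c : 𝓕 → ((Σ F : Finset ι, Set (F → Bool)) → ℝ) := fun μ p =>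
    μ.1.real (cylinder (α := fun _ : ι => Bool) p.1 p.2)
  have hc : Function.Injective c := by
    intro μ μ' e
    have := h μ.1 μ.2; have := h μ'.1 μ'.2
    refine Subtype.ext (ext_cyl _ _ fun s hs => ?_)
    obtain ⟨F, S, -, rfl⟩ := (mem_measurableCylinders s).mp hs
    exact (ENNReal.toReal_eq_toReal_iff' (measure_ne_top _ _) (measure_ne_top _ _)).mp
      (congrFun e ⟨F, S⟩)
  have h1 : #(Σ F : Finset ι, Set (F → Bool)) ≤ #ι := by
    rw [mk_sigma]
    calc _ ≤ Cardinal.sum fun _ : Finset ι => ℵ₀ :=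
          Cardinal.sum_le_sum _ _ fun F => (Cardinal.lt_aleph0_of_finite _).le
      _ = #ι := by simp
  calc #𝓕 ≤ _ := mk_le_of_injective hc
    _ = 𝔠 ^ #(Σ F : Finset ι, Set (F → Bool)) := by rw [← power_def, mk_real]
    _ ≤ 𝔠 ^ #ι := power_le_power_left continuum_ne_zero h1
    _ = 2 ^ #ι := by
      rw [← two_power_aleph0, ← power_mul, aleph0_mul_eq (aleph0_le_mk ι)]
    _ = #(Set ι) := mk_set.symm

end Mx

open Mx in
theorem m1 : M1Stmt := by
  intro hmah ι _
  obtain ⟨𝓕, hp, hsing, hmax⟩ := exists_maximal ι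
  obtain ⟨e⟩ := (Cardinal.le_def _ _).mp (card_le 𝓕 hp)
  refine Cpl.trans ?_ (cpl_of_inj (V := Lp ℝ 1 (cube ι)) e e.injective)
  have hp' : ∀ i : 𝓕, IsProbabilityMeasure i.1 := fun i => hp i.1 i.2
  have hs' : ∀ i j : 𝓕, i ≠ j → i.1 ⟂ₘ j.1 := fun i j hij =>
    hsing i.2 j.2 fun h => hij (Subtype.ext h)
  choose φ hφ using fun i : 𝓕 => hmah ι i.1
  obtain ⟨T, hT⟩ := exists_T (E := MD ι) (V := Lp ℝ 1 (cube ι)) (κ := 𝓕)
    (fun i => (Lp.compMeasurePreservingₗᵢ ℝ (φ i) (hφ i)).toContinuousLinearMap.comp (ana i.1))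
    3 (by norm_num) (fun ν F => by
      refine le_of_eq_of_le (Finset.sum_congr rfl fun i _ => ?_)
        (sum_ana_le (fun i : 𝓕 => i.1) hs' ν F)
      exact Lp.norm_compMeasurePreserving _ (hφ i))
  obtain ⟨S, hS⟩ := exists_S (E := MD ι) (V := Lp ℝ 1 (cube ι)) (κ := 𝓕)
    (fun i => JJ (cube ι) (φ i) (hφ i).measurable)
    fun i v => norm_JJ_le _ _ _ v
  refine ⟨T, S, fun ν => ?_⟩
  have h1 : HasSum (fun i : 𝓕 => JJ i.1 id measurable_id (ana i.1 ν)) (S (T ν)) := by
    have e : (fun i : 𝓕 => JJ i.1 id measurable_id (ana i.1 ν))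
        = fun i : 𝓕 => JJ (cube ι) (φ i) (hφ i).measurable (T ν i) := by
      funext i
      rw [hT]
      exact (JJ_comp (hφ i) _).symm
    rw [e]
    exact hS (T ν)
  have h2 : ∀ j : 𝓕, ana j.1 (S (T ν) - ν) = 0 := by
    intro j
    have e1 := h1.mapL (ana j.1)
    have e2 : HasSum (fun i : 𝓕 => ana j.1 (JJ i.1 id measurable_id (ana i.1 ν)))
        (ana j.1 (JJ j.1 id measurable_id (ana j.1 ν))) :=
      hasSum_single j fun i hi => ana_JJ_sing _ _ (hs' i j hi) _
    rw [map_sub, e1.unique e2, ana_JJ_self, sub_self]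
  obtain ⟨a, b, hrep, hab, -⟩ := exists_rep (S (T ν) - ν)
  have ha : a = 0 := hmax a hrep.fa fun μ hμ =>
    (sing_of_ana_eq_zero (⟨μ, hμ⟩ : 𝓕).1 hrep hab (h2 ⟨μ, hμ⟩)).1
  have hb : b = 0 := hmax b hrep.fb fun μ hμ =>
    (sing_of_ana_eq_zero (⟨μ, hμ⟩ : 𝓕).1 hrep hab (h2 ⟨μ, hμ⟩)).2
  rw [← sub_eq_zero]
  ext g
  rw [hrep.eq g, ha, hb]
  simp

open Mx in
theorem m2 : M2Stmt := by
  classical
  intro ι _
  obtain ⟨e⟩ : Nonempty (ι ≃ ι ⊕ ι) := Cardinal.eq.mp (by simp)
  let φ : Set ι → (ι → Bool) → (ι → Bool) := fun s y i =>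
    Sum.elim (fun j => decide (j ∈ s)) y (e i)
  let ψ : (ι → Bool) → (ι → Bool) := fun x j => x (e.symm (Sum.inr j))
  have hφm : ∀ s, Measurable (φ s) := fun s => measurable_pi_lambda _ fun i => by
    simp only [φ]
    cases e i with
    | inl j => exact measurable_const
    | inr j => exact measurable_pi_apply j
  have hψm : Measurable ψ := measurable_pi_lambda _ fun j => measurable_pi_apply _
  have hψφ : ∀ s, ψ ∘ φ s = id := fun s => by
    funext y j
    simp [φ, ψ]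
  let μ : Set ι → Measure (ι → Bool) := fun s => (cube ι).map (φ s)
  have hμ : ∀ s, IsProbabilityMeasure (μ s) := fun s =>
    Measure.isProbabilityMeasure_map (hφm s).aemeasurable
  have hφ : ∀ s, MeasurePreserving (φ s) (cube ι) (μ s) := fun s => ⟨hφm s, rfl⟩
  have hψ : ∀ s, MeasurePreserving ψ (μ s) (cube ι) := fun s =>
    ⟨hψm, by rw [Measure.map_map hψm (hφm s), hψφ, Measure.map_id]⟩
  have hs : ∀ s t, s ≠ t → μ s ⟂ₘ μ t := by
    intro s t hst
    obtain ⟨j, hj⟩ : ∃ j, ¬ (j ∈ s ↔ j ∈ t) := by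
      by_contra h
      push Not at h
      exact hst (Set.ext h)
    have hN : MeasurableSet {x : ι → Bool | x (e.symm (Sum.inl j)) = decide (j ∈ t)} :=
      measurable_pi_apply (e.symm (Sum.inl j)) (MeasurableSet.singleton _)
    refine ⟨_, hN, ?_, ?_⟩
    · rw [Measure.map_apply (hφm s) hN]
      convert measure_empty (μ := cube ι)
      ext y
      simp [φ, hj]
    · rw [Measure.map_apply (hφm t) hN.compl]
      convert measure_empty (μ := cube ι)
      ext y
      simp [φ]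
  have hid : ∀ s (v : Lp ℝ 1 (cube ι)), Lp.compMeasurePreserving (φ s) (hφ s)
      (Lp.compMeasurePreserving ψ (hψ s) v) = v := by
    intro s v
    rw [← Lp.compMeasurePreserving_comp_apply]
    refine Lp.ext ((Lp.coeFn_compMeasurePreserving _ _).trans ?_)
    rw [hψφ]
    rfl
  have hJ : ∀ s (v : Lp ℝ 1 (cube ι)), JJ (cube ι) (φ s) (hφm s) v
      = JJ (μ s) id measurable_id (Lp.compMeasurePreserving ψ (hψ s) v) := by
    intro s v
    rw [← JJ_comp (hφ s), hid]
  refine cpl_of_biorth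
    (fun s => (Lp.compMeasurePreservingₗᵢ ℝ (φ s) (hφ s)).toContinuousLinearMap.comp (ana (μ s)))
    (fun s => JJ (cube ι) (φ s) (hφm s)) 3 (by norm_num) (fun ν F => ?_)
    (fun s v => norm_JJ_le _ _ _ v) (fun s v => ?_) (fun s t v hts => ?_)
  · refine le_of_eq_of_le (Finset.sum_congr rfl fun s _ => ?_) (sum_ana_le μ hs ν F)
    exact Lp.norm_compMeasurePreserving _ (hφ s)
  · change Lp.compMeasurePreserving (φ s) (hφ s) (ana (μ s) _) = v
    rw [hJ, ana_JJ_self, hid]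
  · change Lp.compMeasurePreserving (φ s) (hφ s) (ana (μ s) _) = 0
    rw [hJ, ana_JJ_sing _ _ (hs t s hts), map_zero]

end Pool.Agent.Lib.MP_4a9e55_an
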