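import Pool.Agent.Lib.MP_4a9e55_an.Basic

set_option autoImplicit false

open scoped ENNReal
open Cardinal

namespace Pool.Agent.Lib.MP_4a9e55_an

namespace Pel

section
variable {X V : Type} [NormedAddCommGroup X] [NormedSpace ℝ X] [NormedAddCommGroup V]
  [NormedSpace ℝ V]

omit [NormedSpace ℝ V] in
theorem sum_le {β : Type} (x : lp (fun _ : β => V) 1) (s : Finset β) :
    ∑ b ∈ s, ‖x b‖ ≤ ‖x‖ := by
  simpa using lp.sum_rpow_le_norm_rpow (p := 1) (by simp) x s

omit [NormedSpace ℝ V] in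
theorem norm_le {β : Type} (x : lp (fun _ : β => V) 1) {C : ℝ} (hC : 0 ≤ C)
    (h : ∀ s : Finset β, ∑ b ∈ s, ‖x b‖ ≤ C) : ‖x‖ ≤ C :=
  lp.norm_le_of_forall_sum_le (p := 1) (by simp) hC (fun s => by simpa using h s)

omit [NormedSpace ℝ V] in
theorem hasSum_norm {β : Type} (x : lp (fun _ : β => V) 1) : HasSum (fun b => ‖x b‖) ‖x‖ := by
  simpa using lp.hasSum_norm (p := 1) (by simp) x

/-- a family of maps with summable norms as a map into the summable families -/
noncomputable def mk1 {β : Type} (T : β → X →L[ℝ] V)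
    (h : ∀ x (s : Finset β), ∑ b ∈ s, ‖T b x‖ ≤ ‖x‖) : X →L[ℝ] lp (fun _ : β => V) 1 :=
  LinearMap.mkContinuous
    { toFun := fun x => ⟨fun b => T b x, memℓp_gen' (C := ‖x‖) fun s => by simpa using h x s⟩
      map_add' := fun x y => lp.ext (funext fun b => by simp)
      map_smul' := fun c x => lp.ext (funext fun b => by simp) } 1
    (fun x => by
      rw [one_mul]
      exact norm_le _ (norm_nonneg _) (h x))

@[simp] theorem mk1_apply {β : Type} (T : β → X →L[ℝ] V)
    (h : ∀ x (s : Finset β), ∑ b ∈ s, ‖T b x‖ ≤ ‖x‖) (x : X) (b : β) : mk1 T h x b = T b x := rfl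

/-- evaluation -/
noncomputable def ev {β : Type} (b : β) : lp (fun _ : β => V) 1 →L[ℝ] V :=
  lp.evalCLM ℝ (fun _ : β => V) 1 b

@[simp] theorem ev_apply {β : Type} (b : β) (x : lp (fun _ : β => V) 1) : ev b x = x b := rfl

/-- restriction along an injection -/
noncomputable def res {β γ : Type} (e : γ → β) (he : Function.Injective e) :
    lp (fun _ : β => V) 1 →L[ℝ] lp (fun _ : γ => V) 1 :=
  mk1 (fun c => ev (e c)) fun x s => by
    have := sum_le x (s.map ⟨e, he⟩)
    rwa [Finset.sum_map] at this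

@[simp] theorem res_apply {β γ : Type} (e : γ → β) (he : Function.Injective e)
    (x : lp (fun _ : β => V) 1) (c : γ) : res e he x c = x (e c) := rfl

/-- the summable families over `κ` are summable sequences of summable families over `κ` -/
theorem exists_curry (κ : Type) [Infinite κ] :
    Nonempty (lp (fun _ : κ => V) 1 ≃L[ℝ] lp (fun _ : ℕ => lp (fun _ : κ => V) 1) 1) := by
  classical
  have hc : #(ℕ × κ) = #κ := by
    simp [Cardinal.mul_eq_max, Cardinal.aleph0_le_mk κ]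
  obtain ⟨e⟩ := Cardinal.eq.mp hc
  have hinj : ∀ n : ℕ, Function.Injective fun k : κ => e (n, k) := fun n k k' h => by
    simpa using h
  let f : lp (fun _ : κ => V) 1 →L[ℝ] lp (fun _ : ℕ => lp (fun _ : κ => V) 1) 1 :=
    mk1 (fun n => res (fun k => e (n, k)) (hinj n)) fun x s => by
      have h1 : HasSum (fun p : ℕ × κ => ‖x (e p)‖) ‖x‖ := e.hasSum_iff.mpr (hasSum_norm x)
      have h2 : HasSum (fun n : ℕ => ‖res (fun k => e (n, k)) (hinj n) x‖) ‖x‖ :=
        h1.prod_fiberwise fun n => hasSum_norm (res (fun k => e (n, k)) (hinj n) x)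
      exact sum_le_hasSum s (fun _ _ => norm_nonneg _) h2
  let g : lp (fun _ : ℕ => lp (fun _ : κ => V) 1) 1 →L[ℝ] lp (fun _ : κ => V) 1 :=
    mk1 (fun k => (ev (e.symm k).2).comp (ev (e.symm k).1)) fun y s => by
      have h1 : ∑ k ∈ s, ‖y (e.symm k).1 (e.symm k).2‖ =
          ∑ p ∈ s.map e.symm.toEmbedding, ‖y p.1 p.2‖ := by
        rw [Finset.sum_map]; rfl
      have h2 : s.map e.symm.toEmbedding ⊆ ((s.map e.symm.toEmbedding).image Prod.fst) ×ˢ
          ((s.map e.symm.toEmbedding).image Prod.snd) := Finset.subset_product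
      change ∑ k ∈ s, ‖y (e.symm k).1 (e.symm k).2‖ ≤ _
      rw [h1]
      refine (Finset.sum_le_sum_of_subset_of_nonneg h2 fun _ _ _ => norm_nonneg _).trans ?_
      rw [Finset.sum_product]
      exact (Finset.sum_le_sum fun n _ => sum_le (y n) _).trans (sum_le y _)
  refine ⟨ContinuousLinearEquiv.equivOfInverse f g (fun x => ?_) fun y => ?_⟩
  · refine lp.ext (funext fun k => ?_)
    change x (e ((e.symm k).1, (e.symm k).2)) = x k
    simp
  · refine lp.ext (funext fun n => lp.ext (funext fun k => ?_))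
    change y (e.symm (e (n, k))).1 (e.symm (e (n, k))).2 = y n k
    simp

/-- absorbing a complemented subspace of `V` into the summable sequences in `V` -/
theorem absorb (h : Cpl X V) :
    Nonempty ((X × lp (fun _ : ℕ => V) 1) ≃L[ℝ] lp (fun _ : ℕ => V) 1) := by
  classical
  obtain ⟨A, Q, hQ⟩ := h
  let Z := lp (fun _ : ℕ => V) 1
  let D : Z →L[ℝ] Z := lp.mapCLM 1 (fun _ : ℕ => A.comp Q) (norm_nonneg _) (fun _ => le_rfl)
  have hD : ∀ (x : Z) n, D x n = A (Q (x n)) := fun x n => rfl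
  let S : Z →L[ℝ] Z := mk1 (fun n => Nat.casesOn n 0 fun m => ev m) fun x s => by
    have h1 : HasSum (fun n : ℕ => ‖(Nat.casesOn n 0 fun m => ev m : Z →L[ℝ] V) x‖) ‖x‖ := by
      rw [← hasSum_nat_add_iff' 1]
      have h0 : ‖x‖ - ∑ i ∈ Finset.range 1,
          ‖(Nat.casesOn i 0 fun m => ev m : Z →L[ℝ] V) x‖ = ‖x‖ := by simp
      rw [h0]
      exact hasSum_norm x
    exact sum_le_hasSum s (fun _ _ => norm_nonneg _) h1
  have hS0 : ∀ x : Z, S x 0 = 0 := fun x => rfl
  have hS1 : ∀ (x : Z) n, S x (n + 1) = x n := fun x n => rfl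
  let R : Z →L[ℝ] Z := res Nat.succ Nat.succ_injective
  have hR : ∀ (x : Z) n, R x n = x (n + 1) := fun x n => rfl
  let I : V →L[ℝ] Z := lp.singleContinuousLinearMap ℝ (fun _ : ℕ => V) 1 0
  have hI0 : ∀ v, I v 0 = v := fun v => lp.single_apply_self (E := fun _ : ℕ => V) 1 0 v
  have hI1 : ∀ v n, I v (n + 1) = 0 := fun v n =>
    lp.single_apply_ne (E := fun _ : ℕ => V) 1 0 v (Nat.succ_ne_zero n)
  let U : X × Z →L[ℝ] Z := (I.comp A).coprod (S.comp D + (ContinuousLinearMap.id ℝ Z - D))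
  let U' : Z →L[ℝ] X × Z :=
    (Q.comp (ev 0)).prod (R.comp D + (ContinuousLinearMap.id ℝ Z - D))
  have hU : ∀ (e : X) (x : Z) n, U (e, x) n = I (A e) n + (S (D x) n + (x n - A (Q (x n)))) :=
    fun e x n => rfl
  have hU1 : ∀ y : Z, (U' y).1 = Q (y 0) := fun y => rfl
  have hU2 : ∀ (y : Z) n, (U' y).2 n = A (Q (y (n + 1))) + (y n - A (Q (y n))) := fun y n => rfl
  refine ⟨ContinuousLinearEquiv.equivOfInverse U U' (fun x => ?_) fun y => ?_⟩
  · obtain ⟨e, x⟩ := x
    refine Prod.ext ?_ (lp.ext (funext fun n => ?_))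
    · rw [hU1, hU, hI0, hS0]; simp [hQ]
    · rw [hU2, hU, hU, hI1, hS1, hD]
      cases n with
      | zero => rw [hI0, hS0]; simp [hQ]
      | succ n => rw [hI1, hS1, hD]; simp [hQ]
  · refine lp.ext (funext fun n => ?_)
    rw [show U' y = ((U' y).1, (U' y).2) from rfl, hU, hU1, hU2]
    cases n with
    | zero => rw [hI0, hS0]; simp [hQ]
    | succ n => rw [hI1, hS1, hD, hU2]; simp [hQ]

end

end Pel

theorem pel : PelStmt := by
  intro E V _ _ _ _ _ _ κ _ h1 h2
  obtain ⟨c⟩ := Pel.exists_curry (V := V) κ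
  obtain ⟨a⟩ := Pel.absorb h1
  obtain ⟨b⟩ := Pel.absorb (X := lp (fun _ : κ => V) 1) (V := lp (fun _ : κ => V) 1)
    ⟨ContinuousLinearMap.id ℝ _, ContinuousLinearMap.id ℝ _, fun _ => rfl⟩
  obtain ⟨A, Q, hQ⟩ := h2
  let s := ContinuousLinearEquiv.equivOfRightInverse Q A hQ
  let a' : (E × lp (fun _ : κ => V) 1) ≃L[ℝ] lp (fun _ : κ => V) 1 :=
    (((ContinuousLinearEquiv.refl ℝ E).prodCongr c).trans a).trans c.symm
  let b' : (lp (fun _ : κ => V) 1 × lp (fun _ : κ => V) 1) ≃L[ℝ] lp (fun _ : κ => V) 1 :=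
    (((ContinuousLinearEquiv.refl ℝ _).prodCongr c).trans b).trans c.symm
  exact ⟨((((s.trans (b'.symm.prodCongr (ContinuousLinearEquiv.refl ℝ _))).trans
    (ContinuousLinearEquiv.prodAssoc ℝ _ _ _)).trans
    ((ContinuousLinearEquiv.refl ℝ _).prodCongr s.symm)).trans
    (ContinuousLinearEquiv.prodComm ℝ _ _)).trans a'⟩

end Pool.Agent.Lib.MP_4a9e55_an
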