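import Pool.Agent.Lib.MP_4a9e55_an.Main1
import Pool.Agent.Lib.MP_4a9e55_an.Linf
import Pool.Agent.Lib.MP_4a9e55_an.Pel
import Pool.Agent.Lib.MP_4a9e55_an.AS
import Pool.Agent.Lib.MP_4a9e55_an.BS
import Pool.Agent.Lib.MP_4a9e55_an.Mah
import Pool.Agent.Lib.MP_4a9e55_an.Mx

set_option autoImplicit false

open Cardinal Set Filter
open scoped ENNReal

namespace Pool.Agent.Lib.MP_4a9e55_an

variable {X : Type} [NormedAddCommGroup X] [NormedSpace ℝ X]

theorem l1_continuum [CompleteSpace X] (hX : Inj X) (hinf : ¬ FiniteDimensional ℝ X) :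
    Emb (L1 (Set ℕ)) X := (fkh ℕ).trans (linf t1 X hX hinf)

theorem l1_main (ccc : CCCStmt) [CompleteSpace X] (hX : Inj X) (hinf : ¬ FiniteDimensional ℝ X)
    (ι : Type) (hι : #ι ≤ #X) (H : ((#ι).IsRegular ∧ ¬ (#ι).IsStrongLimit) ∨ (#ι).ord.cof ≤ ℵ₁ ∨
      ¬ Emb (B (OT ℵ₁)) X) : Emb (L1 ι) X := by
  rcases le_or_gt #ι 𝔠 with hc | hc
  · exact (l1_continuum hX hinf).l1_mono (by simpa using hc)
  obtain ⟨Γ, i, P, hi, hP⟩ := hX.exists_proj
  refine Emb.l1_mono (ι := OT #ι) ?_ (mk_OT _).ge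
  have hK : ∀ ρ : Cardinal.{0}, #(Ker (jF P) i) ^ ρ < #ι := fun ρ =>
    ((power_le_power_right (mk_ker_jF i P hP)).trans_eq one_power).trans_lt
      (one_lt_aleph0.trans (aleph0_lt_continuum.trans hc))
  by_cases h : Emb (B (OT ℵ₁)) X
  · have h1 : ℵ₀ ≤ max #(Set Γ) ℵ₀ := le_max_right _ _
    refine main_ind ccc hX i hi P hP hι hc _ (isRegular_succ h1) (h1.trans_lt (Order.lt_succ _))
      (Or.inr (H.imp_right fun h' => h'.resolve_right (not_not.mpr h))) (jF P)
      (fun 𝒜 _ => ((mk_set_le _).trans (le_max_left _ _)).trans_lt (Order.lt_succ _))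
      fun ρ _ => hK ρ
  · refine main_ind ccc hX i hi P hP hι hc _ isRegular_aleph_one aleph0_lt_aleph_one
      (Or.inl le_rfl) (jF P) (fun 𝒜 h𝒜 => not_le.mp fun h' => h (t1step hX P ?_ h𝒜 h'))
      fun ρ _ => hK ρ
    rw [isRegular_aleph_one.cof_ord]
    exact aleph0_lt_aleph_one

theorem l1_of_lt (ccc : CCCStmt) [CompleteSpace X] (hX : Inj X) (hinf : ¬ FiniteDimensional ℝ X)
    (ι : Type) (hι : #ι < #X) : Emb (L1 ι) X := by
  rcases le_or_gt #ι ℵ₀ with hc | hc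
  · exact (l1_continuum hX hinf).l1_mono (hc.trans (by simpa using aleph0_le_continuum))
  refine (l1_main ccc hX hinf (OT (Order.succ #ι)) ?_ (Or.inl ?_)).l1_mono ?_
  · rw [mk_OT]; exact Order.succ_le_of_lt hι
  · rw [mk_OT]
    exact ⟨isRegular_succ hc.le, fun h => absurd (h.isStrongPrelimit (Order.lt_succ _))
      (not_lt.mpr (Order.succ_le_of_lt (cantor _)))⟩
  · rw [mk_OT]; exact Order.le_succ _

theorem Emb.mk_le {ι : Type} (h : Emb (L1 ι) X) {s : Set X} (hs : Dense s) : #ι ≤ #s := by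
  classical
  obtain ⟨x, r, hr, -, h2⟩ := h.isL1
  choose d hd1 hd2 using fun j => hs.exists_dist_lt (x j) hr
  refine mk_le_of_injective (f := fun j => (⟨d j, hd1 j⟩ : s)) fun j k hjk => ?_
  by_contra hne
  have h3 := h2 {j, k} fun l => if l = j then 1 else -1
  simp only [Finset.sum_pair hne, if_true, if_neg (Ne.symm hne), abs_one, abs_neg, one_smul,
    neg_smul, ← sub_eq_add_neg, ← dist_eq_norm] at h3
  have h4 := dist_triangle_right (x j) (x k) (d j)
  have h5 := hd2 k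
  rw [← show d j = d k from congrArg Subtype.val hjk] at h5
  linarith [hd2 j]

/-- part (ii) follows from part (i) -/
theorem dual_iso [CompleteSpace X] (hX : Inj X) (hinf : ¬ FiniteDimensional ℝ X) (ι : Type)
    {s : Set X} (hs : Dense s) (hι : #s = #ι) (h : Emb (L1 ι) X) :
    Nonempty ((X →L[ℝ] ℝ) ≃L[ℝ] WW ι) := by
  have h1 : ℵ₀ < #ι := by
    have := (l1_continuum hX hinf).mk_le hs
    rw [hι, mk_set, mk_nat] at this
    exact (cantor _).trans_le this
  have : Infinite ι := infinite_iff.mpr h1.le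
  exact pel _ _ (Set ι) ((astmt X hX ι s hs hι.le).trans (m1 mah ι))
    ((m2 ι).trans (bstmt X hX ι h1 h))

end Pool.Agent.Lib.MP_4a9e55_an
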