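import Pool.Agent.Lib.MP_4a9e55_an.Main3

set_option autoImplicit false

open Cardinal Set Filter
open scoped ENNReal

namespace Pool.Agent.Lib.MP_4a9e55_an

variable {Γ : Type} {κ β γ : Cardinal.{0}}
variable {X : Type} [NormedAddCommGroup X] [NormedSpace ℝ X]

/-- the critical chain conditions up to `κ` can be handled for the dimension `γ` -/
def Crit (κ γ : Cardinal.{0}) : Prop :=
  ∀ κ' ≤ κ, κ'.IsRegular → ℵ₁ < κ' → κ' ≤ γ.ord.cof → (∀ δ < γ, ∀ σ < κ', δ ^ σ < γ) →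
    Good κ' γ.ord.cof ∨
      ∃ ν : Cardinal.{0}, ν.IsRegular ∧ κ' = Order.succ ν ∧ γ.ord.cof = Order.succ ν

theorem main_ind2 [CompleteSpace X] (hX : Inj X) (i : X →L[ℝ] B Γ)
    (hi : ∀ x, ‖i x‖ = ‖x‖) (P : B Γ →L[ℝ] X) (hP : ∀ x, P (i x) = x) (hγ : γ ≤ #X)
    (hc : 𝔠 < γ) (κ : Cardinal.{0}) : κ.IsRegular → ℵ₀ < κ → Crit κ γ →
    ∀ F : Filter Γ, CC F κ → (∀ ρ < κ, #(Ker F i) ^ ρ < γ) → Emb (L1 (OT γ)) X := by
  induction κ using WellFoundedLT.induction with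
  | ind κ ih =>
  intro hκ hu H F hC hK
  by_cases h1 : κ ≤ ℵ₁
  · exact main_ind ccc hX i hi P hP hγ hc κ hκ hu (Or.inl h1) F hC hK
  have hγ0 : ℵ₀ < γ := aleph0_lt_continuum.trans hc
  have H' : ∀ κ' < κ, Crit κ' γ := fun κ' h κ'' h' => H κ'' (h'.trans h.le)
  by_cases ha : ∃ ρ < κ, γ ≤ 2 ^ ρ
  · obtain ⟨ρ, h1, h2⟩ := ha
    have h3 : ℵ₀ < ρ := by
      by_contra h3
      have := h2.trans (power_le_power_left two_ne_zero (not_lt.mp h3))
      rw [two_power_aleph0] at this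
      exact absurd this (not_le.mpr hc)
    rcases t1case hX P h3 (OT γ) ((mk_OT γ).le.trans h2) with h | ⟨κ', h4, h5, h6, h7⟩
    · exact h
    · refine ih κ' (h4.trans_lt h1) h5 h6 (H' _ (h4.trans_lt h1)) _ h7 fun ρ' _ => ?_
      refine ((power_le_power_right (mk_ker_jF i P hP)).trans_eq one_power).trans_lt ?_
      exact one_lt_aleph0.trans hγ0
  push Not at ha
  obtain ⟨β, ⟨ρ, hρ, hβρ⟩, hmin⟩ := wellFounded_lt.has_min {β | ∃ ρ < κ, γ ≤ β ^ ρ}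
    ⟨γ, 1, one_lt_aleph0.trans hu, by simp⟩
  have hlt : ∀ δ < β, ∀ ρ' < κ, δ ^ ρ' < γ := fun δ hδ ρ' hρ' =>
    not_le.mp fun h => hmin δ ⟨ρ', hρ', h⟩ hδ
  have hβγ : β ≤ γ := not_lt.mp (hmin γ ⟨1, one_lt_aleph0.trans hu, by simp⟩)
  have hpow : ∀ δ < β, ∀ ρ' < κ, δ ^ ρ' < β := fun δ hδ ρ' hρ' => not_le.mp fun h => by
    have := hβρ.trans (power_le_power_right h)
    rw [← power_mul] at this
    exact absurd this (not_le.mpr (hlt δ hδ _ (mul_lt_of_lt hu.le hρ' hρ)))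
  have h2 : 2 < β := not_le.mp fun h =>
    absurd (hβρ.trans (power_le_power_right h)) (not_le.mpr (ha ρ hρ))
  have h0 : ℵ₀ ≤ β := (cantor _).le.trans (hpow 2 h2 _ hu).le
  have hκβ : κ ≤ β := (le_powerlt_exp le_rfl).trans (powerlt_le.mpr fun ρ' h => (hpow 2 h2 ρ' h).le)
  have hKβ : #(Ker F i) < β := not_le.mp fun h =>
    absurd (hβρ.trans (power_le_power_right h)) (not_le.mpr (hK ρ hρ))
  rcases lt_or_ge β.ord.cof κ with hb | hb
  · have hp : ∀ δ < β, δ ^< κ < β := fun δ hδ => (powerlt_mono (le_max_left δ 2)).trans_lt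
      (powerlt_lt_of_cof_lt hκ h0 hκβ hb (two_pos.trans_le (le_max_right _ _)).ne'
        (hpow _ (max_lt hδ h2)))
    have hB : Big κ β := ⟨hκ, hu, (le_powerlt_exp le_rfl).trans_lt (hp 2 h2), hp, hb.trans_le hκβ⟩
    have hfin : Emb (L1 (OT ρ → OT β)) X → Emb (L1 (OT γ)) X := fun h =>
      h.l1_mono (by rwa [mk_pi, prod_const', mk_OT, mk_OT, mk_OT])
    rcases (isRegular_cof_ord h0).aleph0_le.lt_or_eq with h | h
    · rcases t3 hX hB hC i hi P hP hKβ h hb (OT ρ) (by rwa [mk_OT]) with h' | ⟨F', h3, h4⟩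
      · exact hfin h'
      · exact ih _ hb (isRegular_cof_ord h0) h (H' _ hb) F' h3 fun ρ' h' =>
          hlt _ h4 _ (h'.trans hb)
    · exact hfin (t3w hX hB hC i hi P hP hKβ (hβγ.trans hγ) h.symm (OT ρ) (by rwa [mk_OT]))
  · obtain rfl : β = γ := le_antisymm hβγ (hβρ.trans (power_le_self_of_cof h0 (hρ.trans_le hb)
      fun δ hδ => (hpow δ hδ ρ hρ).le))
    rcases (Ordinal.cof_ord_le β).lt_or_eq with h | h
    · rcases H κ le_rfl hκ (not_le.mp h1) hb hpow with hG | ⟨ν, hν, rfl, hcof⟩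
      · exact t5 ⟨hκ, hu, hb.trans_lt h, fun δ hδ => powerlt_lt_of_lt_cof hG.lt (hpow δ hδ), h⟩
          hG hC i hi P hP hKβ hγ
      · have hν0 : ℵ₀ < ν := by
          by_contra hc'
          exact h1 (succ_aleph0 ▸ Order.succ_le_succ (not_lt.mp hc'))
        have hB : Big (Order.succ ν) β := by
          refine ⟨hκ, hu, hb.trans_lt h, fun δ hδ => ?_, h⟩
          refine lt_of_le_of_lt (powerlt_le.mpr fun ρ' h' => ?_)
            (hpow _ (max_lt hδ h2) _ (Order.lt_succ ν))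
          exact (power_le_power_right (le_max_left _ _)).trans (power_le_power_left
            (two_pos.trans_le (le_max_right _ _)).ne' (Order.lt_succ_iff.mp h'))
        rcases t6 hX (by rwa [hν.cof_ord]) hB hcof hC i hi P hP hKβ with h' | ⟨F', h3, h4⟩
        · exact h'
        · exact ih ν (Order.lt_succ ν) hν hν0 (H' _ (Order.lt_succ ν)) F' h3 fun ρ' h' =>
            hlt _ h4 _ (h'.trans (Order.lt_succ ν))
    · have h3 : κ < β := lt_of_le_of_ne hκβ fun e => by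
        rcases H κ le_rfl hκ (not_le.mp h1) hb hpow with hG | ⟨ν, -, h4, -⟩
        · exact absurd hG.lt (by rw [h, e]; exact lt_irrefl _)
        · exact absurd (ha ν (h4 ▸ Order.lt_succ ν))
            (not_lt.mpr (e ▸ h4 ▸ Order.succ_le_of_lt (cantor ν)))
      exact t2emb ⟨hκ, hu, ⟨h0, h.ge⟩, h3, fun δ hδ =>
        powerlt_lt_of_lt_cof (h.symm ▸ h3) (hpow δ hδ)⟩ hC i hi P hP hKβ hγ _ (mk_OT _).le

theorem exists_not_emb : ∃ κ : Cardinal.{0}, κ.IsRegular ∧ ℵ₀ < κ ∧ ¬ Emb (B (OT κ)) X := by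
  have h1 : ℵ₀ ≤ max #X ℵ₀ := le_max_right _ _
  refine ⟨_, isRegular_succ h1, h1.trans_lt (Order.lt_succ _), fun h => ?_⟩
  have : Infinite (OT (Order.succ (max #X ℵ₀))) :=
    infinite_iff.mpr ((h1.trans (Order.le_succ _)).trans (mk_OT _).ge)
  have h2 := ((fkh (OT (Order.succ (max #X ℵ₀)))).trans h).mk_le dense_univ
  rw [mk_set, mk_OT, mk_univ] at h2
  exact absurd (h2.trans (le_max_left _ ℵ₀))
    (not_le.mpr ((Order.lt_succ _).trans (cantor _)))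

theorem l1_crit [CompleteSpace X] (hX : Inj X) (hinf : ¬ FiniteDimensional ℝ X)
    (ι : Type) (hι : #ι ≤ #X)
    (H : ∀ κ : Cardinal.{0}, κ.IsRegular → ℵ₁ < κ → κ ≤ (#ι).ord.cof →
      (∀ δ < #ι, ∀ σ < κ, δ ^ σ < #ι) → (∀ Θ : Type, (#Θ).IsRegular → #Θ < κ → Emb (B Θ) X) →
      (κ < (#ι).ord.cof ∧ ∀ δ < (#ι).ord.cof, ∀ σ < κ, δ ^ σ < (#ι).ord.cof) ∨
        ∃ ν : Cardinal.{0}, ν.IsRegular ∧ κ = Order.succ ν ∧ (#ι).ord.cof = Order.succ ν) :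
    Emb (L1 ι) X := by
  rcases le_or_gt #ι 𝔠 with hc | hc
  · exact (l1_continuum hX hinf).l1_mono (by simpa using hc)
  obtain ⟨Γ, i, P, hi, hP⟩ := hX.exists_proj
  refine Emb.l1_mono (ι := OT #ι) ?_ (mk_OT _).ge
  have hK : ∀ ρ : Cardinal.{0}, #(Ker (jF P) i) ^ ρ < #ι := fun ρ =>
    ((power_le_power_right (mk_ker_jF i P hP)).trans_eq one_power).trans_lt
      (one_lt_aleph0.trans (aleph0_lt_continuum.trans hc))
  obtain ⟨κ, ⟨h1, h2, h4⟩, hmin⟩ := wellFounded_lt.has_min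
    {κ : Cardinal.{0} | κ.IsRegular ∧ ℵ₀ < κ ∧ ¬ Emb (B (OT κ)) X} exists_not_emb
  have h5 : ℵ₀ ≤ #ι := (aleph0_lt_continuum.trans hc).le
  refine main_ind2 hX i hi P hP hι hc _ h1 h2 (fun κ' hκ' e1 e2 e3 e4 => ?_) (jF P)
      (fun 𝒜 h𝒜 => not_le.mp fun h' => h4 (t1step hX P (by rwa [h1.cof_ord]) h𝒜 h'))
      fun ρ _ => hK ρ
  refine (H κ' e1 e2 e3 e4 fun Θ g1 g2 => ?_).imp_left fun ⟨g1, g2⟩ =>
    ⟨e1, aleph0_lt_aleph_one.trans e2, isRegular_cof_ord h5, g1, fun δ hδ =>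
      powerlt_lt_of_lt_cof (by rw [(isRegular_cof_ord h5).cof_ord]; exact g1) (g2 δ hδ)⟩
  rcases g1.aleph0_le.lt_or_eq with g3 | g3
  · obtain ⟨e'⟩ := Cardinal.eq.mp (mk_OT #Θ).symm
    refine Emb.B_congr e' ?_
    by_contra g4
    exact hmin _ ⟨g1, g3, g4⟩ (g2.trans_le hκ')
  · obtain ⟨e'⟩ := Cardinal.eq.mp (g3.symm.trans mk_nat.symm)
    exact (linf t1 X hX hinf).B_congr e'

end Pool.Agent.Lib.MP_4a9e55_an
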