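import Pool.Agent.Lib.MP_4a9e55_an.T8

set_option autoImplicit false

open Cardinal Set Filter
open scoped ENNReal

namespace Pool.Agent.Lib.MP_4a9e55_an

variable {Γ : Type} {F : Filter Γ} {κ τ β : Cardinal.{0}}
variable {X : Type} [NormedAddCommGroup X] [NormedSpace ℝ X]

/-- uniformly separated families oscillate with a uniform constant -/
theorem exists_VV_q (hG : Good κ τ) (hC : CC F κ) (I : Set (B Γ)) (hI : τ ≤ #I) {ε : ℝ}
    (hε : 0 < ε) (hsep : ∀ x ∈ I, ∀ y ∈ I, x ≠ y → Pos F {t | 4 * ε < |x t - y t|}) :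
    ∃ c, Pos F c ∧ VV F τ I c (ε / 2) := by
  by_contra hcon
  push Not at hcon
  obtain ⟨S, -, hS⟩ := exists_nice hG hC (fun _ => I) ∅ (by simpa using hG.reg.pos) (by simp)
  obtain ⟨D, data, hD, hdata⟩ := exists_data hG hC hS.small hS.pos hε
  have hinj : Function.Injective fun x : I => data x := by
    intro x y hxy
    by_contra hne
    obtain ⟨U, hU, hred⟩ := hS.red _ (hsep x x.2 y y.2 fun h => hne (Subtype.ext h))
    obtain ⟨A, hA, l, k, hUA, hf1, hf2⟩ := hdata x y hxy U hU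
    have hp := hred _ (hS.inter U hU A hA hUA) inter_subset_left
    have hlt : k * ε - l * ε < 4 * ε := by
      by_contra hge
      exact hcon A (hS.pos A hA) (hS.wit' 0 hA (half_lt_self hε) x.2 (hf1.osc (by linarith)))
    have hnull : ¬ Pos F ((A ∩ {t | k * ε < x.1 t} ∪ A ∩ {t | x.1 t < l * ε}) ∪
        (A ∩ {t | k * ε < y.1 t} ∪ A ∩ {t | y.1 t < l * ε})) := by
      simp only [pos_union, not_or]
      exact ⟨⟨hf1.up, hf1.dn⟩, hf2.up, hf2.dn⟩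
    refine hnull (hp.mono fun t ht => ?_)
    by_contra hc
    simp only [mem_union, mem_inter_iff, mem_ofPred_eq, not_or, not_and, not_lt] at hc
    have h1 := hc.1.1 ht.1.2
    have h2 := hc.1.2 ht.1.2
    have h3 := hc.2.1 ht.1.2
    have h4 := hc.2.2 ht.1.2
    have h5 : 4 * ε < |x.1 t - y.1 t| := ht.2
    have h6 : |x.1 t - y.1 t| ≤ 4 * ε := abs_le.mpr ⟨by linarith, by linarith⟩
    linarith
  exact absurd (hI.trans (mk_le_of_injective hinj)) (not_le.mpr hD)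

theorem exists_max_sep {α : Type} (r : α → α → Prop) (hr : ∀ x y, r x y → r y x) (Y : Set α) :
    ∃ I ⊆ Y, I.Pairwise r ∧ ∀ y ∈ Y, ∃ x ∈ I, y = x ∨ ¬ r y x := by
  obtain ⟨I, hI⟩ := zorn_subset {I | I ⊆ Y ∧ I.Pairwise r} (by
    intro c hc hchain
    refine ⟨⋃₀ c, ⟨sUnion_subset fun s hs => (hc hs).1, ?_⟩, fun s hs => subset_sUnion_of_mem hs⟩
    rintro x ⟨s, hs, hx⟩ y ⟨s', hs', hy⟩ hne
    rcases hchain.total hs hs' with h | h
    · exact (hc hs').2 (h hx) hy hne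
    · exact (hc hs).2 hx (h hy) hne)
  refine ⟨I, hI.prop.1, hI.prop.2, fun y hy => ?_⟩
  by_contra hc
  push Not at hc
  have h2 : insert y I ∈ {I | I ⊆ Y ∧ I.Pairwise r} :=
    ⟨insert_subset hy hI.prop.1, hI.prop.2.insert fun x hx _ => ⟨(hc x hx).2, hr _ _ (hc x hx).2⟩⟩
  exact (hc y (hI.eq_of_subset h2 (subset_insert _ _) ▸ mem_insert _ _)).1 rfl

theorem exists_net (Y : Set X) {s : ℝ} (hs : 0 < s) : ∃ I ⊆ Y,
    I.Pairwise (fun x y => s ≤ ‖x - y‖) ∧ ∀ y ∈ Y, ∃ x ∈ I, ‖y - x‖ < s := by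
  obtain ⟨I, h1, h2, h3⟩ := exists_max_sep (fun x y : X => s ≤ ‖x - y‖)
    (fun x y h => by rwa [norm_sub_rev]) Y
  refine ⟨I, h1, h2, fun y hy => ?_⟩
  obtain ⟨x, hx, h | h⟩ := h3 y hy
  · exact ⟨x, hx, by simpa [h] using hs⟩
  · exact ⟨x, hx, not_le.mp h⟩

theorem ball_large (P : B Γ →L[ℝ] X) (N : Submodule ℝ (B Γ)) (hτ : ℵ₀ < τ.ord.cof)
    (hN : τ ≤ #(P '' N)) : τ ≤ #(P '' ballOf N) := by
  obtain ⟨n, hn⟩ := exists_ball_large P N hτ hN
  have hn0 : (0 : ℝ) < n + 1 := by positivity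
  refine hn.trans (mk_le_of_injective (f := fun x => ⟨((n : ℝ) + 1)⁻¹ • x.1, ?_⟩) ?_)
  · obtain ⟨_, g, hg, rfl⟩ := x
    refine ⟨((n : ℝ) + 1)⁻¹ • g, ⟨N.smul_mem _ hg.1, ?_⟩, by simp⟩
    rw [norm_smul, Real.norm_eq_abs, abs_of_pos (inv_pos.mpr hn0), inv_mul_le_iff₀ hn0]
    simpa using hg.2
  · intro x y hxy
    exact Subtype.ext (smul_right_injective X (inv_pos.mpr hn0).ne' (congrArg Subtype.val hxy))

/-- normalised images of a ball -/
def nb (P : B Γ →L[ℝ] X) (N : Submodule ℝ (B Γ)) (C : ℕ) : Set X :=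
  {y | ‖y‖ ≤ 1 ∧ ∃ g ∈ N, ‖g‖ ≤ C ∧ P g = y}

theorem nb_mono (P : B Γ →L[ℝ] X) (N : Submodule ℝ (B Γ)) {C C' : ℕ} (h : C ≤ C') :
    nb P N C ⊆ nb P N C' := fun _ ⟨h1, g, h2, h3, h4⟩ =>
  ⟨h1, g, h2, h3.trans (by exact_mod_cast h), h4⟩

/-- large separated normalised families -/
theorem exists_sep_nb (hB : Big κ β) (hθ : ℵ₀ < β.ord.cof) (P : B Γ →L[ℝ] X)
    (N : Submodule ℝ (B Γ)) (hN : β ≤ #(P '' N)) : ∃ C : ℕ, ∀ τ < β, τ.IsRegular →
      ∃ Z ⊆ nb P N C, τ ≤ #Z ∧ Z.Pairwise fun x y => 1 / 2 ≤ ‖x - y‖ := by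
  classical
  let s : ℕ → ℝ := fun n => (2 * ‖P‖ + 1) * (1 / 2) ^ n
  have hs : ∀ n, 0 < s n := fun n => by positivity
  let Q : Cardinal.{0} → ℕ → Prop := fun τ n =>
    ∃ I ⊆ P '' ballOf N, τ ≤ #I ∧ I.Pairwise fun x y => s n ≤ ‖x - y‖
  obtain ⟨m₀, hm₀⟩ : ∃ m₀, ∀ τ < β, Q τ m₀ := by
    by_contra hc
    push Not at hc
    choose t ht ht' using hc
    obtain ⟨δ, hδ, -, hδ'⟩ := exists_bound_of_cof t hB.aleph0_lt (by simpa using hθ) ht
    choose I h1 h2 h3 using fun n => exists_net (P '' ballOf N) (hs n)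
    choose x hx hx' using fun (y : P '' ballOf N) n => h3 n y y.2
    have hlim : ∀ y : P '' ballOf N, Tendsto (x y) atTop (nhds y) := fun y => by
      rw [tendsto_iff_norm_sub_tendsto_zero]
      have h0 := (tendsto_pow_atTop_nhds_zero_of_lt_one (r := (1 / 2 : ℝ)) (by norm_num)
        (by norm_num)).const_mul (2 * ‖P‖ + 1)
      rw [mul_zero] at h0
      refine squeeze_zero (fun n => norm_nonneg _) (fun n => ?_) h0
      rw [norm_sub_rev]
      exact (hx' y n).le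
    have h4 := mk_le_of_injective (f := fun (y : P '' ballOf N) n => (⟨x y n, hx y n⟩ : I n))
      fun y y' h => Subtype.ext (tendsto_nhds_unique (hlim y) (by
        rw [show x y = x y' from funext fun n => congrArg Subtype.val (congrFun h n)]
        exact hlim y'))
    rw [mk_pi] at h4
    have h5 := h4.trans (prod_le_prod _ (fun _ : ℕ => δ) fun n =>
      (not_le.mp fun h => ht' n ⟨I n, h1 n, h, h2 n⟩).le.trans (hδ' n))
    rw [prod_const', mk_nat] at h5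
    exact absurd ((ball_large P N hθ hN).trans h5) (not_le.mpr (hB.power_lt hδ hB.unc))
  obtain ⟨C, hC⟩ := exists_nat_ge (2 / s m₀)
  refine ⟨C, fun τ hτ hreg => ?_⟩
  have hex : ∃ n, Q τ n := ⟨m₀, hm₀ τ hτ⟩
  obtain ⟨I, h1, h2, h3⟩ := Nat.find_spec hex
  have hb : ∀ y ∈ P '' ballOf N, ‖y‖ ≤ ‖P‖ := by
    rintro _ ⟨g, hg, rfl⟩
    exact (P.le_opNorm _).trans (mul_le_of_le_one_right (norm_nonneg _) hg.2)
  obtain ⟨m, hm⟩ : ∃ m, Nat.find hex = m + 1 := Nat.exists_eq_succ_of_ne_zero fun h0 => by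
    obtain ⟨x, y, hxy⟩ := one_lt_iff_nontrivial.mp
      ((one_lt_aleph0.trans_le hreg.aleph0_le).trans_le h2)
    have h4 := h3 x.2 y.2 fun h => hxy (Subtype.ext h)
    rw [h0] at h4
    have h5 := norm_sub_le x.1 y.1
    simp only [s, pow_zero, mul_one] at h4
    linarith [hb _ (h1 x.2), hb _ (h1 y.2)]
  obtain ⟨I', h4, h5, h6⟩ := exists_net (P '' ballOf N) (hs m)
  have h7 : #I' < τ := not_le.mp fun h => Nat.find_min hex (by omega) ⟨I', h4, h, h5⟩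
  choose x hx hx' using fun y : I => h6 y (h1 y.2)
  obtain ⟨⟨x₀, hx₀⟩, h8⟩ := infinite_pigeonhole_card (fun y => (⟨x y, hx y⟩ : I')) τ h2
    hreg.aleph0_le (by rwa [hreg.cof_ord])
  have h9 : s m₀ ≤ s m := mul_le_mul_of_nonneg_left (pow_le_pow_of_le_one (by norm_num)
    (by norm_num) (by have := Nat.find_min' hex (hm₀ τ hτ); omega)) (by positivity)
  have hinj : Function.Injective fun y : X => (s m)⁻¹ • (y - x₀) := fun y y' h =>
    sub_left_injective (smul_right_injective X (inv_pos.mpr (hs m)).ne' h)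
  refine ⟨(fun y : X => (s m)⁻¹ • (y - x₀)) '' (Subtype.val ''
    ((fun y => (⟨x y, hx y⟩ : I')) ⁻¹' {⟨x₀, hx₀⟩})), ?_, ?_, ?_⟩
  · rintro _ ⟨_, ⟨y, hy, rfl⟩, rfl⟩
    have h10 := hx' y
    rw [show x y = x₀ from congrArg Subtype.val hy] at h10
    obtain ⟨g, hg, hgy⟩ := h1 y.2
    obtain ⟨g₀, hg₀, rfl⟩ := h4 hx₀
    refine ⟨?_, (s m)⁻¹ • (g - g₀), N.smul_mem _ (N.sub_mem hg.1 hg₀.1), ?_, by simp [hgy]⟩
    · rw [norm_smul, Real.norm_eq_abs, abs_of_pos (inv_pos.mpr (hs m)), inv_mul_le_iff₀ (hs m)]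
      linarith
    · rw [norm_smul, Real.norm_eq_abs, abs_of_pos (inv_pos.mpr (hs m)), inv_mul_le_iff₀ (hs m)]
      rw [div_le_iff₀ (hs m₀)] at hC
      nlinarith [norm_sub_le g g₀, hg.2, hg₀.2, (Nat.cast_nonneg C : (0 : ℝ) ≤ C)]
  · rwa [mk_image_eq hinj, mk_image_eq Subtype.val_injective]
  · rintro _ ⟨_, ⟨y, -, rfl⟩, rfl⟩ _ ⟨_, ⟨y', -, rfl⟩, rfl⟩ hne
    have h10 := h3 y.2 y'.2 fun h => hne (by rw [h])
    rw [hm] at h10
    rw [← smul_sub, sub_sub_sub_cancel_right, norm_smul, Real.norm_eq_abs,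
      abs_of_pos (inv_pos.mpr (hs m)), le_inv_mul_iff₀ (hs m)]
    simpa only [s, pow_succ, mul_assoc] using h10

/-- normalised vectors oscillate with a universal constant -/
theorem normal (hB : Big κ β) (hθ : ℵ₀ < β.ord.cof) (hC : CC F κ) (i : X →L[ℝ] B Γ)
    (P : B Γ →L[ℝ] X) (hP : ∀ x, P (i x) = x) (R : Set X) (hR : #R < β) (hR0 : (0 : X) ∈ R)
    (hRn : ∀ x ∈ R, -x ∈ R) (hR' : ∀ W g, ¬ Pos F W → Supp W g → P g ∈ R)
    (N : Submodule ℝ (B Γ)) (hN : β ≤ #(P '' N)) : ∃ C : ℕ, ∀ τ < β, ∃ c, Pos F c ∧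
      VV F τ (i '' nb P N C) c (1 / (32 * (‖P‖ + 1)) / 2) := by
  obtain ⟨C, hC'⟩ := exists_sep_nb hB hθ P N hN
  refine ⟨C, fun τ hτ => ?_⟩
  obtain ⟨τ', h1, h2, h3⟩ := hB.exists_good (max_lt hτ hR)
  obtain ⟨Z, h4, h5, h6⟩ := hC' τ' h1 h3.reg
  obtain ⟨I, h7, h8, h9⟩ := exists_max_sep (fun x y : X => ∀ ρ ∈ R, 1 / 8 ≤ ‖x - y - ρ‖)
    (fun x y h ρ hρ => by
      have := h _ (hRn ρ hρ)
      rwa [← norm_neg, show -(x - y - -ρ) = y - x - ρ by abel] at this) Z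
  have h10 : τ' ≤ #I := by
    by_contra hlt
    have h11 : ∀ z : Z, ∃ p : I × R, ‖z.1 - p.1.1 - p.2.1‖ < 1 / 8 := fun z => by
      obtain ⟨x, hx, h | h⟩ := h9 z z.2
      · exact ⟨(⟨x, hx⟩, ⟨0, hR0⟩), by simp [h]⟩
      · push Not at h
        obtain ⟨ρ, hρ, h⟩ := h
        exact ⟨(⟨x, hx⟩, ⟨ρ, hρ⟩), h⟩
    choose p hp using h11
    have h12 := mk_le_of_injective (f := p) fun z z' h => by
      by_contra hne
      have h13 := h6 z.2 z'.2 fun h => hne (Subtype.ext h)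
      have h14 := hp z'
      rw [← h] at h14
      have h15 := norm_sub_le (z.1 - (p z).1.1 - (p z).2.1) (z'.1 - (p z).1.1 - (p z).2.1)
      rw [show z.1 - (p z).1.1 - (p z).2.1 - (z'.1 - (p z).1.1 - (p z).2.1) = z.1 - z'.1 by abel]
        at h15
      linarith [hp z]
    simp only [mk_prod, lift_id] at h12
    exact absurd (h5.trans h12) (not_le.mpr (mul_lt_of_lt h3.reg.aleph0_le (not_le.mp hlt)
      ((le_max_right _ _).trans_lt h2)))
  have hinj : Function.Injective i := fun x y h => by rw [← hP x, h, hP]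
  have hε : (0 : ℝ) < 1 / (32 * (‖P‖ + 1)) := by positivity
  obtain ⟨c, h11, h12⟩ := exists_VV_q h3 hC (i '' I) (by rwa [mk_image_eq hinj]) hε (by
    rintro _ ⟨x, hx, rfl⟩ _ ⟨y, hy, rfl⟩ hne
    by_contra hc
    simp only [← B.sub_apply, ← map_sub] at hc
    have h13 := (h8 hx hy (fun h => hne (h ▸ rfl)) _ (hR' _ _ hc (supp_trunc _ _))).trans
      (norm_sub_trunc_le i P hP (x - y) (by positivity))
    rw [mul_one_div, ← mul_div_assoc, div_le_div_iff₀ (by positivity) (by positivity)] at h13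
    linarith)
  exact ⟨c, h11, h12.mono ((le_max_left _ _).trans h2.le) (image_mono (h7.trans h4)) subset_rfl
    le_rfl⟩

theorem VV.approx {𝒳 𝒳' : Set (B Γ)} {c : Set Γ} {r η : ℝ} (h : VV F τ 𝒳 c r)
    (h' : ∀ y ∈ 𝒳, ∃ y' ∈ 𝒳', ∀ t ∈ c, |y' t - y t| ≤ η) : VV F τ 𝒳' c (r - η) := by
  intro 𝒰 h1 h2
  obtain ⟨y, hy, h3⟩ := h 𝒰 h1 h2
  obtain ⟨y', hy', h4⟩ := h' y hy
  refine ⟨y', hy', fun U hU hUc => ?_⟩
  obtain ⟨a, h5, h6⟩ := h3 U hU hUc
  refine ⟨a, h5.mono fun t ht => ⟨ht.1, ?_⟩, h6.mono fun t ht => ⟨ht.1, ?_⟩⟩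
  all_goals
    have e1 := abs_le.mp (h4 t (hUc ht.1))
    have e2 := ht.2
    simp only [mem_ofPred_eq] at e2 ⊢
    linarith [e1.1, e1.2]

theorem trunc_approx (T : B Γ →L[ℝ] B Γ) {W A : Set Γ} {g : B Γ} (hg : ‖g‖ ≤ 1) {η η' : ℝ}
    (hη' : 0 ≤ η') (hW : ∀ s, s ∉ W → |g s| ≤ η') {t : Γ} (ht : t ∈ Sml T A η) :
    |T (trunc (W \ A) g) t - T g t| ≤ η + ‖T‖ * η' := by
  have h1 : g = trunc (W \ A) g + (trunc A g + trunc (W ∪ A)ᶜ g) := B.ext' fun s => by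
    simp only [B.add_apply]
    by_cases hA : s ∈ A
    · rw [trunc_of_mem _ hA, trunc_of_not_mem _ fun h => h.2 hA,
        trunc_of_not_mem _ (not_not.mpr (Or.inr hA))]
      ring
    · rw [trunc_of_not_mem _ hA]
      by_cases hW : s ∈ W
      · rw [trunc_of_mem _ (show s ∈ W \ A from ⟨hW, hA⟩),
          trunc_of_not_mem _ (not_not.mpr (Or.inl hW))]
        ring
      · rw [trunc_of_not_mem _ fun h => hW h.1,
          trunc_of_mem _ (show s ∈ (W ∪ A)ᶜ from fun h => h.elim hW hA)]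
        ring
  have h2 := congrArg (fun x => T x t) h1
  simp only [map_add, B.add_apply] at h2
  have h3 := Sml.abs_le ht (supp_trunc A g) ((norm_trunc_le _ _).trans hg)
  have h4 : |T (trunc (W ∪ A)ᶜ g) t| ≤ ‖T‖ * η' := (B.abs_le _ t).trans ((T.le_opNorm _).trans
    (mul_le_mul_of_nonneg_left (B.norm_le hη' fun s => by
      by_cases hs : s ∈ (W ∪ A)ᶜ
      · rw [trunc_of_mem _ hs]; exact hW s fun h => hs (Or.inl h)
      · rw [trunc_of_not_mem _ hs, abs_zero]; exact hη') (norm_nonneg _)))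
  rw [h2, sub_add_cancel_left, abs_neg]
  exact (abs_add_le _ _).trans (add_le_add h3 h4)

theorem c0_nb (i : X →L[ℝ] B Γ) (hi : ∀ x, ‖i x‖ = ‖x‖) (P : B Γ →L[ℝ] X) {Θ : Type}
    [LinearOrder Θ] (V : Θ → Set Γ) (n : ℕ) :
    C0 i (fun j => nb P (triSub P (V j) (V '' Iio j)) n) ((n + 1) * (‖P‖ + 1)) := by
  intro s y hy t
  have hn0 : (0 : ℝ) < n + 1 := by positivity
  have := c0_tri i hi P V s (fun j => ((n : ℝ) + 1)⁻¹ • y j) (fun j hj => by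
    obtain ⟨-, g, h1, h2, h3⟩ := hy j hj
    refine ⟨((n : ℝ) + 1)⁻¹ • g, ⟨Submodule.smul_mem _ _ h1, ?_⟩, by rw [map_smul, h3]⟩
    rw [norm_smul, Real.norm_eq_abs, abs_of_pos (inv_pos.mpr hn0), inv_mul_le_iff₀ hn0]
    linarith) t
  simp only [map_smul, B.smul_apply, abs_mul, abs_of_pos (inv_pos.mpr hn0),
    ← Finset.mul_sum] at this
  rwa [inv_mul_le_iff₀ hn0] at this

/-- the cofinality is the successor of a cardinal of countable cofinality -/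
theorem t9core [CompleteSpace X] {ν : Cardinal.{0}} (hν : ν.ord.cof = ℵ₀) (hν0 : ℵ₀ < ν)
    (hB : Big κ β) (hκ : κ ≤ β.ord.cof) (hcof : β.ord.cof ≤ Order.succ ν) (hC : CC F κ)
    (i : X →L[ℝ] B Γ) (hi : ∀ x, ‖i x‖ = ‖x‖) (P : B Γ →L[ℝ] X) (hP : ∀ x, P (i x) = x)
    (hK : #(Ker F i) < β) (R : Set X) (hR : #R < β) (hR0 : (0 : X) ∈ R)
    (hRn : ∀ x ∈ R, -x ∈ R) (hR' : ∀ W g, ¬ Pos F W → Supp W g → P g ∈ R) (V : OT ν → Set Γ)
    (hV : ∀ j, β ≤ #(P '' triSub P (V j) (V '' Iio j))) : Emb (L1 (OT β)) X := by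
  classical
  set T := i.comp P with hT
  have hl : ∀ θ < ν, Order.succ θ < ν := fun θ => succ_lt_of_cof_lt hν0.le (hν ▸ hν0)
  choose C hC' using fun j => normal hB (hB.unc.trans_le hκ) hC i P hP R hR hR0 hRn hR' _ (hV j)
  have hδ : (0 : ℝ) < 1 / (32 * (‖P‖ + 1)) / 2 := by positivity
  set δ : ℝ := 1 / (32 * (‖P‖ + 1)) / 2
  choose U _ hU2 hU3 using fun j => every hC hκ hB.aleph0_lt
    (fun τ c => VV F τ (i '' nb P (triSub P (V j) (V '' Iio j)) (C j)) c δ)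
    (fun _ _ _ _ h1 h2 h3 => h1.mono h2 subset_rfl h3 le_rfl) univ fun τ hτ => by
      obtain ⟨c, h1, h2⟩ := hC' j τ hτ
      exact ⟨c, subset_univ _, h1, h2⟩
  have hlev : ∀ R : Type, #R < ν → ∃ D c : R → Set Γ,
      Pairwise (fun r r' => Disjoint (D r) (D r')) ∧ ∀ r, Pos F (c r) ∧ ∀ τ < β, ∀ A ⊆ c r,
        Pos F A → ∃ c' ⊆ A, Pos F c' ∧ VV F τ (T '' ballOf (suppSub (D r))) c' (δ / 2) := by
    intro R hR
    have h1 := isRegular_s3 (le_max_right #R ℵ₀)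
    obtain ⟨n, hn⟩ := infinite_pigeonhole_card C _
      ((s3_lt hl (max_lt hR hν0)).le.trans (mk_OT ν).ge) h1.aleph0_le (by
        rw [h1.cof_ord, mk_nat]
        exact ((le_max_right _ _).trans_lt (Order.lt_succ _)).trans (lt_s3 _))
    have hη : 0 < δ / 4 / (‖T‖ + 1) := by positivity
    obtain ⟨k, D, A, c', h⟩ := columns (le_max_right #R ℵ₀) (le_max_left _ _) T
      (fun _ => C ⁻¹' {n}) (fun _ => hn) (fun _ _ => F) _ (fun _ k => U k)
      (fun _ => ((c0_nb i hi P V n).comp _ Subtype.val_injective).ord hη) (fun _ k => hU2 k)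
      (show 0 < δ / 8 by positivity)
    refine ⟨fun r => {t | ∃ y ∈ nb P (triSub P (V (k r)) (V '' Iio (k r).1)) n,
      δ / 4 / (‖T‖ + 1) < |i y t|} \ A r, c', fun r r' hne => Set.disjoint_left.mpr
      fun t h2 h3 => h3.2 ((h r').2.2.2.2 r hne (((h r).2.2.2.1 h2.1).resolve_right h2.2)),
      fun r => ⟨(h r).2.1, fun τ hτ A' h2 h3 => ?_⟩⟩
    obtain ⟨c, h4, h5, h6⟩ := hU3 (k r) τ hτ A' (h2.trans (h r).1) h3
    rw [show C (k r) = n from (k r).2] at h6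
    refine ⟨c, h4, h5, (h6.approx (η := δ / 8 + δ / 8 + ‖T‖ * (δ / 4 / (‖T‖ + 1))) ?_).mono
      le_rfl subset_rfl subset_rfl ?_⟩
    · rintro _ ⟨y, hy, rfl⟩
      have h7 : ‖i y‖ ≤ 1 := (hi y).le.trans hy.1
      refine ⟨_, ⟨_, ⟨supp_trunc _ (i y), (norm_trunc_le _ _).trans h7⟩, rfl⟩, fun t ht => ?_⟩
      have h8 := trunc_approx T (W := {t | ∃ y ∈ nb P (triSub P (V (k r)) (V '' Iio (k r).1)) n,
        δ / 4 / (‖T‖ + 1) < |i y t|}) h7 hη.le (fun s hs => not_lt.mp fun h => hs ⟨y, hy, h⟩)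
        ((h r).2.2.1 (h2 (h4 ht)))
      rwa [show T (i y) = i y by simp only [hT, ContinuousLinearMap.comp_apply, hP]] at h8
    · have h7 : ‖T‖ * (δ / 4 / (‖T‖ + 1)) ≤ δ / 4 := by
        rw [← mul_div_assoc, div_le_iff₀ (by positivity)]
        nlinarith
      linarith
  obtain ⟨b, hb⟩ := exists_scale_nat ν hν
  let ρ : ℕ → Cardinal.{0} := fun n => max #(Iic (b n)) ℵ₀
  have hρ : ∀ n, ρ n < ν := fun n => max_lt (mk_Iic_OT hν0.le _) hν0
  have hρ0 : ∀ n, ℵ₀ ≤ ρ n := fun n => le_max_right _ _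
  choose D c hD hc using fun n => hlev (OT (s3 ℵ₀) × OT (ρ n)) (by
    simp only [mk_prod, lift_id, mk_OT]
    exact mul_lt_of_lt hν0.le (s3_lt hl hν0) (hρ n))
  let 𝔉 : ℕ → OT (s3 ℵ₀) → Filter Γ := fun n k =>
    Filter.comk (fun Z => #{a | Pos F (c n (k, a) ∩ Z)} < ρ n)
      (by simpa [not_pos_empty] using aleph0_pos.trans_le (hρ0 n))
      (fun _ ht _ hs => (mk_le_mk_of_subset fun a ha =>
        Pos.mono ha (inter_subset_inter_right _ hs)).trans_lt ht)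
      (fun Z hZ Z' hZ' => lt_of_le_of_lt ((mk_le_mk_of_subset fun a ha =>
        pos_union.mp (inter_union_distrib_left _ _ _ ▸ ha)).trans (mk_union_le _ _))
        (add_lt_of_lt (hρ0 n) hZ hZ'))
  have h𝔉 : ∀ n k Z, Pos (𝔉 n k) Z ↔ ρ n ≤ #{a | Pos F (c n (k, a) ∩ Z)} := fun n k Z => by
    rw [← not_lt, ← not_iff_not, not_not, not_pos_iff]
    exact Filter.compl_mem_comk
  obtain ⟨k, D', A, c', h⟩ := columns (R := ℕ) le_rfl mk_nat.le T (fun _ => OT (s3 ℵ₀))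
    (fun _ => (mk_OT _).ge) 𝔉 (fun n k => ⋃ a, D n (k, a)) (fun _ _ => univ) (N₀ := 1)
    (fun n u s hu => Finset.card_le_one.mpr fun k hk k' hk' => by
      obtain ⟨a, ha⟩ := mem_iUnion.mp (hu k hk)
      obtain ⟨a', ha'⟩ := mem_iUnion.mp (hu k' hk')
      by_contra hne
      exact Set.disjoint_left.mp (hD n fun h => hne (congrArg Prod.fst h)) ha ha')
    (fun n k => (h𝔉 n k _).mpr ((mk_OT _).ge.trans (mk_univ.ge.trans
      (mk_le_mk_of_subset fun a _ => by simpa using (hc n _).1))))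
    (show 0 < δ / 8 by positivity)
  let J := Σ n, {a | Pos F (c n (k n, a) ∩ c' n)}
  have hJ : ν ≤ #J := le_of_forall_lt fun θ hθ => by
    obtain ⟨x, hx⟩ := exists_Iio_eq (hl θ hθ)
    obtain ⟨n, hn⟩ := (hb x).exists
    exact (Order.lt_succ θ).trans_le (hx.ge.trans ((mk_le_mk_of_subset
      (Iio_subset_Iic_self.trans (Iic_subset_Iic.mpr hn))).trans ((le_max_left _ _).trans
      (((h𝔉 _ _ _).mp (h n).2.1).trans (mk_le_of_injective (sigma_mk_injective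
        (β := fun n => {a | Pos F (c n (k n, a) ∩ c' n)}) (i := n)))))))
  have : Infinite J := infinite_iff.mpr (hν0.le.trans hJ)
  refine t6gen hB hκ hC i hi P hK (J := J) P (fun j => D j.1 (k j.1, j.2) \ A j.1) ?_
    (fun j => suppSub (D j.1 (k j.1, j.2) \ A j.1)) (fun j g hg => ⟨g, hg.1, hg.2, rfl⟩)
    (show 0 < δ / 4 by positivity) (fun j τ hτ => ?_) (piecesOK_succ hJ hcof)
  · rintro ⟨n, a⟩ ⟨n', a'⟩ hne
    refine Set.disjoint_left.mpr fun t h1 h2 => ?_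
    by_cases hn : n = n'
    · subst hn
      exact Set.disjoint_left.mp (hD n fun h => hne (congrArg (Sigma.mk n)
        (Subtype.ext (congrArg Prod.snd h)))) h1.1 h2.1
    · exact h2.2 ((h n').2.2.2.2 n hn (((h n).2.2.2.1 (mem_iUnion.mpr ⟨_, h1.1⟩)).resolve_right
        h1.2))
  · obtain ⟨c'', h1, h2, h3⟩ := (hc j.1 (k j.1, j.2)).2 τ hτ _ inter_subset_left j.2.2
    refine ⟨c'', h2, (h3.approx (η := δ / 8 + δ / 8 + ‖T‖ * 0) ?_).mono
      le_rfl subset_rfl subset_rfl (by linarith)⟩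
    rintro _ ⟨g, hg, rfl⟩
    exact ⟨_, ⟨_, ⟨supp_trunc _ g, (norm_trunc_le _ _).trans hg.2⟩, rfl⟩, fun t ht =>
      trunc_approx T hg.2 le_rfl (fun s hs => by rw [hg.1 s hs, abs_zero])
        ((h j.1).2.2.1 (h1 ht).2)⟩

theorem t9 [CompleteSpace X] (hX : Inj X) {ν : Cardinal.{0}} (hν : ν.ord.cof = ℵ₀) (hν0 : ℵ₀ < ν)
    (hB : Big (Order.succ ν) β) (hcof : β.ord.cof = Order.succ ν) (hC : CC F (Order.succ ν))
    (i : X →L[ℝ] B Γ) (hi : ∀ x, ‖i x‖ = ‖x‖) (P : B Γ →L[ℝ] X) (hP : ∀ x, P (i x) = x)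
    (hK : #(Ker F i) < β) :
    Emb (L1 (OT β)) X ∨ ∃ F' : Filter Γ, CC F' ν ∧ #(Ker F' i) < β := by
  have h0 := hB.aleph0_lt
  have h1 := ker_smallF hB hcof.ge hC i hi P hP hK
  by_cases hA : CC (smallF P β h0.le) ν
  · exact Or.inr ⟨_, hA, h1⟩
  left
  by_cases hA' : CC (smallF P β h0.le) (Order.succ ν)
  · unfold CC at hA
    push Not at hA
    obtain ⟨𝒜, h𝒜, hc⟩ := hA
    obtain ⟨V, hV⟩ := tri_large hB hcof.ge P (Order.le_succ ν) h𝒜 hc
    refine t9core hν hν0 hB hcof.ge hcof.le hA' i hi P hP h1 _ (t3R hB hcof.ge hC i hi P hK)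
      ⟨0, ⟨∅, (cc_empty P).trans_lt (one_lt_aleph0.trans h0), fun _ _ => rfl⟩, map_zero _⟩ ?_
      (fun W g hW hg => ⟨g, ⟨W, not_le.mp fun h => hW ((pos_smallF P h0.le _).mpr h), hg⟩, rfl⟩)
      V hV
    rintro _ ⟨g, ⟨W, h2, h3⟩, rfl⟩
    exact ⟨-g, ⟨W, h2, (suppSub W).neg_mem h3⟩, map_neg _ _⟩
  · unfold CC at hA'
    push Not at hA'
    obtain ⟨𝒜, h𝒜, hc⟩ := hA'
    obtain ⟨V, hV⟩ := tri_large hB hcof.ge P le_rfl h𝒜 hc
    refine t6tri hX (by rw [hB.regκ.cof_ord]; exact hB.unc) hB hcof.ge hC i hi P hK V hV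
      fun J hJ => ?_
    have : Infinite J := infinite_iff.mpr (hB.unc.le.trans hJ)
    exact piecesOK_succ hJ (hcof.le.trans (Order.le_succ _))

end Pool.Agent.Lib.MP_4a9e55_an
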