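import Pool.Agent.Lib.MP_4a9e55_an.Pcf2

set_option autoImplicit false

open Cardinal Set

namespace Pool.Agent.Lib.MP_4a9e55_an

variable {K : Type} {θ : K → Cardinal.{0}} {η : Cardinal.{0}}

theorem mk_iUnion_le_of {ι α : Type} {V : ι → Set α} (h0 : ℵ₀ ≤ η) (h1 : #ι ≤ η)
    (h2 : ∀ i, #(V i) ≤ η) : #(⋃ i, V i) ≤ η :=
  (mk_iUnion_le _).trans ((mul_le_mul' h1 (ciSup_le' h2)).trans (mul_eq_self h0).le)

theorem mk_union_le_of {α : Type} {V W : Set α} (h0 : ℵ₀ ≤ η) (h1 : #V ≤ η) (h2 : #W ≤ η) :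
    #(V ∪ W : Set α) ≤ η :=
  (mk_union_le _ _).trans ((add_le_add h1 h2).trans (add_eq_self h0).le)

theorem mk_uniq_le {ι : Type} {p : ι → Prop} (h0 : ℵ₀ ≤ η) (h : ∀ i j, p i → p j → i = j) :
    #{i // p i} ≤ η :=
  (mk_le_one_iff_set_subsingleton.mpr fun i hi j hj => h i j hi hj).trans (one_le_aleph0.trans h0)

/-- two sets closed under countable suprema with the same bound meet cofinally -/
theorem meet_cof {Y : Type} [LinearOrder Y] (S S' : Set Y) (x : Y)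
    (h1 : ∀ i < x, ∃ j ∈ S, i < j ∧ j < x) (h2 : ∀ i < x, ∃ j ∈ S', i < j ∧ j < x)
    (h3 : ∀ u : ℕ → Y, (∀ n, u n ∈ S) → ∃ v ∈ S, (∀ n, u n < v) ∧ ∀ w, (∀ n, u n < w) → v ≤ w)
    (h4 : ∀ u : ℕ → Y, (∀ n, u n ∈ S') → ∃ v ∈ S', (∀ n, u n < v) ∧ ∀ w, (∀ n, u n < w) → v ≤ w)
    {i : Y} (hi : i < x) : ∃ j, j ∈ S ∧ j ∈ S' ∧ i ≤ j := by
  choose m hm1 hm2 hm3 using fun i : Iio x => h1 i i.2
  choose n hn1 hn2 hn3 using fun i : Iio x => h2 (m i) (hm3 i)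
  let nx : Iio x → Iio x := fun i => ⟨n i, hn3 i⟩
  let u : ℕ → Iio x := fun k => nx^[k] ⟨i, hi⟩
  have hu : ∀ k, (u (k + 1)).1 = n (u k) := fun k => by
    simp only [u, Function.iterate_succ_apply', nx]
  obtain ⟨v, h5, h6, h7⟩ := h3 (fun k => m (u k)) fun k => hm1 _
  obtain ⟨v', h8, h9, h10⟩ := h4 (fun k => n (u k)) fun k => hn1 _
  have h11 : v = v' := le_antisymm (h7 _ fun k => (hn2 _).trans (h9 k))
    (h10 _ fun k => by rw [← hu]; exact (hm2 _).trans (h6 (k + 1)))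
  exact ⟨v, h5, h11 ▸ h8, ((hm2 (u 0)).trans (h6 0)).le⟩

/-- few regular cardinals below `δ` -/
theorem power_lt_of_pcof (hreg : ∀ k, (θ k).IsRegular) (hlt : ∀ k, η < θ k) {δ ρ : Cardinal.{0}}
    (hG : Good ℵ₁ (Order.succ η)) (hK : max #K ℵ₀ ^ ℵ₀ ≤ η)
    (hall : ∀ c < δ, c.IsRegular → η < c → ∃ k, θ k = c) (hcof : δ.ord.cof ≤ η)
    (hρ : ρ.IsRegular) (h1 : η ^ ℵ₀ < ρ)
    (h2 : ∀ A : Set K, #A ≤ ℵ₀ → pcof (fun k : A => θ k) univ < ρ) : δ ^ ℵ₀ < ρ := by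
  classical
  have hu := aleph0_lt_aleph_one
  have hκ : ℵ₁ ≤ η := Order.le_of_lt_succ hG.lt
  have h0 : ℵ₀ ≤ η := hu.le.trans hκ
  have hηρ : η < ρ := lt_of_le_of_lt (self_le_power η one_le_aleph0) h1
  have hKη : #K ≤ η := ((le_max_left _ _).trans (self_le_power _ one_le_aleph0)).trans hK
  let C : Type := {A : Set K // #A ≤ ℵ₀}
  have hC : #C ≤ η := (mk_bounded_set_le K ℵ₀).trans hK
  have h2η : ∀ A : C, 2 ^ #A.1 ≤ η := fun A => (power_le_power_left two_ne_zero A.2).trans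
    ((power_le_power_right ((natCast_lt_aleph0 (n := 2)).le.trans (le_max_right _ _))).trans hK)
  have h : ∀ A : C, Fac (fun k : A.1 => θ k) η := fun A =>
    ⟨fun k => hreg k, fun k => hlt k, h0, h2η A⟩
  let T : Type := Σ A : C, {B : Set A.1 // B.Nonempty}
  have hT : #T ≤ η := by
    rw [mk_sigma]
    refine (sum_le_sum _ (fun _ => η) fun A =>
      (mk_subtype_le _).trans (mk_set.le.trans (h2η A))).trans ?_
    rw [sum_const']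
    exact (mul_le_mul' hC le_rfl).trans (mul_eq_self h0).le
  let Ω : Type := OT δ ⊕ (Σ k, OT (θ k)) ⊕ Σ B : T, OT (pcof (fun k : B.1.1 => θ k) B.2.1)
  let a : OT δ → Ω := Sum.inl
  let b : ∀ k, OT (θ k) → Ω := fun k i => Sum.inr (Sum.inl ⟨k, i⟩)
  let d : ∀ B : T, OT (pcof (fun k : B.1.1 => θ k) B.2.1) → Ω :=
    fun B i => Sum.inr (Sum.inr ⟨B, i⟩)
  have hb : ∀ k, Function.Injective (b k) := fun k i j hij =>
    eq_of_heq (Sigma.mk.inj (Sum.inl.inj (Sum.inr.inj hij))).2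
  choose F hF1 hF2 using fun B : T => (h B.1).scale B.2.2
  choose idx hidx using hF2
  obtain ⟨g₀, hg₀⟩ := exists_cofinal_fun δ (OT δ.ord.cof) (mk_OT _)
  choose c hc hc' using fun β : OT δ => Order.exists_cof_eq (Iio β)
  have hl : ∀ β : {β : OT δ // η < Order.cof (Iio β)}, ∃ k, ∃ e : OT (θ k) → Iio β.1,
      ∀ y, ∃ i₀, ∀ i, i₀ ≤ i → y ≤ e i := fun β => by
    obtain ⟨k, hk⟩ := hall _ ((Order.cof_le_cardinalMk _).trans_lt (mk_Iio_OT β.1))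
      ⟨h0.trans β.2.le, (Order.cof_ord_cof _).ge⟩ β.2
    refine ⟨k, ?_⟩
    rw [hk]
    exact cof_ladder _ (h0.trans β.2.le)
  choose kk e he using hl
  choose i₀ hi₀ using he
  have hub : ∀ k (A : Set Ω), ∃ u, #A ≤ η → (∀ j, b k j ∈ A → j < u) ∧
      ∀ u', (∀ j, b k j ∈ A → j < u') → u ≤ u' := fun k A => by
    by_cases hA : #A ≤ η
    · obtain ⟨x, hx⟩ := exists_ub_OT (s := b k ⁻¹' A) (by
        rw [(hreg k).cof_ord]
        exact ((mk_preimage_of_injective _ _ (hb k)).trans hA).trans_lt (hlt k))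
      obtain ⟨u, h3, h4⟩ := wellFounded_lt.has_min {u | ∀ j, b k j ∈ A → j < u} ⟨x, hx⟩
      exact ⟨u, fun _ => ⟨h3, fun u' h5 => not_lt.mp (h4 u' h5)⟩⟩
    · exact ⟨(mk_ne_zero_iff.mp (by rw [mk_OT]; exact (hreg k).ne_zero)).some,
        fun h => absurd h hA⟩
  choose ub hub using hub
  have hop : ∀ x y : Ω, ∃ W : Set Ω, #W ≤ η ∧
      (∀ β, x = a β → Order.cof (Iio β) ≤ η → ∀ z ∈ c β, a z ∈ W) ∧
      (∀ β γ, x = a β.1 → y = a γ.1 → b (kk β) (i₀ β γ) ∈ W) ∧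
      (∀ β i, x = a β.1 → y = b (kk β) i → a (e β i) ∈ W) ∧
      ∀ B α, x = d B α → ∀ k : B.1.1, b k (F B α k) ∈ W := fun x y => by
    refine ⟨((⋃ β : {β // x = a β ∧ Order.cof (Iio β) ≤ η}, (fun z : Iio β.1 => a z) '' c β) ∪
      range fun q : {q : Σ β : {β : OT δ // η < Order.cof (Iio β)}, Iio β.1 //
        x = a q.1.1 ∧ y = a q.2.1} => b (kk q.1.1) (i₀ q.1.1 q.1.2)) ∪
      ((range fun q : {q : Σ β : {β : OT δ // η < Order.cof (Iio β)}, OT (θ (kk β)) //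
        x = a q.1.1 ∧ y = b (kk q.1) q.2} => a (e q.1.1 q.1.2)) ∪
      ⋃ q : {q : Σ B : T, OT (pcof (fun k : B.1.1 => θ k) B.2.1) // x = d q.1 q.2},
        range fun k : q.1.1.1.1 => b k (F q.1.1 q.1.2 k)), ?_,
      fun β h3 h4 z hz => Or.inl (Or.inl (mem_iUnion.mpr ⟨⟨β, h3, h4⟩, z, hz, rfl⟩)),
      fun β γ h3 h4 => Or.inl (Or.inr ⟨⟨⟨β, γ⟩, h3, h4⟩, rfl⟩),
      fun β i h3 h4 => Or.inr (Or.inl ⟨⟨⟨β, i⟩, h3, h4⟩, rfl⟩),
      fun B α h3 k => Or.inr (Or.inr (mem_iUnion.mpr ⟨⟨⟨B, α⟩, h3⟩, k, rfl⟩))⟩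
    refine mk_union_le_of h0 (mk_union_le_of h0 (mk_iUnion_le_of h0 (mk_uniq_le h0 ?_) fun β =>
      mk_image_le.trans ((hc' _).le.trans β.2.2)) (mk_range_le.trans (mk_uniq_le h0 ?_)))
      (mk_union_le_of h0 (mk_range_le.trans (mk_uniq_le h0 ?_)) (mk_iUnion_le_of h0
        (mk_uniq_le h0 ?_) fun q => mk_range_le.trans (q.1.1.1.2.trans h0)))
    · exact fun i j hi hj => Sum.inl.inj (hi.1.symm.trans hj.1)
    · rintro ⟨β, γ⟩ ⟨β', γ'⟩ hi hj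
      obtain rfl : β = β' := Subtype.ext (Sum.inl.inj (hi.1.symm.trans hj.1))
      obtain rfl : γ = γ' := Subtype.ext (Sum.inl.inj (hi.2.symm.trans hj.2))
      rfl
    · rintro ⟨β, γ⟩ ⟨β', γ'⟩ hi hj
      obtain rfl : β = β' := Subtype.ext (Sum.inl.inj (hi.1.symm.trans hj.1))
      obtain rfl : γ = γ' := hb _ (hi.2.symm.trans hj.2)
      rfl
    · exact fun i j hi hj => Sum.inr.inj (Sum.inr.inj (hi.symm.trans hj))
  choose op hop0 hop1 hop2 hop3 hop4 using hop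
  let Φ : Set Ω → Set Ω := fun A => (⋃ x : A, ⋃ y : A, op x y) ∪
    ((range fun k => b k (ub k A)) ∪ range fun B => d B (idx B fun k => ub k A))
  have hΦ : ∀ A : Set Ω, #A < ℵ₁ → #(Φ A) < Order.succ η := fun A hA =>
    Order.lt_succ_iff.mpr (mk_union_le_of h0 (mk_iUnion_le_of h0 (hA.le.trans hκ) fun x =>
      mk_iUnion_le_of h0 (hA.le.trans hκ) fun y => hop0 x y) (mk_union_le_of h0
      (mk_range_le.trans hKη) (mk_range_le.trans hT)))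
  let Cl : Set Ω → Prop := fun S => #S ≤ η ∧ (∀ ξ, a (g₀ ξ) ∈ S) ∧ ∀ A ⊆ S, #A < ℵ₁ → Φ A ⊆ S
  have c0 : ∀ W : Set Ω, #W ≤ η → ∃ S, Cl S ∧ W ⊆ S := fun W hW => by
    obtain ⟨S, h3, h4, h5⟩ := hG.exists_closed Φ hΦ (W ∪ range (a ∘ g₀))
      (Order.lt_succ_iff.mpr (mk_union_le_of h0 hW
        (mk_range_le.trans ((mk_OT _).le.trans hcof))))
    exact ⟨S, ⟨Order.le_of_lt_succ h4, fun ξ => h3 (Or.inr ⟨ξ, rfl⟩), h5⟩, fun x hx => h3 (Or.inl hx)⟩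
  have c1 : ∀ S, Cl S → ∀ x ∈ S, ∀ y ∈ S, op x y ⊆ S := fun S hS x hx y hy z hz =>
    hS.2.2 {x, y} (insert_subset hx (singleton_subset_iff.mpr hy))
      ((toFinite _).lt_aleph0.trans hu)
      (Or.inl (mem_iUnion₂.mpr ⟨⟨x, by simp⟩, ⟨y, by simp⟩, hz⟩))
  have c2 : ∀ S, Cl S → ∀ k (u : ℕ → OT (θ k)), (∀ n, b k (u n) ∈ S) →
      ∃ v, b k v ∈ S ∧ (∀ n, u n < v) ∧ ∀ w, (∀ n, u n < w) → v ≤ w := fun S hS k u hu' => by
    have h3 : #(range fun n => b k (u n)) ≤ ℵ₀ := mk_range_le.trans mk_nat.le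
    obtain ⟨h4, h5⟩ := hub k _ (h3.trans h0)
    refine ⟨_, hS.2.2 _ (range_subset_iff.mpr hu') (h3.trans_lt hu) (Or.inr (Or.inl ⟨k, rfl⟩)),
      fun n => h4 _ ⟨n, rfl⟩, fun w hw => h5 w ?_⟩
    rintro j ⟨n, hn⟩
    exact hb k hn ▸ hw n
  have c3 : ∀ S, Cl S → ∀ k, ∀ i < ub k S, ∃ j, b k j ∈ S ∧ i < j ∧ j < ub k S :=
    fun S hS k i hi => by
    obtain ⟨h3, h4⟩ := hub k S hS.1
    have h5 : ¬ ∀ j, b k j ∈ S → j < i := fun h => absurd (h4 i h) (not_le.mpr hi)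
    push Not at h5
    obtain ⟨j, h5, h6⟩ := h5
    obtain ⟨v, h7, h8, -⟩ := c2 S hS k (fun _ => j) fun _ => h5
    exact ⟨v, h7, h6.trans_lt (h8 0), h3 v h7⟩
  have hw : ∀ k (ζ : OT (θ k)), ∃ W : Set Ω, #W ≤ η ∧ ∀ S, Cl S → ub k S = ζ →
      ∀ i < ζ, ∃ j, b k j ∈ S ∧ b k j ∈ W ∧ i ≤ j := fun k ζ => by
    by_cases h3 : ∃ S', Cl S' ∧ ub k S' = ζ
    · obtain ⟨S', hS', rfl⟩ := h3
      exact ⟨S', hS'.1, fun S hS hχ i hi => meet_cof (b k ⁻¹' S) (b k ⁻¹' S') (ub k S')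
        (hχ ▸ c3 S hS _) (c3 S' hS' _) (c2 S hS _) (c2 S' hS' _) hi⟩
    · exact ⟨∅, by simp, fun S h4 h5 => absurd ⟨S, h4, h5⟩ h3⟩
  choose w hw0 hw using hw
  have c4 : ∀ S, Cl S → ∀ γ, a γ ∈ S → ∀ β, γ ≤ β → a β ∈ S → ∃ A : Set K, A.Finite ∧
      ∀ S', Cl S' → (∀ k ∈ A, w k (ub k S) ⊆ S') → a β ∈ S' → a γ ∈ S' :=
    fun S hS γ hγ β => by
    induction β using WellFoundedLT.induction with
    | ind β ih =>
    intro h3 h4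
    rcases h3.lt_or_eq with h7 | rfl
    swap
    · exact ⟨∅, finite_empty, fun _ _ _ h => h⟩
    rcases lt_or_ge η (Order.cof (Iio β)) with h8 | h8
    · have h9 := c1 S hS _ h4 _ hγ (hop2 _ _ ⟨β, h8⟩ ⟨γ, h7⟩ rfl rfl)
      obtain ⟨j, h10, h11, h12⟩ := hw _ _ S hS rfl _ ((hub _ S hS.1).1 _ h9)
      obtain ⟨A, h13, h14⟩ := ih (e ⟨β, h8⟩ j) (e ⟨β, h8⟩ j).2 (hi₀ ⟨β, h8⟩ ⟨γ, h7⟩ j h12)
        (c1 S hS _ h4 _ h10 (hop3 _ _ _ _ rfl rfl))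
      exact ⟨insert (kk ⟨β, h8⟩) A, h13.insert _, fun S' hS' h15 h16 => h14 S' hS'
        (fun k hk => h15 k (Or.inr hk))
        (c1 S' hS' _ h16 _ (h15 _ (Or.inl rfl) h11) (hop3 _ _ _ _ rfl rfl))⟩
    · obtain ⟨z, h9, h10⟩ := hc β ⟨γ, h7⟩
      obtain ⟨A, h13, h14⟩ := ih z z.2 h10 (c1 S hS _ h4 _ h4 (hop1 _ _ β rfl h8 z h9))
      exact ⟨A, h13, fun S' hS' h15 h16 => h14 S' hS' h15
        (c1 S' hS' _ h16 _ h16 (hop1 _ _ β rfl h8 z h9))⟩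
  have c5 : ∀ A : C, #{y : ∀ k : A.1, OT (θ k) | ∃ S, Cl S ∧ (fun k : A.1 => ub k S) = y} < ρ := by
    refine fun A => (h A).count hρ hηρ (h2 A.1 A.2) (fun B => F ⟨A, B⟩) _ ?_
    rintro _ ⟨S, hS, rfl⟩ B
    have h3 : ∃ o : Option (OT (pcof (fun k : A.1 => θ k) B.1)),
        (∀ α, d ⟨A, B⟩ α ∈ S → ∀ γ ∈ o, α < γ) ∧
        ∀ α, (∀ γ ∈ o, α < γ) → ∃ α', d ⟨A, B⟩ α' ∈ S ∧ α ≤ α' := by
      by_cases h3 : {γ | ∀ α, d ⟨A, B⟩ α ∈ S → α < γ}.Nonempty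
      · obtain ⟨γ, h4, h5⟩ := wellFounded_lt.has_min _ h3
        refine ⟨some γ, fun α hα γ' h => Option.some.inj h ▸ h4 α hα, fun α hα => ?_⟩
        by_contra h6
        push Not at h6
        exact h5 α h6 (hα γ rfl)
      · refine ⟨none, by simp, fun α _ => ?_⟩
        by_contra h6
        push Not at h6
        exact h3 ⟨α, h6⟩
    obtain ⟨o, h4, h5⟩ := h3
    refine ⟨o, fun α hα => ?_, fun u hu' => ?_⟩
    · obtain ⟨α', h6, h7⟩ := h5 α hα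
      exact (h A).trans B.2 (hF1 ⟨A, B⟩ _ _ h7) ((h A).leOn B.2 fun k _ =>
        ((hub k S hS.1).1 _ (c1 S hS _ h6 _ h6 (hop4 _ _ ⟨A, B⟩ α' rfl k))).le)
    · choose y hy using fun k : {k : A.1 // u k < ub k S} => c3 S hS k _ k.2
      have h6 : #(range fun k : {k : A.1 // u k < ub k S} => b k (y k)) < ℵ₁ :=
        ((mk_range_le.trans (mk_subtype_le _)).trans A.2).trans_lt hu
      have h7 := hS.2.2 _ (range_subset_iff.mpr fun k => (hy k).1) h6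
        (Or.inr (Or.inr ⟨⟨A, B⟩, rfl⟩))
      refine (pcof_mono fun k hk => ?_).trans_lt
        ((h A).trans B.2 (hidx ⟨A, B⟩ _) (hu' _ (h4 _ h7)))
      exact ⟨hk.1, (hy ⟨k, hk.2⟩).2.1.trans ((hub k _ (h6.le.trans hκ)).1 _ ⟨⟨k, hk.2⟩, rfl⟩)⟩
  choose S hS hS' using fun (A : C) (y : ∀ k : A.1, OT (θ k)) => c0 (⋃ k : A.1, w k (y k))
    (mk_iUnion_le_of h0 (A.2.trans h0) fun k => hw0 _ _)
  have c6 : (univ : Set (ℕ → OT δ)) ⊆ ⋃ A : C,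
      ⋃ y : {y : ∀ k : A.1, OT (θ k) | ∃ S, Cl S ∧ (fun k : A.1 => ub k S) = y},
        range fun (f : ℕ → a ⁻¹' S A y) n => (f n).1 := fun f _ => by
    obtain ⟨S₁, h3, h4⟩ := c0 (range (a ∘ f)) (mk_range_le.trans (mk_nat.le.trans h0))
    choose ξ hξ using fun n => hg₀ (f n)
    choose A h5 h6 using fun n => c4 S₁ h3 (f n) (h4 ⟨n, rfl⟩) _ (hξ n) (h3.2.1 _)
    let A' : C := ⟨⋃ n, A n, mk_iUnion_le_of le_rfl mk_nat.le fun n => (h5 n).lt_aleph0.le⟩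
    exact mem_iUnion₂.mpr ⟨A', ⟨_, S₁, h3, rfl⟩, fun n => ⟨f n, h6 n _ (hS _ _)
      (fun k hk => (subset_iUnion (fun k : A'.1 => w k (ub k S₁))
        ⟨k, mem_iUnion.mpr ⟨n, hk⟩⟩).trans (hS' A' _)) ((hS _ _).2.1 _)⟩, rfl⟩
  have c7 := (mk_le_mk_of_subset c6).trans_lt
    ((card_iUnion_lt_iff_forall_of_isRegular hρ (hC.trans_lt hηρ)).mpr fun A =>
      (card_iUnion_lt_iff_forall_of_isRegular hρ (c5 A)).mpr fun y => mk_range_le.trans_lt (by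
      rw [mk_pi, prod_const', mk_nat]
      exact (power_le_power_right ((mk_preimage_of_injective _ _ Sum.inl_injective).trans
        (hS A y).1)).trans_lt h1))
  simpa using c7

/-- off the fixed points the countable power is reached by a product of regular cardinals -/
theorem pp_of_nonfix {κ δ ρ : Cardinal.{0}} (hB : Big κ δ) (h2 : δ.ord.cof ≤ ℵ₀)
    (h3 : δ ≠ ℵ_ δ.ord) (hρ : ρ.IsRegular) (h4 : δ < ρ) (h5 : ρ ≤ δ ^ ℵ₀) : PP ℵ₀ δ ρ := by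
  by_contra hN
  unfold PP at hN
  push Not at hN
  have h0 := hB.aleph0_lt
  obtain ⟨ξ, hξ⟩ := mem_range_aleph_iff.mpr h0.le
  have h6 : ξ.card < δ := lt_ord.mp (not_le.mp fun h => h3 (le_antisymm
    (by simpa using Ordinal.card_le_aleph δ.ord) ((aleph_le_aleph.mpr h).trans_eq hξ)))
  have h7 : max ξ.card ℵ₀ ^ ℵ₀ < δ := hB.power_lt (max_lt h6 h0) hB.unc
  let θ₀ : ξ.ToType → Cardinal.{0} := fun k => ℵ_ (Ordinal.ToType.mk.symm k).1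
  have hG := exists_good (isRegular_succ le_rfl) (Order.lt_succ ℵ₀)
    ((natCast_lt_aleph0 (n := 2)).le.trans (le_max_right ξ.card ℵ₀))
  rw [powerlt_succ (aleph0_pos.trans_le (le_max_right _ _)).ne', succ_aleph0] at hG
  refine absurd h5 (not_le.mpr (power_lt_of_pcof
    (θ := fun k : {k // (θ₀ k).IsRegular ∧ max ξ.card ℵ₀ ^ ℵ₀ < θ₀ k} => θ₀ k)
    (fun k => k.2.1) (fun k => k.2.2) hG
    (power_le_power_right (max_le_max ((mk_subtype_le _).trans (mk_toType ξ).le) le_rfl))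
    (fun c h9 h10 h11 => ?_) (h2.trans ((le_max_right _ _).trans (self_le_power _ one_le_aleph0)))
    hρ ((hB.power_lt h7 hB.unc).trans h4) fun A hA => ?_))
  · obtain ⟨ζ, rfl⟩ := mem_range_aleph_iff.mpr h10.aleph0_le
    have h9' : ζ < ξ := aleph_lt_aleph.mp (h9.trans_eq hξ.symm)
    have h12 : θ₀ (Ordinal.ToType.mk ⟨ζ, h9'⟩) = ℵ_ ζ := by simp [θ₀]
    exact ⟨⟨Ordinal.ToType.mk ⟨ζ, h9'⟩, by rwa [h12], by rwa [h12]⟩, h12⟩
  · obtain ⟨ι, hι, Φ, hΦ⟩ := hN A (fun k => θ₀ k.1) hA fun k => ⟨k.1.2.1,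
      (aleph_lt_aleph.mpr (Ordinal.ToType.mk.symm k.1.1).2).trans_eq hξ⟩
    exact (pcof_le Φ fun g => (hΦ g).imp fun t ht k _ => ht k).trans_lt hι

end Pool.Agent.Lib.MP_4a9e55_an
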