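import Pool.Agent.Lib.MP_4a9e55_an.T8
import Pool.Agent.Lib.MP_4a9e55_an.Defs2

set_option autoImplicit false

open Cardinal Set Filter
open scoped ENNReal

namespace Pool.Agent.Lib.MP_4a9e55_an

variable {Γ : Type} {F : Filter Γ} {κ τ β : Cardinal.{0}}
variable {X : Type} [NormedAddCommGroup X] [NormedSpace ℝ X]

theorem PiecesOK.of_le {K J : Type} (h : PiecesOK F β K) (hJ : #K ≤ #J) : PiecesOK F β J := by
  classical
  obtain ⟨e⟩ := (Cardinal.le_def K J).mp hJ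
  intro lv hlv U hU D hm hD
  obtain ⟨E, h1, h2⟩ := h lv hlv (fun k => U (e k)) (fun k => hU _) (fun k => D (e k))
    (fun k => hm _) fun k => hD _
  choose E' h3 h4 h5 using fun j ξ => hD j (lv ξ) (hlv ξ) (U j) subset_rfl (hU j)
  refine ⟨fun j ξ => if h : ∃ k, e k = j then E h.choose ξ else E' j ξ, fun j ξ => ?_,
    fun T hT => ?_⟩
  · beta_reduce
    split_ifs with h
    · have := h1 h.choose ξ
      rwa [h.choose_spec] at this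
    · exact ⟨h3 j ξ, h5 j ξ⟩
  · obtain ⟨k, hk⟩ := h2 T hT
    have h : ∃ k', e k' = e k := ⟨k, rfl⟩
    refine ⟨e k, ?_⟩
    simpa only [dif_pos h, e.injective h.choose_spec] using hk

/-- systems of conditions on the pieces and a recursion that keeps large sets of pieces -/
theorem pieces_gen {K : Type} (Λ : K → Type) (R : ∀ j, Λ j → Λ j → Prop) (L : Set K → Prop)
    (hL0 : L univ) (hL1 : ∀ A, L A → A.Nonempty) (hL2 : ∀ A A', L A → A ⊆ A' → L A')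
    (hβ : ℵ₀ < β.ord.cof)
    (hstep : ∀ ι : Type, #ι < β.ord.cof → ∀ (A : ι → Set K) (g : ι → ∀ j, Λ j),
      ∃ f : ∀ j, Λ j, ∀ t, L (A t) → L {j | j ∈ A t ∧ R j (g t j) (f j)})
    (hsys : ∀ (j : K) (U : Set Γ) (D : Cardinal.{0} → Set Γ → Prop), Pos F U →
      (∀ τ τ' c, D τ c → τ' ≤ τ → D τ' c) →
      (∀ τ < β, ∀ A ⊆ U, Pos F A → ∃ E ⊆ A, Pos F E ∧ D τ E) →
      ∃ p, Pos F p ∧ ∀ r < β, ∃ c : Λ j → Set Γ, (∀ i, c i ⊆ U ∧ D r (c i)) ∧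
        ∀ V ⊆ p, ∃ i₀, Pos F V → ∀ i, R j i₀ i → Pos F (V ∩ c i)) : PiecesOK F β K := by
  classical
  intro lv hlv U hU D hm hD
  choose p hp1 hp2 using fun j => hsys j (U j) (D j) (hU j) (hm j) (hD j)
  choose c hc1 hc2 using fun j ξ => hp2 j (lv ξ) (hlv ξ)
  choose i₀ hi₀ using hc2
  obtain ⟨f, hf⟩ := exists_rec (Θ := OT β.ord.cof) (α := ∀ j, Λ j)
    (fun ξ f a => ∀ s : Finset (Iio ξ), L {j | Pos F (p j ∩ ⋂ η ∈ s, c j η (f η j))} →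
      L {j | Pos F ((p j ∩ ⋂ η ∈ s, c j η (f η j)) ∩ c j ξ (a j))}) fun ξ f => by
    obtain ⟨a, ha⟩ := hstep (Finset (Iio ξ)) (mk_finset_lt hβ (mk_Iio_OT ξ))
      (fun s => {j | Pos F (p j ∩ ⋂ η ∈ s, c j η (f η j))})
      fun s j => i₀ j ξ (p j ∩ ⋂ η ∈ s, c j η (f η j)) inter_subset_left
    exact ⟨a, fun s hs => hL2 _ _ (ha s hs) fun j hj => hi₀ j ξ _ _ hj.1 _ hj.2⟩
  refine ⟨fun j ξ => c j ξ (f ξ j), fun j ξ => hc1 j ξ _, fun T _ => ?_⟩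
  have key : ∀ s : Finset (OT β.ord.cof), L {j | Pos F (p j ∩ ⋂ ξ ∈ s, c j ξ (f ξ j))} :=
    fun s => by
    induction s using Finset.induction_on_max with
    | empty => exact hL2 _ _ hL0 fun j _ => by simpa using hp1 j
    | insert m s hm ih =>
      let u : Finset (Iio m) := s.attach.image fun η => ⟨η.1, hm _ η.2⟩
      have e : ∀ j, (⋂ η ∈ u, c j η (f η j)) = ⋂ ξ ∈ s, c j ξ (f ξ j) := fun j => by
        ext t
        simp only [u, mem_iInter, Finset.mem_image, Finset.mem_attach, true_and]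
        exact ⟨fun h x hx => h _ ⟨⟨x, hx⟩, rfl⟩, by rintro h _ ⟨x, rfl⟩; exact h x.1 x.2⟩
      have h5 := hf m u
      simp only [e] at h5
      refine hL2 _ _ (h5 ih) fun j hj => Pos.mono hj fun t ht => ⟨ht.1.1, ?_⟩
      rw [Finset.set_biInter_insert]
      exact ⟨ht.2, ht.1.2⟩
  obtain ⟨j, hj⟩ := hL1 _ (key T)
  exact ⟨j, Pos.mono hj inter_subset_right⟩

/-- a chain of conditions of a dense set, every condition is compatible with a tail -/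
theorem mono_sys (hG : Good κ τ) (hτ : τ ≤ β.ord.cof) (hβ : ℵ₀ < β) (hC : CC F κ)
    {θ : Cardinal.{0}} (hθ : θ.IsRegular) (h1 : κ ≤ θ) (h2 : θ < τ)
    (D : Cardinal.{0} → Set Γ → Prop) (hm : ∀ τ τ' c, D τ c → τ' ≤ τ → D τ' c)
    (hD : ∀ ρ < β, ∃ E, Pos F E ∧ D ρ E) :
    ∃ p, Pos F p ∧ ∀ r < β, ∃ c : OT θ → Set Γ, (∀ i, D r (c i)) ∧
      ∀ V ⊆ p, ∃ i₀, Pos F V → ∀ i, i₀ ≤ i → Pos F (V ∩ c i) := by
  classical
  obtain ⟨p, hp1, hp2⟩ := meet hG hτ hβ hC D hm hD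
  refine ⟨p, hp1, fun r hr => ?_⟩
  have hτ0 := hG.reg.aleph0_le
  have hv : ∀ A : Set (Set Γ), ∃ U, ∀ V ⊆ p, Pos F V → (∀ a ∈ A, ¬ Pos F (V ∩ a)) →
      U ⊆ p ∧ Pos F U ∧ ∀ a ∈ A, ¬ Pos F (U ∩ a) := fun A => by
    by_cases h : ∃ V ⊆ p, Pos F V ∧ ∀ a ∈ A, ¬ Pos F (V ∩ a)
    · obtain ⟨V, h⟩ := h
      exact ⟨V, fun _ _ _ _ => h⟩
    · exact ⟨∅, fun V h1 h2 h3 => absurd ⟨V, h1, h2, h3⟩ h⟩
  choose v hv using hv
  obtain ⟨S, hS⟩ := exists_rec (Θ := OT θ) (α := Set (Set Γ) × Set Γ)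
    (fun i f a => (∀ k, #(f k).1 < τ) → #a.1 < τ ∧ D r a.2 ∧
      (∀ k, ∀ U ∈ (f k).1, U ∩ a.2 ∈ a.1 ∧ (Pos F U → U ⊆ p → Pos F (U ∩ a.2))) ∧
      ∀ A ⊆ ⋃ k, (f k).1, #A < κ → v A ∈ a.1) fun i f => by
    by_cases h : ∀ k, #(f k).1 < τ
    swap
    · exact ⟨(∅, ∅), fun h' => absurd h' h⟩
    have hW : #(⋃ k, (f k).1) < τ :=
      (card_iUnion_lt_iff_forall_of_isRegular hG.reg ((mk_Iio_OT i).trans h2)).mpr h
    obtain ⟨E, h3, h4⟩ := hp2 r hr {U | U ∈ ⋃ k, (f k).1 ∧ Pos F U}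
      ((mk_le_mk_of_subset fun U hU => hU.1).trans_lt hW) fun U hU => hU.2
    refine ⟨((fun U => U ∩ E) '' (⋃ k, (f k).1) ∪
      v '' {A | A ⊆ ⋃ k, (f k).1 ∧ #A < κ}, E), fun _ => ⟨?_, h3, fun k U hU => ⟨?_, ?_⟩, ?_⟩⟩
    · exact (mk_union_le _ _).trans_lt (add_lt_of_lt hτ0 (mk_image_le.trans_lt hW)
        (mk_image_le.trans_lt (hG.mk_small hW)))
    · exact Or.inl ⟨U, mem_iUnion.mpr ⟨k, hU⟩, rfl⟩
    · exact fun h5 h6 => h4 U ⟨mem_iUnion.mpr ⟨k, hU⟩, h5⟩ h6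
    · exact fun A h5 h6 => Or.inr ⟨A, ⟨h5, h6⟩, rfl⟩
  have hsm : ∀ i, #(S i).1 < τ := fun i => by
    induction i using WellFoundedLT.induction with
    | ind i ih => exact (hS i fun k => ih k k.2).1
  have hS' := fun i => (hS i fun k => hsm k).2
  refine ⟨fun i => (S i).2, fun i => (hS' i).1, fun V hV => ?_⟩
  obtain ⟨𝒜, h3, h4, h5⟩ := exists_maxAC (F := F)
    {U | (∃ i, U ∈ (S i).1) ∧ Pos F U ∧ ¬ Pos F (U ∩ V)} fun U hU => hU.2.1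
  choose k hk using fun a : 𝒜 => (h3 a.2).1
  obtain ⟨i₁, h6⟩ := exists_ub_fun k (by rw [hθ.cof_ord]; exact (hC 𝒜 h4).trans_le h1)
  obtain ⟨i₀, h7⟩ := exists_ub_fun (fun _ : Unit => i₁)
    (by rw [hθ.cof_ord]; simpa using one_lt_aleph0.trans_le hθ.aleph0_le)
  refine ⟨i₀, fun hp i hi => ?_⟩
  have h8 := (hS' i₁).2.2 𝒜 (fun a ha => mem_iUnion.mpr ⟨⟨k ⟨a, ha⟩, h6 _⟩, hk ⟨a, ha⟩⟩) (hC 𝒜 h4)
  obtain ⟨h9, h10, h11⟩ := hv 𝒜 V hV hp fun a ha => by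
    rw [inter_comm]; exact (h3 ha).2.2
  obtain ⟨h12, h13⟩ := (hS' i).2.1 ⟨i₁, (h7 ()).trans_le hi⟩ _ h8
  by_contra hc
  obtain ⟨a, ha, h14⟩ := h5 _ ⟨⟨i, h12⟩, h13 h10 h9, fun h => hc (h.mono fun t ht => ⟨ht.2, ht.1.2⟩)⟩
  exact h11 a ha (h14.mono fun t ht => ⟨ht.1.1, ht.2⟩)

/-- a product of regular cardinals of large cofinality -/
theorem piecesOK_pcf {δ : Cardinal.{0}} (hB : Big κ δ) (hδ : δ ≤ β.ord.cof) (hβ : ℵ₀ < β)
    (hC : CC F κ) {K : Type} (θ : K → Cardinal.{0}) (h1 : ∀ k, (θ k).IsRegular)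
    (h2 : ∀ k, θ k < δ) (h3 : ∀ k, κ ≤ θ k) (h4 : ∀ k, 2 ^ #K < θ k)
    (h5 : ∀ ι : Type, #ι < β.ord.cof → ∀ Φ : ι → ∀ k, OT (θ k),
      ∃ g : ∀ k, OT (θ k), ∀ t, ∃ k, Φ t k < g k) : PiecesOK F β K := by
  have h0 : ℵ₀ < β.ord.cof := hB.aleph0_lt.trans_le hδ
  have hne : ∀ k, Nonempty (OT (θ k)) := fun k =>
    mk_ne_zero_iff.mp (by rw [mk_OT]; exact (h1 k).ne_zero)
  refine pieces_gen (fun k => OT (θ k)) (fun _ => (· ≤ ·))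
    (fun A => ∃ ι : Type, #ι < β.ord.cof ∧ ∃ Φ : ι → ∀ k, OT (θ k),
      ∀ g : ∀ k, OT (θ k), ∃ t, ∀ k ∉ A, g k ≤ Φ t k)
    ⟨Unit, by simpa using one_lt_aleph0.trans h0, fun _ _ => Classical.arbitrary _,
      fun _ => ⟨(), fun k hk => absurd trivial hk⟩⟩
    (fun A ⟨ι, h6, Φ, h7⟩ => ?_)
    (fun A A' ⟨ι, h6, Φ, h7⟩ h8 => ⟨ι, h6, Φ, fun g => (h7 g).imp fun t ht k hk =>
      ht k fun h => hk (h8 h)⟩) h0 (fun ι hι A g => ?_) fun j U D hU hm hD => ?_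
  · obtain ⟨g, hg⟩ := h5 ι h6 Φ
    obtain ⟨t, ht⟩ := h7 g
    obtain ⟨k, hk⟩ := hg t
    exact ⟨k, by_contra fun h => absurd (ht k h) (not_le.mpr hk)⟩
  · have hb : ∀ B : Set K, ∃ b : ∀ k, OT (θ k),
        (∀ g' : ∀ k, OT (θ k), ∃ t, ∀ k ∉ B, g' k ≤ g t k) ∨ ∀ t, ∃ k ∉ B, g t k < b k :=
      fun B => by
      by_cases h : ∀ g' : ∀ k, OT (θ k), ∃ t, ∀ k ∉ B, g' k ≤ g t k
      · exact ⟨fun _ => Classical.arbitrary _, Or.inl h⟩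
      · push Not at h
        exact h.imp fun _ => Or.inr
    choose b hb using hb
    choose f hf using fun k => exists_ub_fun (fun B => b B k)
      (by rw [(h1 k).cof_ord, mk_set]; exact h4 k)
    refine ⟨f, fun t ⟨ι', h6, Φ, h7⟩ => ?_⟩
    rcases hb {k | g t k ≤ f k} with h | h
    · refine ⟨ι' × ι, by simpa using mul_lt_of_lt h0.le h6 hι,
        fun q k => max (Φ q.1 k) (g q.2 k), fun g' => ?_⟩
      obtain ⟨t₁, h8⟩ := h7 g'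
      obtain ⟨t₂, h9⟩ := h g'
      refine ⟨(t₁, t₂), fun k hk => ?_⟩
      by_cases h10 : k ∈ A t
      · exact (h9 k fun h11 => hk ⟨h10, h11⟩).trans (le_max_right _ _)
      · exact (h8 k h10).trans (le_max_left _ _)
    · obtain ⟨k, h8, h9⟩ := h t
      exact absurd (h9.trans (hf k _)).le h8
  · obtain ⟨τ, h6, h7, h8⟩ := hB.exists_good (h2 j)
    exact mono_sys h8 (h6.le.trans hδ) hβ hC (h1 j) (h3 j) h7 (fun r E => E ⊆ U ∧ D r E)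
      (fun _ _ _ h h' => ⟨h.1, hm _ _ _ h.2 h'⟩) fun r hr => by
        obtain ⟨E, h9, h10, h11⟩ := hD r hr U subset_rfl hU
        exact ⟨E, h10, h9, h11⟩

/-- antichains are guessed piece by piece -/
theorem piecesOK_hit {ν : Cardinal.{0}} (hν : ν.IsRegular) (h1 : ν < β.ord.cof)
    (hC : CC F (Order.succ ν)) (hH : Hit ν β.ord.cof) : PiecesOK F β (OT ν) := by
  have h0 := hν.aleph0_le
  have hne : Nonempty (OT ν) := mk_ne_zero_iff.mp (by rw [mk_OT]; exact hν.ne_zero)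
  refine pieces_gen (fun _ => OT ν) (fun _ => (· = ·)) (fun A => ν ≤ #A) (by simp)
    (fun A h => nonempty_coe_sort.mp (mk_ne_zero_iff.mp (hν.pos.trans_le h).ne'))
    (fun A A' h h' => h.trans (mk_le_mk_of_subset h')) (h0.trans_lt h1) (fun ι hι A g => ?_)
    fun j U D hU hm hD => ⟨U, hU, fun r hr => ?_⟩
  · obtain ⟨f, hf⟩ := hH ({t // ν ≤ #(A t)} × OT ν)
      (by simpa using mul_lt_of_lt (h0.trans h1.le) ((mk_subtype_le _).trans_lt hι) h1)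
      (fun q => A q.1 \ Iio q.2) (fun q => g q.1) fun q =>
        le_antisymm ((mk_set_le _).trans (mk_OT ν).le) (not_lt.mp fun h =>
          absurd (q.1.2.trans (le_mk_diff_add_mk _ _))
            (not_le.mpr (add_lt_of_lt h0 h (mk_Iio_OT q.2))))
    refine ⟨f, fun t ht => not_lt.mp fun h => ?_⟩
    obtain ⟨x, hx⟩ := exists_ub_OT (h.trans_eq hν.cof_ord.symm)
    obtain ⟨j, h2, h3⟩ := hf (⟨t, ht⟩, x)
    exact h2.2 (hx j ⟨h2.1, h3.symm⟩)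
  · obtain ⟨𝒜, h2, h3, h4⟩ := exists_maxAC (F := F) {E | E ⊆ U ∧ Pos F E ∧ D r E}
      fun E hE => hE.2.1
    have h5 : ∀ V ⊆ U, Pos F V → ∃ a : 𝒜, Pos F (V ∩ a) := fun V hV hp => by
      obtain ⟨E, h5, h6, h7⟩ := hD r hr V hV hp
      obtain ⟨a, ha, h8⟩ := h4 E ⟨h5.trans hV, h6, h7⟩
      exact ⟨⟨a, ha⟩, h8.mono (inter_subset_inter_left _ h5)⟩
    have : Nonempty 𝒜 := (h5 U subset_rfl hU).nonempty
    obtain ⟨e⟩ := (Cardinal.le_def 𝒜 (OT ν)).mp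
      ((Order.le_of_lt_succ (hC 𝒜 h3)).trans (mk_OT ν).ge)
    refine ⟨fun i => (Function.invFun e i).1, fun i =>
      ⟨(h2 (Function.invFun e i).2).1, (h2 (Function.invFun e i).2).2.2⟩, fun V hV => ?_⟩
    by_cases hp : Pos F V
    · obtain ⟨a, ha⟩ := h5 V hV hp
      refine ⟨e a, fun _ i hi => ?_⟩
      subst hi
      simpa only [Function.leftInverse_invFun e.injective a] using ha
    · exact ⟨Classical.arbitrary _, fun h => absurd h hp⟩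

/-- fewer than `κ` pieces on which the dense sets can be met -/
theorem t10 [CompleteSpace X] (hX : Inj X) (hB : Big κ β) (hκ : κ ≤ β.ord.cof)
    {ν : Cardinal.{0}} (hν : ν.IsRegular) (h1 : ℵ₀ < ν) (h2 : ν < κ) {K : Type} (hK' : #K ≤ ν)
    (hp : PiecesOK F β K) (hC : CC F κ)
    (i : X →L[ℝ] B Γ) (hi : ∀ x, ‖i x‖ = ‖x‖) (P : B Γ →L[ℝ] X) (hP : ∀ x, P (i x) = x)
    (hK : #(Ker F i) < β) :
    Emb (L1 (OT β)) X ∨ ∃ F' : Filter Γ, ∃ μ < κ, CC F' μ ∧ #(Ker F' i) < β := by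
  by_cases hA : CC (smallF P β hB.aleph0_lt.le) ν
  · exact Or.inr ⟨_, _, h2, hA, ker_smallF hB hκ hC i hi P hP hK⟩
  left
  unfold CC at hA
  push Not at hA
  obtain ⟨𝒜, h𝒜, hc⟩ := hA
  obtain ⟨V, hV⟩ := tri_large hB hκ P h2.le h𝒜 hc
  exact t6tri hX (by rwa [hν.cof_ord]) hB hκ hC i hi P hK V hV fun J hJ =>
    hp.of_le (hK'.trans hJ)

end Pool.Agent.Lib.MP_4a9e55_an
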