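import Pool.Agent.Lib.MP_4a9e55_an.Main5
import Pool.Agent.Lib.MP_4a9e55_an.T10
import Pool.Agent.Lib.MP_4a9e55_an.Pcf3

set_option autoImplicit false

open Cardinal Set Filter
open scoped ENNReal

namespace Pool.Agent.Lib.MP_4a9e55_an

variable {Γ : Type} {κ β γ : Cardinal.{0}}
variable {X : Type} [NormedAddCommGroup X] [NormedSpace ℝ X]

/-- the condition on a critical `κ` below the cofinality `ρ` -/
def Cond (κ ρ : Cardinal.{0}) : Prop :=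
  ((∀ σ < κ, 2 ^ σ < ρ) ∧ ∀ δ : Cardinal.{0}, δ = ℵ_ δ.ord → δ.ord.cof = ℵ₀ → Order.succ δ < ρ →
    ρ ≤ δ ^ ℵ₀ → ∃ ν < κ, ν.IsRegular ∧ PP ν δ ρ) ∨
  ∃ ν : Cardinal.{0}, ν.IsRegular ∧ κ = Order.succ ν ∧ Hit ν ρ

theorem gap_step [CompleteSpace X] (hX : Inj X) (hB : Big κ β) (h1 : ℵ₁ < κ)
    (hb : κ < β.ord.cof) (H : Cond κ β.ord.cof) {F : Filter Γ} (hC : CC F κ)
    (i : X →L[ℝ] B Γ) (hi : ∀ x, ‖i x‖ = ‖x‖) (P : B Γ →L[ℝ] X) (hP : ∀ x, P (i x) = x)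
    (hK : #(Ker F i) < β) (hγ : β ≤ #X) :
    Emb (L1 (OT β)) X ∨ ∃ F' : Filter Γ, ∃ μ < κ, CC F' μ ∧ #(Ker F' i) < β := by
  have hκ := hB.regκ
  have hu := hB.unc
  have hr := isRegular_cof_ord hB.aleph0_lt.le
  rcases H with ⟨ha, H⟩ | ⟨ν, h2, rfl, h3⟩
  swap
  · exact t10 hX hB hb.le h2 (aleph0_lt_aleph_one.trans_le (Order.le_of_lt_succ h1))
      (Order.lt_succ ν) (mk_OT ν).le
      (piecesOK_hit h2 ((Order.lt_succ ν).trans hb) hC h3) hC i hi P hP hK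
  by_cases hcl : ∀ δ < β.ord.cof, ∀ σ < κ, δ ^ σ < β.ord.cof
  · exact Or.inl (t5 hB ⟨hκ, hu, hr, hb, fun δ hδ =>
      powerlt_lt_of_lt_cof (by rwa [hr.cof_ord]) (hcl δ hδ)⟩ hC i hi P hP hK hγ)
  push Not at hcl
  obtain ⟨δ₀, h4, h5⟩ := hcl
  obtain ⟨δ, ⟨σ, hσ, hδσ⟩, hmin⟩ := wellFounded_lt.has_min {δ | ∃ σ < κ, β.ord.cof ≤ δ ^ σ} ⟨δ₀, h5⟩
  have h6 : δ < β.ord.cof := (not_lt.mp (hmin δ₀ h5)).trans_lt h4
  have hpow : ∀ g < δ, ∀ σ' < κ, g ^ σ' < δ := fun g hg σ' hσ' => not_le.mp fun h => by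
    have := hδσ.trans (power_le_power_right h)
    rw [← power_mul] at this
    exact hmin g ⟨_, mul_lt_of_lt hu.le hσ' hσ, this⟩ hg
  have h7 : 2 < δ := not_le.mp fun h =>
    absurd (hδσ.trans (power_le_power_right h)) (not_le.mpr (ha σ hσ))
  have h0 : ℵ₀ ≤ δ := (cantor _).le.trans (hpow 2 h7 _ hu).le
  have h8 : κ ≤ δ := (le_powerlt_exp le_rfl).trans (powerlt_le.mpr fun σ' h => (hpow 2 h7 σ' h).le)
  have h10 : δ.ord.cof < κ := not_le.mp fun h10 => absurd (hδσ.trans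
    (power_le_self_of_cof h0 (hσ.trans_le h10) fun g hg => (hpow g hg σ hσ).le)) (not_le.mpr h6)
  have h13 : ∀ g < δ, g ^< κ < δ := fun g hg => (powerlt_mono (le_max_left g 2)).trans_lt
    (powerlt_lt_of_cof_lt hκ h0 h8 h10 (two_pos.trans_le (le_max_right _ _)).ne'
      (hpow _ (max_lt hg h7)))
  have hB' : Big κ δ := ⟨hκ, hu, (le_powerlt_exp le_rfl).trans_lt (h13 2 h7), h13, h10.trans_le h8⟩
  have h14 : β.ord.cof ≤ δ ^ δ.ord.cof :=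
    hδσ.trans (power_le_power_cof h0 fun g hg => (hpow g hg σ hσ).le)
  rcases (Order.succ_le_of_lt h6).lt_or_eq with h15 | h15
  swap
  · exact t8 hX hB hB' h15.symm h10 h1 hC i hi P hP hK
  have h16 : ∃ ν < κ, ν.IsRegular ∧ PP ν δ β.ord.cof := by
    rcases (isRegular_cof_ord h0).aleph0_le.lt_or_eq with h | h
    · exact ⟨_, h10, isRegular_cof_ord h0, pp_of_cof hB' h h10 hr h6 h14⟩
    rw [← h] at h14
    by_cases h17 : δ = ℵ_ δ.ord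
    · exact H δ h17 h.symm h15 h14
    · exact ⟨_, hu, isRegular_aleph0, pp_of_nonfix hB' h.ge h17 hr h6 h14⟩
  obtain ⟨ν, h17, h18, h19⟩ := h16
  obtain ⟨K, θ, g1, g2, g3, g4, g5, g6⟩ := h19.large hB' h17 h6.le
  refine t10 hX hB hb.le (ν := max ν ℵ₁) ?_ (aleph0_lt_aleph_one.trans_le (le_max_right _ _))
    (max_lt h17 h1) (g1.trans (le_max_left _ _))
    (piecesOK_pcf hB' h6.le hB.aleph0_lt hC θ g2 g3 g4 g5 g6) hC i hi P hP hK
  rcases le_total ν ℵ₁ with h | h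
  · rw [max_eq_right h]; exact isRegular_aleph_one
  · rwa [max_eq_left h]

/-- the critical chain conditions up to `κ` can be handled for the dimension `γ` -/
def Crit3 (κ γ : Cardinal.{0}) : Prop :=
  ∀ κ' ≤ κ, κ'.IsRegular → ℵ₁ < κ' → κ' < γ.ord.cof → (∀ δ < γ, ∀ σ < κ', δ ^ σ < γ) →
    Cond κ' γ.ord.cof

theorem main_ind5 [CompleteSpace X] (hX : Inj X) (i : X →L[ℝ] B Γ)
    (hi : ∀ x, ‖i x‖ = ‖x‖) (P : B Γ →L[ℝ] X) (hP : ∀ x, P (i x) = x) (hγ : γ ≤ #X)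
    (hc : 𝔠 < γ) (κ : Cardinal.{0}) : κ.IsRegular → ℵ₀ < κ → Crit3 κ γ →
    ∀ F : Filter Γ, CC F κ → (∀ ρ < κ, #(Ker F i) ^ ρ < γ) → Emb (L1 (OT γ)) X := by
  induction κ using WellFoundedLT.induction with
  | ind κ ih =>
  intro hκ hu H F hC hK
  by_cases h1 : κ ≤ ℵ₁
  · exact main_ind ccc hX i hi P hP hγ hc κ hκ hu (Or.inl h1) F hC hK
  have hγ0 : ℵ₀ < γ := aleph0_lt_continuum.trans hc
  have H' : ∀ κ' < κ, Crit3 κ' γ := fun κ' h κ'' h' => H κ'' (h'.trans h.le)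
  by_cases ha : ∃ ρ < κ, γ ≤ 2 ^ ρ
  · obtain ⟨ρ, h1, h2⟩ := ha
    have h3 : ℵ₀ < ρ := by
      by_contra h3
      have := h2.trans (power_le_power_left two_ne_zero (not_lt.mp h3))
      rw [two_power_aleph0] at this
      exact absurd this (not_le.mpr hc)
    rcases t1case hX P h3 (OT γ) ((mk_OT γ).le.trans h2) with h | ⟨κ', h4, h5, h6, h7⟩
    · exact h
    · refine ih κ' (h4.trans_lt h1) h5 h6 (H' _ (h4.trans_lt h1)) _ h7 fun ρ' _ => ?_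
      refine ((power_le_power_right (mk_ker_jF i P hP)).trans_eq one_power).trans_lt ?_
      exact one_lt_aleph0.trans hγ0
  push Not at ha
  have h1' : ℵ₁ < κ := not_le.mp h1
  by_cases ha' : (∀ θ < κ, Order.succ θ < κ) ∧ γ ≤ 2 ^< κ
  · by_cases h2 : ∃ μ < κ, CC (jF P) μ
    · obtain ⟨μ, h2, h3⟩ := h2
      obtain ⟨κ', h4, h5, h6, h7⟩ := h3.reduce h2 h1'
      refine ih κ' h4 h5 h6 (H' _ h4) _ h7 fun ρ' _ => ?_
      refine ((power_le_power_right (mk_ker_jF i P hP)).trans_eq one_power).trans_lt ?_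
      exact one_lt_aleph0.trans hγ0
    · unfold CC at h2
      push Not at h2
      exact t7p hX hκ hu ha'.1 i hi P hP h2 _ ((mk_OT γ).le.trans ha'.2)
  obtain ⟨β, ⟨ρ, hρ, hβρ⟩, hmin⟩ := wellFounded_lt.has_min {β | ∃ ρ < κ, γ ≤ β ^ ρ}
    ⟨γ, 1, one_lt_aleph0.trans hu, by simp⟩
  have hlt : ∀ δ < β, ∀ ρ' < κ, δ ^ ρ' < γ := fun δ hδ ρ' hρ' =>
    not_le.mp fun h => hmin δ ⟨ρ', hρ', h⟩ hδ
  have hβγ : β ≤ γ := not_lt.mp (hmin γ ⟨1, one_lt_aleph0.trans hu, by simp⟩)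
  have hpow : ∀ δ < β, ∀ ρ' < κ, δ ^ ρ' < β := fun δ hδ ρ' hρ' => not_le.mp fun h => by
    have := hβρ.trans (power_le_power_right h)
    rw [← power_mul] at this
    exact absurd this (not_le.mpr (hlt δ hδ _ (mul_lt_of_lt hu.le hρ' hρ)))
  have h2 : 2 < β := not_le.mp fun h =>
    absurd (hβρ.trans (power_le_power_right h)) (not_le.mpr (ha ρ hρ))
  have h0 : ℵ₀ ≤ β := (cantor _).le.trans (hpow 2 h2 _ hu).le
  have hκβ : κ ≤ β := (le_powerlt_exp le_rfl).trans (powerlt_le.mpr fun ρ' h => (hpow 2 h2 ρ' h).le)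
  have hKβ : #(Ker F i) < β := not_le.mp fun h =>
    absurd (hβρ.trans (power_le_power_right h)) (not_le.mpr (hK ρ hρ))
  rcases lt_or_ge β.ord.cof κ with hb | hb
  · have hp : ∀ δ < β, δ ^< κ < β := fun δ hδ => (powerlt_mono (le_max_left δ 2)).trans_lt
      (powerlt_lt_of_cof_lt hκ h0 hκβ hb (two_pos.trans_le (le_max_right _ _)).ne'
        (hpow _ (max_lt hδ h2)))
    have hB : Big κ β := ⟨hκ, hu, (le_powerlt_exp le_rfl).trans_lt (hp 2 h2), hp, hb.trans_le hκβ⟩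
    have hfin : Emb (L1 (OT ρ → OT β)) X → Emb (L1 (OT γ)) X := fun h =>
      h.l1_mono (by rwa [mk_pi, prod_const', mk_OT, mk_OT, mk_OT])
    rcases (isRegular_cof_ord h0).aleph0_le.lt_or_eq with h | h
    · rcases t3 hX hB hC i hi P hP hKβ h hb (OT ρ) (by rwa [mk_OT]) with h' | ⟨F', h3, h4⟩
      · exact hfin h'
      · exact ih _ hb (isRegular_cof_ord h0) h (H' _ hb) F' h3 fun ρ' h' =>
          hlt _ h4 _ (h'.trans hb)
    · exact hfin (t3w hX hB hC i hi P hP hKβ (hβγ.trans hγ) h.symm (OT ρ) (by rwa [mk_OT]))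
  · obtain rfl : β = γ := le_antisymm hβγ (hβρ.trans (power_le_self_of_cof h0 (hρ.trans_le hb)
      fun δ hδ => (hpow δ hδ ρ hρ).le))
    have hsucc : ¬ (∀ θ < κ, Order.succ θ < κ) → ∃ ν, κ = Order.succ ν := fun h => by
      push Not at h
      obtain ⟨ν, h3, h4⟩ := h
      exact ⟨ν, le_antisymm h4 (Order.succ_le_of_lt h3)⟩
    have hp : ∀ δ < β, δ ^< κ < β := fun δ hδ => by
      by_cases hl : ∀ θ < κ, Order.succ θ < κ
      · exact powerlt_lt_of_two hκ (not_le.mp fun h => ha' ⟨hl, h⟩) hpow δ hδ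
      · obtain ⟨ν, rfl⟩ := hsucc hl
        refine lt_of_le_of_lt (powerlt_le.mpr fun ρ' h' => ?_)
          (hpow _ (max_lt hδ h2) _ (Order.lt_succ ν))
        exact (power_le_power_right (le_max_left _ _)).trans (power_le_power_left
          (two_pos.trans_le (le_max_right _ _)).ne' (Order.lt_succ_iff.mp h'))
    have h3 : κ < β := (le_powerlt_exp le_rfl).trans_lt (hp 2 h2)
    rcases (Ordinal.cof_ord_le β).lt_or_eq with h | h
    swap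
    · exact t2emb ⟨hκ, hu, ⟨h0, h.ge⟩, h3, hp⟩ hC i hi P hP hKβ hγ _ (mk_OT _).le
    have hB : Big κ β := ⟨hκ, hu, h3, hp, h⟩
    have hred : (∃ F' : Filter Γ, ∃ μ < κ, CC F' μ ∧ #(Ker F' i) < β) →
        Emb (L1 (OT β)) X := fun ⟨F', μ, h4, h5, h6⟩ => by
      obtain ⟨κ', h7, h8, h9, h10⟩ := h5.reduce h4 h1'
      exact ih κ' h7 h8 h9 (H' _ h7) F' h10 fun ρ' h' => hlt _ h6 _ (h'.trans h7)
    have hr := isRegular_cof_ord h0
    rcases hb.lt_or_eq with hb' | hb'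
    · exact (gap_step hX hB h1' hb' (H κ le_rfl hκ h1' hb' hpow) hC i hi P hP hKβ hγ).elim id hred
    by_cases hl : ∀ θ < κ, Order.succ θ < κ
    · subst hb'
      exact (t7 hX hB hl hC i hi P hP hKβ).elim id hred
    obtain ⟨ν, rfl⟩ := hsucc hl
    have hν0 : ℵ₀ < ν := by
      by_contra hc'
      exact h1 (succ_aleph0 ▸ Order.succ_le_succ (not_lt.mp hc'))
    rcases (isRegular_cof_ord hν0.le).aleph0_le.lt_or_eq with h4 | h4
    · exact (t6 hX h4 hB hb'.symm hC i hi P hP hKβ).elim id fun ⟨F', h5, h6⟩ =>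
        hred ⟨F', ν, Order.lt_succ ν, h5, h6⟩
    · exact (t9 hX h4.symm hν0 hB hb'.symm hC i hi P hP hKβ).elim id fun ⟨F', h5, h6⟩ =>
        hred ⟨F', ν, Order.lt_succ ν, h5, h6⟩

theorem l1_crit3 [CompleteSpace X] (hX : Inj X) (hinf : ¬ FiniteDimensional ℝ X)
    (ι : Type) (hι : #ι ≤ #X)
    (H : ∀ κ : Cardinal.{0}, κ.IsRegular → ℵ₁ < κ → κ < (#ι).ord.cof →
      (∀ δ < #ι, ∀ σ < κ, δ ^ σ < #ι) → (∀ Θ : Type, (#Θ).IsRegular → #Θ < κ → Emb (B Θ) X) →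
      Cond κ (#ι).ord.cof) :
    Emb (L1 ι) X := by
  rcases le_or_gt #ι 𝔠 with hc | hc
  · exact (l1_continuum hX hinf).l1_mono (by simpa using hc)
  obtain ⟨Γ, i, P, hi, hP⟩ := hX.exists_proj
  refine Emb.l1_mono (ι := OT #ι) ?_ (mk_OT _).ge
  have hK : ∀ ρ : Cardinal.{0}, #(Ker (jF P) i) ^ ρ < #ι := fun ρ =>
    ((power_le_power_right (mk_ker_jF i P hP)).trans_eq one_power).trans_lt
      (one_lt_aleph0.trans (aleph0_lt_continuum.trans hc))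
  obtain ⟨κ, ⟨h1, h2, h4⟩, hmin⟩ := wellFounded_lt.has_min
    {κ : Cardinal.{0} | κ.IsRegular ∧ ℵ₀ < κ ∧ ¬ Emb (B (OT κ)) X} exists_not_emb
  refine main_ind5 hX i hi P hP hι hc _ h1 h2 (fun κ' hκ' e1 e2 e3 e4 => ?_) (jF P)
      (fun 𝒜 h𝒜 => not_le.mp fun h' => h4 (t1step hX P (by rwa [h1.cof_ord]) h𝒜 h'))
      fun ρ _ => hK ρ
  refine H κ' e1 e2 e3 e4 fun Θ g1 g2 => ?_
  rcases g1.aleph0_le.lt_or_eq with g3 | g3
  · obtain ⟨e'⟩ := Cardinal.eq.mp (mk_OT #Θ).symm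
    refine Emb.B_congr e' ?_
    by_contra g4
    exact hmin _ ⟨g1, g3, g4⟩ (g2.trans_le hκ')
  · obtain ⟨e'⟩ := Cardinal.eq.mp (g3.symm.trans mk_nat.symm)
    exact (linf t1 X hX hinf).B_congr e'

end Pool.Agent.Lib.MP_4a9e55_an
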