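import Pool.Agent.Lib.MP_4a9e55_an.T10

set_option autoImplicit false

open Cardinal Set Filter
open scoped ENNReal

namespace Pool.Agent.Lib.MP_4a9e55_an

variable {Γ : Type} {F : Filter Γ} {κ τ β : Cardinal.{0}}

/-- fewer than `κ` of the first `κ` members of a set are bounded among them -/
theorem exists_above {Y : Type} [LinearOrder Y] [WellFoundedLT Y] (hκ : κ.IsRegular)
    (S : Set Y) (hS : κ ≤ #S) {ι : Type} (hι : #ι < κ) (k : ι → Y)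
    (hk : ∀ a, #(S ∩ Iio (k a) : Set Y) < κ) :
    ∃ i ∈ S, #(S ∩ Iio i : Set Y) < κ ∧ ∀ a, k a < i := by
  have hW : #(⋃ a, insert (k a) (S ∩ Iio (k a))) < κ :=
    (card_iUnion_lt_iff_forall_of_isRegular hκ hι).mpr fun a => mk_insert_le.trans_lt
      (add_lt_of_lt hκ.aleph0_le (hk a) (one_lt_aleph0.trans_le hκ.aleph0_le))
  have hne : (S \ ⋃ a, insert (k a) (S ∩ Iio (k a))).Nonempty := by
    rw [sdiff_nonempty]
    exact fun h => absurd (hS.trans (mk_le_mk_of_subset h)) (not_le.mpr hW)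
  obtain ⟨i, h1, h2⟩ := wellFounded_lt.has_min _ hne
  refine ⟨i, h1.1, lt_of_le_of_lt (mk_le_mk_of_subset fun y hy => ?_) hW, fun a => ?_⟩
  · by_contra h
    exact h2 y ⟨hy.1, h⟩ hy.2
  · by_contra h
    refine h1.2 (mem_iUnion.mpr ⟨a, ?_⟩)
    rcases (not_lt.mp h).eq_or_lt with h | h
    · exact Or.inl h
    · exact Or.inr ⟨h1.1, h⟩

/-- a family of conditions of a dense set, every condition is compatible with all but few -/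
theorem cosmall_sys (hG : Good κ τ) (hτ : τ ≤ β.ord.cof) (hβ : ℵ₀ < β) (hC : CC F κ)
    {θ : Cardinal.{0}} (h2 : θ < τ)
    (D : Cardinal.{0} → Set Γ → Prop) (hm : ∀ τ τ' c, D τ c → τ' ≤ τ → D τ' c)
    (hD : ∀ ρ < β, ∃ E, Pos F E ∧ D ρ E) :
    ∃ p, Pos F p ∧ ∀ r < β, ∃ c : OT θ → Set Γ, (∀ i, D r (c i)) ∧
      ∀ V ⊆ p, Pos F V → #{i | ¬ Pos F (V ∩ c i)} < κ := by
  classical
  obtain ⟨p, hp1, hp2⟩ := meet hG hτ hβ hC D hm hD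
  refine ⟨p, hp1, fun r hr => ?_⟩
  have hτ0 := hG.reg.aleph0_le
  have hv : ∀ A : Set (Set Γ), ∃ U, ∀ V ⊆ p, Pos F V → (∀ a ∈ A, ¬ Pos F (V ∩ a)) →
      U ⊆ p ∧ Pos F U ∧ ∀ a ∈ A, ¬ Pos F (U ∩ a) := fun A => by
    by_cases h : ∃ V ⊆ p, Pos F V ∧ ∀ a ∈ A, ¬ Pos F (V ∩ a)
    · obtain ⟨V, h⟩ := h
      exact ⟨V, fun _ _ _ _ => h⟩
    · exact ⟨∅, fun V h1 h2 h3 => absurd ⟨V, h1, h2, h3⟩ h⟩
  choose v hv using hv
  obtain ⟨S, hS⟩ := exists_rec (Θ := OT θ) (α := Set (Set Γ) × Set Γ)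
    (fun i f a => (∀ k, #(f k).1 < τ) → #a.1 < τ ∧ D r a.2 ∧
      (∀ k, ∀ U ∈ (f k).1, U ∩ a.2 ∈ a.1 ∧ (Pos F U → U ⊆ p → Pos F (U ∩ a.2))) ∧
      ∀ A ⊆ ⋃ k, (f k).1, #A < κ → v A ∈ a.1) fun i f => by
    by_cases h : ∀ k, #(f k).1 < τ
    swap
    · exact ⟨(∅, ∅), fun h' => absurd h' h⟩
    have hW : #(⋃ k, (f k).1) < τ :=
      (card_iUnion_lt_iff_forall_of_isRegular hG.reg ((mk_Iio_OT i).trans h2)).mpr h
    obtain ⟨E, h3, h4⟩ := hp2 r hr {U | U ∈ ⋃ k, (f k).1 ∧ Pos F U}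
      ((mk_le_mk_of_subset fun U hU => hU.1).trans_lt hW) fun U hU => hU.2
    refine ⟨((fun U => U ∩ E) '' (⋃ k, (f k).1) ∪
      v '' {A | A ⊆ ⋃ k, (f k).1 ∧ #A < κ}, E), fun _ => ⟨?_, h3, fun k U hU => ⟨?_, ?_⟩, ?_⟩⟩
    · exact (mk_union_le _ _).trans_lt (add_lt_of_lt hτ0 (mk_image_le.trans_lt hW)
        (mk_image_le.trans_lt (hG.mk_small hW)))
    · exact Or.inl ⟨U, mem_iUnion.mpr ⟨k, hU⟩, rfl⟩
    · exact fun h5 h6 => h4 U ⟨mem_iUnion.mpr ⟨k, hU⟩, h5⟩ h6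
    · exact fun A h5 h6 => Or.inr ⟨A, ⟨h5, h6⟩, rfl⟩
  have hsm : ∀ i, #(S i).1 < τ := fun i => by
    induction i using WellFoundedLT.induction with
    | ind i ih => exact (hS i fun k => ih k k.2).1
  have hS' := fun i => (hS i fun k => hsm k).2
  refine ⟨fun i => (S i).2, fun i => (hS' i).1, fun V hV hp => not_le.mp fun hZ => ?_⟩
  set Z := {i | ¬ Pos F (V ∩ (S i).2)}
  obtain ⟨𝒜, h3, h4, h5⟩ := exists_maxAC (F := F)
    {U | (∃ i, #(Z ∩ Iio i : Set (OT θ)) < κ ∧ U ∈ (S i).1) ∧ Pos F U ∧ ¬ Pos F (U ∩ V)}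
    fun U hU => hU.2.1
  choose k hk hk' using fun a : 𝒜 => (h3 a.2).1
  obtain ⟨i₁, -, g1, h6⟩ := exists_above hG.regκ Z hZ (hC 𝒜 h4) k hk
  obtain ⟨i, hc, g2, h7⟩ := exists_above hG.regκ Z hZ (ι := Unit)
    (by simpa using one_lt_aleph0.trans hG.unc) (fun _ => i₁) fun _ => g1
  have h8 := (hS' i₁).2.2 𝒜 (fun a ha => mem_iUnion.mpr ⟨⟨k ⟨a, ha⟩, h6 _⟩, hk' ⟨a, ha⟩⟩)
    (hC 𝒜 h4)
  obtain ⟨h9, h10, h11⟩ := hv 𝒜 V hV hp fun a ha => by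
    rw [inter_comm]; exact (h3 ha).2.2
  obtain ⟨h12, h13⟩ := (hS' i).2.1 ⟨i₁, h7 ()⟩ _ h8
  obtain ⟨a, ha, h14⟩ := h5 _ ⟨⟨i, g2, h12⟩, h13 h10 h9,
    fun h => hc (h.mono fun t ht => ⟨ht.2, ht.1.2⟩)⟩
  exact h11 a ha (h14.mono fun t ht => ⟨ht.1.1, ht.2⟩)

/-- narrow slaloms are avoided on a tail by the traces of one map -/
theorem exists_avoid {δ ρ : Cardinal.{0}} (hB : Big κ δ) (h1 : δ.ord.cof < κ) (hρ : δ < ρ)
    (h2 : ρ ≤ δ ^ δ.ord.cof) (x : OT δ.ord.cof → OT δ)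
    (hx : ∀ y, ∃ j₀, ∀ j, j₀ ≤ j → y ≤ x j) {ι : Type} (hι : #ι < ρ)
    (S : ι → ∀ j, Set (OT δ.ord.cof → Iic (x j))) (hS : ∀ t j, #(S t j) < κ) :
    ∃ f : ∀ j, OT δ.ord.cof → Iic (x j), ∀ t, ∃ j₀, ∀ j, j₀ ≤ j → f j ∉ S t j := by
  classical
  have h0 := hB.aleph0_lt
  let tr : (OT δ.ord.cof → OT δ) → ∀ j, OT δ.ord.cof → Iic (x j) :=
    fun g j m => ⟨min (g m) (x j), mem_Iic.mpr (min_le_right _ _)⟩
  have hb : ∀ t, #{g | ∀ j₀, ∃ j, j₀ ≤ j ∧ tr g j ∈ S t j} ≤ κ ^< κ := fun t => by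
    refine (mk_le_of_injective (β := ∀ j, Option (S t j))
      (f := fun g j => if h : tr g.1 j ∈ S t j then some ⟨_, h⟩ else none)
      fun g g' h => Subtype.ext (funext fun m => ?_)).trans ?_
    · obtain ⟨j₀, h3⟩ := hx (max (g.1 m) (g'.1 m))
      obtain ⟨j, h4, h5⟩ := g.2 j₀
      have h6 := congrFun h j
      beta_reduce at h6
      rw [dif_pos h5] at h6
      split_ifs at h6 with h7
      have h8 : min (g.1 m) (x j) = min (g'.1 m) (x j) :=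
        congrArg Subtype.val (congrFun (congrArg Subtype.val (Option.some.inj h6)) m)
      rwa [min_eq_left ((le_max_left _ _).trans (h3 j h4)),
        min_eq_left ((le_max_right _ _).trans (h3 j h4))] at h8
    · rw [mk_pi]
      refine (prod_le_prod _ (fun _ => κ) fun j => ?_).trans ?_
      · rw [mk_option]
        exact (add_lt_of_lt hB.unc.le (hS t j) (one_lt_aleph0.trans hB.unc)).le
      · rw [prod_const', mk_OT]
        exact le_powerlt κ h1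
  have hW : #(⋃ t, {g | ∀ j₀, ∃ j, j₀ ≤ j ∧ tr g j ∈ S t j}) < ρ := by
    refine (mk_iUnion_le_sum_mk.trans (sum_le_sum _ (fun _ => κ ^< κ) hb)).trans_lt ?_
    rw [sum_const']
    exact mul_lt_of_lt (h0.trans hρ).le hι ((hB.pow κ hB.lt).trans hρ)
  have hne : ∃ g, g ∉ ⋃ t, {g | ∀ j₀, ∃ j, j₀ ≤ j ∧ tr g j ∈ S t j} := by
    by_contra h
    push Not at h
    rw [eq_univ_of_forall h, mk_univ, mk_pi, prod_const', mk_OT, mk_OT] at hW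
    exact absurd h2 (not_le.mpr hW)
  obtain ⟨g, hg⟩ := hne
  refine ⟨tr g, fun t => ?_⟩
  by_contra h
  push Not at h
  exact hg (mem_iUnion.mpr ⟨t, h⟩)

/-- the cofinality is at most the power of a singular cardinal to its cofinality -/
theorem piecesOK_avoid {δ : Cardinal.{0}} (hB : Big κ δ) (h1 : δ.ord.cof < κ)
    (hδ : δ < β.ord.cof) (h2 : β.ord.cof ≤ δ ^ δ.ord.cof) (hβ : ℵ₀ < β) (hC : CC F κ) :
    PiecesOK F β (OT δ.ord.cof) := by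
  have h0 := hB.aleph0_lt
  have hne : Nonempty (OT δ.ord.cof) :=
    mk_ne_zero_iff.mp (by rw [mk_OT]; exact (isRegular_cof_ord h0.le).ne_zero)
  obtain ⟨x, hx⟩ := exists_scale δ h0.le
  refine pieces_gen (fun j => {S : Set (OT δ.ord.cof → Iic (x j)) // #S < κ} ×
      (OT δ.ord.cof → Iic (x j))) (fun _ a b => b.2 ∉ a.1.1) (fun A => ∃ j₀, ∀ j, j₀ ≤ j → j ∈ A)
    ⟨Classical.arbitrary _, fun _ _ => trivial⟩ (fun A ⟨j, h⟩ => ⟨j, h j le_rfl⟩)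
    (fun A A' ⟨j, h⟩ h' => ⟨j, fun j' hj => h' (h j' hj)⟩) (h0.trans hδ) (fun ι hι A g => ?_)
    fun j U D hU hm hD => ?_
  · obtain ⟨f, hf⟩ := exists_avoid hB h1 hδ h2 x hx hι (fun t j => (g t j).1.1)
      fun t j => (g t j).1.2
    refine ⟨fun j => (⟨∅, by simpa using hB.regκ.pos⟩, f j), fun t ⟨j₀, h3⟩ => ?_⟩
    obtain ⟨j₁, h4⟩ := hf t
    exact ⟨max j₀ j₁, fun j hj => ⟨h3 j ((le_max_left _ _).trans hj),
      h4 j ((le_max_right _ _).trans hj)⟩⟩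
  · have h3 : #(OT δ.ord.cof → Iic (x j)) < δ := by
      rw [mk_pi, prod_const', mk_OT]
      exact (le_powerlt _ h1).trans_lt (hB.pow _ (mk_Iic_OT h0.le _))
    obtain ⟨τ, h6, h7, h8⟩ := hB.exists_good h3
    obtain ⟨p, h9, h10⟩ := cosmall_sys h8 (h6.trans hδ).le hβ hC h7 (fun r E => E ⊆ U ∧ D r E)
      (fun _ _ _ h h' => ⟨h.1, hm _ _ _ h.2 h'⟩) fun r hr => by
        obtain ⟨E, h9, h10, h11⟩ := hD r hr U subset_rfl hU
        exact ⟨E, h10, h9, h11⟩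
    refine ⟨p, h9, fun r hr => ?_⟩
    obtain ⟨c, h11, h12⟩ := h10 r hr
    obtain ⟨e⟩ := Cardinal.eq.mp (mk_OT #(OT δ.ord.cof → Iic (x j))).symm
    refine ⟨fun b => c (e b.2), fun b => h11 _, fun V hV => ?_⟩
    by_cases hp : Pos F V
    · refine ⟨(⟨e ⁻¹' {i | ¬ Pos F (V ∩ c i)}, (mk_preimage_of_injective _ _
        e.injective).trans_lt (h12 V hV hp)⟩, fun _ => ⟨x j, mem_Iic.mpr le_rfl⟩), fun _ b hb => ?_⟩
      exact not_not.mp hb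
    · exact ⟨(⟨∅, by simpa using hB.regκ.pos⟩, fun _ => ⟨x j, mem_Iic.mpr le_rfl⟩), fun h => absurd h hp⟩

end Pool.Agent.Lib.MP_4a9e55_an
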