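import Pool.Agent.Lib.MP_4a9e55_an.Basic

set_option autoImplicit false

open scoped ENNReal CompactlySupported
open MeasureTheory

namespace Pool.Agent.Lib.MP_4a9e55_an
namespace Mx

variable {ι : Type}

/-- continuous functions on the cube are measurable for the product sigma-algebra -/
theorem meas_cont (g : C(ι → Bool, ℝ)) : Measurable g := by
  let A : Subalgebra ℝ C(ι → Bool, ℝ) :=
    { carrier := {g | Measurable g}
      mul_mem' := fun {a b} ha hb => Measurable.mul (f := a) (g := b) ha hb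
      add_mem' := fun {a b} ha hb => Measurable.add (f := a) (g := b) ha hb
      algebraMap_mem' := fun r => (measurable_const : Measurable fun _ : ι → Bool => r) }
  have hsep : A.SeparatesPoints := by
    intro x y hxy
    obtain ⟨i, hi⟩ := Function.ne_iff.mp hxy
    let c : Bool → ℝ := fun b => if b then 1 else 0
    have hc : Continuous c := continuous_of_discreteTopology
    have hm : Measurable c := measurable_from_top
    refine ⟨fun z => c (z i), ⟨⟨fun z => c (z i), hc.comp (continuous_apply i)⟩,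
      hm.comp (measurable_pi_apply i), rfl⟩, ?_⟩
    revert hi
    cases hx : x i <;> cases hy : y i <;> simp [c, hx, hy]
  have htop := ContinuousMap.subalgebra_topologicalClosure_eq_top_of_separatesPoints A hsep
  have hg : g ∈ closure (A : Set C(ι → Bool, ℝ)) := by
    have : g ∈ A.topologicalClosure := by rw [htop]; trivial
    exact this
  obtain ⟨u, hu, hlim⟩ := mem_closure_iff_seq_limit.mp hg
  refine measurable_of_tendsto_metrizable (f := fun n => u n) hu ?_
  rw [tendsto_pi_nhds]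
  intro x
  exact ((continuous_eval_const x).tendsto g).comp hlim

theorem integrable_cont (μ : Measure (ι → Bool)) [IsFiniteMeasure μ] (g : C(ι → Bool, ℝ)) :
    Integrable g μ :=
  Integrable.of_bound (meas_cont g).aestronglyMeasurable ‖g‖
    (Filter.Eventually.of_forall fun x => g.norm_coe_le_norm x)

theorem isClopen_cyl {s : Set (ι → Bool)} (hs : s ∈ measurableCylinders (fun _ : ι => Bool)) :
    IsClopen s := by
  obtain ⟨F, S, -, rfl⟩ := (mem_measurableCylinders s).mp hs
  exact (isClopen_discrete S).preimage (Finset.continuous_restrict F)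

/-- finite measures on the product sigma-algebra are determined by cylinders -/
theorem ext_cyl (a b : Measure (ι → Bool)) [IsFiniteMeasure a]
    (h : ∀ s ∈ measurableCylinders (fun _ : ι => Bool), a s = b s) : a = b :=
  ext_of_generate_finite _ generateFrom_measurableCylinders.symm isPiSystem_measurableCylinders h
    (h _ (univ_mem_measurableCylinders _))

/-- finite measures on the product sigma-algebra are determined by continuous functions -/
theorem ext_cont (a b : Measure (ι → Bool)) [IsFiniteMeasure a] [IsFiniteMeasure b]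
    (h : ∀ g : C(ι → Bool, ℝ), ∫ x, g x ∂a = ∫ x, g x ∂b) : a = b := by
  refine ext_cyl a b fun s hs => ?_
  have hm : MeasurableSet s := MeasurableSet.of_mem_measurableCylinders hs
  have := h ⟨s.indicator 1, (isClopen_cyl hs).continuous_indicator continuous_const⟩
  simp only [ContinuousMap.coe_mk] at this
  rw [integral_indicator_one hm, integral_indicator_one hm] at this
  exact (ENNReal.toReal_eq_toReal_iff' (measure_ne_top _ _) (measure_ne_top _ _)).mp this

/-- the positive part of a functional, on the positive cone -/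
noncomputable def pp (ν : MD ι) (g : C(ι → Bool, ℝ)) : ℝ :=
  sSup ((fun h => ν h) '' {h | 0 ≤ h ∧ h ≤ g})

theorem le_of_mem (ν : MD ι) {g h : C(ι → Bool, ℝ)} (h0 : 0 ≤ h) (hg : h ≤ g) :
    ν h ≤ ‖ν‖ * ‖g‖ := by
  have h1 : ‖h‖ ≤ ‖g‖ := by
    refine (ContinuousMap.norm_le _ (norm_nonneg _)).mpr fun x => ?_
    have a : 0 ≤ h x := h0 x
    have b : h x ≤ g x := hg x
    have c := g.norm_coe_le_norm x
    rw [Real.norm_eq_abs] at c ⊢
    rw [abs_of_nonneg a]
    exact b.trans ((le_abs_self _).trans c)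
  have h2 := ν.le_opNorm h
  rw [Real.norm_eq_abs] at h2
  exact (le_abs_self _).trans (h2.trans (mul_le_mul_of_nonneg_left h1 (norm_nonneg _)))

theorem bdd_pp (ν : MD ι) (g : C(ι → Bool, ℝ)) :
    BddAbove ((fun h => ν h) '' {h | 0 ≤ h ∧ h ≤ g}) :=
  ⟨‖ν‖ * ‖g‖, by rintro _ ⟨h, ⟨h0, hg⟩, rfl⟩; exact le_of_mem ν h0 hg⟩

theorem le_pp (ν : MD ι) {g h : C(ι → Bool, ℝ)} (h0 : 0 ≤ h) (hg : h ≤ g) : ν h ≤ pp ν g :=
  le_csSup (bdd_pp ν g) ⟨h, ⟨h0, hg⟩, rfl⟩

theorem pp_le (ν : MD ι) {g : C(ι → Bool, ℝ)} (hg : 0 ≤ g) {c : ℝ}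
    (H : ∀ h, 0 ≤ h → h ≤ g → ν h ≤ c) : pp ν g ≤ c :=
  csSup_le ⟨_, ⟨0, ⟨le_rfl, hg⟩, rfl⟩⟩ (by rintro _ ⟨h, ⟨h0, hg⟩, rfl⟩; exact H h h0 hg)

theorem pp_nonneg (ν : MD ι) {g : C(ι → Bool, ℝ)} (hg : 0 ≤ g) : 0 ≤ pp ν g := by
  simpa using le_pp ν le_rfl hg

theorem pp_le_norm (ν : MD ι) {g : C(ι → Bool, ℝ)} (hg : 0 ≤ g) : pp ν g ≤ ‖ν‖ * ‖g‖ :=
  pp_le ν hg fun _ h0 h1 => le_of_mem ν h0 h1

theorem pp_zero (ν : MD ι) : pp ν 0 = 0 :=
  le_antisymm (by simpa using pp_le_norm ν (g := 0) le_rfl) (pp_nonneg ν le_rfl)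

theorem pp_add (ν : MD ι) {g₁ g₂ : C(ι → Bool, ℝ)} (h₁ : 0 ≤ g₁) (h₂ : 0 ≤ g₂) :
    pp ν (g₁ + g₂) = pp ν g₁ + pp ν g₂ := by
  apply le_antisymm
  · refine pp_le ν (add_nonneg h₁ h₂) fun h h0 hg => ?_
    have e : h = h ⊓ g₁ + (h - h ⊓ g₁) := by abel
    have a1 : ν (h ⊓ g₁) ≤ pp ν g₁ := le_pp ν (le_inf h0 h₁) inf_le_right
    have a2 : ν (h - h ⊓ g₁) ≤ pp ν g₂ := by
      refine le_pp ν (sub_nonneg.mpr inf_le_left) fun x => ?_
      have b1 : h x ≤ g₁ x + g₂ x := hg x
      have b2 : 0 ≤ g₂ x := h₂ x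
      change h x - min (h x) (g₁ x) ≤ g₂ x
      rcases le_total (h x) (g₁ x) with c | c
      · rw [min_eq_left c]; linarith
      · rw [min_eq_right c]; linarith
    rw [e, map_add]
    linarith
  · have : pp ν g₁ ≤ pp ν (g₁ + g₂) - pp ν g₂ := by
      refine pp_le ν h₁ fun a a0 a1 => ?_
      have : pp ν g₂ ≤ pp ν (g₁ + g₂) - ν a := by
        refine pp_le ν h₂ fun b b0 b1 => ?_
        have := le_pp ν (add_nonneg a0 b0) (add_le_add a1 b1)
        rw [map_add] at this
        linarith
      linarith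
    linarith

theorem norm_posPart_le (g : C(ι → Bool, ℝ)) : ‖g⁺‖ ≤ ‖g‖ := by
  refine (ContinuousMap.norm_le _ (norm_nonneg _)).mpr fun x => ?_
  have c := g.norm_coe_le_norm x
  change ‖max (g x) 0‖ ≤ _
  rw [Real.norm_eq_abs] at c ⊢
  rw [abs_of_nonneg (le_max_right _ _)]
  exact max_le ((le_abs_self _).trans c) (norm_nonneg _)

/-- a positive functional dominating `ν` -/
theorem exists_pos (ν : MD ι) : ∃ m : MD ι,
    (∀ g, 0 ≤ g → 0 ≤ m g ∧ ν g ≤ m g) ∧ m 1 ≤ ‖ν‖ := by
  let m₀ : C(ι → Bool, ℝ) →+ ℝ := AddMonoidHom.mk' (fun g => pp ν g⁺ - pp ν g⁻) (by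
    intro a b
    have e : (a + b)⁺ + (a⁻ + b⁻) = (a + b)⁻ + (a⁺ + b⁺) := by
      have e1 := posPart_sub_negPart (a + b)
      have e2 := posPart_sub_negPart a
      have e3 := posPart_sub_negPart b
      linear_combination (exp := 1) e1 - e2 - e3
    have := congrArg (pp ν) e
    rw [pp_add ν (posPart_nonneg _) (add_nonneg (negPart_nonneg _) (negPart_nonneg _)),
      pp_add ν (negPart_nonneg _) (add_nonneg (posPart_nonneg _) (posPart_nonneg _)),
      pp_add ν (negPart_nonneg _) (negPart_nonneg _),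
      pp_add ν (posPart_nonneg _) (posPart_nonneg _)] at this
    linarith)
  have hb : ∀ g, ‖m₀ g‖ ≤ ‖ν‖ * ‖g‖ := by
    intro g
    have a1 := pp_le_norm ν (posPart_nonneg g)
    have a2 := pp_le_norm ν (negPart_nonneg g)
    have a3 := pp_nonneg ν (posPart_nonneg g)
    have a4 := pp_nonneg ν (negPart_nonneg g)
    have a5 := mul_le_mul_of_nonneg_left (norm_posPart_le g) (norm_nonneg ν)
    have a6 : ‖ν‖ * ‖g⁻‖ ≤ ‖ν‖ * ‖g‖ := by
      refine mul_le_mul_of_nonneg_left ?_ (norm_nonneg ν)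
      have := norm_posPart_le (-g)
      rwa [posPart_neg, norm_neg] at this
    change ‖pp ν g⁺ - pp ν g⁻‖ ≤ _
    rw [Real.norm_eq_abs, abs_le]
    constructor <;> linarith
  let m : MD ι := m₀.toRealLinearMap (AddMonoidHomClass.continuous_of_bound m₀ _ hb)
  have hm : ∀ g, 0 ≤ g → m g = pp ν g := by
    intro g hg
    change pp ν g⁺ - pp ν g⁻ = _
    rw [posPart_eq_self.mpr hg, negPart_eq_zero.mpr hg, pp_zero, sub_zero]
  refine ⟨m, fun g hg => ?_, ?_⟩
  · rw [hm g hg]
    exact ⟨pp_nonneg ν hg, le_pp ν hg le_rfl⟩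
  · have h1 : (0 : C(ι → Bool, ℝ)) ≤ 1 := fun _ => zero_le_one
    rw [hm 1 h1]
    simpa using pp_le_norm ν h1

/-- Riesz representation on the product sigma-algebra -/
theorem rmk (m : MD ι) (hm : ∀ g, 0 ≤ g → 0 ≤ m g) :
    ∃ a : Measure (ι → Bool), IsFiniteMeasure a ∧
      ∀ g : C(ι → Bool, ℝ), m g = ∫ x, g x ∂a := by
  have hle : (MeasurableSpace.pi : MeasurableSpace (ι → Bool)) ≤ borel (ι → Bool) := by
    have : @Measurable _ _ (borel (ι → Bool)) MeasurableSpace.pi (id : (ι → Bool) → (ι → Bool)) := by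
      let _ : MeasurableSpace (ι → Bool) := borel (ι → Bool)
      have : BorelSpace (ι → Bool) := ⟨rfl⟩
      exact measurable_pi_lambda _ fun i => (continuous_apply i).measurable
    exact fun s hs => this hs
  have hmeas : ∀ g : C(ι → Bool, ℝ), StronglyMeasurable[MeasurableSpace.pi] g :=
    fun g => (meas_cont g).stronglyMeasurable
  let _ : MeasurableSpace (ι → Bool) := borel (ι → Bool)
  have : BorelSpace (ι → Bool) := ⟨rfl⟩
  let Λ : C_c(ι → Bool, ℝ) →ₚ[ℝ] ℝ := PositiveLinearMap.mk₀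
    { toFun := fun g => m g.toContinuousMap
      map_add' := fun g g' => by rw [← map_add]; rfl
      map_smul' := fun c g => by rw [RingHom.id_apply, ← map_smul]; rfl }
    (fun g hg => hm _ fun x => hg x)
  refine ⟨(RealRMK.rieszMeasure Λ).trim hle, inferInstance, fun g => ?_⟩
  rw [← integral_trim hle (hmeas g)]
  exact (RealRMK.integral_rieszMeasure Λ
    (CompactlySupportedContinuousMap.continuousMapEquiv g)).symm

/-- `ν` is represented by the difference of the finite measures `a` and `b` -/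
structure Rep (ν : MD ι) (a b : Measure (ι → Bool)) : Prop where
  fa : IsFiniteMeasure a
  fb : IsFiniteMeasure b
  eq : ∀ g : C(ι → Bool, ℝ), ν g = ∫ x, g x ∂a - ∫ x, g x ∂b

theorem Rep.add_eq {ν : MD ι} {a b a' b' : Measure (ι → Bool)} (h : Rep ν a b)
    (h' : Rep ν a' b') : a + b' = a' + b := by
  have := h.fa; have := h.fb; have := h'.fa; have := h'.fb
  refine ext_cont _ _ fun g => ?_
  rw [integral_add_measure (integrable_cont _ g) (integrable_cont _ g),
    integral_add_measure (integrable_cont _ g) (integrable_cont _ g)]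
  have e1 := h.eq g
  have e2 := h'.eq g
  linarith

theorem Rep.add {ν ν' : MD ι} {a b a' b' : Measure (ι → Bool)} (h : Rep ν a b)
    (h' : Rep ν' a' b') : Rep (ν + ν') (a + a') (b + b') := by
  have := h.fa; have := h.fb; have := h'.fa; have := h'.fb
  refine ⟨inferInstance, inferInstance, fun g => ?_⟩
  rw [integral_add_measure (integrable_cont _ g) (integrable_cont _ g),
    integral_add_measure (integrable_cont _ g) (integrable_cont _ g),
    add_apply, h.eq g, h'.eq g]
  ring

/-- Jordan decomposition of a functional by measures on the product sigma-algebra -/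
theorem exists_rep (ν : MD ι) : ∃ a b : Measure (ι → Bool), Rep ν a b ∧ a ⟂ₘ b ∧
    a.real Set.univ + b.real Set.univ ≤ 3 * ‖ν‖ := by
  obtain ⟨m, hm, hm1⟩ := exists_pos ν
  obtain ⟨a, ha, ea⟩ := rmk m fun g hg => (hm g hg).1
  obtain ⟨b, hb, eb⟩ := rmk (m - ν) fun g hg => by
    rw [sub_apply]; exact sub_nonneg.mpr (hm g hg).2
  have key : a + (b - a) = (a - b) + b := by
    have := Measure.sub_toSignedMeasure_eq_toSignedMeasure_sub (μ := a) (ν := b)
    rw [sub_eq_sub_iff_add_eq_add, ← Measure.toSignedMeasure_add,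
      ← Measure.toSignedMeasure_add] at this
    exact Measure.toSignedMeasure_eq_toSignedMeasure_iff.mp this
  refine ⟨a - b, b - a, ⟨inferInstance, inferInstance, fun g => ?_⟩,
    Measure.mutually_singular_measure_sub, ?_⟩
  · have e : ∫ x, g x ∂(a + (b - a)) = ∫ x, g x ∂((a - b) + b) := by rw [key]
    rw [integral_add_measure (integrable_cont _ g) (integrable_cont _ g),
      integral_add_measure (integrable_cont _ g) (integrable_cont _ g)] at e
    have e1 := ea g
    have e2 := eb g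
    rw [sub_apply] at e2
    linarith
  · have a1 : (a - b).real Set.univ ≤ a.real Set.univ :=
      ENNReal.toReal_mono (measure_ne_top _ _) (Measure.sub_le _)
    have a2 : (b - a).real Set.univ ≤ b.real Set.univ :=
      ENNReal.toReal_mono (measure_ne_top _ _) (Measure.sub_le _)
    have e1 := ea 1
    have e2 := eb 1
    simp only [ContinuousMap.one_apply, integral_const, smul_eq_mul, mul_one,
      sub_apply] at e1 e2
    have e3 := ν.le_opNorm 1
    rw [Real.norm_eq_abs, norm_one, mul_one, abs_le] at e3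
    linarith [e3.1]

end Mx
end Pool.Agent.Lib.MP_4a9e55_an
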