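import Pool.Agent.Lib.MP_4a9e55_an.Main1
import Pool.Agent.Lib.MP_4a9e55_an.Defs2

set_option autoImplicit false

open Cardinal Set

namespace Pool.Agent.Lib.MP_4a9e55_an

variable {κ δ σ ρ : Cardinal.{0}}

theorem cof_ladder (Y : Type) [LinearOrder Y] [WellFoundedLT Y] (h : ℵ₀ ≤ Order.cof Y) :
    ∃ e : OT (Order.cof Y) → Y, ∀ y, ∃ i₀, ∀ i, i₀ ≤ i → y ≤ e i := by
  obtain ⟨s, hs, hs'⟩ := Order.exists_cof_eq Y
  obtain ⟨g⟩ := Cardinal.eq.mp ((mk_OT _).trans hs'.symm)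
  have h1 : ∀ i : OT (Order.cof Y), ∃ y, ∀ i' ≤ i, (g i').1 ≤ y := fun i => by
    by_contra hc
    push Not at hc
    refine absurd (Order.cof_le (s := (fun i' => (g i').1) '' Iic i) fun y => ?_)
      (not_le.mpr (mk_image_le.trans_lt (mk_Iic_OT h i)))
    obtain ⟨i', h2, h3⟩ := hc y
    exact ⟨_, ⟨i', h2, rfl⟩, h3.le⟩
  choose e he using h1
  refine ⟨e, fun y => ?_⟩
  obtain ⟨z, hz, hyz⟩ := hs y
  exact ⟨g.symm ⟨z, hz⟩, fun i hi => hyz.trans (by simpa using he i _ hi)⟩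

/-- one step of the covering -/
theorem exists_next (hσ : ℵ₀ ≤ σ) (hN : ¬ PP σ δ ρ) (a : {a : Set (OT δ) // #a ≤ σ}) :
    ∃ N : Set {a : Set (OT δ) // #a ≤ σ}, #N < ρ ∧ ∀ x : Set (OT δ), #x ≤ σ →
      ∃ a' ∈ N, ∀ y ∈ x, ∀ b ∈ a.1, y < b → ∃ b' ∈ a'.1, y ≤ b' ∧ b' < b := by
  unfold PP at hN
  push Not at hN
  have hK : ∀ p : OT δ → Prop, #{b // b ∈ a.1 ∧ p b} ≤ σ := fun p =>
    (mk_le_mk_of_subset (s := {b | b ∈ a.1 ∧ p b}) fun b hb => hb.1).trans a.2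
  obtain ⟨ι, hι, Φ, hΦ⟩ := hN {b // b ∈ a.1 ∧ σ < Order.cof (Iio b)}
    (fun k => Order.cof (Iio k.1)) (hK _) fun k => ⟨⟨hσ.trans k.2.2.le, (Order.cof_ord_cof _).ge⟩,
      (Order.cof_le_cardinalMk _).trans_lt (mk_Iio_OT _)⟩
  choose e he using fun k : {b // b ∈ a.1 ∧ σ < Order.cof (Iio b)} =>
    cof_ladder (Iio k.1) (hσ.trans k.2.2.le)
  choose i₀ hi₀ using he
  choose c hc hc' using fun b : OT δ => Order.exists_cof_eq (Iio b)
  let a' : ι → {a : Set (OT δ) // #a ≤ σ} := fun t =>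
    ⟨range (fun k => (e k (Φ t k)).1) ∪
      ⋃ b : {b // b ∈ a.1 ∧ Order.cof (Iio b) ≤ σ}, Subtype.val '' c b,
      (mk_union_le _ _).trans ((add_le_add (mk_range_le.trans (hK _))
        ((mk_iUnion_le _).trans ((mul_le_mul' (hK _) (ciSup_le' fun b =>
          mk_image_le.trans ((hc' _).le.trans b.2.2))).trans (mul_eq_self hσ).le))).trans
        (add_eq_self hσ).le)⟩
  refine ⟨range a', mk_range_le.trans_lt hι, fun x hx => ?_⟩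
  choose g hg using fun k : {b // b ∈ a.1 ∧ σ < Order.cof (Iio b)} =>
    exists_ub_fun (fun y : {y : Iio k.1 // y.1 ∈ x} => i₀ k y.1) (by
      rw [Order.cof_ord_cof]
      exact ((mk_le_of_injective
        (f := fun y : {y : Iio k.1 // y.1 ∈ x} => (⟨y.1.1, y.2⟩ : x)) fun y y' h =>
        Subtype.ext (Subtype.ext (congrArg (fun z : x => z.1) h))).trans hx).trans_lt k.2.2)
  obtain ⟨t, ht⟩ := hΦ g
  refine ⟨a' t, ⟨t, rfl⟩, fun y hy b hb hyb => ?_⟩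
  rcases lt_or_ge σ (Order.cof (Iio b)) with h | h
  · exact ⟨_, Or.inl ⟨⟨b, hb, h⟩, rfl⟩,
      hi₀ ⟨b, hb, h⟩ ⟨y, hyb⟩ _ ((hg ⟨b, hb, h⟩ ⟨⟨y, hyb⟩, hy⟩).le.trans (ht _)), (e _ _).2⟩
  · obtain ⟨z, h1, h2⟩ := hc b ⟨y, hyb⟩
    exact ⟨z, Or.inr (mem_iUnion.mpr ⟨⟨b, hb, h⟩, z, h1, rfl⟩), h2, z.2⟩

/-- small sets are covered by countably many members of a family of size below `ρ` -/
theorem exists_cover (hσ : ℵ₀ ≤ σ) (h1 : δ.ord.cof ≤ σ) (hρ : ρ.IsRegular) (h0 : ℵ₀ < ρ)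
    (hN : ¬ PP σ δ ρ) : ∃ M : Set {a : Set (OT δ) // #a ≤ σ}, #M < ρ ∧
      ∀ x : Set (OT δ), #x ≤ σ → ∃ s : ℕ → M, ∀ y ∈ x, ∃ n, y ∈ (s n).1.1 := by
  choose N h2 h3 using exists_next hσ hN
  obtain ⟨g, hg⟩ := exists_cofinal_fun δ (OT δ.ord.cof) (mk_OT _)
  let a₀ : {a : Set (OT δ) // #a ≤ σ} := ⟨range g, mk_range_le.trans ((mk_OT _).le.trans h1)⟩
  let M : ℕ → Set {a : Set (OT δ) // #a ≤ σ} :=
    fun n => Nat.rec {a₀} (fun _ m => ⋃ a : m, N a) n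
  have hM : ∀ n : ℕ, #(↥(M n)) < ρ := fun n => by
    induction n with
    | zero => exact (mk_singleton a₀).trans_lt (one_lt_aleph0.trans h0)
    | succ n ih => exact (card_iUnion_lt_iff_forall_of_isRegular hρ ih).mpr fun a => h2 _
  refine ⟨⋃ n, M n, (card_iUnion_lt_iff_forall_of_isRegular hρ (by simpa using h0)).mpr hM,
    fun x hx => ?_⟩
  choose nx h4 h5 using fun a => h3 a x hx
  have h6 : ∀ n, nx^[n] a₀ ∈ M n := fun n => by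
    induction n with
    | zero => exact mem_singleton _
    | succ n ih =>
      rw [Function.iterate_succ_apply']
      exact mem_iUnion.mpr ⟨⟨_, ih⟩, h4 _⟩
  refine ⟨fun n => ⟨_, mem_iUnion.mpr ⟨n, h6 n⟩⟩, fun y hy => ?_⟩
  obtain ⟨ξ, hξ⟩ := hg y
  obtain ⟨b, ⟨h7, n, h8⟩, h9⟩ := wellFounded_lt.has_min {b | y ≤ b ∧ ∃ n, b ∈ (nx^[n] a₀).1}
    ⟨g ξ, hξ, 0, ξ, rfl⟩
  rcases h7.lt_or_eq with h | rfl
  · obtain ⟨b', h10, h11, h12⟩ := h5 _ y hy b h8 h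
    exact absurd h12 (h9 b' ⟨h11, n + 1, by rwa [Function.iterate_succ_apply']⟩)
  · exact ⟨n, h8⟩

/-- at uncountable cofinality the power is reached by a product of regular cardinals -/
theorem pp_of_cof (hB : Big κ δ) (h1 : ℵ₀ < δ.ord.cof) (h2 : δ.ord.cof < κ) (hρ : ρ.IsRegular)
    (h3 : δ < ρ) (h4 : ρ ≤ δ ^ δ.ord.cof) : PP δ.ord.cof δ ρ := by
  by_contra hN
  have h0 := hB.aleph0_lt
  obtain ⟨M, h5, h6⟩ := exists_cover h1.le le_rfl hρ (h0.trans h3) hN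
  obtain ⟨cd⟩ := (Cardinal.le_def (Σ i : OT δ.ord.cof, Iio i → OT δ) (OT δ)).mp (by
    rw [mk_sigma, mk_OT]
    refine (sum_le_sum _ (fun _ => δ) fun i => ?_).trans ?_
    · rw [mk_pi, prod_const', mk_OT]
      exact power_le_self_of_cof h0.le (mk_Iio_OT i) fun g hg =>
        (hB.power_lt hg ((mk_Iio_OT i).trans h2)).le
    · rw [sum_const', mk_OT]
      exact (mul_le_mul' (Ordinal.cof_ord_le δ) le_rfl).trans (mul_eq_self h0.le).le)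
  let x : (OT δ.ord.cof → OT δ) → OT δ.ord.cof → OT δ := fun b i => cd ⟨i, fun η => b η⟩
  have h7 : ∀ b, ∃ a : M, ∀ η, ∃ i, η < i ∧ x b i ∈ a.1.1 := fun b => by
    by_contra hc
    push Not at hc
    obtain ⟨s, hs⟩ := h6 (range (x b)) (mk_range_le.trans (mk_OT _).le)
    choose η hη using fun n => hc (s n)
    obtain ⟨i, hi⟩ := exists_ub_fun η (by rw [Ordinal.cof_ord_cof]; simpa using h1)
    obtain ⟨n, hn⟩ := hs _ ⟨i, rfl⟩
    exact hη n i (hi n) hn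
  choose a ha using h7
  have h8 : #(⋃ a : M, 𝒫 a.1.1) < ρ :=
    (card_iUnion_lt_iff_forall_of_isRegular hρ h5).mpr fun a => by
      rw [mk_powerset]
      exact ((power_le_power_left two_ne_zero a.1.2).trans_lt
        (hB.power_lt ((natCast_lt_aleph0 (n := 2)).trans h0) h2)).trans h3
  refine absurd (h4.trans ?_) (not_le.mpr h8)
  refine le_trans (by rw [mk_pi, prod_const', mk_OT, mk_OT]) (mk_le_of_injective
    (f := fun b => (⟨range (x b) ∩ (a b).1.1, mem_iUnion.mpr ⟨a b, inter_subset_right⟩⟩ :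
      ⋃ a : M, 𝒫 a.1.1)) fun b b' h => funext fun η => ?_)
  obtain ⟨i, hi, hi'⟩ := ha b η
  have h9 : range (x b) ∩ (a b).1.1 = range (x b') ∩ (a b').1.1 := congrArg Subtype.val h
  obtain ⟨⟨i', h10⟩, -⟩ := h9.subset ⟨⟨i, rfl⟩, hi'⟩
  obtain ⟨rfl, h11⟩ := Sigma.mk.inj (cd.injective h10)
  exact (congrFun (eq_of_heq h11) ⟨η, hi⟩).symm

/-- small factors can be dropped -/
theorem PP.large (h : PP σ δ ρ) (hB : Big κ δ) (hσ : σ < κ) (h3 : δ ≤ ρ) :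
    ∃ (K : Type) (θ : K → Cardinal.{0}), #K ≤ σ ∧ (∀ k, (θ k).IsRegular) ∧ (∀ k, θ k < δ) ∧
      (∀ k, κ ≤ θ k) ∧ (∀ k, 2 ^ #K < θ k) ∧ ∀ ι : Type, #ι < ρ → ∀ Φ : ι → ∀ k, OT (θ k),
        ∃ g : ∀ k, OT (θ k), ∀ t, ∃ k, Φ t k < g k := by
  classical
  obtain ⟨K, θ, h1, h2, h4⟩ := h
  have h0 := hB.aleph0_lt
  have h5 : max κ (2 ^ σ) < δ :=
    max_lt hB.lt (hB.power_lt ((natCast_lt_aleph0 (n := 2)).trans h0) hσ)
  have h6 : ∀ p : K → Prop, #{k // p k} ≤ σ := fun p => (mk_subtype_le p).trans h1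
  refine ⟨{k // max κ (2 ^ σ) < θ k}, fun k => θ k, h6 _, fun k => (h2 k).1, fun k => (h2 k).2,
    fun k => (le_max_left _ _).trans k.2.le, fun k =>
      ((power_le_power_left two_ne_zero (h6 _)).trans (le_max_right _ _)).trans_lt k.2,
    fun ι hι Φ => ?_⟩
  obtain ⟨g, hg⟩ := h4 (ι × ∀ k : {k // ¬ max κ (2 ^ σ) < θ k}, OT (θ k)) (by
      rw [mk_prod, lift_id, lift_id, mk_pi]
      refine mul_lt_of_lt (h0.le.trans h3) hι (lt_of_le_of_lt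
        (prod_le_prod _ (fun _ => max κ (2 ^ σ)) fun k => (mk_OT _).le.trans (not_lt.mp k.2)) ?_)
      rw [prod_const']
      exact (hB.power_lt h5 ((h6 _).trans_lt hσ)).trans_le h3)
    fun q k => if hk : max κ (2 ^ σ) < θ k then Φ q.1 ⟨k, hk⟩ else q.2 ⟨k, hk⟩
  refine ⟨fun k => g k, fun t => ?_⟩
  obtain ⟨k, hk⟩ := hg (t, fun k => g k)
  split_ifs at hk with h
  · exact ⟨⟨k, h⟩, hk⟩
  · exact absurd hk (lt_irrefl _)

end Pool.Agent.Lib.MP_4a9e55_an
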