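import Pool.Agent.Lib.MP_4a9e55_an.Pcf
import Pool.Agent.Lib.MP_4a9e55_an.Guess

set_option autoImplicit false

open Cardinal Set

namespace Pool.Agent.Lib.MP_4a9e55_an

variable {K : Type} {θ : K → Cardinal.{0}} {η : Cardinal.{0}}

/-- cofinality of the product on a set of coordinates -/
noncomputable def pcof (θ : K → Cardinal.{0}) (B : Set K) : Cardinal.{0} :=
  sInf {c | ∃ ι : Type, #ι = c ∧ ∃ Φ : ι → ∀ k, OT (θ k), ∀ g : ∀ k, OT (θ k),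
    ∃ t, ∀ k ∈ B, g k ≤ Φ t k}

theorem pcof_le {B : Set K} {ι : Type} (Φ : ι → ∀ k, OT (θ k))
    (h : ∀ g : ∀ k, OT (θ k), ∃ t, ∀ k ∈ B, g k ≤ Φ t k) : pcof θ B ≤ #ι :=
  csInf_le' ⟨ι, rfl, Φ, h⟩

theorem exists_pcof (θ : K → Cardinal.{0}) (B : Set K) : ∃ Φ : OT (pcof θ B) → ∀ k, OT (θ k),
    ∀ g : ∀ k, OT (θ k), ∃ t, ∀ k ∈ B, g k ≤ Φ t k := by
  obtain ⟨ι, h1, Φ, h2⟩ := csInf_mem (s := {c | ∃ ι : Type, #ι = c ∧ ∃ Φ : ι → ∀ k, OT (θ k),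
    ∀ g : ∀ k, OT (θ k), ∃ t, ∀ k ∈ B, g k ≤ Φ t k}) ⟨_, _, rfl, id, fun g => ⟨g, fun _ _ => le_rfl⟩⟩
  obtain ⟨e⟩ := Cardinal.eq.mp (h1.trans (mk_OT _).symm)
  refine ⟨fun t => Φ (e.symm t), fun g => ?_⟩
  obtain ⟨t, ht⟩ := h2 g
  exact ⟨e t, by simpa using ht⟩

theorem pcof_le_mul {B B' C : Set K} (h : C ⊆ B ∪ B') : pcof θ C ≤ pcof θ B * pcof θ B' := by
  obtain ⟨Φ, h1⟩ := exists_pcof θ B
  obtain ⟨Φ', h2⟩ := exists_pcof θ B'
  refine (pcof_le (fun (q : OT (pcof θ B) × OT (pcof θ B')) k => max (Φ q.1 k) (Φ' q.2 k))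
    fun g => ?_).trans_eq (by simp)
  obtain ⟨t, ht⟩ := h1 g
  obtain ⟨t', ht'⟩ := h2 g
  exact ⟨(t, t'), fun k hk => (h hk).elim (fun h => (ht k h).trans (le_max_left _ _))
    fun h => (ht' k h).trans (le_max_right _ _)⟩

theorem pcof_mono {B C : Set K} (h : C ⊆ B) : pcof θ C ≤ pcof θ B := by
  obtain ⟨Φ, h1⟩ := exists_pcof θ B
  exact (pcof_le Φ fun g => (h1 g).imp fun t ht k hk => ht k (h hk)).trans_eq (mk_OT _)

/-- the factors are regular and large -/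
structure Fac (θ : K → Cardinal.{0}) (η : Cardinal.{0}) : Prop where
  reg : ∀ k, (θ k).IsRegular
  lt : ∀ k, η < θ k
  inf : ℵ₀ ≤ η
  two : 2 ^ #K ≤ η

theorem Fac.ne (h : Fac θ η) (k : K) : Nonempty (OT (θ k)) :=
  mk_ne_zero_iff.mp (by rw [mk_OT]; exact (h.reg k).ne_zero)

theorem Fac.lt_pcof (h : Fac θ η) {B : Set K} (hB : B.Nonempty) : η < pcof θ B := by
  classical
  obtain ⟨k, hk⟩ := hB
  obtain ⟨Φ, h1⟩ := exists_pcof θ B
  by_contra hc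
  obtain ⟨x, hx⟩ := exists_ub_fun (fun t => Φ t k)
    (by rw [mk_OT, (h.reg k).cof_ord]; exact (not_lt.mp hc).trans_lt (h.lt k))
  have := h.ne
  obtain ⟨t, ht⟩ := h1 (Function.update (fun _ => Classical.arbitrary _) k x)
  exact absurd (hx t) (not_lt.mpr (by simpa using ht k hk))

/-- domination on `B` off a set of smaller cofinality -/
def LeOn (B : Set K) (f g : ∀ k, OT (θ k)) : Prop := pcof θ {k | k ∈ B ∧ g k < f k} < pcof θ B

theorem Fac.small (h : Fac θ η) {B C C₁ C₂ : Set K} (hB : B.Nonempty) (h0 : C ⊆ C₁ ∪ C₂)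
    (h1 : pcof θ C₁ < pcof θ B) (h2 : pcof θ C₂ < pcof θ B) : pcof θ C < pcof θ B :=
  (pcof_le_mul h0).trans_lt (mul_lt_of_lt (h.inf.trans (h.lt_pcof hB).le) h1 h2)

theorem Fac.trans (h : Fac θ η) {B : Set K} (hB : B.Nonempty) {f g u : ∀ k, OT (θ k)}
    (h1 : LeOn B f g) (h2 : LeOn B g u) : LeOn B f u :=
  h.small (C₁ := {k | k ∈ B ∧ g k < f k}) (C₂ := {k | k ∈ B ∧ u k < g k}) hB
    (fun k hk => (lt_or_ge (g k) (f k)).imp (fun h => ⟨hk.1, h⟩)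
    fun h => ⟨hk.1, hk.2.trans_le h⟩) h1 h2

theorem Fac.leOn (h : Fac θ η) {B : Set K} (hB : B.Nonempty) {f g : ∀ k, OT (θ k)}
    (h1 : ∀ k ∈ B, f k ≤ g k) : LeOn B f g := by
  refine (pcof_le (fun _ : Unit => f) fun _ => ⟨(), fun k hk => ?_⟩).trans_lt
    (by simpa using one_lt_aleph0.trans (h.inf.trans_lt (h.lt_pcof hB)))
  exact absurd (h1 k hk.1) (not_le.mpr hk.2)

theorem Fac.directed (h : Fac θ η) (B : Set K) {ι : Type} (hι : #ι < pcof θ B)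
    (g : ι → ∀ k, OT (θ k)) : ∃ f, ∀ t, LeOn B (g t) f := by
  have := h.ne
  have hb : ∀ C : Set K, ∃ b : ∀ k, OT (θ k), pcof θ C < pcof θ B ∨ ∀ t, ∃ k ∈ C, g t k < b k :=
    fun C => by
    by_cases h : ∀ g' : ∀ k, OT (θ k), ∃ t, ∀ k ∈ C, g' k ≤ g t k
    · exact ⟨fun _ => Classical.arbitrary _, Or.inl ((pcof_le g h).trans_lt hι)⟩
    · push Not at h
      exact h.imp fun _ => Or.inr
  choose b hb using hb
  choose f hf using fun k => exists_ub_fun (fun C => b C k)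
    (by rw [(h.reg k).cof_ord, mk_set]; exact h.two.trans_lt (h.lt k))
  refine ⟨f, fun t => (hb _).elim id fun h1 => ?_⟩
  obtain ⟨k, h2, h3⟩ := h1 t
  exact absurd (h3.trans (hf k _)) (not_lt.mpr h2.2.le)

theorem Fac.scale (h : Fac θ η) {B : Set K} (hB : B.Nonempty) :
    ∃ F : OT (pcof θ B) → ∀ k, OT (θ k), (∀ α α', α ≤ α' → LeOn B (F α) (F α')) ∧
      ∀ g, ∃ α, LeOn B g (F α) := by
  obtain ⟨Φ, h1⟩ := exists_pcof θ B
  have h0 := h.inf.trans (h.lt_pcof hB).le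
  obtain ⟨F, hF⟩ := exists_rec (Θ := OT (pcof θ B)) (α := ∀ k, OT (θ k))
    (fun α f a => LeOn B (Φ α) a ∧ ∀ β, LeOn B (f β) a) fun α f => by
    obtain ⟨a, ha⟩ := h.directed B (ι := Option (Iio α))
      (by simpa using add_lt_of_lt h0 (mk_Iio_OT α) (one_lt_aleph0.trans_le h0))
      fun o => o.elim (Φ α) f
    exact ⟨a, ha none, fun β => ha (some β)⟩
  refine ⟨F, fun α α' h2 => ?_, fun g => ?_⟩
  · rcases h2.lt_or_eq with h2 | rfl
    · exact (hF α').2 ⟨α, h2⟩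
    · exact h.leOn hB fun _ _ => le_rfl
  · obtain ⟨t, ht⟩ := h1 g
    exact ⟨t, h.trans hB (h.leOn hB ht) (hF t).1⟩

/-- functions that are least upper bounds of initial parts of all scales are few -/
theorem Fac.count (h : Fac θ η) {ρ : Cardinal.{0}} (hρ : ρ.IsRegular) (h1 : η < ρ)
    (h2 : pcof θ univ < ρ) (F : ∀ B : {B : Set K // B.Nonempty}, OT (pcof θ B) → ∀ k, OT (θ k))
    (Y : Set (∀ k, OT (θ k)))
    (hY : ∀ y ∈ Y, ∀ B, ∃ o : Option (OT (pcof θ B.1)),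
      (∀ α, (∀ γ ∈ o, α < γ) → LeOn B.1 (F B α) y) ∧
      ∀ u, (∀ α, (∀ γ ∈ o, α < γ) → LeOn B.1 (F B α) u) → LeOn B.1 y u) : #Y < ρ := by
  classical
  have := h.ne
  have h0 := h.inf.trans_lt h1
  have key : ∀ (c : Cardinal.{0}) (B : Set K), pcof θ B = c →
      ∃ G : Set (∀ k, OT (θ k)), #G < ρ ∧ ∀ y ∈ Y, ∃ g ∈ G, ∀ k ∈ B, y k = g k := fun c => by
    induction c using WellFoundedLT.induction with
    | ind c ih =>
    rintro B rfl
    rcases B.eq_empty_or_nonempty with rfl | hB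
    · exact ⟨{fun _ => Classical.arbitrary _}, by simpa using one_lt_aleph0.trans h0,
        fun y _ => ⟨_, rfl, by simp⟩⟩
    choose G h3 h4 using fun C : {C : Set K // pcof θ C < pcof θ B} => ih _ C.2 C rfl
    have h5 : ∀ o : Option (OT (pcof θ B)), ∃ w, ∀ y,
        (∀ α, (∀ γ ∈ o, α < γ) → LeOn B (F ⟨B, hB⟩ α) y) →
        (∀ u, (∀ α, (∀ γ ∈ o, α < γ) → LeOn B (F ⟨B, hB⟩ α) u) → LeOn B y u) →
        LeOn B y w ∧ LeOn B w y := fun o => by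
      by_cases hc : ∃ w, (∀ α, (∀ γ ∈ o, α < γ) → LeOn B (F ⟨B, hB⟩ α) w) ∧
        (∀ u, (∀ α, (∀ γ ∈ o, α < γ) → LeOn B (F ⟨B, hB⟩ α) u) → LeOn B w u)
      · obtain ⟨w, h5, h6⟩ := hc
        exact ⟨w, fun y h7 h8 => ⟨h8 w h5, h6 y h7⟩⟩
      · exact ⟨fun _ => Classical.arbitrary _, fun y h7 h8 => absurd ⟨y, h7, h8⟩ hc⟩
    choose w hw using h5
    refine ⟨⋃ o, ⋃ C : {C : Set K // pcof θ C < pcof θ B},
      (fun g k => if k ∈ C.1 then g k else w o k) '' G C, ?_, fun y hy => ?_⟩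
    · refine (card_iUnion_lt_iff_forall_of_isRegular hρ ?_).mpr fun o =>
        (card_iUnion_lt_iff_forall_of_isRegular hρ ?_).mpr fun C => mk_image_le.trans_lt (h3 C)
      · simpa using add_lt_of_lt h0.le ((pcof_mono (subset_univ B)).trans_lt h2)
          (one_lt_aleph0.trans h0)
      · exact ((mk_subtype_le _).trans (mk_set.le.trans h.two)).trans_lt h1
    · obtain ⟨o, h5, h6⟩ := hY y hy ⟨B, hB⟩
      obtain ⟨h7, h8⟩ := hw o y h5 h6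
      let C : {C : Set K // pcof θ C < pcof θ B} := ⟨{k | k ∈ B ∧ y k ≠ w o k},
        h.small (C₁ := {k | k ∈ B ∧ w o k < y k}) (C₂ := {k | k ∈ B ∧ y k < w o k}) hB
          (fun k hk => hk.2.lt_or_gt.symm.imp (fun h => ⟨hk.1, h⟩) fun h => ⟨hk.1, h⟩) h7 h8⟩
      obtain ⟨g, h9, h10⟩ := h4 C y hy
      refine ⟨_, mem_iUnion₂.mpr ⟨o, C, g, h9, rfl⟩, fun k hk => ?_⟩
      beta_reduce
      split_ifs with h11
      · exact h10 k h11
      · exact not_not.mp fun h12 => h11 ⟨hk, h12⟩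
  obtain ⟨G, h3, h4⟩ := key _ univ rfl
  refine (mk_le_mk_of_subset fun y hy => ?_).trans_lt h3
  obtain ⟨g, h5, h6⟩ := h4 y hy
  rwa [show y = g from funext fun k => h6 k trivial]

end Pool.Agent.Lib.MP_4a9e55_an
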