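import Pool.Agent.Lib.MP_4a9e55_an.Tri

set_option autoImplicit false

open Cardinal Set Filter

namespace Pool.Agent.Lib.MP_4a9e55_an

variable {Γ : Type} {F : Filter Γ} {κ τ : Cardinal.{0}}

/-- points where the variation of `T` against `C ^ 2` is at most `b` -/
def Sm (T : B Γ →L[ℝ] B Γ) (C : B Γ) (b : ℝ) : Set Γ :=
  {t | ∀ g : B Γ, (∀ s, |g s| ≤ C s ^ 2) → T g t ≤ b}

theorem Sm.avg {T : B Γ →L[ℝ] B Γ} {u v : B Γ} {b₁ b₂ : ℝ} {t : Γ} (h₁ : t ∈ Sm T u b₁)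
    (h₂ : t ∈ Sm T v b₂) (g : B Γ) (hg : ∀ s, |g s| ≤ (u s ^ 2 + v s ^ 2) / 2) :
    T g t ≤ (b₁ + b₂) / 2 := by
  let g₁ : B Γ := mkB (fun s => max (-(u s ^ 2)) (min (2 * g s) (u s ^ 2))) (‖u‖ ^ 2) fun s => by
    have h1 : u s ^ 2 ≤ ‖u‖ ^ 2 := by
      rw [← sq_abs]; exact pow_le_pow_left₀ (abs_nonneg _) (B.abs_le u s) 2
    have h2 := sq_nonneg (u s)
    refine abs_le.mpr ⟨le_trans (by linarith) (le_max_left _ _), max_le (by linarith)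
      ((min_le_right _ _).trans h1)⟩
  have h3 := h₁ g₁ fun s => by
    have h2 := sq_nonneg (u s)
    exact abs_le.mpr ⟨le_max_left _ _, max_le (by linarith) (min_le_right _ _)⟩
  have h4 := h₂ ((2 : ℝ) • g - g₁) fun s => by
    have h2 := sq_nonneg (u s)
    have h5 := sq_nonneg (v s)
    have h6 := abs_le.mp (hg s)
    simp only [B.sub_apply, B.smul_apply, g₁, mkB_apply]
    rcases le_total (2 * g s) (u s ^ 2) with h7 | h7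
    · rw [min_eq_left h7]
      rcases le_total (-(u s ^ 2)) (2 * g s) with h8 | h8
      · rw [max_eq_right h8]; simpa using h5
      · rw [max_eq_left h8]; exact abs_le.mpr ⟨by linarith, by linarith⟩
    · rw [min_eq_right h7, max_eq_right (by linarith)]
      exact abs_le.mpr ⟨by linarith, by linarith⟩
  simp only [map_sub, map_smul, B.sub_apply, B.smul_apply] at h4
  linarith

/-- half sum -/
noncomputable def hs (u v : B Γ) : B Γ := (1 / 2 : ℝ) • (u + v)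

theorem hs_apply (u v : B Γ) (s : Γ) : hs u v s = (u s + v s) / 2 := by
  simp only [hs, B.smul_apply, B.add_apply]; ring

theorem T_hs (T : B Γ →L[ℝ] B Γ) (u v : B Γ) (t : Γ) : T (hs u v) t = (T u t + T v t) / 2 := by
  simp only [hs, map_smul, map_add, B.smul_apply, B.add_apply]; ring

theorem norm_hs {u v : B Γ} (hu : ‖u‖ ≤ 1) (hv : ‖v‖ ≤ 1) : ‖hs u v‖ ≤ 1 := by
  rw [hs, norm_smul, Real.norm_eq_abs, abs_of_pos (by norm_num)]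
  linarith [norm_add_le u v]

theorem Sm.hs {T : B Γ →L[ℝ] B Γ} {u v : B Γ} {b₁ b₂ : ℝ} {t : Γ} (h₁ : t ∈ Sm T u b₁)
    (h₂ : t ∈ Sm T v b₂) : t ∈ Sm T (hs u v) ((b₁ + b₂) / 2) := fun g hg =>
  Sm.avg h₁ h₂ g fun s => (hg s).trans (by rw [hs_apply]; nlinarith [sq_nonneg (u s - v s)])

theorem Sm.neg {T : B Γ →L[ℝ] B Γ} {v : B Γ} {b : ℝ} {t : Γ} (h : t ∈ Sm T v b) :
    t ∈ Sm T (-v) b := fun g hg => h g fun s => by simpa using hg s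

theorem Sm.para {T : B Γ →L[ℝ] B Γ} {u v : B Γ} {b : ℝ} {t : Γ} (h₁ : t ∈ Sm T u b)
    (h₂ : t ∈ Sm T v b) (h : t ∉ Sm T (Pool.Agent.Lib.MP_4a9e55_an.hs u v) (b / 2)) :
    t ∈ Sm T (Pool.Agent.Lib.MP_4a9e55_an.hs u (-v)) (b / 2) := fun g hg => by
  simp only [Sm, mem_ofPred_eq, not_forall, not_le] at h
  obtain ⟨g', h3, h4⟩ := h
  have := Sm.avg h₁ h₂ (g' + g) fun s => by
    have h5 := h3 s
    have h6 := hg s
    rw [hs_apply] at h5 h6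
    rw [B.neg_apply] at h6
    have := abs_add_le (g' s) (g s)
    rw [B.add_apply]
    nlinarith
  rw [map_add, B.add_apply] at this
  linarith

/-- positive traces of a family on another family -/
def rf (F : Filter Γ) (𝒱 ℰ : Set (Set Γ)) : Set (Set Γ) :=
  {W | Pos F W ∧ ∃ V ∈ 𝒱, ∃ E ∈ ℰ, W = V ∩ E}

theorem mk_rf_lt (hτ : ℵ₀ ≤ τ) {𝒱 ℰ : Set (Set Γ)} (h1 : #𝒱 < τ) (h2 : #ℰ < τ) :
    #(rf F 𝒱 ℰ) < τ := by
  have : rf F 𝒱 ℰ ⊆ range fun p : 𝒱 × ℰ => p.1.1 ∩ p.2.1 := by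
    rintro W ⟨-, V, hV, E, hE, rfl⟩
    exact ⟨(⟨V, hV⟩, ⟨E, hE⟩), rfl⟩
  refine (mk_le_mk_of_subset this).trans_lt (mk_range_le.trans_lt ?_)
  simp only [mk_prod, lift_id]
  exact mul_lt_of_lt hτ h1 h2

theorem mem_rf {𝒱 ℰ : Set (Set Γ)} {V E : Set Γ} (hV : V ∈ 𝒱) (hE : E ∈ ℰ) (h : Pos F (V ∩ E)) :
    V ∩ E ∈ rf F 𝒱 ℰ := ⟨h, V, hV, E, hE, rfl⟩

theorem exists_data_set (hG : Good κ τ) (hC : CC F κ) {𝒳 : ℕ → Set (B Γ)} {S : Set (Set Γ)}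
    (hS : Nice F τ 𝒳 S) : ∃ (D : Type) (data : Set Γ → D), #D < τ ∧ ∀ E₁ E₂, data E₁ = data E₂ →
      ∀ U ∈ S, Pos F (U ∩ E₁) ∨ ∃ A ∈ S, A ⊆ U ∧ ¬ Pos F (A ∩ E₂) := by
  obtain ⟨D, data, hD, h⟩ := exists_data hG hC hS.small hS.pos (show (0 : ℝ) < 1 / 2 by norm_num)
  let one : B Γ := mkB (fun _ => 1) 1 fun _ => by simp
  refine ⟨D, fun E => data (trunc E one), hD, fun E₁ E₂ he U hU => ?_⟩
  obtain ⟨A, hA, l, k, hUA, h1, h2⟩ := h _ _ he U hU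
  have hA' := hS.inter U hU A hA hUA
  rcases le_or_gt (1 / 2 : ℝ) (k * (1 / 2)) with hk | hk
  · refine Or.inl ((h1.up' _ hA' inter_subset_right).mono fun t ht => ⟨ht.1.1, ?_⟩)
    by_contra hc
    have := ht.2
    simp only [mem_ofPred_eq, trunc_of_not_mem _ hc] at this
    linarith
  · refine Or.inr ⟨_, hA', inter_subset_left, fun hp => h2.up (hp.mono fun t ht => ⟨ht.1.2, ?_⟩)⟩
    simp only [mem_ofPred_eq, trunc_of_mem _ ht.2, one, mkB_apply]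
    linarith

/-- `T y` takes values above `r` and below `-r` on `V` -/
def Spl (F : Filter Γ) (T : B Γ →L[ℝ] B Γ) (y : B Γ) (V : Set Γ) (r : ℝ) : Prop :=
  Pos F (V ∩ {t | r < T y t}) ∧ Pos F (V ∩ {t | T y t < -r})

/-- splitting functions that are small on positive parts -/
def SmL (F : Filter Γ) (τ : Cardinal.{0}) (T : B Γ →L[ℝ] B Γ) (c : Set Γ) (r b : ℝ) : Prop :=
  ∀ 𝒱 : Set (Set Γ), #𝒱 < τ → (∀ V ∈ 𝒱, Pos F V) → ∃ C : B Γ, ‖C‖ ≤ 1 ∧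
    ∀ V ∈ 𝒱, Pos F (V ∩ Sm T C b) ∧ (V ⊆ c → Spl F T C V r)

/-- generic pairs -/
def Pr (F : Filter Γ) (T : B Γ →L[ℝ] B Γ) (c : Set Γ) (r b : ℝ) (𝒱 : Set (Set Γ))
    (z : B Γ × B Γ) : Prop :=
  ‖z.1‖ ≤ 1 ∧ ‖z.2‖ ≤ 1 ∧ ∀ V ∈ 𝒱, Pos F (V ∩ (Sm T z.1 b ∩ Sm T z.2 b)) ∧
    (V ⊆ c → Spl F T (hs z.1 z.2) V r ∧ Spl F T (hs z.1 (-z.2)) V r)

theorem SmL.pair {T : B Γ →L[ℝ] B Γ} {c : Set Γ} {r b : ℝ} (h : SmL F τ T c r b) (hτ : ℵ₀ ≤ τ)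
    (𝒱 : Set (Set Γ)) (h1 : #𝒱 < τ) (h2 : ∀ V ∈ 𝒱, Pos F V) : ∃ z, Pr F T c r b 𝒱 z := by
  obtain ⟨u, hu, h3⟩ := h 𝒱 h1 h2
  obtain ⟨v, hv, h4⟩ := h (rf F 𝒱 {Sm T u b, {t | r < T u t}, {t | T u t < -r}})
    (mk_rf_lt hτ h1 ((Set.toFinite _).lt_aleph0.trans_le hτ)) fun V hV => hV.1
  refine ⟨(u, v), hu, hv, fun V hV => ⟨?_, fun hVc => ?_⟩⟩
  · rw [← inter_assoc]
    exact (h4 _ (mem_rf hV (by simp) (h3 V hV).1)).1
  · obtain ⟨h5, h6⟩ := (h3 V hV).2 hVc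
    obtain ⟨h7, h8⟩ := (h4 _ (mem_rf hV (by simp) h5)).2 (inter_subset_left.trans hVc)
    obtain ⟨h9, h10⟩ := (h4 _ (mem_rf hV (by simp) h6)).2 (inter_subset_left.trans hVc)
    refine ⟨⟨h7.mono fun t ht => ⟨ht.1.1, ?_⟩, h10.mono fun t ht => ⟨ht.1.1, ?_⟩⟩,
      h8.mono fun t ht => ⟨ht.1.1, ?_⟩, h9.mono fun t ht => ⟨ht.1.1, ?_⟩⟩
    all_goals
      have e1 := ht.1.2
      have e2 := ht.2
      simp only [mem_ofPred_eq, T_hs, map_neg, B.neg_apply] at e1 e2 ⊢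
      linarith

theorem SmL.step (hG : Good κ τ) (hC : CC F κ) {T : B Γ →L[ℝ] B Γ} {c : Set Γ} {r b : ℝ}
    (h : SmL F τ T c r b) : SmL F τ T c r (3 / 4 * b) := by
  intro 𝒱 h1 h2
  have hτ := hG.reg.aleph0_le
  obtain ⟨S, hS0, hS⟩ := exists_nice hG hC (fun _ => ∅) 𝒱 h1 h2
  obtain ⟨D, data, hD, hdata⟩ := exists_data_set hG hC hS
  let E : B Γ × B Γ → Set Γ := fun z => Sm T (hs z.1 z.2) (b / 2)
  have hrep : ∀ d : D, ∃ z, (∃ z', Pr F T c r b S z' ∧ data (E z') = d) →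
      Pr F T c r b S z ∧ data (E z) = d := fun d => by
    by_cases hd : ∃ z', Pr F T c r b S z' ∧ data (E z') = d
    · obtain ⟨z, hz⟩ := hd
      exact ⟨z, fun _ => hz⟩
    · exact ⟨0, fun h => absurd h hd⟩
  choose rep hrep using hrep
  let ℰ : D → Set (Set Γ) := fun d => {E (rep d), Sm T (rep d).1 b ∩ Sm T (rep d).2 b,
    {t | r < T (hs (rep d).1 (rep d).2) t}, {t | T (hs (rep d).1 (rep d).2) t < -r}}
  obtain ⟨w, hw1, hw2, hw⟩ := h.pair hτ (rf F S (insert Set.univ (⋃ d, ℰ d)))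
    (mk_rf_lt hτ hS.small (mk_insert_le.trans_lt (add_lt_of_lt hτ
      ((card_iUnion_lt_iff_forall_of_isRegular hG.reg hD).mpr fun d =>
        (Set.toFinite _).lt_aleph0.trans_le hτ) (one_lt_aleph0.trans_le hτ)))) fun V hV => hV.1
  obtain ⟨⟨hz1, hz2, hz⟩, he⟩ := hrep (data (E w)) ⟨w, ⟨hw1, hw2, fun V hV => by
    have := hw _ (mem_rf hV (mem_insert _ _) (by rw [inter_univ]; exact hS.pos V hV))
    rwa [inter_univ] at this⟩, rfl⟩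
  have hm : ∀ E' ∈ ℰ (data (E w)), E' ∈ insert Set.univ (⋃ d, ℰ d) := fun E' hE' =>
    mem_insert_of_mem _ (mem_iUnion.mpr ⟨_, hE'⟩)
  set z := rep (data (E w)) with hzd
  refine ⟨hs (hs z.1 z.2) (hs w.1 (-w.2)), norm_hs (norm_hs hz1 hz2)
    (norm_hs hw1 (by rwa [norm_neg])), fun U hU => ⟨?_, fun hUc => ?_⟩⟩
  · rcases hdata _ _ he U (hS0 hU) with h3 | ⟨A, hA, hAU, h3⟩
    · refine (hw _ (mem_rf (hS0 hU) (hm _ (by simp [ℰ, ← hzd])) h3)).1.mono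
        fun t ht => ⟨ht.1.1, fun g hg => ?_⟩
      have := Sm.hs ht.1.2 (Sm.hs ht.2.1 (Sm.neg ht.2.2)) g hg
      linarith
    · refine (hw _ (mem_rf hA (hm _ (by simp [ℰ, ← hzd])) (hz A hA).1)).1.of_null h3
        fun t ht => ?_
      by_cases h4 : t ∈ E w
      · exact Or.inl ⟨ht.1.1, h4⟩
      · refine Or.inr ⟨hAU ht.1.1, fun g hg => ?_⟩
        have := Sm.hs (Sm.hs ht.1.2.1 ht.1.2.2) (Sm.para ht.2.1 ht.2.2 h4) g hg
        linarith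
  · obtain ⟨h5, h6⟩ := ((hz U (hS0 hU)).2 hUc).1
    have h7 := ((hw _ (mem_rf (hS0 hU) (hm _ (by simp [ℰ, ← hzd])) h5)).2
      (inter_subset_left.trans hUc)).2.1
    have h8 := ((hw _ (mem_rf (hS0 hU) (hm _ (by simp [ℰ, ← hzd])) h6)).2
      (inter_subset_left.trans hUc)).2.2
    refine ⟨h7.mono fun t ht => ⟨ht.1.1, ?_⟩, h8.mono fun t ht => ⟨ht.1.1, ?_⟩⟩
    all_goals
      have e1 := ht.1.2
      have e2 := ht.2
      simp only [mem_ofPred_eq] at e1 e2 ⊢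
      rw [T_hs]
      linarith

/-- image of the unit ball of the functions supported in `W` -/
def TB (T : B Γ →L[ℝ] B Γ) (W : Set Γ) : Set (B Γ) := T '' {g | g ∈ suppSub W ∧ ‖g‖ ≤ 1}

theorem VV.smL (hG : Good κ τ) (hC : CC F κ) {T : B Γ →L[ℝ] B Γ} {c : Set Γ} {r ε η : ℝ}
    (h : VV F τ (TB T Set.univ) c r) (hε : 0 < ε) (hη : 0 < η) : SmL F τ T c (r - ε) η := by
  have h0 : ∀ k : ℕ, SmL F τ T c (r - ε) ((3 / 4) ^ k * (‖T‖ + 1)) := fun k => by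
    induction k with
    | zero =>
      intro 𝒱 h1 h2
      obtain ⟨g, hg, h3⟩ := VV.sym_ball hG hC T _ h 𝒱 h1 h2 hε
      refine ⟨g, hg.2, fun V hV => ⟨(h2 V hV).mono fun t ht => ⟨ht, fun g' hg' => ?_⟩,
        (h3 V hV).2.2⟩⟩
      have h4 : ‖g'‖ ≤ 1 := B.norm_le zero_le_one fun s => (hg' s).trans (by
        rw [← sq_abs]
        exact pow_le_one₀ (abs_nonneg _) ((B.abs_le g s).trans hg.2))
      have h5 := (le_abs_self _).trans ((B.abs_le _ t).trans ((T.le_opNorm g').trans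
        (mul_le_of_le_one_right (norm_nonneg _) h4)))
      linarith
    | succ k ih => rw [pow_succ', mul_assoc]; exact ih.step hG hC
  have hT : 0 < ‖T‖ + 1 := by positivity
  obtain ⟨k, hk⟩ := exists_pow_lt_of_lt_one (div_pos hη hT) (show (3 / 4 : ℝ) < 1 by norm_num)
  rw [lt_div_iff₀ hT] at hk
  intro 𝒱 h1 h2
  obtain ⟨C, h3, h4⟩ := h0 k 𝒱 h1 h2
  exact ⟨C, h3, fun V hV => ⟨(h4 V hV).1.mono fun t ht =>
    ⟨ht.1, fun g hg => (ht.2 g hg).trans hk.le⟩, (h4 V hV).2⟩⟩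

end Pool.Agent.Lib.MP_4a9e55_an
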