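import Pool.Agent.Lib.MP_4a9e55_an.Env

set_option autoImplicit false

open Cardinal Set Filter

namespace Pool.Agent.Lib.MP_4a9e55_an

variable {Γ : Type} {F : Filter Γ} {κ τ : Cardinal.{0}}

theorem Flat.osc {S : Set (Set Γ)} {y : B Γ} {ε m M r : ℝ} {A : Set Γ} (h : Flat F S y ε A m M)
    (hr : 2 * r + 2 * ε ≤ M - m) : ∀ U ∈ S, U ⊆ A → Osc F y U r := fun U hU hUA =>
  ⟨(M + m) / 2, (h.up' U hU hUA).mono fun t ht => ⟨ht.1, by
      have := ht.2; simp only [mem_ofPred_eq] at this ⊢; linarith⟩,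
    (h.dn' U hU hUA).mono fun t ht => ⟨ht.1, by
      have := ht.2; simp only [mem_ofPred_eq] at this ⊢; linarith⟩⟩

theorem exists_VV (hG : Good κ τ) (hC : CC F κ) (I : Set (B Γ)) (hI : τ ≤ #I)
    (hsep : ∀ x ∈ I, ∀ y ∈ I, x ≠ y → ∃ ε > 0, Pos F {t | ε < |x t - y t|}) :
    ∃ c r, Pos F c ∧ 0 < r ∧ VV F τ I c r := by
  by_contra hcon
  push Not at hcon
  obtain ⟨S, -, hS⟩ := exists_nice hG hC (fun _ => I) ∅ (by simpa using hG.reg.pos) (by simp)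
  have hε : ∀ n : ℕ, (0 : ℝ) < 1 / ((n : ℝ) + 1) := fun n => Nat.one_div_pos_of_nat
  choose D data hD hdata using fun n : ℕ => exists_data hG hC hS.small hS.pos (hε n)
  have hinj : Function.Injective fun (x : I) (n : ℕ) => data n x := by
    intro x y hxy
    by_contra hne
    obtain ⟨ε₀, hε₀, hV⟩ := hsep x x.2 y y.2 fun h => hne (Subtype.ext h)
    obtain ⟨n, hn⟩ := exists_nat_one_div_lt (show 0 < ε₀ / 4 by positivity)
    obtain ⟨U, hU, hred⟩ := hS.red _ hV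
    obtain ⟨A, hA, l, k, hUA, hf1, hf2⟩ := hdata n x y (congrFun hxy n) U hU
    have hp := hred _ (hS.inter U hU A hA hUA) inter_subset_left
    set ε : ℝ := 1 / ((n : ℝ) + 1) with hεd
    have hlt : k * ε - l * ε < 4 * ε := by
      by_contra hge
      have hq : ((1 / ((n : ℚ) + 1) : ℚ) : ℝ) = ε := by rw [hεd]; push_cast; rfl
      have := hS.wit 0 A hA (1 / ((n : ℚ) + 1)) x x.2 (by
        rw [hq]; exact hf1.osc (by linarith))
      rw [hq] at this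
      exact hcon A ε (hS.pos A hA) (hε n) this
    have hnull : ¬ Pos F ((A ∩ {t | k * ε < x.1 t} ∪ A ∩ {t | x.1 t < l * ε}) ∪
        (A ∩ {t | k * ε < y.1 t} ∪ A ∩ {t | y.1 t < l * ε})) := by
      simp only [pos_union, not_or]
      exact ⟨⟨hf1.up, hf1.dn⟩, hf2.up, hf2.dn⟩
    refine hnull (hp.mono fun t ht => ?_)
    by_contra hc
    simp only [mem_union, mem_inter_iff, mem_ofPred_eq, not_or, not_and, not_lt] at hc
    have h1 := hc.1.1 ht.1.2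
    have h2 := hc.1.2 ht.1.2
    have h3 := hc.2.1 ht.1.2
    have h4 := hc.2.2 ht.1.2
    have h5 : ε₀ < |x.1 t - y.1 t| := ht.2
    have h6 : |x.1 t - y.1 t| ≤ ε₀ := abs_le.mpr ⟨by linarith, by linarith⟩
    linarith
  have h1 := mk_le_of_injective hinj
  have h2 : (⨆ n, #(D n)) < τ := iSup_lt_of_isRegular hG.reg (by simpa using hG.aleph0_lt) hD
  have h3 : #(∀ n, D n) ≤ (⨆ n, #(D n)) ^ ℵ₀ := by
    rw [mk_pi]
    refine (prod_le_prod _ (fun _ : ℕ => ⨆ n, #(D n)) fun n =>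
      le_ciSup (f := fun n => #(D n)) bddAbove_of_small n).trans ?_
    simp
  exact absurd (hI.trans (h1.trans (h3.trans (le_powerlt _ hG.unc)))) (not_le.mpr (hG.pow _ h2))

theorem mk_finset_pairs_lt {α : Type} {γ : Cardinal.{0}} (hγ : ℵ₀ < γ) (h : #α < γ) :
    #(Finset α × Finset α) < γ := by
  have h1 : #(Finset α) < γ := by
    rcases finite_or_infinite α with hα | hα
    · exact (lt_aleph0_of_finite _).trans hγ
    · rwa [mk_finset_of_infinite]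
  simp only [mk_prod, lift_id]
  exact mul_lt_of_lt hγ.le h1 h1

theorem exists_indep {γ : Cardinal.{0}} (hγ : ℵ₀ < γ) (𝒴 : Set (B Γ)) {c : Set Γ} (hc : Pos F c)
    {r : ℝ} (hr : 0 ≤ r) (h : ∀ 𝒰 : Set (Set Γ), #𝒰 < γ → (∀ U ∈ 𝒰, Pos F U) → ∃ y ∈ 𝒴,
      ∀ U ∈ 𝒰, U ⊆ c → Pos F (U ∩ {t | r < y t}) ∧ Pos F (U ∩ {t | y t < -r})) :
    ∃ J ⊆ 𝒴, γ ≤ #J ∧ IsL1 (fun y : J => (y : B Γ)) r := by
  classical
  let cell : Finset (B Γ) → Finset (B Γ) → Set Γ := fun s s' =>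
    c ∩ {t | (∀ y ∈ s, r < y t) ∧ ∀ y ∈ s', y t < -r}
  let Ind : Set (Set (B Γ)) := {J | J ⊆ 𝒴 ∧ ∀ s s' : Finset (B Γ), ↑s ⊆ J → ↑s' ⊆ J →
    Disjoint s s' → Pos F (cell s s')}
  obtain ⟨J, -, hJ⟩ := zorn_subset_nonempty Ind (by
    intro ch hch hchain hne
    refine ⟨⋃₀ ch, ⟨sUnion_subset fun J hJ => (hch hJ).1, fun s s' hs hs' hd => ?_⟩,
      fun J hJ => subset_sUnion_of_mem hJ⟩
    have hsub : (↑(s ∪ s') : Set (B Γ)) ⊆ ⋃ J ∈ ch, J := by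
      rw [← sUnion_eq_biUnion, Finset.coe_union]; exact union_subset hs hs'
    obtain ⟨J, hJ, hJs⟩ := hchain.directedOn.exists_mem_subset_of_finset_subset_biUnion hne hsub
    rw [Finset.coe_union] at hJs
    exact (hch hJ).2 s s' (subset_union_left.trans hJs) (subset_union_right.trans hJs) hd) ∅
    ⟨empty_subset _, fun s s' hs hs' _ => hc.mono fun t ht => ⟨ht,
      fun y hy => absurd (hs hy) (notMem_empty _), fun y hy => absurd (hs' hy) (notMem_empty _)⟩⟩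
  refine ⟨J, hJ.prop.1, ?_, fun s a => ?_⟩
  · by_contra hlt
    let e : J ↪ B Γ := Function.Embedding.subtype _
    obtain ⟨y, hy, hsplit⟩ := h ({U | Pos F U} ∩
        range fun p : Finset J × Finset J => cell (p.1.map e) (p.2.map e))
      ((mk_le_mk_of_subset inter_subset_right).trans_lt
        (mk_range_le.trans_lt (mk_finset_pairs_lt hγ (not_le.mp hlt)))) fun U hU => hU.1
    have hsp : ∀ s s' : Finset (B Γ), ↑s ⊆ J → ↑s' ⊆ J → Disjoint s s' →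
        Pos F (cell s s' ∩ {t | r < y t}) ∧ Pos F (cell s s' ∩ {t | y t < -r}) := by
      intro s s' hs hs' hd
      refine hsplit _ ⟨hJ.prop.2 s s' hs hs' hd, (s.subtype (· ∈ J), s'.subtype (· ∈ J)), ?_⟩
        inter_subset_left
      simp only [e]
      rw [Finset.subtype_map_of_mem fun x hx => hs hx, Finset.subtype_map_of_mem fun x hx => hs' hx]
    have hyJ : y ∉ J := fun hyJ => by
      obtain ⟨t, h1, h2⟩ := (hsp {y} ∅ (by simpa using hyJ) (by simp) (by simp)).2.nonempty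
      have h3 := h1.2.1 y (by simp)
      have h4 : y t < -r := h2
      linarith
    have hins : insert y J ∈ Ind := by
      refine ⟨insert_subset hy hJ.prop.1, fun s s' hs hs' hd => ?_⟩
      have he : ∀ s : Finset (B Γ), ↑s ⊆ insert y J → ↑(s.erase y) ⊆ J := fun s hs x hx => by
        have hx' := Finset.mem_erase.mp hx
        exact (hs hx'.2).resolve_left hx'.1
      have hd' : Disjoint (s.erase y) (s'.erase y) :=
        hd.mono (Finset.erase_subset _ _) (Finset.erase_subset _ _)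
      have h1 := hsp _ _ (he s hs) (he s' hs') hd'
      by_cases hys : y ∈ s
      · refine h1.1.mono fun t ht => ⟨ht.1.1, fun x hx => ?_, fun x hx => ?_⟩
        · by_cases hxy : x = y
          · exact hxy ▸ ht.2
          · exact ht.1.2.1 x (Finset.mem_erase.mpr ⟨hxy, hx⟩)
        · exact ht.1.2.2 x (Finset.mem_erase.mpr
            ⟨fun hxy => Finset.disjoint_left.mp hd hys (hxy ▸ hx), hx⟩)
      · refine h1.2.mono fun t ht => ⟨ht.1.1, fun x hx => ?_, fun x hx => ?_⟩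
        · exact ht.1.2.1 x (Finset.mem_erase.mpr ⟨fun hxy => hys (hxy ▸ hx), hx⟩)
        · by_cases hxy : x = y
          · exact hxy ▸ ht.2
          · exact ht.1.2.2 x (Finset.mem_erase.mpr ⟨hxy, hx⟩)
    exact hyJ (hJ.eq_of_subset hins (subset_insert _ _) ▸ mem_insert _ _)
  · let e : J ↪ B Γ := Function.Embedding.subtype _
    obtain ⟨t, ht⟩ := (hJ.prop.2 ((s.filter fun j => 0 ≤ a j).map e)
      ((s.filter fun j => ¬ 0 ≤ a j).map e)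
      (fun x hx => by obtain ⟨j, -, rfl⟩ := Finset.mem_map.mp hx; exact j.2)
      (fun x hx => by obtain ⟨j, -, rfl⟩ := Finset.mem_map.mp hx; exact j.2)
      ((Finset.disjoint_map e).mpr (Finset.disjoint_filter_filter_not _ _ _))).nonempty
    refine le_trans ?_ ((le_abs_self _).trans (B.abs_le _ t))
    rw [B.sum_apply, Finset.mul_sum]
    refine Finset.sum_le_sum fun j hj => ?_
    rw [B.smul_apply]
    by_cases hja : 0 ≤ a j
    · have := ht.2.1 j (Finset.mem_map.mpr ⟨j, Finset.mem_filter.mpr ⟨hj, hja⟩, rfl⟩)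
      rw [abs_of_nonneg hja]
      nlinarith
    · have := ht.2.2 j (Finset.mem_map.mpr ⟨j, Finset.mem_filter.mpr ⟨hj, hja⟩, rfl⟩)
      rw [abs_of_neg (not_le.mp hja)]
      nlinarith [not_le.mp hja]

section Op
variable {X : Type} [NormedAddCommGroup X] [NormedSpace ℝ X]

/-- elements of `X` that vanish modulo the ideal -/
def Ker (F : Filter Γ) (i : X →L[ℝ] B Γ) : Set X := {x | ∀ ε > 0, ¬ Pos F {t | ε < |i x t|}}

/-- many elements contain many elements distinct modulo the kernel -/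
theorem exists_sep_mod (K : Set X) (A : Set X) (hτ : ℵ₀ ≤ τ) (hK : #K < τ) (hA : τ ≤ #A)
    (hK0 : (0 : X) ∈ K) (hneg : ∀ x ∈ K, -x ∈ K) :
    ∃ I ⊆ A, τ ≤ #I ∧ ∀ x ∈ I, ∀ y ∈ I, x ≠ y → x - y ∉ K := by
  obtain ⟨I, hI⟩ := zorn_subset {I | I ⊆ A ∧ I.Pairwise fun x y => x - y ∉ K} (by
    intro c hc hchain
    refine ⟨⋃₀ c, ⟨sUnion_subset fun s hs => (hc hs).1, ?_⟩, fun s hs => subset_sUnion_of_mem hs⟩
    rintro x ⟨s, hs, hx⟩ y ⟨s', hs', hy⟩ hne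
    rcases hchain.total hs hs' with h | h
    · exact (hc hs').2 (h hx) hy hne
    · exact (hc hs).2 hx (h hy) hne)
  refine ⟨I, hI.prop.1, ?_, fun x hx y hy hne => hI.prop.2 hx hy hne⟩
  by_contra hlt
  have hcov : A ⊆ range fun p : I × K => p.1.1 + p.2.1 := fun x hx => by
    by_contra hc
    have h1 : ∀ y ∈ I, x - y ∉ K := fun y hy hk => hc ⟨(⟨y, hy⟩, ⟨_, hk⟩), by simp⟩
    have h2 : insert x I ∈ {I | I ⊆ A ∧ I.Pairwise fun x y => x - y ∉ K} :=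
      ⟨insert_subset hx hI.prop.1, hI.prop.2.insert fun y hy _ =>
        ⟨h1 y hy, fun hk => h1 y hy (by simpa using hneg _ hk)⟩⟩
    have h3 : x ∈ I := hI.eq_of_subset h2 (subset_insert _ _) ▸ mem_insert _ _
    exact h1 x h3 (by simpa using hK0)
  have h4 : #(I × K) < τ := by
    simp only [mk_prod, lift_id]
    exact mul_lt_of_lt hτ (not_le.mp hlt) hK
  exact absurd (hA.trans ((mk_le_mk_of_subset hcov).trans mk_range_le)) (not_le.mpr h4)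

theorem zero_mem_ker (i : X →L[ℝ] B Γ) : (0 : X) ∈ Ker F i := fun ε hε hp => by
  obtain ⟨t, ht⟩ := hp.nonempty
  have : ε < |i 0 t| := ht
  simp at this
  linarith

theorem neg_mem_ker (i : X →L[ℝ] B Γ) : ∀ x ∈ Ker F i, -x ∈ Ker F i := fun x hx ε hε => by
  simpa using hx ε hε

/-- a bounded part of a subspace with large image has large image -/
theorem exists_ball_large (P : B Γ →L[ℝ] X) (N : Submodule ℝ (B Γ)) (hτ : ℵ₀ < τ.ord.cof)
    (hN : τ ≤ #(P '' N)) : ∃ n : ℕ, τ ≤ #(P '' {g | g ∈ N ∧ ‖g‖ ≤ n + 1}) := by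
  by_contra hc
  push Not at hc
  have hcov : P '' N ⊆ ⋃ n : ℕ, P '' {g | g ∈ N ∧ ‖g‖ ≤ n + 1} := by
    rintro _ ⟨g, hg, rfl⟩
    obtain ⟨n, hn⟩ := exists_nat_ge ‖g‖
    exact mem_iUnion.mpr ⟨n, g, ⟨hg, by linarith⟩, rfl⟩
  have h0 : ℵ₀ < τ := hτ.trans_le (Ordinal.cof_ord_le τ)
  have := (mk_le_mk_of_subset hcov).trans (mk_iUnion_le _)
  exact absurd (hN.trans this) (not_le.mpr (mul_lt_of_lt h0.le (by simpa using h0)
    (iSup_lt_of_lt_cof_ord (by simpa using hτ) hc)))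

/-- the basic dichotomy: a large range produces an oscillation type -/
theorem exists_VV_op (hG : Good κ τ) (hC : CC F κ) (i : X →L[ℝ] B Γ) (P : B Γ →L[ℝ] X)
    (hK : #(Ker F i) < τ) (N : Submodule ℝ (B Γ)) (hN : τ ≤ #(P '' N)) :
    ∃ c r, Pos F c ∧ 0 < r ∧ VV F τ ((fun g => i (P g)) '' {g | g ∈ N ∧ ‖g‖ ≤ 1}) c r := by
  obtain ⟨n, hn⟩ := exists_ball_large P N (by rw [hG.reg.cof_ord]; exact hG.aleph0_lt) hN
  have hn0 : (0 : ℝ) < n + 1 := by positivity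
  have hn' : τ ≤ #(P '' {g | g ∈ N ∧ ‖g‖ ≤ 1}) := by
    refine hn.trans (mk_le_of_injective (f := fun x => ⟨((n : ℝ) + 1)⁻¹ • x.1, ?_⟩) ?_)
    · obtain ⟨_, g, hg, rfl⟩ := x
      refine ⟨((n : ℝ) + 1)⁻¹ • g, ⟨N.smul_mem _ hg.1, ?_⟩, by simp⟩
      rw [norm_smul, Real.norm_eq_abs, abs_of_pos (inv_pos.mpr hn0), inv_mul_le_iff₀ hn0]
      simpa using hg.2
    · intro x y hxy
      exact Subtype.ext (smul_right_injective X (inv_pos.mpr hn0).ne' (congrArg Subtype.val hxy))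
  obtain ⟨I, hIA, hI, hsep⟩ := exists_sep_mod (Ker F i) _ hG.reg.aleph0_le hK hn'
    (zero_mem_ker i) (neg_mem_ker i)
  have hinj : InjOn i I := fun x hx y hy hxy => by
    by_contra hne
    refine hsep x hx y hy hne fun ε hε hp => ?_
    obtain ⟨t, ht⟩ := hp.nonempty
    have : ε < |i (x - y) t| := ht
    rw [map_sub, hxy] at this
    simp at this
    linarith
  obtain ⟨c, r, h1, h2, h3⟩ := exists_VV hG hC (i '' I) (by rwa [mk_image_eq_of_injOn _ _ hinj]) (by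
    rintro _ ⟨x, hx, rfl⟩ _ ⟨y, hy, rfl⟩ hne
    have := hsep x hx y hy fun h => hne (h ▸ rfl)
    simp only [Ker, mem_ofPred_eq, not_forall, not_not, map_sub, B.sub_apply] at this
    obtain ⟨ε, hε, hp⟩ := this
    exact ⟨ε, hε, hp⟩)
  refine ⟨c, r, h1, h2, h3.mono le_rfl ?_ subset_rfl le_rfl⟩
  rintro _ ⟨x, hx, rfl⟩
  obtain ⟨g, hg, rfl⟩ := hIA hx
  exact ⟨g, hg, rfl⟩

/-- from a symmetric splitting property to an `ℓ¹`-family -/
theorem l1_of_split {γ : Cardinal.{0}} (hγ : ℵ₀ < γ) (i : X →L[ℝ] B Γ) (hi : ∀ x, ‖i x‖ = ‖x‖)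
    (P : B Γ →L[ℝ] X) (N : Set (B Γ)) {c : Set Γ} (hc : Pos F c) {r : ℝ} (hr : 0 ≤ r)
    (h : ∀ 𝒰 : Set (Set Γ), #𝒰 < γ → (∀ U ∈ 𝒰, Pos F U) → ∃ g ∈ N,
      ∀ U ∈ 𝒰, U ⊆ c → Pos F (U ∩ {t | r < i (P g) t}) ∧ Pos F (U ∩ {t | i (P g) t < -r}))
    (J : Type) (hJ : #J ≤ γ) : ∃ z : J → B Γ, (∀ j, z j ∈ N) ∧ IsL1 (fun j => P (z j)) r := by
  obtain ⟨J', h1, h2, h3⟩ := exists_indep hγ ((fun g => i (P g)) '' N) hc hr fun 𝒰 h𝒰 hp => by
    obtain ⟨g, hg, h4⟩ := h 𝒰 h𝒰 hp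
    exact ⟨_, ⟨g, hg, rfl⟩, h4⟩
  obtain ⟨e⟩ := (Cardinal.le_def _ _).mp (hJ.trans h2)
  choose z hz hz' using fun j : J => h1 (e j).2
  refine ⟨z, hz, fun s a => ?_⟩
  have := h3.comp e e.injective s a
  rw [← hi, map_sum]
  simp only [map_smul]
  simp only [← hz'] at this
  exact this

theorem half_sub_mem {N : Submodule ℝ (B Γ)} {g₁ g₂ : B Γ} (h₁ : g₁ ∈ N ∧ ‖g₁‖ ≤ 1)
    (h₂ : g₂ ∈ N ∧ ‖g₂‖ ≤ 1) :
    (1 / 2 : ℝ) • (g₁ - g₂) ∈ N ∧ ‖(1 / 2 : ℝ) • (g₁ - g₂)‖ ≤ 1 := by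
  refine ⟨N.smul_mem _ (N.sub_mem h₁.1 h₂.1), ?_⟩
  rw [norm_smul, Real.norm_eq_abs, abs_of_pos (by norm_num)]
  have := norm_sub_le g₁ g₂
  linarith [h₁.2, h₂.2]

/-- symmetric form of `VV` for the image of a unit ball -/
theorem VV.sym_ball (hG : Good κ τ) (hC : CC F κ) (T : B Γ →L[ℝ] B Γ) (N : Submodule ℝ (B Γ))
    {c : Set Γ} {r : ℝ} (h : VV F τ (T '' {g | g ∈ N ∧ ‖g‖ ≤ 1}) c r) (𝒰 : Set (Set Γ))
    (h𝒰 : #𝒰 < τ) (hp : ∀ U ∈ 𝒰, Pos F U) {ε : ℝ} (hε : 0 < ε) :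
    ∃ g, (g ∈ N ∧ ‖g‖ ≤ 1) ∧ ∀ U ∈ 𝒰,
      Pos F (U ∩ {t | T g t ≤ ε}) ∧ Pos F (U ∩ {t | -ε ≤ T g t}) ∧
      (U ⊆ c → Pos F (U ∩ {t | r - ε < T g t}) ∧ Pos F (U ∩ {t | T g t < -(r - ε)})) := by
  obtain ⟨_, ⟨g₁, hg₁, rfl⟩, _, ⟨g₂, hg₂, rfl⟩, h3⟩ := h.sym hG hC 𝒰 h𝒰 hp hε
  refine ⟨_, half_sub_mem hg₁ hg₂, fun U hU => ?_⟩
  obtain ⟨h4, h5, h6⟩ := h3 U hU
  have e : ∀ t, T ((1 / 2 : ℝ) • (g₁ - g₂)) t = (T g₁ t - T g₂ t) / 2 := fun t => by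
    simp only [map_smul, map_sub, B.smul_apply, B.sub_apply]; ring
  refine ⟨h4.mono fun t ht => ⟨ht.1, ?_⟩, h5.mono fun t ht => ⟨ht.1, ?_⟩, fun hUc =>
    ⟨(h6 hUc).1.mono fun t ht => ⟨ht.1, ?_⟩, (h6 hUc).2.mono fun t ht => ⟨ht.1, ?_⟩⟩⟩
  all_goals
    have := ht.2
    simp only [mem_ofPred_eq, e] at this ⊢
    linarith

/-- a subspace with large image carries an `ℓ¹`-family -/
theorem t2op (hG : Good κ τ) (hC : CC F κ) (i : X →L[ℝ] B Γ) (hi : ∀ x, ‖i x‖ = ‖x‖)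
    (P : B Γ →L[ℝ] X) (hK : #(Ker F i) < τ) (N : Submodule ℝ (B Γ)) (hN : τ ≤ #(P '' N))
    (J : Type) (hJ : #J ≤ τ) :
    ∃ r > 0, ∃ z : J → B Γ, (∀ j, z j ∈ N ∧ ‖z j‖ ≤ 1) ∧ IsL1 (fun j => P (z j)) r := by
  obtain ⟨c, r, h1, h2, h3⟩ := exists_VV_op hG hC i P hK N hN
  refine ⟨r - r / 2, by linarith, l1_of_split hG.aleph0_lt i hi P {g | g ∈ N ∧ ‖g‖ ≤ 1} h1
    (by linarith) (fun 𝒰 h𝒰 hp => ?_) J hJ⟩
  obtain ⟨g, hg, h4⟩ := VV.sym_ball hG hC (i.comp P) N h3 𝒰 h𝒰 hp (half_pos h2)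
  exact ⟨g, hg, fun U hU hUc => (h4 U hU).2.2 hUc⟩

end Op

end Pool.Agent.Lib.MP_4a9e55_an
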