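import Pool.Agent.Lib.MP_4a9e55_an.Basic

set_option autoImplicit false

open scoped ENNReal
open Cardinal

namespace Pool.Agent.Lib.MP_4a9e55_an

namespace Tw

section Blocks

theorem small_union {J : Type} [Infinite J] {A A' : Set J} (hA : #A < #J) (hA' : #A' < #J) :
    #(A ∪ A' : Set J) < #J :=
  (mk_union_le A A').trans_lt (add_lt_of_lt (aleph0_le_mk J) hA hA')

theorem small_finite {J : Type} [Infinite J] {A : Set J} (hA : A.Finite) : #A < #J :=
  hA.lt_aleph0.trans_le (aleph0_le_mk J)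

theorem small_iUnion {J I : Type} [Infinite J] (hI : #I < #J) (s : I → Finset J) :
    #(⋃ i, (s i : Set J)) < #J := by
  cases finite_or_infinite I with
  | inl h => exact small_finite (Set.finite_iUnion fun i => (s i).finite_toSet)
  | inr h =>
    have h1 : (⨆ i, #(s i : Set J)) ≤ ℵ₀ :=
      ciSup_le' fun i => (s i).finite_toSet.lt_aleph0.le
    calc #(⋃ i, (s i : Set J)) ≤ #I * ⨆ i, #(s i : Set J) := mk_iUnion_le _
      _ ≤ #I * ℵ₀ := mul_le_mul_right h1 _
      _ = #I := mul_aleph0_eq (aleph0_le_mk I)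
      _ < #J := hI

theorem exists_not_mem {J : Type} {A : Set J} (hA : #A < #J) : ∃ j, j ∉ A := by
  by_contra h
  push Not at h
  rw [Set.eq_univ_of_forall h, mk_univ] at hA
  exact lt_irrefl _ hA

/-- transfinite choice of blocks with disjoint supports -/
theorem exists_blocks {J K β : Type} [Infinite J] (hK : #K ≤ #J) (supp : β → Finset J)
    (Q : K → β → Prop)
    (h : ∀ (k : K) (A : Set J), #A < #J → ∃ b, Q k b ∧ Disjoint (supp b : Set J) A) :
    ∃ e : K → β, (∀ k, Q k (e k)) ∧ Pairwise fun k l => Disjoint (supp (e k)) (supp (e l)) := by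
  obtain ⟨lo, wf, hr⟩ := Cardinal.exists_ord_eq_type_lt K
  have hsm : ∀ k : K, #(Set.Iio k) < #J := fun k => (mk_Iio_lt k hr).trans_le hK
  choose f hf1 hf2 using h
  let e : K → β := (wellFounded_lt (α := K)).fix fun k ih =>
    f k (⋃ l : Set.Iio k, (supp (ih l l.2) : Set J)) (small_iUnion (hsm k) _)
  have he : ∀ k, e k = f k (⋃ l : Set.Iio k, (supp (e l) : Set J)) (small_iUnion (hsm k) _) :=
    fun k => (wellFounded_lt (α := K)).fix_eq _ k
  have hd : ∀ k l, l < k → Disjoint (supp (e k)) (supp (e l)) := by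
    intro k l hl
    have h1 := hf2 k (⋃ l : Set.Iio k, (supp (e l) : Set J)) (small_iUnion (hsm k) _)
    rw [← he k] at h1
    rw [← Finset.disjoint_coe]
    exact h1.mono_right (Set.subset_iUnion (fun l : Set.Iio k => (supp (e l) : Set J)) ⟨l, hl⟩)
  refine ⟨e, fun k => ?_, fun k l hkl => ?_⟩
  · rw [he k]
    exact hf1 _ _ _
  · rcases lt_or_gt_of_ne hkl with h | h
    · exact (hd l k h).symm
    · exact hd k l h

end Blocks

section L1
variable {X : Type} [NormedAddCommGroup X] [NormedSpace ℝ X]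

theorem isL1_mono {J : Type} {x : J → X} {r r' : ℝ} (h : IsL1 x r) (hr : r' ≤ r) : IsL1 x r' :=
  fun s a => (mul_le_mul_of_nonneg_right hr
    (Finset.sum_nonneg fun _ _ => abs_nonneg _)).trans (h s a)

theorem isL1_le_norm {J : Type} {x : J → X} {r : ℝ} (h : IsL1 x r) (j : J) : r ≤ ‖x j‖ := by
  simpa using h {j} fun _ => 1

/-- blocks of an `ℓ¹`-family -/
theorem isL1_blocks {J K : Type} {x : J → X} {r : ℝ} (h : IsL1 x r) (s : K → Finset J)
    (a : K → J → ℝ) (hd : Pairwise fun k l => Disjoint (s k) (s l)) (m : ℝ)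
    (hm : ∀ k, ∑ j ∈ s k, |a k j| = m) :
    IsL1 (fun k => ∑ j ∈ s k, a k j • x j) (r * m) := by
  classical
  have hinj : Function.Injective (fun p : (Σ k : K, s k) => (p.2 : J)) := by
    rintro ⟨k, j, hj⟩ ⟨l, j', hj'⟩ e
    have e' : j = j' := e
    subst e'
    have hkl : k = l := by
      by_contra hne
      exact Finset.disjoint_left.mp (hd hne) hj hj'
    subst hkl
    rfl
  intro S t
  have h1 := h.comp _ hinj (S.sigma fun k => (Finset.univ : Finset (s k)))
    (fun p => t p.1 * a p.1 p.2)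
  rw [Finset.sum_sigma, Finset.sum_sigma] at h1
  have e1 : ∑ k ∈ S, ∑ j : s k, |t k * a k j| = m * ∑ k ∈ S, |t k| := by
    rw [Finset.mul_sum]
    refine Finset.sum_congr rfl fun k _ => ?_
    rw [Finset.sum_coe_sort (s k) (fun j => |t k * a k j|), ← hm k, Finset.sum_mul]
    refine Finset.sum_congr rfl fun j _ => ?_
    rw [abs_mul, mul_comm]
  have e2 : ∑ k ∈ S, ∑ j : s k, (t k * a k j) • x j
      = ∑ k ∈ S, t k • ∑ j ∈ s k, a k j • x j := by
    refine Finset.sum_congr rfl fun k _ => ?_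
    rw [Finset.sum_coe_sort (s k) (fun j => (t k * a k j) • x j), Finset.smul_sum]
    refine Finset.sum_congr rfl fun j _ => ?_
    rw [mul_smul]
  simp only at h1
  rw [e1, e2] at h1
  rw [mul_assoc]
  exact h1

theorem isL1_perturb {K : Type} {y y' : K → X} {r η : ℝ} (h : IsL1 y r)
    (hy : ∀ k, ‖y' k - y k‖ ≤ η) : IsL1 y' (r - η) := by
  intro S t
  have h1 := h S t
  have e : ∑ k ∈ S, t k • y k = ∑ k ∈ S, t k • y' k - ∑ k ∈ S, t k • (y' k - y k) := by
    rw [← Finset.sum_sub_distrib]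
    refine Finset.sum_congr rfl fun k _ => ?_
    rw [smul_sub, sub_sub_cancel]
  have h2 : ‖∑ k ∈ S, t k • (y' k - y k)‖ ≤ η * ∑ k ∈ S, |t k| := by
    refine (norm_sum_le _ _).trans ?_
    rw [Finset.mul_sum]
    refine Finset.sum_le_sum fun k _ => ?_
    rw [norm_smul, Real.norm_eq_abs, mul_comm]
    exact mul_le_mul_of_nonneg_right (hy k) (abs_nonneg _)
  have h3 := norm_sub_le (∑ k ∈ S, t k • y' k) (∑ k ∈ S, t k • (y' k - y k))
  rw [← e] at h3
  rw [sub_mul]
  linarith

/-- if no reindexed subfamily is an `ℓ¹`-family, there are small blocks off every small set -/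
theorem small_block {J : Type} [Infinite J] {y : J → X} {r : ℝ}
    (h : ∀ e : J → J, Function.Injective e → ¬ IsL1 (fun j => y (e j)) r)
    (A : Set J) (hA : #A < #J) :
    ∃ (s : Finset J) (a : J → ℝ), Disjoint (s : Set J) A ∧ ∑ j ∈ s, |a j| = 1 ∧
      ‖∑ j ∈ s, a j • y j‖ < r := by
  classical
  obtain ⟨φ⟩ := Cardinal.eq.mp (mk_compl_of_infinite A hA)
  let e : J → J := fun j => (φ.symm j : J)
  have he : Function.Injective e := Subtype.val_injective.comp φ.symm.injective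
  have h1 := h e he
  unfold IsL1 at h1
  push Not at h1
  obtain ⟨s, a, hs⟩ := h1
  have hm0 : 0 ≤ ∑ j ∈ s, |a j| := Finset.sum_nonneg fun _ _ => abs_nonneg _
  have hm : 0 < ∑ j ∈ s, |a j| := by
    refine lt_of_le_of_ne hm0 fun h0 => ?_
    rw [← h0, mul_zero] at hs
    exact absurd hs (not_lt.mpr (norm_nonneg _))
  have hi : ∀ j, Function.invFun e (e j) = j := Function.leftInverse_invFun he
  refine ⟨s.map ⟨e, he⟩, fun j => (∑ j ∈ s, |a j|)⁻¹ * a (Function.invFun e j), ?_, ?_, ?_⟩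
  · rw [Set.disjoint_left]
    intro j hj
    obtain ⟨j', -, rfl⟩ := Finset.mem_map.mp (Finset.mem_coe.mp hj)
    exact (φ.symm j').2
  · rw [Finset.sum_map]
    simp only [Function.Embedding.coeFn_mk, hi, abs_mul, abs_of_pos (inv_pos.mpr hm)]
    rw [← Finset.mul_sum, inv_mul_cancel₀ hm.ne']
  · rw [Finset.sum_map]
    simp only [Function.Embedding.coeFn_mk, hi, mul_smul]
    rw [← Finset.smul_sum, norm_smul, Real.norm_eq_abs, abs_of_pos (inv_pos.mpr hm),
      inv_mul_lt_iff₀ hm, mul_comm]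
    exact hs

/-- approximate blocks off every small set give a new `ℓ¹`-family -/
theorem improve {J V : Type} [Infinite J] {x : J → X} {r m η : ℝ} (h : IsL1 x r) (T : V → X)
    (G : V → Prop)
    (hb : ∀ A : Set J, #A < #J → ∃ (s : Finset J) (a : J → ℝ) (w : V), Disjoint (s : Set J) A ∧
      ∑ j ∈ s, |a j| = m ∧ G w ∧ ‖T w - ∑ j ∈ s, a j • x j‖ ≤ η) :
    ∃ w : J → V, (∀ j, G (w j)) ∧ IsL1 (fun j => T (w j)) (r * m - η) := by
  obtain ⟨e, he, hd⟩ := exists_blocks (J := J) (K := J) (β := Finset J × (J → ℝ) × V) le_rfl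
    (fun b => b.1)
    (fun _ b => ∑ j ∈ b.1, |b.2.1 j| = m ∧ G b.2.2 ∧ ‖T b.2.2 - ∑ j ∈ b.1, b.2.1 j • x j‖ ≤ η)
    (fun _ A hA => by
      obtain ⟨s, a, w, h1, h2, h3, h4⟩ := hb A hA
      exact ⟨(s, a, w), ⟨h2, h3, h4⟩, h1⟩)
  exact ⟨fun j => (e j).2.2, fun j => (he j).2.1,
    isL1_perturb (isL1_blocks h (fun k => (e k).1) (fun k => (e k).2.1) hd m fun k => (he k).1)
      fun k => (he k).2.2⟩

/-- James blocking -/
theorem james {J : Type} [Infinite J] (h : Emb (L1 J) X) :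
    ∃ x : J → X, (∀ j, ‖x j‖ ≤ 1) ∧ IsL1 x (1 / 4) := by
  obtain ⟨x₀, r₀, hr₀, hx₀, hl₀⟩ := h.isL1
  let S : Set ℝ := {r | ∃ x : J → X, (∀ j, ‖x j‖ ≤ 1) ∧ IsL1 x r}
  have hS : r₀ ∈ S := ⟨x₀, hx₀, hl₀⟩
  have hb : BddAbove S := ⟨1, by
    rintro r ⟨x, hx, hl⟩
    exact (isL1_le_norm hl (Classical.arbitrary J)).trans (hx _)⟩
  have hρ : 0 < sSup S := hr₀.trans_le (le_csSup hb hS)
  obtain ⟨r, ⟨x, hx, hl⟩, hr⟩ := exists_lt_of_lt_csSup ⟨r₀, hS⟩ (half_lt_self hρ)
  have hno : ∀ e : J → J, Function.Injective e → ¬ IsL1 (fun j => x (e j)) (2 * sSup S) := by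
    intro e _ hl'
    have := le_csSup hb (show 2 * sSup S ∈ S from ⟨_, fun j => hx (e j), hl'⟩)
    linarith
  have hp : 0 < (2 * sSup S)⁻¹ := by positivity
  obtain ⟨w, hw, hl'⟩ := improve (m := (2 * sSup S)⁻¹) (η := 0) hl (fun v : X => v)
    (fun v => ‖v‖ ≤ 1) (fun A hA => by
      obtain ⟨s, a, h1, h2, h3⟩ := small_block hno A hA
      refine ⟨s, fun j => (2 * sSup S)⁻¹ * a j, ∑ j ∈ s, ((2 * sSup S)⁻¹ * a j) • x j, h1, ?_, ?_,
        by simp⟩
      · simp only [abs_mul, abs_of_pos hp]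
        rw [← Finset.mul_sum, h2, mul_one]
      · simp only [mul_smul]
        rw [← Finset.smul_sum, norm_smul, Real.norm_eq_abs, abs_of_pos hp,
          inv_mul_le_iff₀ (by positivity), mul_one]
        exact h3.le)
  refine ⟨w, hw, isL1_mono hl' ?_⟩
  rw [sub_zero, ← div_eq_mul_inv, le_div_iff₀ (by positivity)]
  linarith

end L1

section Fam
variable {X : Type} [NormedAddCommGroup X] [NormedSpace ℝ X] {Γ : Type} {P : B Γ →L[ℝ] X}

theorem fam_mono {W : Set Γ} {J : Type} {r r' : ℝ} (h : L1Fam P W J r) (hr : r' ≤ r) :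
    L1Fam P W J r' := by
  obtain ⟨z, h1, h2, h3⟩ := h
  exact ⟨z, h1, h2, isL1_mono h3 hr⟩

theorem abs_block_le {J : Type} {z : J → B Γ} (hz : ∀ j, ‖z j‖ ≤ 1) {s : Finset J} {a : J → ℝ}
    (ha : ∑ j ∈ s, |a j| = 1) (t : Γ) : |(∑ j ∈ s, a j • z j) t| ≤ 1 := by
  refine (B.abs_le _ t).trans ((norm_sum_le _ _).trans ?_)
  rw [← ha]
  refine Finset.sum_le_sum fun j _ => ?_
  rw [norm_smul, Real.norm_eq_abs]
  exact mul_le_of_le_one_right (abs_nonneg _) (hz j)

theorem supp_block {J : Type} {W : Set Γ} {z : J → B Γ} (hz : ∀ j, Supp W (z j)) (s : Finset J)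
    (a : J → ℝ) : Supp W (∑ j ∈ s, a j • z j) := by
  intro t ht
  rw [B.sum_apply]
  refine Finset.sum_eq_zero fun j _ => ?_
  rw [B.smul_apply, hz j t ht, mul_zero]

/-- small truncated blocks -/
theorem trunc_block {J : Type} [Infinite J] {D : Set Γ} {r : ℝ} (hD : ¬ L1Fam P D J r)
    {z : J → B Γ} (hz : ∀ j, ‖z j‖ ≤ 1) (A : Set J) (hA : #A < #J) :
    ∃ (s : Finset J) (a : J → ℝ), Disjoint (s : Set J) A ∧ ∑ j ∈ s, |a j| = 1 ∧
      ‖P (trunc D (∑ j ∈ s, a j • z j))‖ < r := by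
  obtain ⟨s, a, h1, h2, h3⟩ := small_block (y := fun j => P (trunc D (z j))) (r := r)
    (fun e _ hl => hD ⟨fun j => trunc D (z (e j)), fun j => (norm_trunc_le _ _).trans (hz _),
      fun j => supp_trunc _ _, hl⟩) A hA
  refine ⟨s, a, h1, h2, ?_⟩
  rw [← truncL_apply, map_sum, map_sum]
  simp only [map_smul, truncL_apply]
  exact h3

theorem half_aux {x y : ℝ} (hx : |x| ≤ 1) (hy : |y| ≤ 1) (h1 : 1 / 2 < |1 / 2 * x + 1 / 2 * y|)
    (h2 : 1 / 2 < |1 / 2 * x + -(1 / 2) * y|) : False := by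
  rw [abs_le] at hx hy
  rcases lt_abs.mp h1 with h1 | h1 <;> rcases lt_abs.mp h2 with h2 | h2 <;> linarith

/-- halving -/
theorem halving {J : Type} [Infinite J] {W : Set Γ} {r δ : ℝ} (h : L1Fam P W J r) (hδ : 0 < δ) :
    ∃ D D' : Set Γ, D ⊆ W ∧ D' ⊆ W ∧ Disjoint D D' ∧ L1Fam P D J (r - δ) ∧
      L1Fam P D' J (r - δ) := by
  classical
  let S : Set ℝ := {r | L1Fam P W J r}
  have hb : BddAbove S := ⟨‖P‖, by
    rintro r ⟨x, hx, -, hl⟩
    refine (isL1_le_norm hl (Classical.arbitrary J)).trans ((P.le_opNorm _).trans ?_)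
    exact mul_le_of_le_one_right (norm_nonneg _) (hx _)⟩
  have hρ : r ≤ sSup S := le_csSup hb h
  obtain ⟨r₀, ⟨z, hz, hW, hl⟩, hr₀⟩ :=
    exists_lt_of_lt_csSup (s := S) ⟨r, h⟩ (show sSup S - δ / 4 < sSup S by linarith)
  by_contra hno
  have key : ∀ a b : J, ∃ (σ : ℝ) (D : Set Γ), |σ| = 1 / 2 ∧
      (∀ t, t ∉ D → |((1 / 2 : ℝ) • z a + σ • z b) t| ≤ 1 / 2) ∧
      ¬ L1Fam P D J (r₀ - 3 * δ / 4) := by
    intro a b
    by_contra hc
    push Not at hc
    have hsub : ∀ σ : ℝ, {t | 1 / 2 < |((1 / 2 : ℝ) • z a + σ • z b) t|} ⊆ W := by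
      intro σ t ht
      by_contra htW
      have ht' : 1 / 2 < |1 / 2 * z a t + σ * z b t| := ht
      rw [hW a t htW, hW b t htW] at ht'
      norm_num at ht'
    refine hno ⟨_, _, hsub (1 / 2), hsub (-(1 / 2)), ?_,
      fam_mono (hc (1 / 2) _ (by norm_num) fun t ht => not_lt.mp ht) (by linarith),
      fam_mono (hc (-(1 / 2)) _ (by norm_num) fun t ht => not_lt.mp ht) (by linarith)⟩
    rw [Set.disjoint_left]
    intro t h1 h2
    exact half_aux ((B.abs_le _ t).trans (hz a)) ((B.abs_le _ t).trans (hz b)) h1 h2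
  obtain ⟨w, hw, hl'⟩ := improve (m := 3 / 2) (η := (r₀ - 3 * δ / 4) / 2) hl (fun v : B Γ => P v)
    (fun v => ‖v‖ ≤ 1 ∧ Supp W v) (fun A hA => by
      obtain ⟨a, ha⟩ := exists_not_mem hA
      have hA1 : #(A ∪ {a} : Set J) < #J := small_union hA (small_finite (Set.finite_singleton a))
      obtain ⟨b, hb⟩ := exists_not_mem hA1
      have hA2 : #(A ∪ {a} ∪ {b} : Set J) < #J :=
        small_union hA1 (small_finite (Set.finite_singleton b))
      obtain ⟨σ, D, hσ, hD, hno'⟩ := key a b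
      obtain ⟨s, c, h1, h2, h3⟩ := trunc_block hno' hz _ hA2
      have hab : a ≠ b := fun e => hb (Or.inr e.symm)
      have has : a ∉ s := fun e => Set.disjoint_left.mp h1 e (Or.inl (Or.inr rfl))
      have hbs : b ∉ s := fun e => Set.disjoint_left.mp h1 e (Or.inr rfl)
      have has' : a ∉ insert b s := by
        rw [Finset.mem_insert]
        rintro (e | e)
        · exact hab e
        · exact has e
      let c' : J → ℝ := fun j => if j = a then 1 / 2 else if j = b then σ else 1 / 2 * c j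
      have ca : c' a = 1 / 2 := by simp [c']
      have cb : c' b = σ := by simp [c', hab.symm]
      have cs : ∀ j ∈ s, c' j = 1 / 2 * c j := by
        intro j hj
        have e1 : j ≠ a := fun e => has (e ▸ hj)
        have e2 : j ≠ b := fun e => hbs (e ▸ hj)
        simp [c', e1, e2]
      set u : B Γ := ∑ j ∈ s, c j • z j with hu
      set C : B Γ := (1 / 2 : ℝ) • z a + σ • z b with hC
      refine ⟨insert a (insert b s), c', C + (1 / 2 : ℝ) • trunc Dᶜ u, ?_, ?_, ⟨?_, ?_⟩, ?_⟩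
      · rw [Set.disjoint_left]
        intro j hj hjA
        rw [Finset.mem_coe, Finset.mem_insert, Finset.mem_insert] at hj
        rcases hj with rfl | rfl | hj
        · exact ha hjA
        · exact hb (Or.inl hjA)
        · exact Set.disjoint_left.mp h1 hj (Or.inl (Or.inl hjA))
      · rw [Finset.sum_insert has', Finset.sum_insert hbs, ca, cb, hσ,
          Finset.sum_congr rfl fun j hj => by rw [cs j hj, abs_mul]]
        rw [← Finset.mul_sum, h2]
        norm_num
      · refine B.norm_le zero_le_one fun t => ?_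
        rw [B.add_apply, B.smul_apply]
        by_cases ht : t ∈ D
        · rw [trunc_of_not_mem _ (by simpa using ht), mul_zero, add_zero, hC, B.add_apply,
            B.smul_apply, B.smul_apply]
          have e1 := (B.abs_le _ t).trans (hz a)
          have e2 := (B.abs_le _ t).trans (hz b)
          refine (abs_add_le _ _).trans ?_
          rw [abs_mul, abs_mul, hσ, abs_of_pos (by norm_num : (0 : ℝ) < 1 / 2)]
          linarith
        · rw [trunc_of_mem _ (by simpa using ht)]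
          have e1 := hD t ht
          have e2 := abs_block_le hz h2 t
          refine (abs_add_le _ _).trans ?_
          rw [abs_mul, abs_of_pos (by norm_num : (0 : ℝ) < 1 / 2)]
          linarith
      · intro t ht
        rw [B.add_apply, B.smul_apply, (supp_block hW s c).trunc Dᶜ t ht, hC, B.add_apply,
          B.smul_apply, B.smul_apply, hW a t ht, hW b t ht]
        ring
      · have e1 : ∑ j ∈ insert a (insert b s), c' j • P (z j) = P (C + (1 / 2 : ℝ) • u) := by
          rw [Finset.sum_insert has', Finset.sum_insert hbs, ca, cb,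
            Finset.sum_congr rfl fun j hj => by rw [cs j hj, mul_smul]]
          rw [← Finset.smul_sum, hC, hu]
          simp only [map_add, map_smul, map_sum, add_assoc]
        have e2 : C + (1 / 2 : ℝ) • trunc Dᶜ u - (C + (1 / 2 : ℝ) • u)
            = -((1 / 2 : ℝ) • trunc D u) := by
          nth_rewrite 2 [← trunc_add_compl D u]
          rw [smul_add]
          abel
        rw [e1, ← map_sub, e2, map_neg, norm_neg, map_smul, norm_smul, Real.norm_eq_abs,
          abs_of_pos (by norm_num : (0 : ℝ) < 1 / 2)]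
        linarith)
  have := le_csSup hb (show r₀ * (3 / 2) - (r₀ - 3 * δ / 4) / 2 ∈ S from
    ⟨w, fun j => (hw j).1, fun j => (hw j).2, hl'⟩)
  linarith

/-- iterated halving -/
theorem splitting {J : Type} [Infinite J] (L : ℕ) : ∀ {W : Set Γ} {r δ : ℝ}, L1Fam P W J r →
    0 < δ → ∃ U : Fin L → Set Γ, (∀ l, U l ⊆ W) ∧ (Pairwise fun l l' => Disjoint (U l) (U l')) ∧
      ∀ l, L1Fam P (U l) J (r - δ) := by
  induction L with
  | zero => exact fun _ _ => ⟨Fin.elim0, fun l => l.elim0, fun l => l.elim0, fun l => l.elim0⟩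
  | succ L ih =>
    intro W r δ h hδ
    obtain ⟨D, D', h1, h2, h3, h4, h5⟩ := halving h (half_pos hδ)
    obtain ⟨U, hU1, hU2, hU3⟩ := ih h5 (half_pos hδ)
    refine ⟨Fin.cons D U, fun l => ?_, fun l l' hl => ?_, fun l => ?_⟩
    · refine Fin.cases ?_ (fun l => ?_) l
      · exact h1
      · exact (hU1 l).trans h2
    · revert hl
      refine Fin.cases ?_ (fun l => ?_) l <;> refine Fin.cases ?_ (fun l' => ?_) l' <;> intro hl
      · exact absurd rfl hl
      · exact h3.mono_right (hU1 l')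
      · exact (h3.mono_right (hU1 l)).symm
      · exact hU2 fun e => hl (congrArg Fin.succ e)
    · refine Fin.cases ?_ (fun l => ?_) l
      · exact fam_mono h4 (by linarith)
      · exact fam_mono (hU3 l) (by linarith)

/-- removal of one of many disjoint sets -/
theorem removal {J : Type} [Infinite J] {L : ℕ} (hL : 0 < L) {W : Set Γ} {r η : ℝ}
    (h : L1Fam P W J r) (hη : ‖P‖ ≤ L * η) (U : Fin L → Set Γ)
    (hU : Pairwise fun l l' => Disjoint (U l) (U l')) : ∃ l, L1Fam P (W \ U l) J (r - η) := by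
  classical
  obtain ⟨z, hz, hW, hl⟩ := h
  by_contra hno
  push Not at hno
  obtain ⟨e, he, hd⟩ := exists_blocks (J := J) (K := Fin L) (β := Finset J × (J → ℝ))
    ((lt_aleph0_of_finite _).le.trans (aleph0_le_mk J)) (fun b => b.1)
    (fun l b => ∑ j ∈ b.1, |b.2 j| = 1 ∧ ‖P (trunc (W \ U l) (∑ j ∈ b.1, b.2 j • z j))‖ < r - η)
    (fun l A hA => by
      obtain ⟨s, a, h1, h2, h3⟩ := trunc_block (hno l) hz A hA
      exact ⟨(s, a), ⟨h2, h3⟩, h1⟩)
  have h1 := isL1_blocks hl (fun k => (e k).1) (fun k => (e k).2) hd 1 (fun k => (he k).1)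
    Finset.univ (fun _ => 1)
  let u : Fin L → B Γ := fun l => ∑ j ∈ (e l).1, (e l).2 j • z j
  have hu : ∀ l, u l = trunc (U l) (u l) + trunc (W \ U l) (u l) := by
    intro l
    refine B.ext' fun t => ?_
    rw [B.add_apply]
    by_cases ht : t ∈ U l
    · rw [trunc_of_mem _ ht, trunc_of_not_mem _ (fun h' => h'.2 ht), add_zero]
    · rw [trunc_of_not_mem _ ht, zero_add]
      by_cases htW : t ∈ W
      · rw [trunc_of_mem _ (show t ∈ W \ U l from ⟨htW, ht⟩)]
      · rw [trunc_of_not_mem _ (fun h' => htW h'.1)]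
        exact supp_block hW _ _ t htW
  have e1 : ∑ l : Fin L, (1 : ℝ) • ∑ j ∈ (e l).1, (e l).2 j • P (z j)
      = P (∑ l, trunc (U l) (u l)) + ∑ l, P (trunc (W \ U l) (u l)) := by
    rw [map_sum, ← Finset.sum_add_distrib]
    refine Finset.sum_congr rfl fun l _ => ?_
    rw [← map_add, ← hu l, one_smul]
    simp only [u, map_sum, map_smul]
  have h2 : ‖∑ l, trunc (U l) (u l)‖ ≤ 1 := by
    refine B.norm_le zero_le_one fun t => ?_
    rw [B.sum_apply]
    by_cases ht : ∃ l, t ∈ U l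
    · obtain ⟨l, ht⟩ := ht
      rw [Finset.sum_eq_single l (fun l' _ hne => trunc_of_not_mem _
        fun h' => Set.disjoint_left.mp (hU hne) h' ht) (fun h' => absurd (Finset.mem_univ l) h'),
        trunc_of_mem _ ht]
      exact abs_block_le hz (he l).1 t
    · push Not at ht
      rw [Finset.sum_eq_zero fun l _ => trunc_of_not_mem _ (ht l)]
      simp
  have h3 : ‖P (∑ l, trunc (U l) (u l))‖ ≤ ‖P‖ :=
    (P.le_opNorm _).trans (mul_le_of_le_one_right (norm_nonneg _) h2)
  have h4 : ‖∑ l, P (trunc (W \ U l) (u l))‖ < L * (r - η) := by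
    refine (norm_sum_le _ _).trans_lt ?_
    have : Nonempty (Fin L) := ⟨⟨0, hL⟩⟩
    have := Finset.sum_lt_sum_of_nonempty (s := (Finset.univ : Finset (Fin L)))
      Finset.univ_nonempty (fun l _ => (he l).2)
    rw [Finset.sum_const, Finset.card_univ, Fintype.card_fin, nsmul_eq_mul] at this
    exact this
  rw [e1] at h1
  have h5 := norm_add_le (P (∑ l, trunc (U l) (u l))) (∑ l, P (trunc (W \ U l) (u l)))
  simp only [abs_one, Finset.sum_const, Finset.card_univ, Fintype.card_fin, nsmul_eq_mul,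
    mul_one] at h1
  nlinarith

/-- the invariant of the diagonal construction -/
def Good (P : B Γ →L[ℝ] X) (τ : ℕ → Type) (W : Set Γ) : Prop :=
  ∃ r : ℝ, 1 / 8 < r ∧ {n | L1Fam P W (τ n) r}.Infinite

theorem step {τ : ℕ → Type} (hτ : ∀ n, Infinite (τ n)) (k : ℕ) {W : Set Γ} (h : Good P τ W) :
    ∃ (n : ℕ) (D : Set Γ), k ≤ n ∧ D ⊆ W ∧ L1Fam P D (τ n) (1 / 8) ∧ Good P τ (W \ D) := by
  obtain ⟨r, hr, hN⟩ := h
  obtain ⟨n, hn, hkn⟩ := hN.exists_gt k
  have hη : 0 < (r - 1 / 8) / 2 := by linarith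
  obtain ⟨L, hL⟩ := exists_nat_gt (‖P‖ / ((r - 1 / 8) / 2))
  have hL0 : 0 < L := by
    have : (0 : ℝ) < L := (div_nonneg (norm_nonneg _) hη.le).trans_lt hL
    exact_mod_cast this
  rw [div_lt_iff₀ hη] at hL
  have := hτ n
  obtain ⟨U, hU1, hU2, hU3⟩ := splitting L hn (show 0 < r - 1 / 8 by linarith)
  have hex : ∃ l, {m | L1Fam P (W \ U l) (τ m) (r - (r - 1 / 8) / 2)}.Infinite := by
    by_contra hc
    push Not at hc
    refine hN ((Set.finite_iUnion hc).subset fun m hm => ?_)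
    have := hτ m
    exact Set.mem_iUnion.mpr (removal hL0 hm hL.le U hU2)
  obtain ⟨l, hl⟩ := hex
  exact ⟨n, U l, hkn.le, hU1 l, fam_mono (hU3 l) (by linarith), _, by linarith, hl⟩

theorem diagonal {τ : ℕ → Type} (hτ : ∀ n, Infinite (τ n)) (h : Good P τ Set.univ) :
    ∃ (n : ℕ → ℕ) (D : ℕ → Set Γ), (∀ k, k ≤ n k) ∧
      (Pairwise fun k l => Disjoint (D k) (D l)) ∧ ∀ k, L1Fam P (D k) (τ (n k)) (1 / 8) := by
  choose n D h1 h2 h3 h4 using fun (k : ℕ) (W : {W // Good P τ W}) => step hτ k W.2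
  let W : ℕ → {W // Good P τ W} := fun k =>
    Nat.rec ⟨Set.univ, h⟩ (fun k W => ⟨W.1 \ D k W, h4 k W⟩) k
  have hW : ∀ k, (W (k + 1)).1 = (W k).1 \ D k (W k) := fun _ => rfl
  have hanti : Antitone fun k => (W k).1 := antitone_nat_of_succ_le fun k => by
    rw [hW]
    exact Set.sdiff_subset
  have hd : ∀ k l, l < k → Disjoint (D k (W k)) (D l (W l)) := by
    intro k l hl
    have : D k (W k) ⊆ (W l).1 \ D l (W l) := (h2 k (W k)).trans (hanti hl)
    exact Set.disjoint_left.mpr fun t ht => (this ht).2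
  refine ⟨fun k => n k (W k), fun k => D k (W k), fun k => h1 k _, fun k l hkl => ?_,
    fun k => h3 k _⟩
  rcases lt_or_gt_of_ne hkl with h | h
  · exact (hd l k h).symm
  · exact hd k l h

end Fam

end Tw

theorem tw : TwStmt := by
  intro hG X _ _ _ hX τ hτ hE S c hc
  obtain ⟨Γ, i, P, hi, hP⟩ := hX.exists_proj
  have h0 : ∀ n, L1Fam P Set.univ (τ n) (1 / 4) := by
    intro n
    have := hτ n
    obtain ⟨x, hx, hl⟩ := Tw.james (hE n)
    refine ⟨fun j => i (x j), fun j => (hi _).trans_le (hx j),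
      fun j t ht => absurd (Set.mem_univ t) ht, ?_⟩
    simpa only [hP] using hl
  obtain ⟨n, D, hn, hD, hF⟩ := Tw.diagonal (P := P) hτ ⟨1 / 4, by norm_num,
    Set.infinite_univ.mono fun n _ => h0 n⟩
  refine hG X Γ P ℕ D (fun k => τ (n k)) (1 / 8) (by norm_num) hD (fun k => hτ _) hF S
    (fun k => c (n k)) fun A hA s => ?_
  have hA' : A.Infinite := by
    rw [← Set.infinite_coe_iff, Cardinal.infinite_iff, hA]
    exact aleph0_le_mk ℕ
  have hev : ∀ᶠ m in Filter.atTop, ∀ a ∈ s, ∀ b ∈ s, a ≠ b → c m a ≠ c m b := by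
    refine (Filter.eventually_all_finset s).mpr fun a _ =>
      (Filter.eventually_all_finset s).mpr fun b _ => ?_
    by_cases hab : a = b
    · exact Filter.Eventually.of_forall fun _ h => absurd hab h
    · exact (hc a b hab).mono fun _ h _ => h
  obtain ⟨N, hN⟩ := Filter.eventually_atTop.mp hev
  obtain ⟨k, hk, hNk⟩ := hA'.exists_gt N
  refine ⟨k, hk, fun a ha b hb hab => ?_⟩
  by_contra hne
  exact hN (n k) (hNk.le.trans (hn k)) a ha b hb hne hab

end Pool.Agent.Lib.MP_4a9e55_an
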