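import Pool.Agent.Lib.MP_4a9e55_an.T3a
import Pool.Agent.Lib.MP_4a9e55_an.Tw

set_option autoImplicit false

open Cardinal Set Filter
open scoped ENNReal

namespace Pool.Agent.Lib.MP_4a9e55_an

variable {Γ : Type} {F : Filter Γ} {κ τ β : Cardinal.{0}}
variable {X : Type} [NormedAddCommGroup X] [NormedSpace ℝ X]

theorem succ_lt_of_cof_lt {δ : Cardinal.{0}} (h0 : ℵ₀ ≤ β) (h : β.ord.cof < β) (hδ : δ < β) :
    Order.succ δ < β := by
  refine lt_of_le_of_ne (Order.succ_le_of_lt hδ) fun e => ?_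
  have h1 : ℵ₀ ≤ δ := by
    by_contra hc
    exact absurd (e ▸ isSuccLimit_aleph0.succ_lt (not_le.mp hc)) (not_lt.mpr h0)
  have := (isRegular_succ h1).cof_ord
  rw [e] at this
  exact h.ne this

/-- a singular cardinal closed under `< κ`-powers -/
structure Big (κ β : Cardinal.{0}) : Prop where
  regκ : κ.IsRegular
  unc : ℵ₀ < κ
  lt : κ < β
  pow : ∀ δ < β, δ ^< κ < β
  sing : β.ord.cof < β

theorem Big.aleph0_lt (h : Big κ β) : ℵ₀ < β := h.unc.trans h.lt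

theorem Big.exists_good (h : Big κ β) {δ : Cardinal.{0}} (hδ : δ < β) :
    ∃ τ < β, δ < τ ∧ Good κ τ := by
  have h2 : (2 : Cardinal.{0}) ≤ max δ 2 := le_max_right _ _
  refine ⟨_, succ_lt_of_cof_lt h.aleph0_lt.le h.sing (h.pow _ (max_lt hδ
    ((natCast_lt_aleph0 (n := 2)).trans h.aleph0_lt))), ?_,
    Pool.Agent.Lib.MP_4a9e55_an.exists_good h.regκ h.unc h2⟩
  exact ((le_max_left _ _).trans (le_powerlt_self h.unc.le)).trans_lt (Order.lt_succ _)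

theorem Big.power_lt (h : Big κ β) {δ ρ : Cardinal.{0}} (hδ : δ < β) (hρ : ρ < κ) : δ ^ ρ < β :=
  (le_powerlt _ hρ).trans_lt (h.pow δ hδ)

/-- truncated codes -/
abbrev Jt (R : Type) (b : OT β) : Type := (R → Option (Iic b)) × ℕ

open Classical in
/-- the truncation map -/
noncomputable def code {R : Type} (b : OT β) (s : R → OT β) : Jt R b :=
  (fun j => if h : s j ≤ b then some ⟨s j, h⟩ else none, 0)

theorem code_pair {R : Type} [Nonempty (OT β)] (s s' : R → OT β) :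
    ∃ x, ∀ b, x ≤ b → code b s = code b s' → s = s' := by
  by_cases h : s = s'
  · exact ⟨Classical.arbitrary _, fun _ _ _ => h⟩
  · obtain ⟨j, hj⟩ := Function.ne_iff.mp h
    refine ⟨max (s j) (s' j), fun b hb he => absurd ?_ hj⟩
    have := congrFun (congrArg Prod.fst he) j
    simp only [code, dif_pos ((le_max_left _ _).trans hb), dif_pos ((le_max_right _ _).trans hb),
      Option.some.injEq, Subtype.mk.injEq] at this
    exact this

theorem code_inj {R : Type} [Nonempty (OT β)] (s : Finset (R → OT β)) :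
    ∃ x, ∀ b, x ≤ b → InjOn (code b) (s : Set (R → OT β)) := by
  classical
  choose x hx using fun p : (R → OT β) × (R → OT β) => code_pair p.1 p.2
  obtain ⟨M, hM⟩ := ((s ×ˢ s).image x).exists_le
  exact ⟨M, fun b hb s₁ h₁ s₂ h₂ he => hx (s₁, s₂) b ((hM _ (Finset.mem_image_of_mem _
    (Finset.mem_product.mpr ⟨h₁, h₂⟩))).trans hb) he⟩

theorem Big.mk_Jt (h : Big κ β) {R : Type} (hR : #R < κ) (b : OT β) : #(Jt R b) < β := by
  simp only [mk_prod, lift_id, mk_nat, mk_pi, prod_const, mk_option]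
  exact mul_lt_of_lt h.aleph0_lt.le (h.power_lt (add_lt_of_lt h.aleph0_lt.le
    (mk_Iic_OT h.aleph0_lt.le b) (one_lt_aleph0.trans h.aleph0_lt)) hR) h.aleph0_lt

theorem Big.nonempty (h : Big κ β) : Nonempty (OT β) :=
  mk_ne_zero_iff.mp (by rw [mk_OT]; exact (aleph0_pos.trans h.aleph0_lt).ne')

theorem mk_image_top (i : X →L[ℝ] B Γ) (P : B Γ →L[ℝ] X) (hP : ∀ x, P (i x) = x) :
    #X ≤ #(P '' (⊤ : Submodule ℝ (B Γ))) := by
  rw [← mk_univ]
  exact mk_le_mk_of_subset fun x _ => ⟨i x, trivial, hP x⟩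

theorem t2emb [CompleteSpace X] (hG : Good κ τ) (hC : CC F κ) (i : X →L[ℝ] B Γ)
    (hi : ∀ x, ‖i x‖ = ‖x‖) (P : B Γ →L[ℝ] X) (hP : ∀ x, P (i x) = x) (hK : #(Ker F i) < τ)
    (hτ : τ ≤ #X) (J : Type) (hJ : #J ≤ τ) : Emb (L1 J) X := by
  obtain ⟨r, hr, z, h1, h2⟩ := t2op hG hC i hi P hK ⊤ (hτ.trans (mk_image_top i P hP)) J hJ
  exact h2.emb (C := ‖P‖) hr fun j => (P.le_opNorm _).trans
    (mul_le_of_le_one_right (norm_nonneg _) (h1 j).2)

/-- countable cofinality -/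
theorem t3w [CompleteSpace X] (hX : Inj X) (hB : Big κ β) (hC : CC F κ) (i : X →L[ℝ] B Γ)
    (hi : ∀ x, ‖i x‖ = ‖x‖) (P : B Γ →L[ℝ] X) (hP : ∀ x, P (i x) = x) (hK : #(Ker F i) < β)
    (hβ : β ≤ #X) (hθ : β.ord.cof = ℵ₀) (R : Type) (hR : #R < κ) : Emb (L1 (R → OT β)) X := by
  obtain ⟨b, hb⟩ := exists_scale_nat β hθ
  have := hB.nonempty
  refine tw glue X hX (fun n => Jt R (b n)) (fun n => inferInstance) (fun n => ?_) _
    (fun n => code (b n)) fun s s' hne => ?_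
  · obtain ⟨τ, h1, h2, h3⟩ := hB.exists_good (max_lt hK (hB.mk_Jt hR (b n)))
    exact t2emb h3 hC i hi P hP ((le_max_left _ _).trans_lt h2) (h1.le.trans hβ) _
      ((le_max_right _ _).trans h2.le)
  · obtain ⟨x, hx⟩ := code_pair s s'
    exact (hb x).mono fun n hn he => hne (hx _ hn he)

/-- a supply of triangular subspaces with large image -/
theorem t3supply [CompleteSpace X] (hX : Inj X) (hB : Big κ β) (hC : CC F κ) (i : X →L[ℝ] B Γ)
    (hi : ∀ x, ‖i x‖ = ‖x‖) (P : B Γ →L[ℝ] X) (hK : #(Ker F i) < β) (hθ : ℵ₀ < β.ord.cof)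
    (𝒞 : Set (Set Γ)) (h : ∀ 𝒱 ⊆ 𝒞, #𝒱 < β.ord.cof → ∀ τ < β, ∃ V ∈ 𝒞, τ ≤ #(P '' triSub P V 𝒱))
    (R : Type) (hR : #R < κ) : Emb (L1 (R → OT β)) X := by
  obtain ⟨b, hb⟩ := exists_scale β hB.aleph0_lt.le
  have := hB.nonempty
  choose τ h1 h2 h3 using fun ξ => hB.exists_good (max_lt hK (hB.mk_Jt hR (b ξ)))
  obtain ⟨V, hV⟩ := exists_seq (Θ := OT β.ord.cof) 𝒞
    (fun ξ 𝒱 V => τ ξ ≤ #(P '' triSub P V 𝒱))
    fun ξ 𝒱 h4 h5 => h 𝒱 h4 (h5.trans_lt (mk_Iio_OT ξ)) _ (h1 ξ)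
  refine tri_glue hX P (by rw [mk_OT, (isRegular_cof_ord hB.aleph0_lt.le).cof_ord]; exact hθ) V
    (fun ξ => Jt R (b ξ)) (fun ξ => inferInstance) (fun ξ => t2op (h3 ξ) hC i hi P
      ((le_max_left _ _).trans_lt (h2 ξ)) _ (hV ξ).2 _ ((le_max_right _ _).trans (h2 ξ).le)) _
    (fun ξ => code (b ξ)) fun A hA s => ?_
  obtain ⟨x, hx⟩ := code_inj s
  obtain ⟨ξ₀, h0⟩ := hb x
  obtain ⟨ξ, hξ, h4⟩ := exists_ge_of_mk (A := A) (by rw [hA, mk_OT]) ξ₀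
  exact ⟨ξ, hξ, hx _ (h0 ξ h4)⟩

theorem exists_bound_of_cof {ι : Type} (f : ι → Cardinal.{0}) (hβ : ℵ₀ < β) (hι : #ι < β.ord.cof)
    (hf : ∀ j, f j < β) : ∃ δ < β, ℵ₀ ≤ δ ∧ ∀ j, f j ≤ δ :=
  ⟨max (⨆ j, f j) ℵ₀, max_lt (iSup_lt_of_lt_cof_ord hι hf) hβ, le_max_right _ _, fun j =>
    (le_ciSup (f := f) bddAbove_of_small j).trans (le_max_left _ _)⟩

theorem le_of_le_mul {a b c : Cardinal.{0}} (hc : ℵ₀ ≤ c) (ha : a < c) (h : c ≤ a * b) : c ≤ b := by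
  by_contra hb
  exact absurd h (not_le.mpr (mul_lt_of_lt hc ha (not_le.mp hb)))

/-- uncountable cofinality below `κ` -/
theorem t3 [CompleteSpace X] (hX : Inj X) (hB : Big κ β) (hC : CC F κ) (i : X →L[ℝ] B Γ)
    (hi : ∀ x, ‖i x‖ = ‖x‖) (P : B Γ →L[ℝ] X) (hP : ∀ x, P (i x) = x) (hK : #(Ker F i) < β)
    (hθ : ℵ₀ < β.ord.cof) (hθκ : β.ord.cof < κ) (R : Type) (hR : #R < κ) :
    Emb (L1 (R → OT β)) X ∨ ∃ F' : Filter Γ, CC F' β.ord.cof ∧ #(Ker F' i) < β := by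
  classical
  have h0 := hB.aleph0_lt
  by_cases hA : CC (smallF P β h0.le) β.ord.cof
  swap
  · left
    unfold CC at hA
    push Not at hA
    obtain ⟨𝒜, h𝒜, hc⟩ := hA
    refine t3supply hX hB hC i hi P hK hθ 𝒜 (fun 𝒱 h1 h2 τ hτ => ?_) R hR
    obtain ⟨V, hV, hV'⟩ : ∃ V ∈ 𝒜, V ∉ 𝒱 := by
      by_contra hc'
      push Not at hc'
      exact absurd (hc.trans (mk_le_mk_of_subset hc')) (not_le.mpr h2)
    obtain ⟨δ, hδ, hδ0, hδ1⟩ := exists_bound_of_cof (fun W : 𝒱 => cc P (V ∩ W)) h0 h2 fun W =>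
      not_le.mp fun h => h𝒜.2 hV (h1 W.2) (fun e => hV' (e ▸ W.2)) ((pos_smallF P h0.le _).mpr h)
    refine ⟨V, hV, hτ.le.trans (le_of_le_mul h0.le
      (hB.power_lt hδ (mk_finset_lt hB.unc (h2.trans hθκ))) ?_)⟩
    exact ((pos_smallF P h0.le _).mp (h𝒜.1 V hV)).trans
      (cc_le_triSub P V 𝒱 hδ0 fun W hW => hδ1 ⟨W, hW⟩)
  by_cases hB1 : ∀ δ < β, ∃ W, cc P W < β ∧ δ ≤ cc P W
  · left
    refine t3supply hX hB hC i hi P hK hθ {W | cc P W < β} (fun 𝒱 h1 h2 τ hτ => ?_) R hR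
    obtain ⟨δ, hδ, hδ0, hδ1⟩ := exists_bound_of_cof (fun W : 𝒱 => cc P W) h0 h2 fun W => h1 W.2
    have h3 := hB.power_lt hδ (mk_finset_lt hB.unc (h2.trans hθκ))
    obtain ⟨W, hW, hW'⟩ := hB1 _ (succ_lt_of_cof_lt h0.le hB.sing (max_lt (max_lt hτ h0) h3))
    refine ⟨W, hW, le_trans ?_ (le_of_le_mul ?_ ?_ (hW'.trans (cc_le_triSub P W 𝒱 hδ0
      fun V hV => (cc_mono P inter_subset_right).trans (hδ1 ⟨V, hV⟩))))⟩
    · exact (le_max_left _ _).trans ((le_max_left _ _).trans (Order.le_succ _))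
    · exact (le_max_right _ _).trans ((le_max_left _ _).trans (Order.le_succ _))
    · exact (le_max_right _ _).trans_lt (Order.lt_succ _)
  · right
    push Not at hB1
    obtain ⟨δ, hδ, hδ1⟩ := hB1
    obtain ⟨𝒱, h1, h2, h3⟩ := nested hB.regκ hB.unc hC i hi P {W | cc P W < β}
    refine ⟨_, hA, (mk_ker_le i P hP (P '' {g | ∃ W, cc P W < β ∧ Supp W g})
      fun W g hW hg => ⟨g, ⟨W, not_le.mp fun h => hW ((pos_smallF P h0.le _).mpr h), hg⟩,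
        rfl⟩).trans_lt (hB.power_lt ?_ hB.unc)⟩
    refine (count_le P _ 𝒱 δ (fun s => ?_) (Ker F i) ?_).trans_lt
      (mul_lt_of_lt h0.le (hB.power_lt hδ (mk_finset_lt hB.unc h2)) hK)
    · refine (mk_trunc_image_le P Set.univ _ _ fun g _ t ht => absurd trivial ht).trans ?_
      rw [univ_inter]
      refine (hδ1 _ (not_le.mp fun h => ?_)).le
      exact not_pos_biUnion s (fun V => V.1) (fun V _ hp =>
        absurd ((pos_smallF P h0.le _).mp hp) (not_le.mpr (h1 V.2))) ((pos_smallF P h0.le _).mpr h)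
    · rintro g ⟨W, hW, hg⟩ g' ⟨W', hW', hg'⟩ h4
      exact h3 (W ∪ W') ((cc_union P _ _).trans_lt (mul_lt_of_lt h0.le hW hW')) _
        ⟨(suppSub _).sub_mem (hg.mono subset_union_left) (hg'.mono subset_union_right), h4⟩

end Pool.Agent.Lib.MP_4a9e55_an
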