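import Pool.Agent.Lib.MP_4a9e55_an.Tri
import Pool.Agent.Lib.MP_4a9e55_an.Glue

set_option autoImplicit false

open Cardinal Set Filter
open scoped ENNReal

namespace Pool.Agent.Lib.MP_4a9e55_an

variable {Γ : Type} {F : Filter Γ} {κ τ : Cardinal.{0}}
variable {X : Type} [NormedAddCommGroup X] [NormedSpace ℝ X]

/-- the filter dual to the sets on which `P` vanishes -/
def jF (P : B Γ →L[ℝ] X) : Filter Γ :=
  Filter.comk (fun W => ∀ g, Supp W g → P g = 0)
    (fun g hg => by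
      have : g = 0 := B.ext' fun t => hg t (notMem_empty t)
      rw [this, map_zero])
    (fun _ ht _ hs g hg => ht g (hg.mono hs))
    (fun V hV W hW g hg => by
      rw [← trunc_add_compl V g, map_add, hV _ (supp_trunc V g), zero_add]
      refine hW _ fun t ht => ?_
      by_cases h : t ∈ V
      · exact trunc_of_not_mem g (not_not.mpr h)
      · exact Supp.trunc hg _ t fun h' => h'.elim h ht)

theorem not_pos_jF (P : B Γ →L[ℝ] X) (W : Set Γ) :
    ¬ Pos (jF P) W ↔ ∀ g, Supp W g → P g = 0 := by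
  rw [not_pos_iff, jF, mem_comk, compl_compl]

theorem mk_ker_jF (i : X →L[ℝ] B Γ) (P : B Γ →L[ℝ] X) (hP : ∀ x, P (i x) = x) :
    #(Ker (jF P) i) ≤ 1 := by
  have := mk_ker_le (F := jF P) i P hP {0} fun W g hW hg => (not_pos_jF P W).mp hW g hg
  simpa using this

/-- uniform lower bound on a large set -/
theorem exists_unif {Θ : Type} {ρ : Cardinal.{0}} (hρ : ℵ₀ < ρ.ord.cof) (hΘ : ρ ≤ #Θ)
    (r : Θ → ℝ) (hr : ∀ ξ, 0 < r ξ) : ∃ δ > 0, ρ ≤ #{ξ | δ ≤ r ξ} := by
  choose n hn using fun ξ => exists_nat_one_div_lt (hr ξ)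
  obtain ⟨m, hm⟩ := infinite_pigeonhole_card n ρ hΘ (hρ.trans_le (Ordinal.cof_ord_le ρ)).le
    (by simpa using hρ)
  refine ⟨1 / ((m : ℝ) + 1), Nat.one_div_pos_of_nat, hm.trans (mk_le_mk_of_subset fun ξ hξ => ?_)⟩
  have := hn ξ
  rw [show n ξ = m from hξ] at this
  exact this.le

theorem t1step [CompleteSpace X] (hX : Inj X) (P : B Γ →L[ℝ] X) {ρ : Cardinal.{0}}
    (hρ : ℵ₀ < ρ.ord.cof) {𝒜 : Set (Set Γ)} (h𝒜 : AC (jF P) 𝒜) (hc : ρ ≤ #𝒜) :
    Emb (B (OT ρ)) X := by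
  classical
  have hg : ∀ A : 𝒜, ∃ g, Supp A.1 g ∧ ‖g‖ ≤ 1 ∧ 0 < ‖P g‖ := fun A => by
    have := h𝒜.1 A A.2
    rw [← not_not (a := Pos _ _), not_pos_jF] at this
    push Not at this
    obtain ⟨g, h1, h2⟩ := this
    have h3 : 0 < ‖g‖ := norm_pos_iff.mpr fun h => h2 (by rw [h, map_zero])
    refine ⟨‖g‖⁻¹ • g, (suppSub A.1).smul_mem _ h1, ?_, ?_⟩
    · rw [norm_smul, norm_inv, norm_norm, inv_mul_cancel₀ h3.ne']
    · rw [map_smul, norm_pos_iff]
      exact smul_ne_zero (inv_pos.mpr h3).ne' h2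
  choose g hg1 hg2 hg3 using hg
  obtain ⟨δ, hδ, hcard⟩ := exists_unif hρ hc _ hg3
  obtain ⟨e⟩ := (Cardinal.le_def (OT ρ) _).mp ((mk_OT ρ).le.trans hcard)
  have h0 : ℵ₀ ≤ ρ := (hρ.trans_le (Ordinal.cof_ord_le ρ)).le
  have : Infinite (OT ρ) := infinite_iff.mpr (h0.trans (mk_OT ρ).ge)
  let A : (OT ρ →₀ ℝ) →ₗ[ℝ] B (OT ρ) :=
    Finsupp.linearCombination ℝ fun ξ => (lp.single ∞ ξ (1 : ℝ) : B (OT ρ))
  have hA : ∀ v ξ, A v ξ = v ξ := fun v ξ => by
    simp only [A, Finsupp.linearCombination_apply, Finsupp.sum, B.sum_apply, B.smul_apply]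
    rw [Finset.sum_eq_single ξ]
    · simp
    · intro η _ hne
      rw [lp.single_apply_ne _ _ _ hne.symm, mul_zero]
    · intro h
      rw [Finsupp.notMem_support_iff.mp h, zero_mul]
  obtain ⟨S, hS⟩ := hX.ext A (Finsupp.linearCombination ℝ fun ξ => P (g (e ξ).1)) ‖P‖ fun v => by
    have := tri_bound P (fun ξ => (e ξ).1.1) (fun ξ => v ξ • g (e ξ).1) v.support
      (norm_nonneg (A v)) (fun ξ _ => (suppSub _).smul_mem _ (hg1 _)) (fun ξ _ => ?_)
      (fun ξ _ => ?_)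
    · simpa only [Finsupp.linearCombination_apply, Finsupp.sum, map_smul] using this
    · refine (not_pos_jF P _).mp (not_pos_biUnion (v.support.filter (· < ξ))
        (fun η => (e ξ).1.1 ∩ (e η).1.1) fun η hη => ?_) _ fun t ht => ?_
      · refine h𝒜.2 (e ξ).1.2 (e η).1.2 fun h => ?_
        have := e.injective (Subtype.ext (Subtype.ext h))
        exact (Finset.mem_filter.mp hη).2.ne' this
      · rw [← inter_iUnion₂, mem_inter_iff, not_and_or] at ht
        rcases ht with ht | ht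
        · exact Supp.trunc ((suppSub _).smul_mem _ (hg1 _)) _ t ht
        · exact trunc_of_not_mem _ ht
    · rw [norm_smul, Real.norm_eq_abs, ← hA]
      exact (mul_le_of_le_one_right (abs_nonneg _) (hg2 _)).trans (B.abs_le _ _)
  refine t1 X (OT ρ) S δ hδ fun ξ => ?_
  have := hS (Finsupp.single ξ 1)
  simp only [A, Finsupp.linearCombination_single, one_smul] at this
  rw [this]
  exact (e ξ).2

/-- triangular `ℓ¹`-families can be glued -/
theorem tri_glue [CompleteSpace X] (hX : Inj X) (P : B Γ →L[ℝ] X) {Θ : Type} [LinearOrder Θ]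
    (hΘ : ℵ₀ < (#Θ).ord.cof) (V : Θ → Set Γ) (J : Θ → Type) (hJ : ∀ ξ, Infinite (J ξ))
    (h : ∀ ξ, ∃ r > 0, ∃ z : J ξ → B Γ, (∀ j, z j ∈ triSub P (V ξ) (V '' Iio ξ) ∧ ‖z j‖ ≤ 1) ∧
      IsL1 (fun j => P (z j)) r) (S : Type) (c : ∀ ξ, S → J ξ)
    (hc : ∀ A : Set Θ, #A = #Θ → ∀ s : Finset S, ∃ ξ ∈ A, InjOn (c ξ) s) : Emb (L1 S) X := by
  classical
  choose r hr z hz hl using h
  let I := Σ ξ, J ξ
  let w : I → B (Θ × (I → Bool)) := fun p =>
    mkB (fun q => if q.1 = p.1 then (if q.2 p then 1 else -1) else 0) 1 fun q => by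
      split_ifs <;> simp
  obtain ⟨T, hT⟩ := hX.ext (Finsupp.linearCombination ℝ w)
      (Finsupp.linearCombination ℝ fun p : I => P (z p.1 p.2)) ‖P‖ fun v => by
    let u : Θ → B Γ := fun ξ => ∑ p ∈ v.support with p.1 = ξ, v p • z p.1 p.2
    have h1 := triSub_bound P V u (v.support.image Sigma.fst)
      (norm_nonneg (Finsupp.linearCombination ℝ w v)) (fun ξ _ => ?_) (fun ξ _ => ?_)
    · refine le_trans (le_of_eq (congrArg _ ?_)) h1
      simp only [Finsupp.linearCombination_apply, Finsupp.sum, u, map_sum, map_smul]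
      exact (Finset.sum_fiberwise_of_maps_to (fun p hp => Finset.mem_image_of_mem _ hp) _).symm
    · refine Submodule.sum_mem _ fun p hp => Submodule.smul_mem _ _ ?_
      rw [← (Finset.mem_filter.mp hp).2]
      exact (hz p.1 p.2).1
    · refine le_trans ?_ ((le_abs_self _).trans (B.abs_le _ (ξ, fun p => decide (0 ≤ v p))))
      refine (norm_sum_le _ _).trans ?_
      simp only [Finsupp.linearCombination_apply, Finsupp.sum, B.sum_apply, B.smul_apply, w,
        mkB_apply, Finset.sum_filter]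
      refine Finset.sum_le_sum fun p _ => ?_
      have h2 : ‖v p • z p.1 p.2‖ ≤ |v p| := by
        rw [norm_smul, Real.norm_eq_abs]
        exact mul_le_of_le_one_right (abs_nonneg _) (hz _ _).2
      by_cases h3 : p.1 = ξ
      · rw [if_pos h3, if_pos h3.symm]
        by_cases h4 : 0 ≤ v p
        · simpa [h4, abs_of_nonneg h4] using h2
        · simpa [h4, abs_of_neg (not_le.mp h4)] using h2
      · rw [if_neg h3, if_neg (Ne.symm h3), mul_zero]
  have hT' : ∀ p : I, T (w p) = P (z p.1 p.2) := fun p => by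
    simpa using hT (Finsupp.single p 1)
  obtain ⟨δ, hδ, hcard⟩ := exists_unif hΘ le_rfl r hr
  have hcard' : #{ξ | δ ≤ r ξ} = #Θ := le_antisymm (mk_set_le _) hcard
  have : Infinite {ξ | δ ≤ r ξ} :=
    infinite_iff.mpr ((hΘ.trans_le (Ordinal.cof_ord_le _)).le.trans hcard)
  refine glue X _ T {ξ | δ ≤ r ξ} (fun ξ => {q | q.1 = ξ.1}) (fun ξ => J ξ) δ hδ
    (fun ξ η hne => Set.disjoint_left.mpr fun q h1 h2 => hne (Subtype.ext (h1.symm.trans h2)))
    (fun ξ => hJ ξ) (fun ξ => ⟨fun j => w ⟨ξ, j⟩, fun j => ?_, fun j q hq => ?_, fun s a => ?_⟩)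
    S (fun ξ => c ξ) fun A hA s => ?_
  · refine B.norm_le zero_le_one fun q => ?_
    simp only [w, mkB_apply]
    split_ifs <;> simp
  · simp only [w, mkB_apply]
    exact if_neg hq
  · simp only [hT']
    exact (mul_le_mul_of_nonneg_right ξ.2 (Finset.sum_nonneg fun _ _ => abs_nonneg _)).trans
      (hl ξ s a)
  · obtain ⟨_, ⟨ξ, hξ, rfl⟩, h2⟩ := hc (Subtype.val '' A)
      (by rw [mk_image_eq Subtype.val_injective, hA, hcard']) s
    exact ⟨ξ, hξ, h2⟩

end Pool.Agent.Lib.MP_4a9e55_an
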