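import Pool.Agent.Lib.MP_4a9e55_an.T3

set_option autoImplicit false

open Cardinal Set Filter
open scoped ENNReal

namespace Pool.Agent.Lib.MP_4a9e55_an

variable {Γ : Type} {F : Filter Γ} {κ τ β : Cardinal.{0}}
variable {X : Type} [NormedAddCommGroup X] [NormedSpace ℝ X]

/-- transfinite construction of independent families on several pieces at once -/
theorem ind_seq {N S Z Θ : Type} [LinearOrder Θ] [WellFoundedLT Θ] (p : N → Z → Bool → Set Γ)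
    (Q : N → Set Z) (lv : S → Cardinal.{0}) (E : N → S → Set Γ)
    (hE : ∀ j ξ (𝒰 : Set (Set Γ)), #𝒰 < lv ξ → (∀ U ∈ 𝒰, Pos F U) →
      ∃ z ∈ Q j, ∀ U ∈ 𝒰, U ⊆ E j ξ → ∀ b, Pos F (U ∩ p j z b))
    (hθ : ∀ x : Θ, ∃ ξ, #(Iio x) < lv ξ ∧ #S < lv ξ ∧ ℵ₀ < lv ξ) :
    ∃ (ξ : Θ → S) (z : Θ → N → Z), (∀ x j, z x j ∈ Q j) ∧
      ∀ j (σ : Θ → Bool) (T : Finset S) (s : Finset Θ), (∀ x ∈ s, ξ x ∈ T) →
        Pos F (⋂ η ∈ T, E j η) → Pos F ((⋂ η ∈ T, E j η) ∩ ⋂ x ∈ s, p j (z x j) (σ x)) := by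
  classical
  let cell : N → Finset S → (𝒱 : Set (S × (N → Z))) → Finset (𝒱 × Bool) → Set Γ :=
    fun j T 𝒱 u => (⋂ η ∈ T, E j η) ∩ ⋂ q ∈ u, p j (q.1.1.2 j) q.2
  obtain ⟨V, hV⟩ := exists_seq (Θ := Θ) {q : S × (N → Z) | ∀ j, q.2 j ∈ Q j}
    (fun _ 𝒱 V => ∀ j T (u : Finset (𝒱 × Bool)), V.1 ∈ T → Pos F (cell j T 𝒱 u) →
      ∀ b, Pos F (cell j T 𝒱 u ∩ p j (V.2 j) b)) (fun x 𝒱 _ h𝒱 => by
    obtain ⟨ξ, h1, h2, h3⟩ := hθ x
    have hc : #(Finset S × Finset (𝒱 × Bool)) < lv ξ := by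
      simp only [mk_prod, lift_id]
      refine mul_lt_of_lt h3.le (mk_finset_lt h3 h2) (mk_finset_lt h3 ?_)
      simp only [mk_prod, lift_id]
      exact mul_lt_of_lt h3.le (h𝒱.trans_lt h1) ((lt_aleph0_of_finite _).trans h3)
    choose z hz hz' using fun j => hE j ξ ({U | Pos F U} ∩
      range fun a : Finset S × Finset (𝒱 × Bool) => cell j a.1 𝒱 a.2)
      ((mk_le_mk_of_subset inter_subset_right).trans_lt (mk_range_le.trans_lt hc))
      fun U hU => hU.1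
    exact ⟨(ξ, z), hz, fun j T u hT hp => hz' j _ ⟨hp, (T, u), rfl⟩
      (inter_subset_left.trans (biInter_subset_of_mem (s := (T : Set S)) hT))⟩)
  refine ⟨fun x => (V x).1, fun x => (V x).2, fun x => (hV x).1, fun j σ T s hs hT => ?_⟩
  induction s using Finset.induction_on_max with
  | empty => simpa using hT
  | insert m s hm ih =>
    have h1 := ih fun x hx => hs x (Finset.mem_insert_of_mem hx)
    let u : Finset ((V '' Iio m) × Bool) :=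
      s.attach.image fun x => (⟨V x.1, x.1, hm _ x.2, rfl⟩, σ x.1)
    have e : cell j T (V '' Iio m) u = (⋂ η ∈ T, E j η) ∩ ⋂ x ∈ s, p j ((V x).2 j) (σ x) := by
      simp only [cell, u]
      congr 1
      ext t
      simp only [mem_iInter, Finset.mem_image, Finset.mem_attach, true_and]
      exact ⟨fun h x hx => h _ ⟨⟨x, hx⟩, rfl⟩, by rintro h _ ⟨x, rfl⟩; exact h x.1 x.2⟩
    have h2 := (hV m).2 j T u (hs m (Finset.mem_insert_self _ _)) (e ▸ h1) (σ m)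
    rw [e] at h2
    refine h2.mono fun t ht => ⟨ht.1.1, ?_⟩
    rw [Finset.set_biInter_insert]
    exact ⟨ht.2, ht.1.2⟩

/-- good cardinals are precalibers -/
theorem precal (hG : Good κ τ) (hC : CC F κ) {S : Type} (hS : τ ≤ #S) (U : S → Set Γ)
    (hU : ∀ ξ, Pos F (U ξ)) :
    ∃ A : Set S, τ ≤ #A ∧ ∀ T : Finset S, (∀ ξ ∈ T, ξ ∈ A) → Pos F (⋂ ξ ∈ T, U ξ) := by
  classical
  by_cases h : ∃ ξ₀, τ ≤ #{ξ | ¬ Pos F (U ξ₀ \ U ξ)}
  · obtain ⟨ξ₀, h⟩ := h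
    refine ⟨_, h, fun T hT => (hU ξ₀).of_null (not_pos_biUnion T (fun ξ => U ξ₀ \ U ξ) hT)
      fun t ht => ?_⟩
    by_cases h1 : t ∈ ⋂ ξ ∈ T, U ξ
    · exact Or.inr h1
    · simp only [mem_iInter, not_forall] at h1
      obtain ⟨ξ, hξ, h2⟩ := h1
      exact Or.inl (mem_biUnion (s := (T : Set S)) hξ ⟨ht, h2⟩)
  push Not at h
  let y : S → B Γ := fun ξ => mkB (fun t => if t ∈ U ξ then 1 else 0) 1 fun t => by
    split_ifs <;> simp
  obtain ⟨I, hI⟩ := zorn_subset {I : Set S | I.Pairwise fun ξ η =>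
      Pos F (U ξ \ U η) ∨ Pos F (U η \ U ξ)} (by
    intro c hc hchain
    refine ⟨⋃₀ c, ?_, fun s hs => subset_sUnion_of_mem hs⟩
    rintro x ⟨s, hs, hx⟩ x' ⟨s', hs', hx'⟩ hne
    rcases hchain.total hs hs' with h | h
    · exact hc hs' (h hx) hx' hne
    · exact hc hs hx (h hx') hne)
  have hsep : ∀ ξ η, Pos F (U ξ \ U η) ∨ Pos F (U η \ U ξ) →
      Pos F {t | (1 / 2 : ℝ) < |y ξ t - y η t|} := by
    rintro ξ η (h1 | h1) <;> refine h1.mono fun t ht => ?_ <;>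
      simp only [y, mkB_apply, mem_ofPred_eq, if_pos ht.1, if_neg ht.2] <;> norm_num
  have hIc : τ ≤ #I := by
    by_contra hlt
    have hcov : (univ : Set S) ⊆ ⋃ ξ : I, {η | ¬ Pos F (U ξ \ U η)} := fun η _ => by
      by_contra hc
      simp only [mem_iUnion, mem_ofPred_eq, not_exists, not_not] at hc
      have h2 : insert η I ∈ {I : Set S | I.Pairwise fun ξ η =>
          Pos F (U ξ \ U η) ∨ Pos F (U η \ U ξ)} :=
        hI.prop.insert fun ξ hξ _ => ⟨Or.inr (hc ⟨ξ, hξ⟩), Or.inl (hc ⟨ξ, hξ⟩)⟩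
      have h3 : η ∈ I := hI.eq_of_subset h2 (subset_insert _ _) ▸ mem_insert _ _
      have := hc ⟨η, h3⟩
      rw [sdiff_self] at this
      exact not_pos_empty this
    have := (mk_le_mk_of_subset hcov).trans_lt
      ((card_iUnion_lt_iff_forall_of_isRegular hG.reg (not_le.mp hlt)).mpr fun ξ => h ξ)
    rw [mk_univ] at this
    exact absurd hS (not_le.mpr this)
  have hinj : InjOn y I := fun ξ hξ η hη he => by
    by_contra hne
    obtain ⟨t, ht⟩ := (hsep ξ η (hI.prop hξ hη hne)).nonempty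
    rw [he] at ht
    norm_num at ht
  obtain ⟨c, r, h1, h2, h3⟩ := exists_VV hG hC (y '' I) (by rwa [mk_image_eq_of_injOn _ _ hinj]) (by
    rintro _ ⟨ξ, hξ, rfl⟩ _ ⟨η, hη, rfl⟩ hne
    exact ⟨1 / 2, by norm_num, hsep ξ η (hI.prop hξ hη fun e => hne (e ▸ rfl))⟩)
  obtain ⟨_, z, -, hz⟩ := ind_seq (F := F) (N := Unit) (S := Unit) (Θ := OT τ)
    (fun _ ξ b => if b then U ξ else (U ξ)ᶜ) (fun _ => univ) (fun _ => τ) (fun _ _ => c)
    (fun _ _ 𝒰 h4 h5 => by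
      obtain ⟨_, ⟨ξ, -, rfl⟩, h6⟩ := h3 𝒰 h4 h5
      refine ⟨ξ, trivial, fun W hW hWc b => ?_⟩
      obtain ⟨a, h7, h8⟩ := h6 W hW hWc
      obtain ⟨t₁, -, ht₁⟩ := h7.nonempty
      obtain ⟨t₂, -, ht₂⟩ := h8.nonempty
      have h9 : ∀ t, 0 ≤ y ξ t ∧ y ξ t ≤ 1 := fun t => by
        simp only [y, mkB_apply]; split_ifs <;> norm_num
      simp only [mem_ofPred_eq] at ht₁ ht₂
      cases b
      · refine h8.mono fun t ht => ⟨ht.1, fun hm => ?_⟩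
        have := ht.2
        simp only [y, mkB_apply, mem_ofPred_eq, if_pos hm] at this
        linarith [(h9 t₁).2]
      · refine h7.mono fun t ht => ⟨ht.1, ?_⟩
        by_contra hm
        have := ht.2
        simp only [↓reduceIte] at hm
        simp only [y, mkB_apply, mem_ofPred_eq, if_neg hm] at this
        linarith [(h9 t₂).1])
    fun x => ⟨(), mk_Iio_OT x, by simpa using one_lt_aleph0.trans hG.aleph0_lt, hG.aleph0_lt⟩
  have hz' : ∀ (σ : OT τ → Bool) (s : Finset (OT τ)),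
      Pos F (⋂ x ∈ s, if σ x then U (z x ()) else (U (z x ()))ᶜ) := fun σ s =>
    (hz () σ {()} s (fun _ _ => Finset.mem_singleton.mpr rfl)
      (h1.mono fun t ht => mem_iInter₂.mpr fun _ _ => ht)).mono inter_subset_right
  have hzi : Function.Injective fun x => z x () := fun x x' he => by
    by_contra hne
    obtain ⟨t, ht⟩ := (hz' (fun w => decide (w = x)) {x, x'}).nonempty
    simp only [mem_iInter] at ht
    have h4 := ht x (by simp)
    have h5 := ht x' (by simp)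
    simp only [decide_true, ↓reduceIte, decide_eq_true_eq, if_neg (Ne.symm hne)] at h4 h5
    exact h5 ((show z x () = z x' () from he) ▸ h4)
  refine ⟨range fun x => z x (), by rw [mk_range_eq _ hzi, mk_OT], fun T hT => ?_⟩
  refine (hz' (fun _ => true) (T.preimage _ hzi.injOn)).mono fun t ht => ?_
  simp only [mem_iInter] at ht ⊢
  intro ξ hξ
  obtain ⟨x, rfl⟩ := hT ξ hξ
  simpa using ht x (Finset.mem_preimage.mpr hξ)

theorem l1_of_cells (i : X →L[ℝ] B Γ) (hi : ∀ x, ‖i x‖ = ‖x‖) {Θ : Type} (y : Θ → X) {r : ℝ}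
    (h : ∀ (s : Finset Θ) (σ : Θ → Bool), ∃ t, ∀ x ∈ s,
      if σ x then r ≤ i (y x) t else i (y x) t ≤ -r) : IsL1 y r := by
  intro s a
  obtain ⟨t, ht⟩ := h s fun x => decide (0 ≤ a x)
  rw [← hi]
  refine le_trans ?_ ((le_abs_self _).trans (B.abs_le _ t))
  rw [map_sum, B.sum_apply, Finset.mul_sum]
  refine Finset.sum_le_sum fun x hx => ?_
  have := ht x hx
  rw [map_smul, B.smul_apply]
  by_cases ha : 0 ≤ a x
  · simp only [ha, decide_true, ↓reduceIte] at this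
    rw [abs_of_nonneg ha]
    nlinarith
  · simp only [ha, decide_false, Bool.false_eq_true, ↓reduceIte] at this
    rw [abs_of_neg (not_le.mp ha)]
    nlinarith [not_le.mp ha]

/-- good levels cofinal in `β`, indexed by the cofinality -/
theorem Big.exists_levels (hB : Big κ β) {δ : Cardinal.{0}} (hδ : δ < β) :
    ∃ lv : OT β.ord.cof → Cardinal.{0}, (∀ ξ, lv ξ < β ∧ Good κ (lv ξ) ∧ δ < lv ξ ∧
      β.ord.cof < lv ξ) ∧ ∀ x : OT β, ∃ ξ₀, ∀ ξ, ξ₀ ≤ ξ → #(Iio x) < lv ξ := by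
  obtain ⟨b, hb⟩ := exists_scale β hB.aleph0_lt.le
  choose lv h1 h2 h3 using fun ξ => hB.exists_good
    (max_lt (max_lt hδ hB.sing) (mk_Iio_OT (b ξ)))
  refine ⟨lv, fun ξ => ⟨h1 ξ, h3 ξ, ((le_max_left _ _).trans (le_max_left _ _)).trans_lt (h2 ξ),
    ((le_max_right _ _).trans (le_max_left _ _)).trans_lt (h2 ξ)⟩, fun x => ?_⟩
  obtain ⟨ξ₀, h0⟩ := hb x
  exact ⟨ξ₀, fun ξ hξ => ((mk_le_mk_of_subset (Iio_subset_Iio (h0 ξ hξ))).trans
    (le_max_right _ _)).trans_lt (h2 ξ)⟩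

/-- the sets on which `T g` is large or small -/
def sgn (T : B Γ →L[ℝ] B Γ) (r : ℝ) (g : B Γ) (b : Bool) : Set Γ :=
  {t | if b then r < T g t else T g t < -r}

theorem VV.split (hG : Good κ τ) (hC : CC F κ) (T : B Γ →L[ℝ] B Γ) (N : Submodule ℝ (B Γ))
    {c : Set Γ} {r ε : ℝ} (h : VV F τ (T '' {g | g ∈ N ∧ ‖g‖ ≤ 1}) c r) (hε : 0 < ε)
    (𝒰 : Set (Set Γ)) (h𝒰 : #𝒰 < τ) (hp : ∀ U ∈ 𝒰, Pos F U) :
    ∃ g ∈ {g | g ∈ N ∧ ‖g‖ ≤ 1}, ∀ U ∈ 𝒰, U ⊆ c → ∀ b, Pos F (U ∩ sgn T (r - ε) g b) := by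
  obtain ⟨g, hg, h4⟩ := VV.sym_ball hG hC T N h 𝒰 h𝒰 hp hε
  refine ⟨g, hg, fun U hU hUc b => ?_⟩
  cases b
  · exact ((h4 U hU).2.2 hUc).2
  · exact ((h4 U hU).2.2 hUc).1

/-- the cofinality is a precaliber -/
theorem t5 [CompleteSpace X] (hB : Big κ β) (hG : Good κ β.ord.cof) (hC : CC F κ)
    (i : X →L[ℝ] B Γ) (hi : ∀ x, ‖i x‖ = ‖x‖) (P : B Γ →L[ℝ] X) (hP : ∀ x, P (i x) = x)
    (hK : #(Ker F i) < β) (hβ : β ≤ #X) : Emb (L1 (OT β)) X := by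
  classical
  obtain ⟨lv, h1, h2⟩ := hB.exists_levels hK
  choose c r hc hr hV using fun ξ => exists_VV_op (h1 ξ).2.1 hC i P (h1 ξ).2.2.1 ⊤
    ((h1 ξ).1.le.trans (hβ.trans (mk_image_top i P hP)))
  obtain ⟨δ, hδ, hA₀⟩ := exists_unif (ρ := β.ord.cof) (by rw [hG.reg.cof_ord]; exact hG.aleph0_lt)
    (mk_OT _).ge r hr
  obtain ⟨A, hA, hA'⟩ := precal hG hC hA₀ (fun ξ => c ξ.1) fun ξ => hc _
  obtain ⟨ξ, z, hz, hz'⟩ := ind_seq (F := F) (N := Unit) (S := A) (Θ := OT β)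
    (fun _ => sgn (i.comp P) (δ - δ / 2)) (fun _ => {g | g ∈ (⊤ : Submodule ℝ (B Γ)) ∧ ‖g‖ ≤ 1})
    (fun ξ => lv ξ.1.1) (fun _ ξ => c ξ.1.1)
    (fun _ ξ => VV.split (h1 _).2.1 hC (i.comp P) ⊤
      ((hV ξ.1.1).mono le_rfl subset_rfl subset_rfl ξ.1.2) (half_pos hδ))
    (fun x => by
      obtain ⟨ξ₀, h0⟩ := h2 x
      obtain ⟨_, ⟨ξ, hξ, rfl⟩, h4⟩ := exists_ge_of_mk (A := Subtype.val '' A)
        (by rwa [mk_image_eq Subtype.val_injective]) ξ₀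
      refine ⟨⟨ξ, hξ⟩, h0 _ h4, ?_, (h1 _).2.1.aleph0_lt⟩
      exact (((mk_set_le _).trans (mk_set_le _)).trans (mk_OT _).le).trans_lt (h1 _).2.2.2)
  refine (l1_of_cells i hi (fun x => P (z x ())) (r := δ - δ / 2) fun s σ => ?_).emb (C := ‖P‖)
    (by linarith) fun x => (P.le_opNorm _).trans
      (mul_le_of_le_one_right (norm_nonneg _) (hz x ()).2)
  obtain ⟨t, -, ht⟩ := (hz' () σ (s.image ξ) s (fun x hx => Finset.mem_image_of_mem _ hx)
    ((hA' ((s.image ξ).image Subtype.val) (by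
      intro η hη
      obtain ⟨η', -, rfl⟩ := Finset.mem_image.mp hη
      exact η'.2)).mono fun t ht => by
        simp only [mem_iInter] at ht ⊢
        exact fun η hη => ht _ (Finset.mem_image_of_mem _ hη))).nonempty
  refine ⟨t, fun x hx => ?_⟩
  have h5 : t ∈ sgn (i.comp P) (δ - δ / 2) (z x ()) (σ x) := mem_iInter₂.mp ht x hx
  simp only [sgn, mem_ofPred_eq, ContinuousLinearMap.comp_apply] at h5
  split_ifs at h5 ⊢ <;> exact h5.le

end Pool.Agent.Lib.MP_4a9e55_an
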