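import Pool.Agent.Lib.MP_4a9e55_an.Col

set_option autoImplicit false

open Cardinal Set Filter
open scoped ENNReal

namespace Pool.Agent.Lib.MP_4a9e55_an

variable {Γ : Type} {F : Filter Γ} {κ β : Cardinal.{0}}
variable {X : Type} [NormedAddCommGroup X] [NormedSpace ℝ X]

/-- the unit ball of a subspace -/
def ballOf (N : Submodule ℝ (B Γ)) : Set (B Γ) := {g | g ∈ N ∧ ‖g‖ ≤ 1}

theorem c0_tri (i : X →L[ℝ] B Γ) (hi : ∀ x, ‖i x‖ = ‖x‖) (P : B Γ →L[ℝ] X) {Θ : Type}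
    [LinearOrder Θ] (V : Θ → Set Γ) :
    C0 i (fun j => P '' ballOf (triSub P (V j) (V '' Iio j))) (‖P‖ + 1) := by
  classical
  intro s y hy t
  choose! g hg hgy using hy
  let σ : Θ → ℝ := fun j => if 0 ≤ i (y j) t then 1 else -1
  have hb := triSub_bound P V (fun j => σ j • g j) s zero_le_one
    (fun j hj => Submodule.smul_mem _ _ (hg j hj).1) (fun j hj => by
      have h2 : ‖σ j‖ = 1 := by simp only [σ]; split_ifs <;> simp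
      rw [norm_smul, h2, one_mul]
      exact (hg j hj).2)
  have h3 := ((le_abs_self _).trans (B.abs_le (i (∑ j ∈ s, P (σ j • g j))) t)).trans
    ((hi _).le.trans hb)
  rw [map_sum, B.sum_apply] at h3
  refine le_trans (le_of_eq (Finset.sum_congr rfl fun j hj => ?_)) (h3.trans (by linarith))
  simp only [map_smul, B.smul_apply, hgy j hj, σ]
  split_ifs with h4
  · rw [abs_of_nonneg h4, one_mul]
  · rw [abs_of_neg (not_le.mp h4), neg_one_mul]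

theorem s3_lt (hl : ∀ θ < κ, Order.succ θ < κ) {θ : Cardinal.{0}} (hθ : θ < κ) : s3 θ < κ :=
  hl _ (hl _ (hl _ hθ))

/-- antichains of all sizes below a regular limit cardinal -/
theorem t7p [CompleteSpace X] (hX : Inj X) (hκ : κ.IsRegular) (hu : ℵ₀ < κ)
    (hl : ∀ θ < κ, Order.succ θ < κ) (i : X →L[ℝ] B Γ) (hi : ∀ x, ‖i x‖ = ‖x‖)
    (P : B Γ →L[ℝ] X) (hP : ∀ x, P (i x) = x) (hA : ∀ θ < κ, ∃ 𝒜, AC (jF P) 𝒜 ∧ θ ≤ #𝒜)
    (J : Type) (hJ : #J ≤ 2 ^< κ) : Emb (L1 J) X := by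
  classical
  by_cases hC : CC (jF P) κ
  swap
  · unfold CC at hC
    push Not at hC
    obtain ⟨𝒜, h1, h2⟩ := hC
    exact emb_pow_of_B hu.le (t1step hX P (by rwa [hκ.cof_ord]) h1 h2) _
      (hJ.trans (powerlt_le.mpr fun ρ hρ => power_le_power_left two_ne_zero hρ.le))
  obtain ⟨n, U₀, hU₀, hsys⟩ := systems hκ hu hl hC i (‖P‖ + 1)
    (fun n Y U => ∃ y ∈ Y, -y ∈ Y ∧ U ⊆ {t | 1 / ((n : ℝ) + 1) < |i y t|}) fun θ hθ => by
      obtain ⟨𝒜, h𝒜, hc⟩ := hA θ hθ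
      obtain ⟨e⟩ := (Cardinal.le_def (OT θ) 𝒜).mp ((mk_OT θ).le.trans hc)
      have hg : ∀ j : OT θ, ∃ n : ℕ, ∃ g ∈ ballOf (triSub P (e j).1 ((fun j => (e j).1) '' Iio j)),
          Pos (jF P) {t | 1 / ((n : ℝ) + 1) < |i (P g) t|} := fun j => by
        have h1 := h𝒜.1 _ (e j).2
        rw [← not_not (a := Pos _ _), not_pos_jF] at h1
        push Not at h1
        obtain ⟨g, h1, h2⟩ := h1
        have h3 : 0 < ‖g‖ := norm_pos_iff.mpr fun h => h2 (by rw [h, map_zero])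
        have h4 : P (‖g‖⁻¹ • g) ∉ Ker (jF P) i := fun hk => by
          have h5 := mk_le_one_iff_set_subsingleton.mp (mk_ker_jF i P hP) hk (zero_mem_ker i)
          rw [map_smul] at h5
          exact smul_ne_zero (inv_pos.mpr h3).ne' h2 h5
        simp only [Ker, mem_ofPred_eq, not_forall, not_not] at h4
        obtain ⟨ε, hε, hp⟩ := h4
        obtain ⟨n, hn⟩ := exists_nat_one_div_lt hε
        refine ⟨n, ‖g‖⁻¹ • g, ⟨Submodule.smul_mem _ _ ⟨h1, fun s => ?_⟩, ?_⟩,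
          hp.mono fun t ht => hn.trans ht⟩
        · refine (not_pos_jF P _).mp (not_pos_biUnion s (fun W => (e j).1 ∩ W.1) ?_) _
            fun t ht => ?_
          · rintro ⟨_, j', hj', rfl⟩ -
            exact h𝒜.2 (e j).2 (e j').2 fun h => hj'.ne' (e.injective (Subtype.ext h))
          · rw [← inter_iUnion₂, mem_inter_iff, not_and_or] at ht
            rcases ht with ht | ht
            · exact Supp.trunc h1 _ t ht
            · exact trunc_of_not_mem _ ht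
        · rw [norm_smul, norm_inv, norm_norm, inv_mul_cancel₀ h3.ne']
      choose n g hg1 hg2 using hg
      exact ⟨OT θ, _, fun j => {t | 1 / ((n j : ℝ) + 1) < |i (P (g j)) t|}, (mk_OT θ).ge,
        c0_tri i hi P fun j => (e j).1, fun j => ⟨hg2 j, n j, _, ⟨g j, hg1 j, rfl⟩,
          ⟨-g j, ⟨Submodule.neg_mem _ (hg1 j).1, by rw [norm_neg]; exact (hg1 j).2⟩,
            map_neg _ _⟩, subset_rfl⟩⟩
  have hδ : (0 : ℝ) < 1 / ((n : ℝ) + 1) := Nat.one_div_pos_of_nat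
  set δ : ℝ := 1 / ((n : ℝ) + 1)
  set T := i.comp P with hT
  obtain ⟨𝓔, h𝓔⟩ := exists_seq (Θ := OT κ)
    {𝓔 : Set (Set Γ) | #𝓔 < κ ∧ ∀ E ∈ 𝓔, Pos (jF P) E ∧ E ⊆ U₀}
    (fun ξ 𝒱 𝓔 => ∃ g : (Iic ξ × ℕ → Bool) → B Γ, (∀ s, ‖g s‖ ≤ ‖P‖ + 1) ∧
      ∀ E' ∈ insert U₀ (⋃₀ 𝒱), ∀ a, ∃ E ∈ 𝓔, E ⊆ E' ∧ ∀ s, E ⊆ sgn T (δ / 2) (g s) (s a))
      (fun ξ 𝒱 h3 h4 => by
    have hR₀ : #(insert U₀ (⋃₀ 𝒱) : Set (Set Γ)) < κ := by
      refine mk_insert_le.trans_lt (add_lt_of_lt hu.le ?_ (one_lt_aleph0.trans hu))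
      rw [sUnion_eq_iUnion]
      exact (card_iUnion_lt_iff_forall_of_isRegular hκ
        (h4.trans_lt (mk_Iio_OT ξ))).mpr fun A => (h3 A.2).1
    have hR' : ∀ r : (insert U₀ (⋃₀ 𝒱) : Set (Set Γ)), Pos (jF P) r.1 ∧ r.1 ⊆ U₀ := by
      rintro ⟨r, rfl | ⟨A, hA, hr⟩⟩
      · exact ⟨hU₀, subset_rfl⟩
      · exact (h3 hA).2 r hr
    let R := (insert U₀ (⋃₀ 𝒱) : Set (Set Γ)) × (Iic ξ × ℕ)
    have hR : #R < κ := by
      simp only [R, mk_prod, lift_id, mk_nat]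
      exact mul_lt_of_lt hu.le hR₀ (mul_lt_of_lt hu.le (mk_Iic_OT hu.le ξ) hu)
    choose K Y U h5 h6 h7 using fun r : R => hsys r.1.1 (hR' r.1).2 (hR' r.1).1 _
      (s3_lt hl (max_lt hR hu))
    have h8 : ∀ (r : R) (k : K r), ∃ y ∈ Y r k, -y ∈ Y r k ∧
        Pos (jF P) (r.1.1 ∩ {t | δ < i y t}) := fun r k => by
      obtain ⟨h7, y, h8, h9, h10⟩ := h7 r k
      rcases h7.of_subset_union (V := r.1.1 ∩ {t | δ < i y t}) (W := r.1.1 ∩ {t | δ < i (-y) t})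
        (fun t ht => (lt_abs.mp (show δ < |i y t| from h10 ht.2)).elim
          (fun h => Or.inl ⟨ht.1, h⟩) fun h => Or.inr ⟨ht.1, by simpa using h⟩) with h11 | h11
      · exact ⟨y, h8, h9, h11⟩
      · exact ⟨-y, h9, by rwa [neg_neg], h11⟩
    choose y hy hy' hy'' using h8
    obtain ⟨k, c', h8, h9⟩ := imitate i P hP (le_max_right _ _) (le_max_left #R ℵ₀) K h5 Y _ hy''
      (show 0 < ‖P‖ + 1 by positivity) h6 (half_pos hδ)
    choose g hg hg' using fun s : Iic ξ × ℕ → Bool => h9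
      (fun r => if s r.2 then y r (k r) else -y r (k r)) fun r => by
        split_ifs
        · exact hy _ _
        · exact hy' _ _
    have h10 : ∀ r, c' r ⊆ r.1.1 := fun r => (h8 r).1.trans inter_subset_left
    refine ⟨range c', ⟨mk_range_le.trans_lt hR, ?_⟩, g, hg, fun E' hE' a =>
      ⟨_, ⟨(⟨E', hE'⟩, a), rfl⟩, h10 _, fun s t ht => ?_⟩⟩
    · rintro _ ⟨r, rfl⟩
      exact ⟨(h8 r).2, (h10 r).trans (hR' r.1).2⟩
    · have e1 : δ < i (y _ (k _)) t := ((h8 _).1 ht).2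
      have e2 := abs_le.mp (hg' s _ t ht)
      simp only [sgn, mem_ofPred_eq, hT, ContinuousLinearMap.comp_apply] at e2 ⊢
      split_ifs at e2 ⊢
      · linarith [e2.1]
      · rw [map_neg, B.neg_apply] at e2
        linarith [e2.2])
  choose g hg hg' using fun ξ => (h𝓔 ξ).2
  choose f hf using fun ξ : OT κ => ek (N := Iic ξ × ℕ) (S := Set (Iic ξ × ℕ)) mk_set.le
  let y : (Σ ξ : OT κ, Set (Iic ξ × ℕ)) → X := fun p =>
    P (g p.1 fun a => decide ((f p.1 a p.2).2 = 0))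
  refine Emb.l1_mono (ι := Σ ξ : OT κ, Set (Iic ξ × ℕ)) ?_ (hJ.trans (powerlt_le.mpr fun ρ hρ => ?_))
  swap
  · obtain ⟨ξ, rfl⟩ := exists_Iio_eq hρ
    refine le_trans ?_ (mk_le_of_injective (sigma_mk_injective (i := ξ)))
    rw [mk_set]
    exact power_le_power_left two_ne_zero (mk_le_of_injective
      (f := fun x : Iio ξ => ((⟨x.1, mem_Iic.mpr (le_of_lt x.2)⟩, 0) : Iic ξ × ℕ)) fun x x' h =>
        Subtype.ext (congrArg (fun q : Iic ξ × ℕ => q.1.1) h))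
  refine (l1_of_cells i hi y (r := δ / 2) fun s σ => ?_).emb
    (C := ‖P‖ * (‖P‖ + 1)) (half_pos hδ) fun p => (P.le_opNorm _).trans
      (mul_le_mul_of_nonneg_left (hg _ _) (norm_nonneg _))
  choose a ha using fun ξ => hf ξ (s.preimage (fun A : Set (Iic ξ × ℕ) => ⟨ξ, A⟩)
    (sigma_mk_injective (β := fun ξ : OT κ => Set (Iic ξ × ℕ))).injOn)
    fun A => (⟨ξ, mem_Iic.mpr le_rfl⟩, if σ ⟨ξ, A⟩ then 0 else 1)
  have hchain : ∀ u : Finset (OT κ), ∃ E, (E = U₀ ∨ ∃ ξ ∈ u, E ∈ 𝓔 ξ) ∧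
      ∀ ξ ∈ u, ∀ s, E ⊆ sgn T (δ / 2) (g ξ s) (s (a ξ)) := fun u => by
    induction u using Finset.induction_on_max with
    | empty => exact ⟨U₀, Or.inl rfl, by simp⟩
    | insert m u hm ih =>
      obtain ⟨E, h3, h4⟩ := ih
      obtain ⟨E', h5, h6, h7⟩ := hg' m E
        (h3.imp id fun ⟨ξ, h7, h8⟩ => ⟨_, ⟨ξ, hm ξ h7, rfl⟩, h8⟩) (a m)
      refine ⟨E', Or.inr ⟨m, Finset.mem_insert_self _ _, h5⟩, fun ξ hξ => ?_⟩
      rcases Finset.mem_insert.mp hξ with rfl | hξ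
      · exact h7
      · exact fun s => h6.trans (h4 ξ hξ s)
  obtain ⟨E, h3, h4⟩ := hchain (s.image Sigma.fst)
  obtain ⟨t, ht⟩ := (h3.elim (fun h => h ▸ hU₀) fun ⟨η, _, h⟩ => ((h𝓔 η).1.2 E h).1).nonempty
  refine ⟨t, fun p hp => ?_⟩
  have h5 := h4 p.1 (Finset.mem_image_of_mem _ hp) (fun a => decide ((f p.1 a p.2).2 = 0)) ht
  simp only [sgn, mem_ofPred_eq, hT, ContinuousLinearMap.comp_apply,
    ha p.1 p.2 (Finset.mem_preimage.mpr hp), Sigma.eta] at h5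
  cases hσ : σ p
  · simp only [hσ, Bool.false_eq_true, ↓reduceIte, one_ne_zero, decide_false] at h5 ⊢
    exact h5.le
  · simp only [hσ, ↓reduceIte, decide_true] at h5 ⊢
    exact h5.le

/-- transfinite construction of an independent family over a base of regions -/
theorem ind_seq2 {S Z Θ : Type} [LinearOrder Θ] [WellFoundedLT Θ] (p : Z → Bool → Set Γ)
    (Q : Set Z) (lv : S → Cardinal.{0}) (𝓔 : S → Set (Set Γ)) (𝓑 : Set (Set Γ))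
    (hE : ∀ ξ (𝒰 : Set (Set Γ)), #𝒰 < lv ξ → (∀ U ∈ 𝒰, Pos F U) →
      ∃ z ∈ Q, ∀ U ∈ 𝒰, (∃ E ∈ 𝓔 ξ, U ⊆ E) → ∀ b, Pos F (U ∩ p z b))
    (hθ : ∀ x : Θ, ∃ ξ, #(Iio x) < lv ξ ∧ #𝓑 < lv ξ ∧ ℵ₀ < lv ξ) :
    ∃ (ξ : Θ → S) (z : Θ → Z), (∀ x, z x ∈ Q) ∧ ∀ (σ : Θ → Bool), ∀ E ∈ 𝓑, ∀ s : Finset Θ,
      (∀ x ∈ s, ∃ E' ∈ 𝓔 (ξ x), E ⊆ E') → Pos F E → Pos F (E ∩ ⋂ x ∈ s, p (z x) (σ x)) := by
  classical
  let cell : Set Γ → (𝒱 : Set (S × Z)) → Finset (𝒱 × Bool) → Set Γ :=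
    fun E 𝒱 u => E ∩ ⋂ q ∈ u, p q.1.1.2 q.2
  obtain ⟨V, hV⟩ := exists_seq (Θ := Θ) {q : S × Z | q.2 ∈ Q}
    (fun _ 𝒱 V => ∀ E ∈ 𝓑, ∀ u : Finset (𝒱 × Bool), (∃ E' ∈ 𝓔 V.1, E ⊆ E') →
      Pos F (cell E 𝒱 u) → ∀ b, Pos F (cell E 𝒱 u ∩ p V.2 b)) (fun x 𝒱 _ h𝒱 => by
    obtain ⟨ξ, h1, h2, h3⟩ := hθ x
    have hc : #(𝓑 × Finset (𝒱 × Bool)) < lv ξ := by
      simp only [mk_prod, lift_id]
      refine mul_lt_of_lt h3.le h2 (mk_finset_lt h3 ?_)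
      simp only [mk_prod, lift_id]
      exact mul_lt_of_lt h3.le (h𝒱.trans_lt h1) ((lt_aleph0_of_finite _).trans h3)
    obtain ⟨z, hz, hz'⟩ := hE ξ ({U | Pos F U} ∩
      range fun a : 𝓑 × Finset (𝒱 × Bool) => cell a.1 𝒱 a.2)
      ((mk_le_mk_of_subset inter_subset_right).trans_lt (mk_range_le.trans_lt hc))
      fun U hU => hU.1
    exact ⟨(ξ, z), hz, fun E hE u ⟨E', h4, h5⟩ hp => hz' _ ⟨hp, (⟨E, hE⟩, u), rfl⟩
      ⟨E', h4, inter_subset_left.trans h5⟩⟩)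
  refine ⟨fun x => (V x).1, fun x => (V x).2, fun x => (hV x).1, fun σ E hE s hs hT => ?_⟩
  induction s using Finset.induction_on_max with
  | empty => simpa using hT
  | insert m s hm ih =>
    have h1 := ih fun x hx => hs x (Finset.mem_insert_of_mem hx)
    let u : Finset ((V '' Iio m) × Bool) :=
      s.attach.image fun x => (⟨V x.1, x.1, hm _ x.2, rfl⟩, σ x.1)
    have e : cell E (V '' Iio m) u = E ∩ ⋂ x ∈ s, p (V x).2 (σ x) := by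
      simp only [cell, u]
      congr 1
      ext t
      simp only [mem_iInter, Finset.mem_image, Finset.mem_attach, true_and]
      exact ⟨fun h x hx => h _ ⟨⟨x, hx⟩, rfl⟩, by rintro h _ ⟨x, rfl⟩; exact h x.1 x.2⟩
    have h2 := (hV m).2 E hE u (hs m (Finset.mem_insert_self _ _)) (e ▸ h1) (σ m)
    rw [e] at h2
    refine h2.mono fun t ht => ⟨ht.1.1, ?_⟩
    rw [Finset.set_biInter_insert]
    exact ⟨ht.2, ht.1.2⟩

/-- the cofinality is a limit cardinal -/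
theorem t7core [CompleteSpace X] (hB : Big β.ord.cof β)
    (hl : ∀ θ < β.ord.cof, Order.succ θ < β.ord.cof) (hC : CC F β.ord.cof)
    (i : X →L[ℝ] B Γ) (hi : ∀ x, ‖i x‖ = ‖x‖) (P : B Γ →L[ℝ] X) (hP : ∀ x, P (i x) = x)
    (hK : #(Ker F i) < β) (hV : ∀ θ < β.ord.cof, ∃ V : OT θ → Set Γ,
      ∀ j, β ≤ #(P '' triSub P (V j) (V '' Iio j))) : Emb (L1 (OT β)) X := by
  classical
  set T := i.comp P with hT
  obtain ⟨n, U₀, hU₀, hsys⟩ := systems hB.regκ hB.unc hl hC i (‖P‖ + 1)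
    (fun n Y U => ∃ N : Submodule ℝ (B Γ), Y = P '' ballOf N ∧ ∀ τ < β, ∀ A ⊆ U, Pos F A →
      ∃ c ⊆ A, Pos F c ∧ VV F τ (T '' ballOf N) c (1 / ((n : ℝ) + 1))) fun θ hθ => by
      obtain ⟨V, hV⟩ := hV θ hθ
      choose r hr hr' using fun j => hB.exists_VV hC i P hK hB.unc _ (hV j)
      choose n hn using fun j => exists_nat_one_div_lt (hr j)
      choose U _ hU2 hU3 using fun j => every hC le_rfl hB.aleph0_lt
        (fun τ c => VV F τ (T '' ballOf (triSub P (V j) (V '' Iio j))) c (1 / ((n j : ℝ) + 1)))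
        (fun _ _ _ _ h1 h2 h3 => h1.mono h2 subset_rfl h3 le_rfl) univ fun τ hτ => by
          obtain ⟨c, h1, h2⟩ := hr' j τ hτ
          exact ⟨c, subset_univ _, h1, h2.mono le_rfl subset_rfl subset_rfl (hn j).le⟩
      exact ⟨OT θ, _, U, (mk_OT θ).ge, c0_tri i hi P V, fun j => ⟨hU2 j, n j, _, rfl, hU3 j⟩⟩
  have hδ : (0 : ℝ) < 1 / ((n : ℝ) + 1) := Nat.one_div_pos_of_nat
  set δ : ℝ := 1 / ((n : ℝ) + 1)
  obtain ⟨lv, h1, h2⟩ := hB.exists_levels hK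
  obtain ⟨𝓔, h𝓔⟩ := exists_seq (Θ := OT β.ord.cof)
    {𝓔 : Set (Set Γ) | #𝓔 < β.ord.cof ∧ ∀ E ∈ 𝓔, Pos F E ∧ E ⊆ U₀}
    (fun ξ 𝒱 𝓔 => (∀ E' ∈ insert U₀ (⋃₀ 𝒱), ∃ E ∈ 𝓔, E ⊆ E') ∧
      ∀ 𝒰 : Set (Set Γ), #𝒰 < lv ξ → (∀ U ∈ 𝒰, Pos F U) → ∃ g ∈ {g : B Γ | ‖g‖ ≤ ‖P‖ + 1},
        ∀ U ∈ 𝒰, (∃ E ∈ 𝓔, U ⊆ E) → ∀ b, Pos F (U ∩ sgn T (δ / 2) g b)) (fun ξ 𝒱 h3 h4 => by
    have hR : #(insert U₀ (⋃₀ 𝒱) : Set (Set Γ)) < β.ord.cof := by
      refine mk_insert_le.trans_lt (add_lt_of_lt hB.unc.le ?_ (one_lt_aleph0.trans hB.unc))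
      rw [sUnion_eq_iUnion]
      exact (card_iUnion_lt_iff_forall_of_isRegular hB.regκ
        (h4.trans_lt (mk_Iio_OT ξ))).mpr fun A => (h3 A.2).1
    have hR' : ∀ r : (insert U₀ (⋃₀ 𝒱) : Set (Set Γ)), Pos F r.1 ∧ r.1 ⊆ U₀ := by
      rintro ⟨r, rfl | ⟨A, hA, hr⟩⟩
      · exact ⟨hU₀, subset_rfl⟩
      · exact (h3 hA).2 r hr
    choose K Y U h5 h6 h7 using fun r : (insert U₀ (⋃₀ 𝒱) : Set (Set Γ)) =>
      hsys r.1 (hR' r).2 (hR' r).1 _ (s3_lt hl (max_lt hR hB.unc))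
    obtain ⟨k, c', h8, h9⟩ := imitate i P hP (le_max_right _ _) (le_max_left _ ℵ₀) K h5 Y _
      (fun r k => (h7 r k).1) (show 0 < ‖P‖ + 1 by positivity) h6 (show 0 < δ / 4 by positivity)
    choose N hN1 hN2 using fun r => (h7 r (k r)).2
    choose E hE1 hE2 hE3 using fun r => hN2 r _ (h1 ξ).1 _
      ((h8 r).1.trans inter_subset_right) (h8 r).2
    have hE4 : ∀ r, E r ⊆ r.1 := fun r => (hE1 r).trans ((h8 r).1.trans inter_subset_left)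
    refine ⟨range E, ⟨mk_range_le.trans_lt hR, ?_⟩, fun E' hE' => ⟨_, ⟨⟨E', hE'⟩, rfl⟩, hE4 _⟩,
      fun 𝒰 h𝒰 hp => ?_⟩
    · rintro _ ⟨r, rfl⟩
      exact ⟨hE2 r, (hE4 r).trans (hR' r).2⟩
    choose g hg hg' using fun r => VV.split (h1 ξ).2.1 hC T (N r) (hE3 r)
      (show 0 < δ / 4 by positivity) 𝒰 h𝒰 hp
    obtain ⟨G, hG, hG'⟩ := h9 (fun r => P (g r)) fun r => (hN1 r).symm ▸ ⟨g r, hg r, rfl⟩
    refine ⟨G, hG, ?_⟩
    rintro W hW ⟨_, ⟨r, rfl⟩, hWE⟩ b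
    refine (hg' r W hW hWE b).mono fun t ht => ⟨ht.1, ?_⟩
    have e1 := abs_le.mp (hG' r t (hE1 r (hWE ht.1)))
    have e2 := ht.2
    simp only [sgn, mem_ofPred_eq, hT, ContinuousLinearMap.comp_apply] at e2 ⊢
    split_ifs at e2 ⊢ <;> linarith [e1.1, e1.2])
  have hchain : ∀ s : Finset (OT β.ord.cof), ∃ E, (E = U₀ ∨ ∃ ξ ∈ s, E ∈ 𝓔 ξ) ∧
      ∀ ξ ∈ s, ∃ E' ∈ 𝓔 ξ, E ⊆ E' := fun s => by
    induction s using Finset.induction_on_max with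
    | empty => exact ⟨U₀, Or.inl rfl, by simp⟩
    | insert m s hm ih =>
      obtain ⟨E, h3, h4⟩ := ih
      obtain ⟨E', h5, h6⟩ := (h𝓔 m).2.1 E (h3.imp id fun ⟨ξ, h7, h8⟩ => ⟨_, ⟨ξ, hm ξ h7, rfl⟩, h8⟩)
      refine ⟨E', Or.inr ⟨m, Finset.mem_insert_self _ _, h5⟩, fun ξ hξ => ?_⟩
      rcases Finset.mem_insert.mp hξ with rfl | hξ
      · exact ⟨E', h5, subset_rfl⟩
      · obtain ⟨E'', h7, h8⟩ := h4 ξ hξ
        exact ⟨E'', h7, h6.trans h8⟩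
  obtain ⟨ξ, z, hz, hz'⟩ := ind_seq2 (F := F) (Θ := OT β) (sgn T (δ / 2)) _ lv 𝓔
    (insert U₀ (⋃ ξ, 𝓔 ξ)) (fun ξ => (h𝓔 ξ).2.2) fun x => by
      obtain ⟨ξ₀, h0⟩ := h2 x
      refine ⟨ξ₀, h0 _ le_rfl, lt_of_le_of_lt ?_ (h1 _).2.2.2, (h1 _).2.1.aleph0_lt⟩
      refine mk_insert_le.trans ((add_le_add ((mk_iUnion_le _).trans ((mul_le_mul' (mk_OT _).le
        (ciSup_le' fun ξ => (h𝓔 ξ).1.1.le)).trans (mul_eq_self hB.unc.le).le))
        (one_le_aleph0.trans hB.unc.le)).trans (add_eq_self hB.unc.le).le)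
  refine (l1_of_cells i hi (fun x => P (z x)) (r := δ / 2) fun s σ => ?_).emb
    (C := ‖P‖ * (‖P‖ + 1)) (half_pos hδ) fun x => (P.le_opNorm _).trans
      (mul_le_mul_of_nonneg_left (hz x) (norm_nonneg _))
  obtain ⟨E, h3, h4⟩ := hchain (s.image ξ)
  obtain ⟨t, -, ht⟩ := (hz' σ E (h3.imp id fun ⟨η, _, h⟩ => mem_iUnion.mpr ⟨η, h⟩) s
    (fun x hx => h4 _ (Finset.mem_image_of_mem _ hx))
    (h3.elim (fun h => h ▸ hU₀) fun ⟨η, _, h⟩ => ((h𝓔 η).1.2 E h).1)).nonempty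
  refine ⟨t, fun x hx => ?_⟩
  have h5 : t ∈ sgn T (δ / 2) (z x) (σ x) := mem_iInter₂.mp ht x hx
  simp only [sgn, mem_ofPred_eq, hT, ContinuousLinearMap.comp_apply] at h5
  split_ifs at h5 ⊢ <;> exact h5.le

/-- the cofinality is the limit cardinal `κ` -/
theorem t7 [CompleteSpace X] (hX : Inj X) (hB : Big β.ord.cof β)
    (hl : ∀ θ < β.ord.cof, Order.succ θ < β.ord.cof) (hC : CC F β.ord.cof)
    (i : X →L[ℝ] B Γ) (hi : ∀ x, ‖i x‖ = ‖x‖) (P : B Γ →L[ℝ] X) (hP : ∀ x, P (i x) = x)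
    (hK : #(Ker F i) < β) :
    Emb (L1 (OT β)) X ∨ ∃ F' : Filter Γ, ∃ μ < β.ord.cof, CC F' μ ∧ #(Ker F' i) < β := by
  have h0 := hB.aleph0_lt
  rcases t3' hX hB hC i hi P hP hK hB.unc le_rfl with h | h
  · exact Or.inl (h.l1_mono (by simp))
  by_cases hA : ∃ μ < β.ord.cof, CC (smallF P β h0.le) μ
  · obtain ⟨μ, h1, h2⟩ := hA
    exact Or.inr ⟨_, μ, h1, h2, h⟩
  left
  unfold CC at hA
  push Not at hA
  refine t7core hB hl hC i hi P hP hK fun ν hν => ?_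
  obtain ⟨𝒜, h𝒜, hc⟩ := hA ν hν
  obtain ⟨e⟩ := (Cardinal.le_def (OT ν) 𝒜).mp ((mk_OT ν).le.trans hc)
  refine ⟨fun j => (e j).1, fun j => ?_⟩
  have h2 : #((fun j => (e j).1) '' Iio j) < β.ord.cof :=
    mk_image_le.trans_lt ((mk_Iio_OT j).trans hν)
  obtain ⟨δ, hδ, hδ0, hδ1⟩ := exists_bound_of_cof
    (fun W : (fun j => (e j).1) '' Iio j => cc P ((e j).1 ∩ W)) h0 h2 (by
      rintro ⟨_, j', hj', rfl⟩
      exact not_le.mp fun h => h𝒜.2 (e j).2 (e j').2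
        (fun h' => hj'.ne' (e.injective (Subtype.ext h'))) ((pos_smallF P h0.le _).mpr h))
  exact le_of_le_mul h0.le (hB.power_lt hδ (mk_finset_lt hB.unc h2))
    (((pos_smallF P h0.le _).mp (h𝒜.1 _ (e j).2)).trans
      (cc_le_triSub P _ _ hδ0 fun W hW => hδ1 ⟨W, hW⟩))

theorem power_le_power_cof {δ σ : Cardinal.{0}} (h0 : ℵ₀ ≤ δ) (h : ∀ g < δ, g ^ σ ≤ δ) :
    δ ^ σ ≤ δ ^ δ.ord.cof := by
  obtain ⟨b, hb⟩ := exists_scale δ h0
  have : Nonempty (OT δ) := mk_ne_zero_iff.mp (by rw [mk_OT]; exact (aleph0_pos.trans_le h0).ne')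
  have h1 := mk_le_of_injective (f := fun (s : OT σ → OT δ) ξ => code (b ξ) s) fun s s' he => by
    obtain ⟨x, hx⟩ := code_pair s s'
    obtain ⟨ξ, hξ⟩ := hb x
    exact hx _ (hξ ξ le_rfl) (congrFun he ξ)
  rw [mk_pi, mk_pi, prod_const', mk_OT, mk_OT] at h1
  refine h1.trans ((prod_le_prod _ (fun _ => δ) fun ξ => ?_).trans ?_)
  · simp only [mk_prod, lift_id, mk_nat, mk_pi, prod_const', mk_option, mk_OT]
    exact (mul_le_mul' (h _ (add_lt_of_lt h0 (mk_Iic_OT h0 _) (one_lt_aleph0.trans_le h0)))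
      h0).trans (mul_eq_self h0).le
  · rw [prod_const', mk_OT]

theorem powerlt_lt_of_two (hκ : κ.IsRegular) (h2 : 2 ^< κ < β)
    (hpow : ∀ δ < β, ∀ σ < κ, δ ^ σ < β) (δ : Cardinal.{0}) : δ < β → δ ^< κ < β := by
  induction δ using WellFoundedLT.induction with
  | ind δ ih =>
  intro hδ
  rcases le_or_gt δ (2 ^< κ) with h1 | h1
  · exact ((powerlt_mono h1).trans (powerlt_powerlt hκ le_rfl)).trans_lt h2
  have h0 : ℵ₀ ≤ δ := hκ.aleph0_le.trans ((le_powerlt_exp le_rfl).trans h1.le)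
  by_cases h3 : ∃ g < δ, ∃ σ < κ, δ ≤ g ^ σ
  · obtain ⟨g, hg, σ, hσ, h3⟩ := h3
    have h4 : max g 2 < δ := max_lt hg ((natCast_lt_aleph0 (n := 2)).trans_le h0)
    exact ((powerlt_mono (h3.trans ((power_le_power_right (le_max_left g 2)).trans
      (le_powerlt _ hσ)))).trans (powerlt_powerlt hκ (le_max_right _ _))).trans_lt
      (ih _ h4 (h4.trans hδ))
  push Not at h3
  rcases le_or_gt κ δ.ord.cof with h4 | h4
  · exact (powerlt_le.mpr fun σ hσ => power_le_self_of_cof h0 (hσ.trans_le h4)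
      fun g hg => (h3 g hg σ hσ).le).trans_lt hδ
  · exact (powerlt_le.mpr fun σ hσ => power_le_power_cof h0
      fun g hg => (h3 g hg σ hσ).le).trans_lt (hpow δ hδ _ h4)

end Pool.Agent.Lib.MP_4a9e55_an
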