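import Pool.Agent.Lib.MP_4a9e55_an.T7

set_option autoImplicit false

open Cardinal Set Filter
open scoped ENNReal

namespace Pool.Agent.Lib.MP_4a9e55_an

variable {Γ : Type} {F : Filter Γ} {κ τ β : Cardinal.{0}}
variable {X : Type} [NormedAddCommGroup X] [NormedSpace ℝ X]

/-- dense sets of all levels can be met on `J` pieces -/
def PiecesOK (F : Filter Γ) (β : Cardinal.{0}) (J : Type) : Prop :=
  ∀ lv : OT β.ord.cof → Cardinal.{0}, (∀ ξ, lv ξ < β) → ∀ U : J → Set Γ, (∀ j, Pos F (U j)) →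
    ∀ D : J → Cardinal.{0} → Set Γ → Prop, (∀ j τ τ' c, D j τ c → τ' ≤ τ → D j τ' c) →
    (∀ j, ∀ τ < β, ∀ A ⊆ U j, Pos F A → ∃ E ⊆ A, Pos F E ∧ D j τ E) →
    ∃ E : J → OT β.ord.cof → Set Γ, (∀ j ξ, E j ξ ⊆ U j ∧ D j (lv ξ) (E j ξ)) ∧
      ∀ T : Finset (OT β.ord.cof), T.Nonempty → ∃ j, Pos F (⋂ ξ ∈ T, E j ξ)

theorem piecesOK_succ {ν : Cardinal.{0}} {J : Type} [Infinite J] (hJ : ν ≤ #J)
    (hcof : β.ord.cof ≤ Order.succ ν) : PiecesOK F β J := fun lv h1 U hU D _ hD =>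
  pieces (N := J) (S := OT β.ord.cof)
    (by rw [mk_OT]
        exact hcof.trans ((Order.succ_le_of_lt (cantor ν)).trans
          (power_le_power_left two_ne_zero hJ)))
    (fun ξ => (Order.le_of_lt_succ ((mk_Iio_OT ξ).trans_le hcof)).trans hJ) U hU
    (fun j ξ c => D j (lv ξ) c) fun j ξ => hD j _ (h1 ξ)

/-- the pieces trick for disjoint pieces -/
theorem t6gen [CompleteSpace X] (hB : Big κ β) (hκ : κ ≤ β.ord.cof) (hC : CC F κ)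
    (i : X →L[ℝ] B Γ) (hi : ∀ x, ‖i x‖ = ‖x‖) (P : B Γ →L[ℝ] X) (hK : #(Ker F i) < β)
    {Γ' J : Type} [Infinite J] (S : B Γ' →L[ℝ] X) (W : J → Set Γ')
    (hW : Pairwise fun j j' => Disjoint (W j) (W j')) (N : J → Submodule ℝ (B Γ))
    (hS : ∀ j, ∀ g ∈ ballOf (N j), ∃ g' : B Γ', Supp (W j) g' ∧ ‖g'‖ ≤ 1 ∧ S g' = P g)
    {δ : ℝ} (hδ : 0 < δ)
    (hV : ∀ j, ∀ τ < β, ∃ c, Pos F c ∧ VV F τ ((i.comp P) '' ballOf (N j)) c δ)
    (hp : PiecesOK F β J) : Emb (L1 (OT β)) X := by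
  classical
  let 𝒳 : J → Set (B Γ) := fun j => (i.comp P) '' ballOf (N j)
  obtain ⟨e, he⟩ := Glue.kupka_op S W hW
    (fun j => {𝔉 | ∀ τ < β, ∃ c ⊆ evD i hi ⁻¹' 𝔉, Pos F c ∧ VV F τ (𝒳 j) c δ})
    (fun j => ⟨univ, fun τ hτ => by
      obtain ⟨c, h1, h2⟩ := hV j τ hτ
      exact ⟨c, subset_univ _, h1, h2⟩⟩)
    (fun j h => by
      obtain ⟨c, h1, h2, -⟩ := h 0 (aleph0_pos.trans hB.aleph0_lt)
      obtain ⟨t, ht⟩ := h2.nonempty
      exact h1 ht)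
    (fun j A A' h => by
      by_contra hc
      simp only [mem_ofPred_eq, not_or, not_forall, not_exists, not_and] at hc
      obtain ⟨⟨τ₁, h1, h2⟩, τ₂, h3, h4⟩ := hc
      obtain ⟨c, h5, h6, h7⟩ := h _ (max_lt h1 h3)
      rcases h6.of_subset_union (V := c ∩ evD i hi ⁻¹' A) (W := c ∩ evD i hi ⁻¹' A')
        (fun t ht => (h5 ht).imp (fun h => ⟨ht, h⟩) fun h => ⟨ht, h⟩) with h8 | h8
      · exact h2 _ inter_subset_right h8
          (h7.mono (le_max_left _ _) subset_rfl inter_subset_left le_rfl)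
      · exact h4 _ inter_subset_right h8
          (h7.mono (le_max_right _ _) subset_rfl inter_subset_left le_rfl))
    (show 0 < δ / 4 by positivity)
  choose 𝔉 h𝔉 h𝔉' using he
  choose U hU1 hU2 hU3 using fun θ => every hC hκ hB.aleph0_lt (fun τ c => VV F τ (𝒳 (e θ)) c δ)
    (fun _ _ _ _ h1 h2 h3 => h1.mono h2 subset_rfl h3 le_rfl) _ (h𝔉 θ)
  obtain ⟨lv, h1, h2⟩ := hB.exists_levels hK
  obtain ⟨E, hE1, hE2⟩ := hp lv (fun ξ => (h1 ξ).1) U hU2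
    (fun θ τ c => VV F τ (𝒳 (e θ)) c δ)
    (fun _ _ _ _ h1 h2 => h1.mono h2 subset_rfl subset_rfl le_rfl) hU3
  obtain ⟨ξ, z, hz, hz'⟩ := ind_seq (F := F) (N := J) (S := OT β.ord.cof) (Θ := OT β)
    (fun _ => sgn (i.comp P) (δ - δ / 4)) (fun θ => ballOf (N (e θ))) lv E
    (fun θ ξ => VV.split (h1 _).2.1 hC (i.comp P) _ (hE1 θ ξ).2 (by positivity))
    (fun x => by
      obtain ⟨ξ₀, h0⟩ := h2 x
      exact ⟨ξ₀, h0 _ le_rfl, (mk_OT _).trans_lt (h1 _).2.2.2, (h1 _).2.1.aleph0_lt⟩)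
  choose pl hp1 hp2 hp3 using fun x θ => hS _ _ (hz x θ)
  let w₀ : OT β → Γ' → ℝ := fun x q => if h : ∃ θ, q ∈ W (e θ) then pl x h.choose q else 0
  have hw₀ : ∀ x q, |w₀ x q| ≤ 1 := fun x q => by
    simp only [w₀]
    split_ifs
    · exact (B.abs_le _ _).trans (hp2 _ _)
    · simp
  let w : OT β → B Γ' := fun x => mkB (w₀ x) 1 (hw₀ x)
  have hw : ∀ x, ‖w x‖ ≤ 1 := fun x => B.norm_le zero_le_one (hw₀ x)
  have hw1 : ∀ x θ, trunc (W (e θ)) (w x) = pl x θ := fun x θ => B.ext' fun q => by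
    by_cases hq : q ∈ W (e θ)
    · have h : ∃ θ', q ∈ W (e θ') := ⟨θ, hq⟩
      have h' : h.choose = θ := by
        by_contra hne
        exact Set.disjoint_left.mp (hW (e.injective.ne hne)) h.choose_spec hq
      rw [trunc_of_mem _ hq]
      simp only [w, w₀, mkB_apply, dif_pos h, h']
    · rw [trunc_of_not_mem _ hq, hp1 x θ q hq]
  have hw2 : ∀ x θ, Supp (⋃ η ∈ range e \ {e θ}, W η) (trunc (W (e θ))ᶜ (w x)) := by
    intro x θ q hq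
    by_cases h3 : q ∈ W (e θ)
    · exact trunc_of_not_mem _ (not_not.mpr h3)
    · rw [trunc_of_mem _ h3]
      refine dif_neg ?_
      rintro ⟨θ', h'⟩
      exact hq (mem_biUnion (x := e θ') ⟨⟨θ', rfl⟩, fun h4 => h3 (mem_singleton_iff.mp h4 ▸ h')⟩ h')
  refine (l1_of_cells i hi (fun x => S (w x)) (r := δ / 2) fun s σ => ?_).emb (C := ‖S‖)
    (by positivity) fun x => (S.le_opNorm _).trans
      (mul_le_of_le_one_right (norm_nonneg _) (hw x))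
  rcases s.eq_empty_or_nonempty with rfl | hs
  · obtain ⟨t, -⟩ := (hU2 (Classical.arbitrary J)).nonempty
    exact ⟨t, by simp⟩
  obtain ⟨θ, hθ'⟩ := hE2 (s.image ξ) (hs.image _)
  obtain ⟨t, ht1, ht⟩ := (hz' θ σ (s.image ξ) s (fun x hx => Finset.mem_image_of_mem _ hx)
    hθ').nonempty
  refine ⟨t, fun x hx => ?_⟩
  have h5 : t ∈ sgn (i.comp P) (δ - δ / 4) (z x θ) (σ x) := mem_iInter₂.mp ht x hx
  have h6 := Glue.not_big (h𝔉' θ _ (hU1 θ ((hE1 θ (ξ x)).1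
    (mem_iInter₂.mp ht1 _ (Finset.mem_image_of_mem _ hx))))) (hw2 x θ)
    ((norm_trunc_le _ _).trans (hw x))
  have h7 : i (S (w x)) t = i (P (z x θ)) t + i (S (trunc (W (e θ))ᶜ (w x))) t := by
    rw [← hp3, ← hw1, ← B.add_apply, ← map_add, ← map_add, trunc_add_compl]
  have h8 : |i (S (trunc (W (e θ))ᶜ (w x))) t| ≤ δ / 4 * 1 := h6
  simp only [sgn, mem_ofPred_eq, ContinuousLinearMap.comp_apply] at h5
  rw [h7]
  have h9 := abs_le.mp h8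
  split_ifs at h5 ⊢ <;> linarith [h9.1, h9.2]

/-- a small family to which every positive set reduces -/
theorem exists_red (hG : Good κ τ) (hC : CC F κ) (w : Set Γ → Set (Set Γ))
    (hw1 : ∀ p, #(w p) < τ) (hw2 : ∀ p, ∀ U ∈ w p, Pos F U) :
    ∃ S : Set (Set Γ), #S < τ ∧ (∀ U ∈ S, Pos F U) ∧ (∀ p ∈ S, w p ⊆ S) ∧
      ∀ V, Pos F V → ∃ U ∈ S, ∀ U' ∈ S, U' ⊆ U → Pos F (U' ∩ V) := by
  classical
  have hv : ∀ A : Set (Set Γ), ∃ 𝒱 : Set (Set Γ), #𝒱 ≤ 1 ∧ (∀ U ∈ 𝒱, Pos F U) ∧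
      ∀ V, Pos F V → (∀ a ∈ A, ¬ Pos F (V ∩ a)) → ∃ U ∈ 𝒱, ∀ a ∈ A, ¬ Pos F (U ∩ a) := by
    intro A
    by_cases h : ∃ V, Pos F V ∧ ∀ a ∈ A, ¬ Pos F (V ∩ a)
    · obtain ⟨V, h1, h2⟩ := h
      exact ⟨{V}, by simp, by simpa using h1, fun _ _ _ => ⟨V, rfl, h2⟩⟩
    · exact ⟨∅, by simp, by simp, fun V h1 h2 => absurd ⟨V, h1, h2⟩ h⟩
  choose v hv1 hv2 hv3 using hv
  obtain ⟨S, -, hS1, hS2⟩ := hG.exists_closed (fun A => v A ∪ ⋃ p : A, w p) (fun A hA =>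
    (mk_union_le _ _).trans_lt (add_lt_of_lt hG.reg.aleph0_le
      ((hv1 A).trans_lt (one_lt_aleph0.trans hG.aleph0_lt))
      ((card_iUnion_lt_iff_forall_of_isRegular hG.reg (hA.trans hG.lt)).mpr fun p => hw1 _)))
    ∅ (by simpa using hG.reg.pos)
  refine ⟨{U ∈ S | Pos F U}, (mk_le_mk_of_subset (sep_subset _ _)).trans_lt hS1,
    fun U hU => hU.2, fun p hp U hU => ⟨hS2 {p} (by simpa using hp.1)
      (by simpa using one_lt_aleph0.trans hG.unc) (Or.inr (mem_iUnion.mpr ⟨⟨p, rfl⟩, hU⟩)),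
      hw2 p U hU⟩, fun V hV => ?_⟩
  obtain ⟨𝒜, h1, h2, h3⟩ := exists_maxAC (F := F) {U ∈ S | Pos F U ∧ ¬ Pos F (U ∩ V)}
    fun U hU => hU.2.1
  obtain ⟨U, hU, hU'⟩ := hv3 𝒜 V hV fun a ha => by
    rw [inter_comm]; exact (h1 ha).2.2
  have hUS := hS2 𝒜 (fun a ha => (h1 ha).1) (hC 𝒜 h2) (Or.inl hU)
  refine ⟨U, ⟨hUS, hv2 𝒜 U hU⟩, fun U' hU'S hU'U => ?_⟩
  by_contra hc
  obtain ⟨a, ha, hpa⟩ := h3 U' ⟨hU'S.1, hU'S.2, hc⟩
  exact hU' a ha (hpa.mono (inter_subset_inter_left _ hU'U))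

/-- small families are met simultaneously at every level -/
theorem meet (hG : Good κ τ) (hτ : τ ≤ β.ord.cof) (hβ : ℵ₀ < β) (hC : CC F κ)
    (D : Cardinal.{0} → Set Γ → Prop) (hm : ∀ τ τ' c, D τ c → τ' ≤ τ → D τ' c)
    (hD : ∀ ρ < β, ∃ E, Pos F E ∧ D ρ E) :
    ∃ p, Pos F p ∧ ∀ ρ < β, ∀ 𝒰 : Set (Set Γ), #𝒰 < τ → (∀ U ∈ 𝒰, Pos F U) →
      ∃ E, D ρ E ∧ ∀ U ∈ 𝒰, U ⊆ p → Pos F (U ∩ E) := by
  by_contra hcon
  push Not at hcon
  have h : ∀ p, ∃ ρ < β, ∃ 𝒰 : Set (Set Γ), #𝒰 < τ ∧ (∀ U ∈ 𝒰, Pos F U) ∧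
      (Pos F p → ∀ E, D ρ E → ∃ U ∈ 𝒰, U ⊆ p ∧ ¬ Pos F (U ∩ E)) := fun p => by
    by_cases hp : Pos F p
    · obtain ⟨ρ, h1, 𝒰, h2, h3, h4⟩ := hcon p hp
      exact ⟨ρ, h1, 𝒰, h2, h3, fun _ => h4⟩
    · exact ⟨0, aleph0_pos.trans hβ, ∅, by simpa using hG.reg.pos, by simp, fun h => absurd h hp⟩
  choose ρ h1 w h2 h3 h4 using h
  obtain ⟨S, h5, h6, h7, h8⟩ := exists_red hG hC w h2 h3
  obtain ⟨δ, h9, -, h10⟩ := exists_bound_of_cof (fun p : S => ρ p) hβ (h5.trans_le hτ)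
    fun p => h1 p
  obtain ⟨E, h11, h12⟩ := hD δ h9
  obtain ⟨U, hU, h13⟩ := h8 E h11
  obtain ⟨U', h14, h15, h16⟩ := h4 U (h6 U hU) E (hm _ _ _ h12 (h10 ⟨U, hU⟩))
  exact h16 (h13 U' (h7 U hU h14) h15)

/-- the cofinality is the successor of a singular cardinal -/
theorem piecesOK_sing {δ : Cardinal.{0}} (hB : Big κ δ) (hcof : β.ord.cof = Order.succ δ)
    (hβ : ℵ₀ < β) (hC : CC F κ) {J : Type} (hJ : δ.ord.cof ≤ #J) : PiecesOK F β J := by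
  classical
  intro lv hlv U hU D hm hD
  have h0 := hB.aleph0_lt
  have hne := hB.nonempty
  have hne' : Nonempty (OT δ.ord.cof) :=
    mk_ne_zero_iff.mp (by rw [mk_OT]; exact (isRegular_cof_ord h0.le).ne_zero)
  obtain ⟨g, hg⟩ := exists_cofinal_fun δ (OT δ.ord.cof) (mk_OT _)
  obtain ⟨e⟩ := (Cardinal.le_def (OT δ.ord.cof) J).mp ((mk_OT _).le.trans hJ)
  let x : J → OT δ := fun j => g (Function.invFun e j)
  have hx : ∀ y, ∃ j, y ≤ x j := fun y => by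
    obtain ⟨ξ, hξ⟩ := hg y
    exact ⟨e ξ, by simpa only [x, Function.leftInverse_invFun e.injective ξ] using hξ⟩
  choose τ h1 h2 h3 using fun j => hB.exists_good (mk_Iic_OT h0.le (x j))
  have hi : ∀ ξ : OT β.ord.cof, Nonempty (Iio ξ ↪ OT δ) := fun ξ =>
    (Cardinal.le_def _ _).mp ((Order.le_of_lt_succ ((mk_Iio_OT ξ).trans_eq hcof)).trans
      (mk_OT δ).ge)
  have i := fun ξ => (hi ξ).some
  choose p hp1 hp2 using fun j => meet (h3 j) (((h1 j).trans (Order.lt_succ δ)).le.trans hcof.ge)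
    hβ hC (fun ρ E => E ⊆ U j ∧ D j ρ E) (fun _ _ _ h h' => ⟨h.1, hm _ _ _ _ h.2 h'⟩)
    fun ρ hρ => by
      obtain ⟨E, h4, h5, h6⟩ := hD j ρ hρ _ subset_rfl (hU j)
      exact ⟨E, h5, h4, h6⟩
  choose E hE using fun j => exists_rec (Θ := OT β.ord.cof) (α := Set Γ)
    (fun ξ f E => (E ⊆ U j ∧ D j (lv ξ) E) ∧ ∀ s : Finset {η : Iio ξ // i ξ η ≤ x j},
      Pos F (p j ∩ ⋂ η ∈ s, f η.1) → Pos F ((p j ∩ ⋂ η ∈ s, f η.1) ∩ E)) fun ξ f => by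
    obtain ⟨E, h4, h5⟩ := hp2 j _ (hlv ξ) ({V | Pos F V} ∩
      range fun s : Finset {η : Iio ξ // i ξ η ≤ x j} => p j ∩ ⋂ η ∈ s, f η.1)
      ((mk_le_mk_of_subset inter_subset_right).trans_lt (mk_range_le.trans_lt
        (mk_finset_lt (h3 j).aleph0_lt (lt_of_le_of_lt (mk_le_of_injective
          (f := fun η => (⟨i ξ η.1, η.2⟩ : Iic (x j))) fun η η' h =>
            Subtype.ext ((i ξ).injective (congrArg Subtype.val h))) (h2 j))))) fun V hV => hV.1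
    exact ⟨E, h4, fun s hs => h5 _ ⟨hs, s, rfl⟩ inter_subset_left⟩
  refine ⟨E, fun j ξ => (hE j ξ).1, fun T _ => ?_⟩
  obtain ⟨y, hy⟩ := ((T ×ˢ T).image fun q : OT β.ord.cof × OT β.ord.cof =>
    if h : q.1 < q.2 then i q.2 ⟨q.1, h⟩ else Classical.arbitrary _).exists_le
  obtain ⟨j, hj⟩ := hx y
  have key : ∀ s : Finset (OT β.ord.cof), s ⊆ T → Pos F (p j ∩ ⋂ ξ ∈ s, E j ξ) := fun s => by
    induction s using Finset.induction_on_max with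
    | empty => simpa using hp1 j
    | insert m s hm ih =>
      intro hs
      have h4 : ∀ η : s, i m ⟨η.1, hm _ η.2⟩ ≤ x j := fun η => by
        have := hy _ (Finset.mem_image_of_mem _ (Finset.mk_mem_product
          (hs (Finset.mem_insert_of_mem η.2)) (hs (Finset.mem_insert_self _ _))))
        rw [dif_pos (hm _ η.2)] at this
        exact this.trans hj
      let u : Finset {η : Iio m // i m η ≤ x j} :=
        s.attach.image fun η => ⟨⟨η.1, hm _ η.2⟩, h4 η⟩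
      have e : (⋂ η ∈ u, E j η.1) = ⋂ ξ ∈ s, E j ξ := by
        ext t
        simp only [u, mem_iInter, Finset.mem_image, Finset.mem_attach, true_and]
        exact ⟨fun h x hx => h _ ⟨⟨x, hx⟩, rfl⟩, by rintro h _ ⟨x, rfl⟩; exact h x.1 x.2⟩
      have h5 := (hE j m).2 u
      rw [e] at h5
      refine (h5 (ih ((Finset.subset_insert _ _).trans hs))).mono fun t ht => ⟨ht.1.1, ?_⟩
      rw [Finset.set_biInter_insert]
      exact ⟨ht.2, ht.1.2⟩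
  exact ⟨j, (key T subset_rfl).mono inter_subset_right⟩

/-- the functions with small support have a small image -/
theorem t3R (hB : Big κ β) (hκ : κ ≤ β.ord.cof) (hC : CC F κ) (i : X →L[ℝ] B Γ)
    (hi : ∀ x, ‖i x‖ = ‖x‖) (P : B Γ →L[ℝ] X) (hK : #(Ker F i) < β) :
    #(P '' {g | ∃ W, cc P W < β ∧ Supp W g}) < β := by
  have h0 := hB.aleph0_lt
  obtain ⟨𝒱, h1, h2, h3⟩ := nested hB.regκ hB.unc hC i hi P {W | cc P W < β}
  obtain ⟨δ, hδ, hδ0, hδ1⟩ := exists_bound_of_cof (fun W : 𝒱 => cc P W) h0 (h2.trans_le hκ)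
    fun W => h1 W.2
  refine (count_le P _ 𝒱 δ (fun s => ?_) (Ker F i) ?_).trans_lt
    (mul_lt_of_lt h0.le (hB.power_lt hδ (mk_finset_lt hB.unc h2)) hK)
  · refine (mk_trunc_image_le P Set.univ _ _ fun g _ t ht => absurd trivial ht).trans ?_
    rw [univ_inter]
    exact cc_biUnion_le P s _ hδ0 fun V _ => hδ1 V
  · rintro g ⟨W, hW, hg⟩ g' ⟨W', hW', hg'⟩ h4
    exact h3 (W ∪ W') ((cc_union P _ _).trans_lt (mul_lt_of_lt h0.le hW hW')) _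
      ⟨(suppSub _).sub_mem (hg.mono subset_union_left) (hg'.mono subset_union_right), h4⟩

theorem ker_smallF (hB : Big κ β) (hκ : κ ≤ β.ord.cof) (hC : CC F κ) (i : X →L[ℝ] B Γ)
    (hi : ∀ x, ‖i x‖ = ‖x‖) (P : B Γ →L[ℝ] X) (hP : ∀ x, P (i x) = x) (hK : #(Ker F i) < β) :
    #(Ker (smallF P β hB.aleph0_lt.le) i) < β :=
  (mk_ker_le i P hP (P '' {g | ∃ W, cc P W < β ∧ Supp W g}) fun W g hW hg => ⟨g, ⟨W, not_le.mp fun h =>
    hW ((pos_smallF P hB.aleph0_lt.le _).mpr h), hg⟩, rfl⟩).trans_lt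
    (hB.power_lt (t3R hB hκ hC i hi P hK) hB.unc)

/-- an antichain of large sets gives large triangular subspaces -/
theorem tri_large (hB : Big κ β) (hκ : κ ≤ β.ord.cof) (P : B Γ →L[ℝ] X) {ν : Cardinal.{0}}
    (hν : ν ≤ κ) {𝒜 : Set (Set Γ)} (h𝒜 : AC (smallF P β hB.aleph0_lt.le) 𝒜) (hc : ν ≤ #𝒜) :
    ∃ V : OT ν → Set Γ, ∀ j, β ≤ #(P '' triSub P (V j) (V '' Iio j)) := by
  have h0 := hB.aleph0_lt
  obtain ⟨e⟩ := (Cardinal.le_def (OT ν) 𝒜).mp ((mk_OT ν).le.trans hc)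
  refine ⟨fun j => (e j).1, fun j => ?_⟩
  have h2 : #((fun j => (e j).1) '' Iio j) < κ :=
    mk_image_le.trans_lt ((mk_Iio_OT j).trans_le hν)
  obtain ⟨δ, hδ, hδ0, hδ1⟩ := exists_bound_of_cof
    (fun W : (fun j => (e j).1) '' Iio j => cc P ((e j).1 ∩ W)) h0 (h2.trans_le hκ) (by
      rintro ⟨_, j', hj', rfl⟩
      exact not_le.mp fun h => h𝒜.2 (e j).2 (e j').2
        (fun h' => hj'.ne' (e.injective (Subtype.ext h'))) ((pos_smallF P h0.le _).mpr h))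
  exact le_of_le_mul h0.le (hB.power_lt hδ (mk_finset_lt hB.unc h2))
    (((pos_smallF P h0.le _).mp (h𝒜.1 _ (e j).2)).trans
      (cc_le_triSub P _ _ hδ0 fun W hW => hδ1 ⟨W, hW⟩))

/-- triangular pieces -/
theorem t6tri [CompleteSpace X] (hX : Inj X) {ν : Cardinal.{0}} (hν : ℵ₀ < ν.ord.cof)
    (hB : Big κ β) (hκ : κ ≤ β.ord.cof) (hC : CC F κ) (i : X →L[ℝ] B Γ) (hi : ∀ x, ‖i x‖ = ‖x‖)
    (P : B Γ →L[ℝ] X) (hK : #(Ker F i) < β) (V : OT ν → Set Γ)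
    (hV : ∀ j, β ≤ #(P '' triSub P (V j) (V '' Iio j)))
    (hp : ∀ J : Type, ν ≤ #J → PiecesOK F β J) : Emb (L1 (OT β)) X := by
  obtain ⟨S, hS⟩ := exists_place hX P V
  choose r hr hr' using fun j => hB.exists_VV hC i P hK (hB.unc.trans_le hκ) _ (hV j)
  obtain ⟨δ, hδ, hJ⟩ := exists_unif hν (mk_OT ν).ge r hr
  have : Infinite {j | δ ≤ r j} :=
    infinite_iff.mpr ((hν.trans_le (Ordinal.cof_ord_le ν)).le.trans hJ)
  refine t6gen hB hκ hC i hi P hK (J := {j | δ ≤ r j}) S (fun j => {q | q.1 = j.1})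
    (fun j j' hne => Set.disjoint_left.mpr fun q h1 h2 => hne (Subtype.ext (h1.symm.trans h2)))
    (fun j => triSub P (V j) (V '' Iio j.1)) (fun j g hg => ⟨place j.1 g, fun q hq => ?_,
      B.norm_le zero_le_one fun q => ?_, hS _ _ hg.1⟩) hδ (fun j τ hτ => ?_) (hp _ hJ)
  · exact if_neg hq
  · simp only [place, mkB_apply]
    split_ifs
    · exact (B.abs_le _ _).trans hg.2
    · simp
  · obtain ⟨c, h1, h2⟩ := hr' j.1 τ hτ
    exact ⟨c, h1, h2.mono le_rfl subset_rfl subset_rfl j.2⟩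

/-- the cofinality is the successor of a singular cardinal of cofinality below `κ` -/
theorem t8 [CompleteSpace X] (hX : Inj X) {δ : Cardinal.{0}} (hB : Big κ β) (hB' : Big κ δ)
    (hcof : β.ord.cof = Order.succ δ) (hδ : δ.ord.cof < κ) (h1 : ℵ₁ < κ) (hC : CC F κ)
    (i : X →L[ℝ] B Γ) (hi : ∀ x, ‖i x‖ = ‖x‖) (P : B Γ →L[ℝ] X) (hP : ∀ x, P (i x) = x)
    (hK : #(Ker F i) < β) :
    Emb (L1 (OT β)) X ∨ ∃ F' : Filter Γ, ∃ μ < κ, CC F' μ ∧ #(Ker F' i) < β := by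
  have hκ : κ ≤ β.ord.cof := (hB'.lt.trans (Order.lt_succ δ)).le.trans hcof.ge
  by_cases hA : CC (smallF P β hB.aleph0_lt.le) (max δ.ord.cof ℵ₁)
  · exact Or.inr ⟨_, _, max_lt hδ h1, hA, ker_smallF hB hκ hC i hi P hP hK⟩
  left
  unfold CC at hA
  push Not at hA
  obtain ⟨𝒜, h𝒜, hc⟩ := hA
  obtain ⟨V, hV⟩ := tri_large hB hκ P (max_lt hδ h1).le h𝒜 hc
  refine t6tri hX ?_ hB hκ hC i hi P hK V hV fun J hJ =>
    piecesOK_sing hB' hcof hB.aleph0_lt hC ((le_max_left _ _).trans hJ)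
  rcases le_total δ.ord.cof ℵ₁ with h | h
  · rw [max_eq_right h, isRegular_aleph_one.cof_ord]; exact aleph0_lt_aleph_one
  · rw [max_eq_left h, (isRegular_cof_ord hB'.aleph0_lt.le).cof_ord]
    exact aleph0_lt_aleph_one.trans_le h

end Pool.Agent.Lib.MP_4a9e55_an
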