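import Pool.Agent.Lib.MP_4a9e55_an.T2

set_option autoImplicit false

open Cardinal Set Filter
open scoped ENNReal

namespace Pool.Agent.Lib.MP_4a9e55_an

variable {Γ : Type} {F : Filter Γ} {κ τ : Cardinal.{0}}
variable {X : Type} [NormedAddCommGroup X] [NormedSpace ℝ X]

/-- triangular families have bounded sums -/
theorem tri_bound {Θ : Type} [LinearOrder Θ] (P : B Γ →L[ℝ] X) (V : Θ → Set Γ) (u : Θ → B Γ)
    (Ξ : Finset Θ) {C : ℝ} (hC : 0 ≤ C) (hs : ∀ ξ ∈ Ξ, Supp (V ξ) (u ξ))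
    (hz : ∀ ξ ∈ Ξ, P (trunc (⋃ η ∈ Ξ.filter (· < ξ), V η) (u ξ)) = 0)
    (hn : ∀ ξ ∈ Ξ, ‖u ξ‖ ≤ C) : ‖∑ ξ ∈ Ξ, P (u ξ)‖ ≤ ‖P‖ * C := by
  classical
  let u' : Θ → B Γ := fun ξ => trunc (⋃ η ∈ Ξ.filter (· < ξ), V η)ᶜ (u ξ)
  have h1 : ∑ ξ ∈ Ξ, P (u ξ) = P (∑ ξ ∈ Ξ, u' ξ) := by
    rw [map_sum]
    refine Finset.sum_congr rfl fun ξ hξ => ?_
    conv_lhs => rw [← trunc_add_compl (⋃ η ∈ Ξ.filter (· < ξ), V η) (u ξ), map_add, hz ξ hξ,
      zero_add]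
  rw [h1]
  refine (P.le_opNorm _).trans (mul_le_mul_of_nonneg_left (B.norm_le hC fun t => ?_)
    (norm_nonneg _))
  rw [B.sum_apply]
  by_cases h : (Ξ.filter fun ξ => t ∈ V ξ).Nonempty
  · obtain ⟨ξ₀, h0, hmin⟩ := (Ξ.filter fun ξ => t ∈ V ξ).exists_min_image id h
    obtain ⟨h0, h0'⟩ := Finset.mem_filter.mp h0
    rw [Finset.sum_eq_single_of_mem ξ₀ h0]
    · exact (abs_trunc_le _ _ t).trans ((B.abs_le _ t).trans (hn ξ₀ h0))
    · intro ξ hξ hne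
      by_cases ht : t ∈ V ξ
      · have hlt : ξ₀ < ξ := lt_of_le_of_ne (hmin ξ (Finset.mem_filter.mpr ⟨hξ, ht⟩)) hne.symm
        refine trunc_of_not_mem _ (not_not.mpr ?_)
        exact mem_biUnion (s := ↑(Ξ.filter (· < ξ))) (Finset.mem_filter.mpr ⟨h0, hlt⟩) h0'
      · exact (hs ξ hξ).trunc _ t ht
  · rw [Finset.sum_eq_zero, abs_zero]
    · exact hC
    · intro ξ hξ
      exact (hs ξ hξ).trunc _ t fun ht => h ⟨ξ, Finset.mem_filter.mpr ⟨hξ, ht⟩⟩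

/-- functions supported in `W` -/
def suppSub (W : Set Γ) : Submodule ℝ (B Γ) where
  carrier := {g | Supp W g}
  add_mem' := fun {g h} hg hh t ht => by simp [hg t ht, hh t ht]
  zero_mem' := fun _ _ => rfl
  smul_mem' := fun c g hg t ht => by simp [hg t ht]

/-- functions supported in `W` whose parts on finite unions from `𝒱` are killed by `P` -/
def triSub (P : B Γ →L[ℝ] X) (W : Set Γ) (𝒱 : Set (Set Γ)) : Submodule ℝ (B Γ) where
  carrier := {g | Supp W g ∧ ∀ s : Finset 𝒱, P (trunc (⋃ V ∈ s, V.1) g) = 0}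
  add_mem' := fun {g h} hg hh => ⟨(suppSub W).add_mem hg.1 hh.1, fun s => by
    rw [← truncL_apply, map_add, map_add, truncL_apply, truncL_apply, hg.2 s, hh.2 s, add_zero]⟩
  zero_mem' := ⟨fun _ _ => rfl, fun s => by rw [← truncL_apply, map_zero, map_zero]⟩
  smul_mem' := fun c g hg => ⟨(suppSub W).smul_mem c hg.1, fun s => by
    rw [← truncL_apply, map_smul, map_smul, truncL_apply, hg.2 s, smul_zero]⟩

theorem triSub_bound {Θ : Type} [LinearOrder Θ] (P : B Γ →L[ℝ] X) (V : Θ → Set Γ) (u : Θ → B Γ)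
    (Ξ : Finset Θ) {C : ℝ} (hC : 0 ≤ C) (hu : ∀ ξ ∈ Ξ, u ξ ∈ triSub P (V ξ) (V '' Iio ξ))
    (hn : ∀ ξ ∈ Ξ, ‖u ξ‖ ≤ C) : ‖∑ ξ ∈ Ξ, P (u ξ)‖ ≤ ‖P‖ * C := by
  classical
  refine tri_bound P V u Ξ hC (fun ξ hξ => (hu ξ hξ).1) (fun ξ hξ => ?_) hn
  have := (hu ξ hξ).2 ((Ξ.filter (· < ξ)).attach.image fun η =>
    ⟨V η.1, η.1, (Finset.mem_filter.mp η.2).2, rfl⟩)
  have e : (⋃ η ∈ Ξ.filter (· < ξ), V η) = ⋃ W ∈ ((Ξ.filter (· < ξ)).attach.image fun η =>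
      (⟨V η.1, η.1, (Finset.mem_filter.mp η.2).2, rfl⟩ : V '' Iio ξ)), W.1 := by
    ext t
    simp only [mem_iUnion, Finset.mem_image, Finset.mem_attach, true_and, exists_prop]
    constructor
    · rintro ⟨η, hη, ht⟩
      exact ⟨_, ⟨⟨η, hη⟩, rfl⟩, ht⟩
    · rintro ⟨_, ⟨η, rfl⟩, ht⟩
      exact ⟨η.1, η.2, ht⟩
  rw [e]
  exact this

/-- size of the image of the functions supported in `W` -/
def cc (P : B Γ →L[ℝ] X) (W : Set Γ) : Cardinal.{0} := #(P '' suppSub W)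

theorem cc_mono (P : B Γ →L[ℝ] X) {V W : Set Γ} (h : V ⊆ W) : cc P V ≤ cc P W :=
  mk_le_mk_of_subset (image_mono fun _ hg => Supp.mono hg h)

theorem cc_empty (P : B Γ →L[ℝ] X) : cc P ∅ ≤ 1 := by
  have : P '' suppSub (∅ : Set Γ) ⊆ {0} := by
    rintro _ ⟨g, hg, rfl⟩
    have : g = 0 := B.ext' fun t => hg t (notMem_empty t)
    simp [this]
  exact (mk_le_mk_of_subset this).trans (by simp)

theorem cc_union (P : B Γ →L[ℝ] X) (V W : Set Γ) : cc P (V ∪ W) ≤ cc P V * cc P W := by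
  have : P '' suppSub (V ∪ W) ⊆ range fun p : (P '' suppSub V) × (P '' suppSub W) =>
      p.1.1 + p.2.1 := by
    rintro _ ⟨g, hg, rfl⟩
    refine ⟨(⟨_, trunc V g, supp_trunc V g, rfl⟩, ⟨_, trunc Vᶜ g, fun t ht => ?_, rfl⟩), ?_⟩
    · by_cases h : t ∈ V
      · exact trunc_of_not_mem g (not_not.mpr h)
      · exact Supp.trunc hg _ t fun h' => h'.elim h ht
    · simp only [← map_add, trunc_add_compl]
  refine (mk_le_mk_of_subset this).trans (mk_range_le.trans ?_)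
  simp [cc]

theorem cc_biUnion_le (P : B Γ →L[ℝ] X) {ι : Type} (s : Finset ι) (V : ι → Set Γ)
    {δ : Cardinal.{0}} (hδ : ℵ₀ ≤ δ) (h : ∀ i ∈ s, cc P (V i) ≤ δ) : cc P (⋃ i ∈ s, V i) ≤ δ := by
  classical
  induction s using Finset.induction_on with
  | empty => simpa using (cc_empty P).trans (one_le_aleph0.trans hδ)
  | insert a s ha ih =>
    rw [Finset.set_biUnion_insert]
    refine (cc_union P _ _).trans ((mul_le_mul' (h a (Finset.mem_insert_self _ _))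
      (ih fun i hi => h i (Finset.mem_insert_of_mem hi))).trans (mul_eq_self hδ).le)

/-- counting by the tuple of truncated images -/
theorem count_le (P : B Γ →L[ℝ] X) (G : Set (B Γ)) (𝒱 : Set (Set Γ)) (δ : Cardinal.{0})
    (hδ : ∀ s : Finset 𝒱, #((fun g => P (trunc (⋃ V ∈ s, V.1) g)) '' G) ≤ δ) (D : Set X)
    (hD : ∀ g ∈ G, ∀ g' ∈ G, (∀ s : Finset 𝒱, P (trunc (⋃ V ∈ s, V.1) (g - g')) = 0) →
      P (g - g') ∈ D) : #(P '' G) ≤ δ ^ #(Finset 𝒱) * #D := by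
  let tup : G → ∀ s : Finset 𝒱, (fun g => P (trunc (⋃ V ∈ s, V.1) g)) '' G :=
    fun g s => ⟨_, g, g.2, rfl⟩
  have h1 : #(range tup) ≤ δ ^ #(Finset 𝒱) := by
    refine (mk_set_le _).trans ?_
    rw [mk_pi]
    refine (prod_le_prod _ (fun _ : Finset 𝒱 => δ) hδ).trans ?_
    simp
  choose rep hrep using fun a : range tup => a.2
  have h2 : P '' G ⊆ range fun p : range tup × D => P (rep p.1) + p.2.1 := by
    rintro _ ⟨g, hg, rfl⟩
    refine ⟨(⟨tup ⟨g, hg⟩, ⟨g, hg⟩, rfl⟩, ⟨_, hD g hg _ (rep ⟨_, ⟨g, hg⟩, rfl⟩).2 fun s => ?_⟩),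
      by simp⟩
    have := congrArg Subtype.val (congrFun (hrep ⟨_, ⟨g, hg⟩, rfl⟩) s)
    simp only [tup] at this
    rw [← truncL_apply, map_sub, map_sub, truncL_apply, truncL_apply, this, sub_self]
  refine (mk_le_mk_of_subset h2).trans (mk_range_le.trans ?_)
  simp only [mk_prod, lift_id]
  exact mul_le_mul' h1 le_rfl

theorem mk_finset_lt {α : Type} {γ : Cardinal.{0}} (hγ : ℵ₀ < γ) (h : #α < γ) :
    #(Finset α) < γ := by
  rcases finite_or_infinite α with hα | hα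
  · have := Fintype.ofFinite α
    exact (lt_aleph0_of_finite _).trans hγ
  · rwa [mk_finset_of_infinite]

theorem mk_trunc_image_le (P : B Γ →L[ℝ] X) (W A : Set Γ) (G : Set (B Γ))
    (hG : ∀ g ∈ G, Supp W g) : #((fun g => P (trunc A g)) '' G) ≤ cc P (W ∩ A) := by
  refine mk_le_mk_of_subset ?_
  rintro _ ⟨g, hg, rfl⟩
  refine ⟨_, fun t ht => ?_, rfl⟩
  by_cases h : t ∈ A
  · exact (hG g hg).trunc _ t fun h' => ht ⟨h', h⟩
  · exact trunc_of_not_mem g h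

theorem cc_le_triSub (P : B Γ →L[ℝ] X) (W : Set Γ) (𝒱 : Set (Set Γ)) {δ : Cardinal.{0}}
    (hδ : ℵ₀ ≤ δ) (h : ∀ V ∈ 𝒱, cc P (W ∩ V) ≤ δ) :
    cc P W ≤ δ ^ #(Finset 𝒱) * #(P '' triSub P W 𝒱) := by
  refine count_le P _ 𝒱 δ (fun s => (mk_trunc_image_le P W _ _ fun g hg => hg).trans ?_) _
    fun g hg g' hg' h0 => ⟨_, ⟨(suppSub W).sub_mem hg hg', h0⟩, rfl⟩
  rw [inter_iUnion₂]
  exact cc_biUnion_le P s _ hδ fun V _ => h V V.2

/-- the filter dual to the sets with small image -/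
def smallF (P : B Γ →L[ℝ] X) (β : Cardinal.{0}) (hβ : ℵ₀ ≤ β) : Filter Γ :=
  Filter.comk (fun W => cc P W < β) ((cc_empty P).trans_lt (one_lt_aleph0.trans_le hβ))
    (fun _ ht _ hs => (cc_mono P hs).trans_lt ht)
    (fun _ hs _ ht => (cc_union P _ _).trans_lt (mul_lt_of_lt hβ hs ht))

theorem pos_smallF (P : B Γ →L[ℝ] X) {β : Cardinal.{0}} (hβ : ℵ₀ ≤ β) (W : Set Γ) :
    Pos (smallF P β hβ) W ↔ β ≤ cc P W := by
  rw [← not_lt, ← not_iff_not, not_not, not_pos_iff, smallF, mem_comk, compl_compl]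

theorem norm_sub_trunc_le (i : X →L[ℝ] B Γ) (P : B Γ →L[ℝ] X) (hP : ∀ x, P (i x) = x) (x : X)
    {ε : ℝ} (hε : 0 ≤ ε) : ‖x - P (trunc {t | ε < |i x t|} (i x))‖ ≤ ‖P‖ * ε := by
  have h1 : x - P (trunc {t | ε < |i x t|} (i x)) = P (trunc {t | ε < |i x t|}ᶜ (i x)) := by
    have := congrArg P (trunc_add_compl {t | ε < |i x t|} (i x))
    rw [map_add, hP] at this
    exact sub_eq_of_eq_add' this.symm
  rw [h1]
  refine (P.le_opNorm _).trans (mul_le_mul_of_nonneg_left (B.norm_le hε fun t => ?_)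
    (norm_nonneg _))
  by_cases h : t ∈ {t | ε < |i x t|}ᶜ
  · rw [trunc_of_mem _ h]; exact not_lt.mp h
  · rw [trunc_of_not_mem _ h]; simpa using hε

theorem mk_ker_le (i : X →L[ℝ] B Γ) (P : B Γ →L[ℝ] X) (hP : ∀ x, P (i x) = x) (R : Set X)
    (hR : ∀ W g, ¬ Pos F W → Supp W g → P g ∈ R) : #(Ker F i) ≤ #R ^ ℵ₀ := by
  have hε : ∀ n : ℕ, (0 : ℝ) < 1 / ((n : ℝ) + 1) := fun n => Nat.one_div_pos_of_nat
  let f : Ker F i → ℕ → R := fun x n =>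
    ⟨P (trunc {t | 1 / ((n : ℝ) + 1) < |i x t|} (i x)), hR _ _ (x.2 _ (hε n)) (supp_trunc _ _)⟩
  have hlim : ∀ x : Ker F i, Tendsto (fun n => (f x n : X)) atTop (nhds x) := fun x => by
    rw [tendsto_iff_norm_sub_tendsto_zero]
    have h0 := (tendsto_one_div_add_atTop_nhds_zero_nat (𝕜 := ℝ)).const_mul ‖P‖
    rw [mul_zero] at h0
    refine squeeze_zero (fun n => norm_nonneg _) (fun n => ?_) h0
    rw [norm_sub_rev]
    exact norm_sub_trunc_le i P hP x (hε n).le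
  have hinj : Function.Injective f := fun x y h =>
    Subtype.ext (tendsto_nhds_unique (hlim x) (h ▸ hlim y))
  simpa using mk_le_of_injective hinj

/-- a long triangular family cannot avoid the kernel -/
theorem nested (hκ : κ.IsRegular) (hu : ℵ₀ < κ) (hC : CC F κ) (i : X →L[ℝ] B Γ)
    (hi : ∀ x, ‖i x‖ = ‖x‖) (P : B Γ →L[ℝ] X) (𝒞 : Set (Set Γ)) :
    ∃ 𝒱 ⊆ 𝒞, #𝒱 < κ ∧ ∀ W ∈ 𝒞, ∀ g ∈ triSub P W 𝒱, P g ∈ Ker F i := by
  classical
  by_contra hcon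
  push Not at hcon
  obtain ⟨V, hV⟩ := exists_seq (Θ := OT κ) 𝒞
    (fun _ 𝒱 V => ∃ g ∈ triSub P V 𝒱, P g ∉ Ker F i)
    (fun ξ 𝒱 h1 h2 => hcon 𝒱 h1 (h2.trans_lt (mk_Iio_OT ξ)))
  have hg : ∀ ξ, ∃ n : ℕ, ∃ g ∈ triSub P (V ξ) (V '' Iio ξ), ‖g‖ ≤ n + 1 ∧
      Pos F {t | 1 / ((n : ℝ) + 1) < |i (P g) t|} := fun ξ => by
    obtain ⟨g, hg, hk⟩ := (hV ξ).2
    simp only [Ker, mem_ofPred_eq, not_forall, not_not] at hk
    obtain ⟨ε, hε, hp⟩ := hk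
    obtain ⟨n, hn⟩ := exists_nat_one_div_lt hε
    obtain ⟨m, hm⟩ := exists_nat_ge ‖g‖
    have h1 : (n : ℝ) ≤ (max n m : ℕ) := by exact_mod_cast le_max_left n m
    have h2 : (m : ℝ) ≤ (max n m : ℕ) := by exact_mod_cast le_max_right n m
    refine ⟨max n m, g, hg, by linarith, hp.mono fun t ht => ?_⟩
    exact (Nat.one_div_le_one_div (le_max_left n m)).trans_lt (hn.trans ht)
  choose n g hg1 hg2 hg3 using hg
  obtain ⟨m, hm⟩ := infinite_pigeonhole_card n κ (mk_OT κ).ge hu.le (by simpa [hκ.cof_ord] using hu)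
  obtain ⟨N, hN⟩ := exists_nat_ge (‖P‖ * (m + 1) * (m + 1))
  refine absurd hm (not_le.mpr (hC.bounded_order hu
    (fun ξ : n ⁻¹' {m} => {t | 1 / ((m : ℝ) + 1) < |i (P (g ξ)) t|})
    (fun ξ => by have := hg3 ξ; rwa [show n ξ = m from ξ.2] at this) N fun s t ht => ?_))
  have hm0 : (0 : ℝ) < m + 1 := by positivity
  let e : n ⁻¹' {m} ↪ OT κ := Function.Embedding.subtype _
  let σ : OT κ → ℝ := fun ξ => if 0 ≤ i (P (g ξ)) t then 1 else -1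
  have hb := triSub_bound P V (fun ξ => σ ξ • g ξ) (s.map e) hm0.le
    (fun ξ _ => Submodule.smul_mem _ _ (hg1 ξ)) (fun ξ hξ => by
      obtain ⟨ξ', -, rfl⟩ := Finset.mem_map.mp hξ
      have h1 := hg2 ξ'
      rw [show n ξ' = m from ξ'.2] at h1
      have h2 : ‖σ (e ξ')‖ = 1 := by simp only [σ]; split_ifs <;> simp
      rw [norm_smul, h2, one_mul]
      exact h1)
  have h3 := ((le_abs_self _).trans (B.abs_le (i (∑ ξ ∈ s.map e, P (σ ξ • g ξ))) t)).trans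
    ((hi _).le.trans hb)
  rw [map_sum, B.sum_apply, Finset.sum_map] at h3
  have h4 : ∑ _ξ ∈ s, 1 / ((m : ℝ) + 1) ≤ ∑ ξ ∈ s, i (P (σ (e ξ) • g (e ξ))) t :=
    Finset.sum_le_sum fun ξ hξ => by
      have h5 : 1 / ((m : ℝ) + 1) < |i (P (g (e ξ))) t| := ht ξ hξ
      simp only [map_smul, B.smul_apply, σ]
      split_ifs with h6
      · rw [abs_of_nonneg h6] at h5; linarith
      · rw [abs_of_neg (not_le.mp h6)] at h5; linarith
  rw [Finset.sum_const, nsmul_eq_mul, mul_one_div, div_le_iff₀ hm0] at h4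
  have h7 : (s.card : ℝ) ≤ N := by nlinarith [mul_le_mul_of_nonneg_right h3 hm0.le]
  exact_mod_cast h7

end Pool.Agent.Lib.MP_4a9e55_an
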